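import Mathlib

/-!
# The numbers `d(m,p,q)` of dynamic pole placement, and the case `m = 2` as a ballot sum
-/

set_option autoImplicit false

namespace Pool.Agent.H73.DG

open Finset

/-- The number `d(m,p,q)`: `(-1)^(q(m+1)) (mp+q(m+p))!` times the sum over all `n : Fin m → ℕ` with
sum `q` of the product of the `j - k + (n_j - n_k)(m+p)` over `k < j`, divided by the product of the
`(p + j + n_j (m+p) - 1)!` over `j = 1, ..., m` (here `j : Fin m` stands for `j + 1`). -/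
def degNum (m p q : ℕ) : ℚ :=
  (-1) ^ (q * (m + 1)) * ((m * p + q * (m + p)).factorial : ℚ) *
    ∑ n ∈ Finset.Nat.antidiagonalTuple m q,
      (∏ j : Fin m, ∏ k ∈ Finset.univ.filter (fun k : Fin m => k < j),
        (((j : ℕ) : ℚ) - ((k : ℕ) : ℚ) + ((n j : ℚ) - (n k : ℚ)) * ((m : ℚ) + (p : ℚ)))) /
      (∏ j : Fin m, ((p + (j : ℕ) + n j * (m + p)).factorial : ℚ))

/-- The ballot sum for `m = 2`. -/
def ballot (p q : ℕ) : ℤ :=
  (-1) ^ (q * 3) * ∑ i ∈ range (q + 1),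
    (((2 * p + q * (2 + p)).choose (p + i * (2 + p)) : ℤ)
      - ((2 * p + q * (2 + p)).choose (p + i * (2 + p) - 1) : ℤ))

lemma ballot_term (a b L : ℕ) (h : (a + 1) + (b + 1) = L + 1) :
    (L.factorial : ℚ) * ((((b + 1 : ℕ) : ℚ) - ((a + 1 : ℕ) : ℚ)) /
      (((a + 1).factorial : ℚ) * ((b + 1).factorial : ℚ)))
      = (L.choose (a + 1) : ℚ) - (L.choose a : ℚ) := by
  have h1 : (L.choose (a + 1) : ℚ) = (L.factorial : ℚ) / (((a + 1).factorial : ℚ) * (b.factorial : ℚ)) := by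
    have hL : L = (a + 1) + b := by omega
    rw [hL, Nat.cast_add_choose]
  have h2 : (L.choose a : ℚ) = (L.factorial : ℚ) / ((a.factorial : ℚ) * ((b + 1).factorial : ℚ)) := by
    have hL : L = a + (b + 1) := by omega
    rw [hL, Nat.cast_add_choose]
  rw [h1, h2]
  have ha : (a.factorial : ℚ) ≠ 0 := by exact_mod_cast Nat.factorial_ne_zero a
  have hb : (b.factorial : ℚ) ≠ 0 := by exact_mod_cast Nat.factorial_ne_zero b
  have ha' : ((a : ℚ) + 1) ≠ 0 := by positivity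
  have hb' : ((b : ℚ) + 1) ≠ 0 := by positivity
  rw [Nat.factorial_succ a, Nat.factorial_succ b]
  push_cast
  field_simp
  try ring

lemma degNum_two (p q : ℕ) (hp : 1 ≤ p) : degNum 2 p q = (ballot p q : ℚ) := by
  unfold degNum ballot
  rw [Finset.Nat.antidiagonalTuple_two, Finset.sum_map, Finset.Nat.sum_antidiagonal_eq_sum_range_succ_mk]
  push_cast
  rw [mul_assoc]
  congr 1
  rw [Finset.mul_sum]
  apply Finset.sum_congr rfl
  intro i hi
  have hi' : i ≤ q := by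
    have := Finset.mem_range.mp hi
    omega
  obtain ⟨p', rfl⟩ : ∃ p', p = p' + 1 := ⟨p - 1, by omega⟩
  obtain ⟨r, rfl⟩ : ∃ r, q = i + r := ⟨q - i, by omega⟩
  have key := ballot_term (p' + i * (2 + (p' + 1))) (p' + 1 + r * (2 + (p' + 1)))
    (2 * (p' + 1) + (i + r) * (2 + (p' + 1))) (by ring)
  have e1 : p' + 1 + i * (2 + (p' + 1)) - 1 = p' + i * (2 + (p' + 1)) := by omega
  have e2 : p' + 1 + i * (2 + (p' + 1)) = p' + i * (2 + (p' + 1)) + 1 := by omega
  rw [e1, e2, ← key]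
  have e3 : i + r - i = r := by omega
  have f0 : (Finset.univ.filter (fun k : Fin 2 => k < 0)) = ∅ := by decide
  have f1 : (Finset.univ.filter (fun k : Fin 2 => k < 1)) = {0} := by decide
  rw [e3]
  have g0 : (piFinTwoEquiv fun _ => ℕ).symm (i, r) 0 = i := rfl
  have g1 : (piFinTwoEquiv fun _ => ℕ).symm (i, r) 1 = r := rfl
  simp only [Fin.prod_univ_two, f0, f1, Finset.prod_empty, Finset.prod_singleton, one_mul,
    Function.Embedding.coeFn_mk, g0, g1]
  have k0 : p' + 1 + ((0 : Fin 2) : ℕ) + i * (2 + (p' + 1)) = p' + i * (2 + (p' + 1)) + 1 := by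
    have : ((0 : Fin 2) : ℕ) = 0 := rfl
    omega
  have k1 : p' + 1 + ((1 : Fin 2) : ℕ) + r * (2 + (p' + 1)) = p' + 1 + r * (2 + (p' + 1)) + 1 := by
    have : ((1 : Fin 2) : ℕ) = 1 := rfl
    omega
  rw [k0, k1]
  congr 2
  have z0 : (((0 : Fin 2) : ℕ) : ℚ) = 0 := by norm_num
  have z1 : (((1 : Fin 2) : ℕ) : ℚ) = 1 := by norm_num
  rw [z0, z1]
  push_cast
  ring

end Pool.Agent.H73.DG
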