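import Pool.Agent.H73.DG.Code

/-!
# The BCH bound, and existence from consecutive powers of two
-/

set_option autoImplicit false

namespace Pool.Agent.H73.DG

open Finset Polynomial

section

variable {K : Type*} [Field K] [CharP K 2]

/-- If `w` consecutive residues modulo `a` are powers of two, then a nonempty set of at most `w`
distinct `a`-th roots of unity does not have sum zero. -/
lemma bch {ζ : K} {a b w : ℕ} (ha : 0 < a) (hζ : IsPrimitiveRoot ζ a)
    (hrun : ∀ j, j < w → ∃ i : ℕ, 2 ^ i ≡ b + j [MOD a])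
    (T : Finset ℕ) (hT : T ⊆ range a) (hne : T.Nonempty) (hsum : ∑ t ∈ T, ζ ^ t = 0) :
    w < T.card := by
  classical
  by_contra hcon
  obtain ⟨t0, ht0⟩ := hne
  have hz : ∀ j, j < w → ∑ t ∈ T, (ζ ^ t) ^ (b + j) = 0 := by
    intro j hj
    obtain ⟨i, hi⟩ := hrun j hj
    have h1 := frob (I := T) (J := ∅) hζ.pow_eq_one (by rw [hsum, Finset.sum_empty]) hi
    rw [Finset.sum_empty] at h1
    rw [← h1]
    apply Finset.sum_congr rfl
    intro t _
    rw [← pow_mul, ← pow_mul, mul_comm]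
  let P : K[X] := ∏ t ∈ T.erase t0, (X - C (ζ ^ t))
  have hdeg : P.natDegree = T.card - 1 := by
    show (∏ t ∈ T.erase t0, (X - C (ζ ^ t))).natDegree = T.card - 1
    rw [natDegree_prod_of_monic _ _ (fun t _ => monic_X_sub_C _)]
    simp only [natDegree_X_sub_C]
    rw [← Finset.card_eq_sum_ones, Finset.card_erase_of_mem ht0]
  have hcard : 0 < T.card := Finset.card_pos.mpr ⟨t0, ht0⟩
  have h2 : ∑ t ∈ T, (ζ ^ t) ^ b * P.eval (ζ ^ t) = 0 := by
    have h3 : ∀ t ∈ T, (ζ ^ t) ^ b * P.eval (ζ ^ t)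
        = ∑ j ∈ range (P.natDegree + 1), P.coeff j * (ζ ^ t) ^ (b + j) := by
      intro t _
      rw [eval_eq_sum_range, Finset.mul_sum]
      apply Finset.sum_congr rfl
      intro j _
      rw [pow_add]
      ring
    rw [Finset.sum_congr rfl h3, Finset.sum_comm]
    apply Finset.sum_eq_zero
    intro j hj
    rw [← Finset.mul_sum, hz j, mul_zero]
    have := Finset.mem_range.mp hj
    omega
  have h4 : ∑ t ∈ T, (ζ ^ t) ^ b * P.eval (ζ ^ t) = (ζ ^ t0) ^ b * P.eval (ζ ^ t0) := by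
    apply Finset.sum_eq_single_of_mem t0 ht0
    intro t ht hne'
    have h5 : P.eval (ζ ^ t) = 0 := by
      show (∏ t ∈ T.erase t0, (X - C (ζ ^ t))).eval (ζ ^ t) = 0
      rw [eval_prod]
      apply Finset.prod_eq_zero (Finset.mem_erase.mpr ⟨hne', ht⟩)
      rw [eval_sub, eval_X, eval_C, sub_self]
    rw [h5, mul_zero]
  rw [h4] at h2
  have hζ0 : ζ ≠ 0 := hζ.ne_zero ha.ne'
  rcases mul_eq_zero.mp h2 with h6 | h6
  · exact pow_ne_zero _ (pow_ne_zero _ hζ0) h6
  · have h7 : P.eval (ζ ^ t0) ≠ 0 := by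
      show (∏ t ∈ T.erase t0, (X - C (ζ ^ t))).eval (ζ ^ t0) ≠ 0
      rw [eval_prod, Finset.prod_ne_zero_iff]
      intro t ht
      rw [Finset.mem_erase] at ht
      rw [eval_sub, eval_X, eval_C, sub_ne_zero]
      intro h8
      apply ht.1
      exact (hζ.pow_inj (Finset.mem_range.mp (hT ht0)) (Finset.mem_range.mp (hT ht.2)) h8).symm
    exact h7 h6

end

/-- Let `m + p = a r` be odd, let every residue congruent to one modulo `a` be a power of two modulo
`a r`, and let `2 c` consecutive residues modulo `a` be powers of two modulo `a`. If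
`1 ≤ m ≤ r c`, then `d(m,p,q)` is odd for some `q`. -/
theorem exists_odd_bch (a r b c m p : ℕ) (hodd : Odd (a * r)) (hp1 : 1 ≤ p)
    (h2 : ∀ u : ℕ, ∃ i : ℕ, 2 ^ i ≡ 1 + a * u [MOD a * r])
    (hrun : ∀ j, j < 2 * c → ∃ i : ℕ, 2 ^ i ≡ b + j [MOD a])
    (hm : 1 ≤ m) (hmr : m ≤ r * c) (hp : m + p = a * r) :
    ∃ q, IsOddInt (degNum m p q) := by
  have ha : 0 < a := (Nat.odd_mul.mp hodd).1.pos
  exact exists_odd_code a r c m p hodd hp1 h2
    (fun ζ hζ T hT hne hsum => bch ha hζ hrun T hT hne hsum) hm hmr hp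

end Pool.Agent.H73.DG
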