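import Mathlib

set_option autoImplicit false

namespace Pool.Agent.H73.DG

open Finset

lemma bij_mod {s c r : ℕ} (hs : 1 ≤ s) (hr : r < s) (h : s ∣ c + r * (s - 1)) :
    c = r + c / s * s := by
  have e : c + r * (s - 1) + r = c + r * s := by
    obtain ⟨t, rfl⟩ : ∃ t, s = t + 1 := ⟨s - 1, by omega⟩
    simp only [Nat.add_sub_cancel]
    ring
  have h1 : c % s = r := by
    have h2 : (c + r * (s - 1) + r) % s = r := by
      rw [Nat.add_mod, Nat.mod_eq_zero_of_dvd h, zero_add, Nat.mod_mod, Nat.mod_eq_of_lt hr]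
    rw [e, Nat.add_mul_mod_self_right] at h2
    exact h2
  have h3 := Nat.mod_add_div c s
  rw [h1, mul_comm s] at h3
  exact h3.symm

theorem sum_bij {K : Type*} [AddCommMonoid K] (m p q : ℕ) (hm : 1 ≤ m) (hp : 1 ≤ p)
    (σ : Equiv.Perm (Fin m)) (F : (Fin m → ℕ) → K) :
    (∑ n ∈ Finset.Nat.antidiagonalTuple m q,
      if ∀ i : Fin m, (σ i : ℕ) ≤ p + (i : ℕ) + n i * (m + p) then
        F (fun i => p + (i : ℕ) + n i * (m + p) - (σ i : ℕ)) else 0)
      = ∑ b ∈ Finset.piAntidiag (Finset.univ : Finset (Fin m)) (m * p + q * (m + p)),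
        if ∀ i : Fin m, (m + p) ∣ b i + (σ i : ℕ) + (p + (i : ℕ)) * (m + p - 1) then F b else 0 := by
  have hs : 1 ≤ m + p := by omega
  have hlt : ∀ i : Fin m, p + (i : ℕ) < m + p := fun i => by
    have := i.2
    omega
  have hσ : ∑ i : Fin m, ((σ i : Fin m) : ℕ) = ∑ i : Fin m, (i : ℕ) :=
    Equiv.sum_comp σ (fun i : Fin m => (i : ℕ))
  rw [← Finset.sum_filter, ← Finset.sum_filter]
  refine Finset.sum_nbij' (fun n i => p + (i : ℕ) + n i * (m + p) - (σ i : ℕ))
    (fun b i => (b i + (σ i : ℕ)) / (m + p)) ?_ ?_ ?_ ?_ ?_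
  · intro n hn
    rw [Finset.mem_filter, Finset.Nat.mem_antidiagonalTuple] at hn
    obtain ⟨h1, h2⟩ := hn
    rw [Finset.mem_filter, Finset.mem_piAntidiag]
    refine ⟨⟨?_, fun i _ => Finset.mem_univ i⟩, ?_⟩
    · have h3 : ∑ i : Fin m, (p + (i : ℕ) + n i * (m + p) - (σ i : ℕ)) + ∑ i : Fin m, (σ i : ℕ) =
          ∑ i : Fin m, (p + (i : ℕ) + n i * (m + p)) := by
        rw [← Finset.sum_add_distrib]
        exact Finset.sum_congr rfl (fun i _ => Nat.sub_add_cancel (h2 i))
      have h4 : ∑ i : Fin m, (p + (i : ℕ) + n i * (m + p)) =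
          m * p + ∑ i : Fin m, (i : ℕ) + q * (m + p) := by
        rw [Finset.sum_add_distrib, Finset.sum_add_distrib, ← Finset.sum_mul, h1,
          Finset.sum_const, Finset.card_univ, Fintype.card_fin, smul_eq_mul]
      rw [h4, hσ] at h3
      have h5 : ∑ i : Fin m, (p + (i : ℕ) + n i * (m + p) - (σ i : ℕ)) =
          m * p + q * (m + p) := by omega
      exact h5
    · intro i
      have h3 : p + (i : ℕ) + n i * (m + p) - (σ i : ℕ) + (σ i : ℕ) =
          p + (i : ℕ) + n i * (m + p) := Nat.sub_add_cancel (h2 i)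
      have h4 : p + (i : ℕ) + n i * (m + p) - (σ i : ℕ) + (σ i : ℕ) +
          (p + (i : ℕ)) * (m + p - 1) = (p + (i : ℕ) + n i) * (m + p) := by
        rw [h3]
        obtain ⟨t, ht⟩ : ∃ t, m + p = t + 1 := ⟨m + p - 1, by omega⟩
        rw [ht, Nat.add_sub_cancel]
        ring
      exact ⟨p + (i : ℕ) + n i, h4.trans (mul_comm _ _)⟩
  · intro b hb
    rw [Finset.mem_filter, Finset.mem_piAntidiag] at hb
    obtain ⟨⟨h1, _⟩, h2⟩ := hb
    have hk : ∀ i : Fin m, b i + (σ i : ℕ) =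
        p + (i : ℕ) + (b i + (σ i : ℕ)) / (m + p) * (m + p) :=
      fun i => bij_mod hs (hlt i) (h2 i)
    rw [Finset.mem_filter, Finset.Nat.mem_antidiagonalTuple]
    refine ⟨?_, ?_⟩
    · have h3 : ∑ i : Fin m, (b i + (σ i : ℕ)) =
          ∑ i : Fin m, (p + (i : ℕ) + (b i + (σ i : ℕ)) / (m + p) * (m + p)) :=
        Finset.sum_congr rfl (fun i _ => hk i)
      rw [Finset.sum_add_distrib, Finset.sum_add_distrib, Finset.sum_add_distrib,
        ← Finset.sum_mul, Finset.sum_const, Finset.card_univ, Fintype.card_fin, smul_eq_mul,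
        hσ] at h3
      have h4 : ∑ i : Fin m, b i = m * p + q * (m + p) := h1
      rw [h4] at h3
      have h5 : q * (m + p) = (∑ i : Fin m, (b i + (σ i : ℕ)) / (m + p)) * (m + p) := by
        omega
      exact (Nat.eq_of_mul_eq_mul_right (by omega) h5).symm
    · intro i
      have := hk i
      beta_reduce
      omega
  · intro n hn
    rw [Finset.mem_filter] at hn
    obtain ⟨_, h2⟩ := hn
    funext i
    beta_reduce
    rw [Nat.sub_add_cancel (h2 i), Nat.add_mul_div_right _ _ (by omega : 0 < m + p),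
      Nat.div_eq_of_lt (hlt i), zero_add]
  · intro b hb
    rw [Finset.mem_filter] at hb
    obtain ⟨_, h2⟩ := hb
    funext i
    beta_reduce
    have := bij_mod hs (hlt i) (h2 i)
    omega
  · intro n _
    rfl

end Pool.Agent.H73.DG
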