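import Pool.Agent.H73.DG.Basic

/-!
# The ballot sum modulo two as a sum over roots of unity in characteristic two
-/

set_option autoImplicit false

namespace Pool.Agent.H73.DG

open Finset

variable {K : Type*} [Field K] [CharP K 2]

/-- The sum over the powers `z` of `ζ` of `z^2 (1+z)^M`. -/
def rsum (ζ : K) (s M : ℕ) : K := ∑ t ∈ range s, (ζ ^ t) ^ 2 * (1 + ζ ^ t) ^ M

lemma odd_cast_eq_one {s : ℕ} (hs : Odd s) : (s : K) = 1 := by
  obtain ⟨k, rfl⟩ := hs
  push_cast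
  rw [CharTwo.two_eq_zero]
  ring

lemma ballot_cast (p q : ℕ) (hp : 1 ≤ p) :
    ((ballot p q : ℤ) : K)
      = ∑ i ∈ range (q + 1), (((2 * p + q * (2 + p) + 1).choose (p + i * (2 + p)) : ℕ) : K) := by
  unfold ballot
  push_cast
  rw [CharTwo.neg_eq, one_pow, one_mul]
  apply Finset.sum_congr rfl
  intro i _
  rw [CharTwo.sub_eq_add]
  obtain ⟨a, ha⟩ : ∃ a, p + i * (2 + p) = a + 1 := ⟨p + i * (2 + p) - 1, by omega⟩
  rw [ha, Nat.choose_succ_succ' (2 * p + q * (2 + p)) a]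
  push_cast
  exact add_comm _ _

lemma root_sum {ζ : K} {s : ℕ} (hζ : IsPrimitiveRoot ζ s) (hs : Odd s) (m : ℕ) :
    ∑ t ∈ range s, (ζ ^ t) ^ m = if s ∣ m then 1 else 0 := by
  have h1 : ∀ t, (ζ ^ t) ^ m = (ζ ^ m) ^ t := by
    intro t
    rw [← pow_mul, ← pow_mul, mul_comm]
  simp only [h1]
  split_ifs with h
  · have : ζ ^ m = 1 := (hζ.pow_eq_one_iff_dvd m).mpr h
    rw [this]
    simp [odd_cast_eq_one (K := K) hs]
  · have hne : ζ ^ m ≠ 1 := fun h' => h ((hζ.pow_eq_one_iff_dvd m).mp h')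
    rw [geom_sum_eq hne]
    have : (ζ ^ m) ^ s = 1 := by
      rw [← pow_mul, mul_comm, pow_mul, hζ.pow_eq_one, one_pow]
    rw [this]
    simp

lemma filter_eq (p q : ℕ) (hp : 1 ≤ p) :
    (range (2 * p + q * (2 + p) + 1 + 1)).filter (fun a => (2 + p) ∣ a + 2)
      = (range (q + 1)).image (fun i => p + i * (2 + p)) := by
  ext a
  simp only [Finset.mem_filter, Finset.mem_range, Finset.mem_image]
  constructor
  · rintro ⟨h1, ⟨c, hc⟩⟩
    have hc0 : c ≠ 0 := by
      rintro rfl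
      omega
    obtain ⟨i, rfl⟩ : ∃ i, c = i + 1 := ⟨c - 1, by omega⟩
    refine ⟨i, ?_, ?_⟩
    · by_contra hcon
      have hq : q + 1 ≤ i := by omega
      have : (2 + p) * (q + 1 + 1) ≤ (2 + p) * (i + 1) := Nat.mul_le_mul_left _ (by omega)
      have e : (2 + p) * (q + 1 + 1) = 2 * p + q * (2 + p) + 4 := by ring
      omega
    · have e : (2 + p) * (i + 1) = i * (2 + p) + (2 + p) := by ring
      omega
  · rintro ⟨i, hi, rfl⟩
    refine ⟨?_, ⟨i + 1, by ring⟩⟩
    have : i * (2 + p) ≤ q * (2 + p) := Nat.mul_le_mul_right _ (by omega)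
    omega

lemma ballot_eq_rsum {ζ : K} (p q : ℕ) (hp : 1 ≤ p) (hζ : IsPrimitiveRoot ζ (2 + p))
    (hs : Odd (2 + p)) :
    ((ballot p q : ℤ) : K) = rsum ζ (2 + p) (2 * p + q * (2 + p) + 1) := by
  rw [ballot_cast p q hp]
  unfold rsum
  have h1 : ∀ t, (ζ ^ t) ^ 2 * (1 + ζ ^ t) ^ (2 * p + q * (2 + p) + 1)
      = ∑ a ∈ range (2 * p + q * (2 + p) + 1 + 1),
        (ζ ^ t) ^ (a + 2) * ((2 * p + q * (2 + p) + 1).choose a : K) := by
    intro t
    rw [add_comm 1 (ζ ^ t), add_pow, Finset.mul_sum]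
    apply Finset.sum_congr rfl
    intro a _
    rw [one_pow, pow_add]
    ring
  simp only [h1]
  rw [Finset.sum_comm]
  have h2 : ∀ a ∈ range (2 * p + q * (2 + p) + 1 + 1),
      ∑ t ∈ range (2 + p), (ζ ^ t) ^ (a + 2) * ((2 * p + q * (2 + p) + 1).choose a : K)
        = if (2 + p) ∣ a + 2 then ((2 * p + q * (2 + p) + 1).choose a : K) else 0 := by
    intro a _
    rw [← Finset.sum_mul, root_sum hζ hs]
    split_ifs <;> simp
  rw [Finset.sum_congr rfl h2, ← Finset.sum_filter, filter_eq p q hp, Finset.sum_image]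
  intro i _ j _ hij
  have : i * (2 + p) = j * (2 + p) := by
    have h := hij
    simp only at h
    omega
  exact Nat.eq_of_mul_eq_mul_right (by omega) this

end Pool.Agent.H73.DG
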