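import Pool.Agent.H73.DG.Land

/-!
# The values `q = 3`, `q = 5` for three rotations

The number `L.choose M` is odd iff the digits of `M` are among the digits of `L`; split at the digit `k`.
-/

set_option autoImplicit false

namespace Pool.Agent.H73.DG

open Finset

private theorem choose_odd (L M : ℕ) : Odd (L.choose M) ↔ M &&& L = M := by
  induction h : L + M using Nat.strong_induction_on generalizing L M with
  | _ N ih =>
    subst h
    rcases Nat.eq_zero_or_pos (L + M) with h0 | hpos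
    · have ha : L = 0 := by omega
      have hb : M = 0 := by omega
      subst ha hb
      simp
    · have : Fact (Nat.Prime 2) := ⟨Nat.prime_two⟩
      have hl := Choose.choose_modEq_choose_mod_mul_choose_div_nat (n := L) (k := M) (p := 2)
      have hih := ih (L / 2 + M / 2) (by omega) (L / 2) (M / 2) rfl
      have hsub : M &&& L = M ↔ (M / 2 &&& L / 2 = M / 2) ∧ (M % 2 = 1 → L % 2 = 1) := by
        have h1 : (M &&& L) / 2 = M / 2 &&& L / 2 := Nat.and_div_two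
        have h2 : (M &&& L) % 2 = 1 ↔ M % 2 = 1 ∧ L % 2 = 1 := Nat.and_mod_two_eq_one
        rw [← h1]
        generalize M &&& L = x at *
        omega
      rw [hsub, ← hih, Nat.odd_iff, hl, ← Nat.odd_iff]
      rcases Nat.mod_two_eq_zero_or_one L with ha | ha <;>
        rcases Nat.mod_two_eq_zero_or_one M with hb | hb <;> rw [ha, hb] <;> simp

private theorem sub_split (k M L : ℕ) : M &&& L = M ↔
    (M % 2 ^ k &&& L % 2 ^ k = M % 2 ^ k) ∧ (M / 2 ^ k &&& L / 2 ^ k = M / 2 ^ k) := by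
  rw [← Nat.and_mod_two_pow, ← Nat.and_div_two_pow]
  constructor
  · intro h
    rw [h]
    simp
  · rintro ⟨h1, h2⟩
    have h3 := Nat.div_add_mod (M &&& L) (2 ^ k)
    rw [h1, h2, Nat.div_add_mod] at h3
    exact h3.symm

private theorem odd_of_sub (a b : ℕ) (h : a &&& b = a) (ha : a % 2 = 1) : b % 2 = 1 := by
  have h2 : (a &&& b) % 2 = 1 ↔ a % 2 = 1 ∧ b % 2 = 1 := Nat.and_mod_two_eq_one
  rw [h] at h2
  exact (h2.1 ha).2

private theorem le_of_sub (a b : ℕ) (h : a &&& b = a) : a ≤ b := by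
  rw [← h]
  exact Nat.and_le_right

theorem q_three (k L : ℕ) (hk : 3 ≤ k) (hL : L < 2 ^ (2 * k)) (hd : (2 ^ k + 1) ∣ L + 9) :
    Odd (∑ j ∈ range k, L.choose ((2 ^ j + 1) * (2 ^ k + 1) - 4)) ↔
      L = 6 * (2 ^ k + 1) - 9 ∨ L = 8 * (2 ^ k + 1) - 9 := by
  have ht8 : 8 ≤ 2 ^ k := by
    calc 8 = 2 ^ 3 := by norm_num
      _ ≤ 2 ^ k := Nat.pow_le_pow_right (by norm_num) hk
  have hteven : 2 ^ k % 2 = 0 := by
    obtain ⟨j, rfl⟩ : ∃ j, k = j + 1 := ⟨k - 1, by omega⟩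
    rw [pow_succ]
    omega
  have hLt : L < 2 ^ k * 2 ^ k := by
    rw [← pow_add]
    rwa [two_mul] at hL
  have hsplit := fun M => (choose_odd L M).trans (sub_split k M L)
  have hdm := Nat.div_add_mod L (2 ^ k)
  have hU : L % 2 ^ k < 2 ^ k := Nat.mod_lt _ (by positivity)
  have hV : L / 2 ^ k < 2 ^ k := Nat.div_lt_of_lt_mul hLt
  have hpow : ∀ j, j < k → 2 ^ j * 2 ≤ 2 ^ k := by
    intro j hj
    rw [← pow_succ]
    exact Nat.pow_le_pow_right (by norm_num) hj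
  have hself : ∀ x, x < 2 ^ k → x &&& (2 ^ k - 1) = x := by
    intro x hx
    rw [Nat.and_two_pow_sub_one_eq_mod, Nat.mod_eq_of_lt hx]
  -- the two possibilities for the digits
  have hUV : L / 2 ^ k = L % 2 ^ k + 9 ∨ L % 2 ^ k + 8 = L / 2 ^ k + 2 ^ k := by
    obtain ⟨c, hc⟩ := hd
    rw [← hdm] at hc
    clear hsplit
    generalize L % 2 ^ k = U at *
    generalize L / 2 ^ k = V at *
    generalize 2 ^ k = t at *
    have h1 : (U : ℤ) + 9 - V = (t + 1) * (c - V) := by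
      have h2 : (t : ℤ) * V + U + 9 = (t + 1) * c := by exact_mod_cast hc
      linear_combination h2
    have h2 : (U : ℤ) < t := by exact_mod_cast hU
    have h3 : (V : ℤ) < t := by exact_mod_cast hV
    have h4 : (8 : ℤ) ≤ t := by exact_mod_cast ht8
    have h5 : -1 < (c : ℤ) - V := by
      by_contra h
      have : (t + 1 : ℤ) * (c - V) ≤ (t + 1) * (-1) := mul_le_mul_of_nonneg_left (by omega) (by omega)
      omega
    have h6 : (c : ℤ) - V < 2 := by
      by_contra h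
      have : (t + 1 : ℤ) * 2 ≤ (t + 1) * (c - V) := mul_le_mul_of_nonneg_left (by omega) (by omega)
      omega
    have h7 : (c : ℤ) - V = 0 ∨ (c : ℤ) - V = 1 := by omega
    rcases h7 with h7 | h7
    · rw [h7] at h1
      left
      omega
    · rw [h7] at h1
      right
      omega
  -- the values in terms of the digits
  have hA : L = 8 * (2 ^ k + 1) - 9 ↔ (L % 2 ^ k = 2 ^ k - 1 ∧ L / 2 ^ k = 7) := by
    constructor
    · intro h
      have h1 : L = 2 ^ k * 7 + (2 ^ k - 1) := by omega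
      rw [h1, Nat.mul_add_mod, Nat.mul_add_div (by positivity), Nat.mod_eq_of_lt (by omega),
        Nat.div_eq_of_lt (by omega)]
      exact ⟨rfl, rfl⟩
    · rintro ⟨h1, h2⟩
      rw [h1, h2] at hdm
      omega
  have hB : L = 6 * (2 ^ k + 1) - 9 ↔ (L % 2 ^ k = 2 ^ k - 3 ∧ L / 2 ^ k = 5) := by
    constructor
    · intro h
      have h1 : L = 2 ^ k * 5 + (2 ^ k - 3) := by omega
      rw [h1, Nat.mul_add_mod, Nat.mul_add_div (by positivity), Nat.mod_eq_of_lt (by omega),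
        Nat.div_eq_of_lt (by omega)]
      exact ⟨rfl, rfl⟩
    · rintro ⟨h1, h2⟩
      rw [h1, h2] at hdm
      omega
  have hM : ∀ M u v, M = 2 ^ k * v + u → u < 2 ^ k → M % 2 ^ k = u ∧ M / 2 ^ k = v := by
    intro M u v h hu
    rw [h, Nat.mul_add_mod, Nat.mul_add_div (by positivity), Nat.mod_eq_of_lt hu, Nat.div_eq_of_lt hu]
    exact ⟨rfl, rfl⟩
  have h0 : Odd (L.choose ((2 ^ 0 + 1) * (2 ^ k + 1) - 4)) ↔
      (L % 2 ^ k = 2 ^ k - 1 ∧ L / 2 ^ k = 7) := by
    obtain ⟨e1, e2⟩ := hM ((2 ^ 0 + 1) * (2 ^ k + 1) - 4) (2 ^ k - 2) 1 (by omega) (by omega)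
    rw [hsplit, e1, e2]
    constructor
    · rintro ⟨a, b⟩
      have a1 := le_of_sub _ _ a
      have b1 := odd_of_sub _ _ b (by norm_num)
      omega
    · rintro ⟨a, b⟩
      rw [a, b]
      exact ⟨hself _ (by omega), by decide⟩
  have h1 : Odd (L.choose ((2 ^ 1 + 1) * (2 ^ k + 1) - 4)) ↔
      (L % 2 ^ k = 2 ^ k - 1 ∧ L / 2 ^ k = 7) := by
    obtain ⟨e1, e2⟩ := hM ((2 ^ 1 + 1) * (2 ^ k + 1) - 4) (2 ^ k - 1) 2 (by omega) (by omega)
    rw [hsplit, e1, e2]
    constructor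
    · rintro ⟨a, b⟩
      have a1 := le_of_sub _ _ a
      omega
    · rintro ⟨a, b⟩
      rw [a, b]
      exact ⟨hself _ (by omega), by decide⟩
  have h2 : Odd (L.choose ((2 ^ 2 + 1) * (2 ^ k + 1) - 4)) ↔
      ((L % 2 ^ k = 2 ^ k - 1 ∧ L / 2 ^ k = 7) ∨ (L % 2 ^ k = 2 ^ k - 3 ∧ L / 2 ^ k = 5)) := by
    obtain ⟨e1, e2⟩ := hM ((2 ^ 2 + 1) * (2 ^ k + 1) - 4) 1 5 (by omega) (by omega)
    rw [hsplit, e1, e2]
    constructor
    · rintro ⟨a, b⟩
      have a1 := odd_of_sub _ _ a (by norm_num)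
      have b1 := odd_of_sub _ _ b (by norm_num)
      have b2 := le_of_sub _ _ b
      omega
    · rintro (⟨a, b⟩ | ⟨a, b⟩)
      · rw [a, b]
        exact ⟨hself _ (by omega), by decide⟩
      · rw [a, b]
        refine ⟨?_, by decide⟩
        rw [Nat.and_comm, Nat.and_one_is_mod]
        omega
  have h3 : ∀ j, 3 ≤ j → j < k → ¬ Odd (L.choose ((2 ^ j + 1) * (2 ^ k + 1) - 4)) := by
    intro j hj hjk hodd
    have hj8 : 8 ≤ 2 ^ j := by
      calc 8 = 2 ^ 3 := by norm_num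
        _ ≤ 2 ^ j := Nat.pow_le_pow_right (by norm_num) hj
    have hjeven : 2 ^ j % 2 = 0 := by
      obtain ⟨i, rfl⟩ : ∃ i, j = i + 1 := ⟨j - 1, by omega⟩
      rw [pow_succ]
      omega
    have hjk' := hpow j hjk
    obtain ⟨e1, e2⟩ := hM ((2 ^ j + 1) * (2 ^ k + 1) - 4) (2 ^ j - 3) (2 ^ j + 1)
      (by
        have : (2 ^ j + 1) * (2 ^ k + 1) = 2 ^ k * (2 ^ j + 1) + (2 ^ j + 1) := by ring
        omega) (by omega)
    rw [hsplit, e1, e2] at hodd
    obtain ⟨a, b⟩ := hodd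
    have a1 := odd_of_sub _ _ a (by omega)
    have b1 := odd_of_sub _ _ b (by omega)
    have b2 := le_of_sub _ _ b
    omega
  have hsum : ∑ j ∈ range k, L.choose ((2 ^ j + 1) * (2 ^ k + 1) - 4) =
      ∑ j ∈ range 3, L.choose ((2 ^ j + 1) * (2 ^ k + 1) - 4) +
      ∑ j ∈ Ico 3 k, L.choose ((2 ^ j + 1) * (2 ^ k + 1) - 4) :=
    (Finset.sum_range_add_sum_Ico _ hk).symm
  have heven : Even (∑ j ∈ Ico 3 k, L.choose ((2 ^ j + 1) * (2 ^ k + 1) - 4)) := by
    apply Finset.even_sum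
    intro j hj
    rw [mem_Ico] at hj
    rw [← Nat.not_odd_iff_even]
    exact h3 j hj.1 hj.2
  rw [hsum, sum_range_succ, sum_range_succ, sum_range_succ, sum_range_zero, zero_add, hA, hB]
  rw [Nat.odd_iff] at h0 h1 h2 ⊢
  rw [Nat.even_iff] at heven
  generalize L.choose ((2 ^ 0 + 1) * (2 ^ k + 1) - 4) = f0 at *
  generalize L.choose ((2 ^ 1 + 1) * (2 ^ k + 1) - 4) = f1 at *
  generalize L.choose ((2 ^ 2 + 1) * (2 ^ k + 1) - 4) = f2 at *
  generalize ∑ j ∈ Ico 3 k, L.choose ((2 ^ j + 1) * (2 ^ k + 1) - 4) = e at *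
  by_cases hx : (L % 2 ^ k = 2 ^ k - 1 ∧ L / 2 ^ k = 7)
  · have g0 := h0.2 hx
    have g1 := h1.2 hx
    have g2 := h2.2 (Or.inl hx)
    constructor
    · intro _
      exact Or.inr hx
    · intro _
      omega
  · have g0 : ¬ f0 % 2 = 1 := fun h => hx (h0.1 h)
    have g1 : ¬ f1 % 2 = 1 := fun h => hx (h1.1 h)
    constructor
    · intro h
      have g2 : f2 % 2 = 1 := by omega
      rcases h2.1 g2 with h4 | h4
      · exact Or.inr h4
      · exact Or.inl h4
    · rintro (h4 | h4)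
      · have g2 := h2.2 (Or.inr h4)
        omega
      · exact absurd h4 hx

end Pool.Agent.H73.DG
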