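import Pool.Agent.H73.DG.Land

/-!
# Two even binomial coefficients (`m = 4`)
-/

set_option autoImplicit false

namespace Pool.Agent.H73.DG

open Finset

private lemma lucas_two (n m : ℕ) : Odd (n.choose m) ↔
    Odd ((n % 2).choose (m % 2)) ∧ Odd ((n / 2).choose (m / 2)) := by
  have : Fact (Nat.Prime 2) := ⟨Nat.prime_two⟩
  have hl := Choose.choose_modEq_choose_mod_mul_choose_div_nat (n := n) (k := m) (p := 2)
  rw [Nat.odd_iff, hl, ← Nat.odd_iff, Nat.odd_mul]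

private lemma odd_top {n m : ℕ} (h : Odd (n.choose m)) (hm : m % 2 = 1) : n % 2 = 1 := by
  rw [lucas_two, hm] at h
  rcases Nat.mod_two_eq_zero_or_one n with h1 | h1
  · rw [h1] at h
    simp at h
  · exact h1

private lemma lucas_pow (k : ℕ) : ∀ n m : ℕ, Odd (n.choose m) →
    Odd ((n % 2 ^ k).choose (m % 2 ^ k)) ∧ Odd ((n / 2 ^ k).choose (m / 2 ^ k)) := by
  induction k with
  | zero =>
    intro n m h
    simpa [Nat.mod_one] using h
  | succ k ih =>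
    intro n m h
    obtain ⟨h1, h2⟩ := (lucas_two n m).1 h
    obtain ⟨h3, h4⟩ := ih _ _ h2
    have e1 : ∀ x : ℕ, x % 2 ^ (k + 1) % 2 = x % 2 := fun x =>
      Nat.mod_mod_of_dvd x (dvd_pow_self 2 (by omega))
    have e2 : ∀ x : ℕ, x % 2 ^ (k + 1) / 2 = x / 2 % 2 ^ k := fun x => by
      rw [pow_succ, mul_comm, Nat.mod_mul_right_div_self]
    have e3 : ∀ x : ℕ, x / 2 ^ (k + 1) = x / 2 / 2 ^ k := fun x => by
      rw [pow_succ, mul_comm, Nat.div_div_eq_div_mul]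
    refine ⟨?_, ?_⟩
    · rw [lucas_two, e1, e1, e2, e2]
      exact ⟨h1, h3⟩
    · rw [e3, e3]
      exact h4

private lemma no_odd (k L M a : ℕ) (hk : 4 ≤ k) (hL : L < 2 ^ (2 * k)) (hd : (2 ^ k + 1) ∣ L + 16)
    (hM : 2 ^ k - 3 ≤ M % 2 ^ k) (hM1 : M % 2 ^ k % 2 = 1) (hM2 : M / 2 ^ k = a) (ha : a % 2 = 1) :
    Even (L.choose M) := by
  by_contra hcon
  rw [Nat.not_even_iff_odd] at hcon
  obtain ⟨h1, h2⟩ := lucas_pow k L M hcon
  have hU1 : L % 2 ^ k % 2 = 1 := odd_top h1 hM1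
  have hV1 : L / 2 ^ k % 2 = 1 := odd_top h2 (by rw [hM2]; exact ha)
  have hle : M % 2 ^ k ≤ L % 2 ^ k := by
    by_contra hlt
    rw [Nat.choose_eq_zero_of_lt (not_le.1 hlt)] at h1
    simp at h1
  have hdm := Nat.div_add_mod L (2 ^ k)
  have hUlt : L % 2 ^ k < 2 ^ k := Nat.mod_lt _ (by positivity)
  have hVlt : L / 2 ^ k < 2 ^ k := by
    rw [Nat.div_lt_iff_lt_mul (by positivity), ← pow_add]
    have : k + k = 2 * k := by ring
    rw [this]
    exact hL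
  have hK : 16 ≤ 2 ^ k := by
    calc 16 = 2 ^ 4 := by norm_num
      _ ≤ 2 ^ k := Nat.pow_le_pow_right (by norm_num) hk
  have hKe : 2 ^ k % 2 = 0 := by
    have : 2 ∣ 2 ^ k := dvd_pow_self 2 (by omega)
    omega
  generalize 2 ^ k = K at *
  generalize L % K = U at *
  generalize L / K = V at *
  obtain ⟨c, hc⟩ := hd
  have ht : ((K : ℤ) + 1) * ((c : ℤ) - V) = U + 16 - V := by
    have h5 : ((L : ℤ) + 16) = (K + 1) * c := by exact_mod_cast hc
    have h6 : (K : ℤ) * V + U = L := by exact_mod_cast hdm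
    linear_combination -h5 - h6
  have hU3 : (K : ℤ) - 3 ≤ U := by omega
  have hV3 : (V : ℤ) ≤ K - 1 := by omega
  have hU4 : (U : ℤ) ≤ K - 1 := by omega
  have hK' : (16 : ℤ) ≤ K := by exact_mod_cast hK
  have t1 : 0 < (c : ℤ) - V := by
    by_contra hneg
    nlinarith
  have t2 : (c : ℤ) - V < 2 := by
    by_contra hneg
    nlinarith
  have t3 : (c : ℤ) - V = 1 := by omega
  rw [t3, mul_one] at ht
  omega

theorem q_four (k L : ℕ) (hk : 4 ≤ k) (hL : L < 2 ^ (2 * k)) (hd : (2 ^ k + 1) ∣ L + 16) :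
    Even (L.choose (6 * (2 ^ k + 1) - 9)) ∧ Even (L.choose (8 * (2 ^ k + 1) - 9)) := by
  have hK : 16 ≤ 2 ^ k := by
    calc 16 = 2 ^ 4 := by norm_num
      _ ≤ 2 ^ k := Nat.pow_le_pow_right (by norm_num) hk
  have hKe : 2 ^ k % 2 = 0 := by
    have : 2 ∣ 2 ^ k := dvd_pow_self 2 (by omega)
    omega
  have e1 : 6 * (2 ^ k + 1) - 9 = (2 ^ k - 3) + 2 ^ k * 5 := by omega
  have e2 : 8 * (2 ^ k + 1) - 9 = (2 ^ k - 1) + 2 ^ k * 7 := by omega
  constructor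
  · have m1 : (6 * (2 ^ k + 1) - 9) % 2 ^ k = 2 ^ k - 3 := by
      rw [e1, Nat.add_mul_mod_self_left, Nat.mod_eq_of_lt (by omega)]
    have m2 : (6 * (2 ^ k + 1) - 9) / 2 ^ k = 5 := by
      rw [e1, Nat.add_mul_div_left _ _ (by omega), Nat.div_eq_of_lt (by omega)]
    exact no_odd k L _ 5 hk hL hd (by rw [m1]) (by rw [m1]; omega) m2 (by norm_num)
  · have m1 : (8 * (2 ^ k + 1) - 9) % 2 ^ k = 2 ^ k - 1 := by
      rw [e2, Nat.add_mul_mod_self_left, Nat.mod_eq_of_lt (by omega)]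
    have m2 : (8 * (2 ^ k + 1) - 9) / 2 ^ k = 7 := by
      rw [e2, Nat.add_mul_div_left _ _ (by omega), Nat.div_eq_of_lt (by omega)]
    exact no_odd k L _ 7 hk hL hd (by rw [m1]; omega) (by rw [m1]; omega) m2 (by norm_num)

end Pool.Agent.H73.DG
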