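import Pool.Agent.H73.DG.Mono
import Pool.Agent.H73.DG.Q3
import Pool.Agent.H73.DG.Q4

/-!
# The classification for `m + p = 2 ^ k + 1`
-/

set_option autoImplicit false

namespace Pool.Agent.H73.DG

open Finset

lemma sum_odd (m : ℕ) : ∑ i : Fin m, (2 * (m - 1 - (i : ℕ)) + 1) = m ^ 2 := by
  rw [Fin.sum_univ_eq_sum_range (fun i => 2 * (m - 1 - i) + 1) m,
    Finset.sum_range_reflect (fun i => 2 * i + 1) m]
  induction m with
  | zero => rfl
  | succ m ih =>
    rw [Finset.sum_range_succ, ih]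
    ring

lemma dsum_ndvd (K : Type*) [CommRing K] (s m L : ℕ) (h : ¬ s ∣ L + m ^ 2) :
    dsum K s m L = 0 := by
  unfold dsum
  apply Finset.sum_eq_zero
  intro b hb
  rw [if_neg]
  intro hc
  apply h
  have hsum : ∑ i, b i = L := (Finset.mem_piAntidiag.mp hb).1
  have h1 : s ∣ ∑ i : Fin m, (b i + (2 * (m - 1 - (i : ℕ)) + 1)) :=
    Finset.dvd_sum (fun i _ => hc i)
  rw [Finset.sum_add_distrib, hsum, sum_odd] at h1
  exact h1

lemma dsum_at_zero (K : Type*) [CommRing K] (s m : ℕ) (hm : 1 ≤ m) (hs : 2 * m ≤ s) :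
    dsum K s m 0 = 0 := by
  unfold dsum
  apply Finset.sum_eq_zero
  intro b hb
  rw [if_neg]
  intro hc
  have hsum : ∑ i, b i = 0 := (Finset.mem_piAntidiag.mp hb).1
  have hb0 : b ⟨0, by omega⟩ = 0 := by
    have := Finset.sum_eq_zero_iff.mp hsum ⟨0, by omega⟩ (Finset.mem_univ _)
    exact this
  have h1 := hc ⟨0, by omega⟩
  rw [hb0, zero_add] at h1
  have h2 := Nat.le_of_dvd (by omega) h1
  simp only at h2
  omega

lemma step_support {K ι : Type*} [CommRing K] (s m B : ℕ) (J : Finset ι) (f : ι → ℕ)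
    (h : ∀ L, L < B → dsum K s m L = ∑ j ∈ J, if L = f j then (1 : K) else 0)
    (hJ : ∀ j ∈ J, s ∣ f j + m ^ 2) (L : ℕ) (hL : L < B) (hd : s ∣ L + (m + 1) ^ 2) :
    dsum K s (m + 1) L = ∑ j ∈ J, ((L.choose (f j) : ℕ) : K) := by
  rw [dsum_succ]
  have h1 : ∀ c ∈ Finset.HasAntidiagonal.antidiagonal L,
      (if s ∣ c.1 + (2 * m + 1) then ((L.choose c.1 : ℕ) : K) else 0) * dsum K s m c.2
      = ∑ j ∈ J, if c.2 = f j then ((L.choose (f j) : ℕ) : K) else 0 := by
    intro c hc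
    have hcs : c.1 + c.2 = L := Finset.HasAntidiagonal.mem_antidiagonal.mp hc
    rw [h c.2 (by omega), Finset.mul_sum]
    apply Finset.sum_congr rfl
    intro j hj
    by_cases h2 : c.2 = f j
    · rw [if_pos h2, if_pos h2, mul_one]
      have h3 : s ∣ c.1 + (2 * m + 1) := by
        have e : L + (m + 1) ^ 2 = (c.1 + (2 * m + 1)) + (f j + m ^ 2) := by
          rw [← hcs, h2]
          ring
        rw [e] at hd
        exact (Nat.dvd_add_left (hJ j hj)).mp hd
      rw [if_pos h3]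
      congr 1
      apply Nat.choose_symm_of_eq_add
      rw [← h2]
      exact hcs.symm
    · rw [if_neg h2, if_neg h2, mul_zero]
  rw [Finset.sum_congr rfl h1, Finset.sum_comm]
  apply Finset.sum_congr rfl
  intro j _
  by_cases h4 : f j ≤ L
  · rw [Finset.sum_eq_single (L - f j, f j)]
    · rw [if_pos rfl]
    · intro c hc hne
      rw [if_neg]
      intro h5
      apply hne
      have hcs : c.1 + c.2 = L := Finset.HasAntidiagonal.mem_antidiagonal.mp hc
      apply Prod.ext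
      · show c.1 = L - f j
        omega
      · exact h5
    · intro hc
      exfalso
      apply hc
      rw [Finset.HasAntidiagonal.mem_antidiagonal]
      show L - f j + f j = L
      omega
  · rw [Nat.choose_eq_zero_of_lt (by omega), Nat.cast_zero]
    apply Finset.sum_eq_zero
    intro c _
    split_ifs <;> rfl

lemma gsum_ite (m p q : ℕ) (hm : 1 ≤ m) (hp : 1 ≤ p) (hs : Odd (m + p)) {ζ : Kbar}
    (hζ : IsPrimitiveRoot ζ (m + p)) (P : Prop) [Decidable P]
    (hP : IsOddInt (degNum m p q) ↔ P) :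
    gsum ζ m p (m * p + q * (m + p)) = if P then 1 else 0 := by
  split_ifs with h
  · exact (odd_intDeg_iff m p q hm hp hs hζ).mp ((odd_degNum_iff m p q).mp (hP.mpr h))
  · have h1 : ¬ IsOddInt (degNum m p q) := fun h2 => h (hP.mp h2)
    rw [odd_degNum_iff, Int.not_odd_iff_even] at h1
    rw [← intDeg_cast m p q hm hp hζ hs]
    obtain ⟨k, hk⟩ := h1
    rw [hk]
    push_cast
    rw [CharTwo.add_self_eq_zero]

lemma pow_facts (k : ℕ) : (2 ^ k - 1) * (2 ^ k + 1) + 1 = 2 ^ (2 * k) := by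
  rw [two_mul, pow_add]
  obtain ⟨x, hx⟩ : ∃ x, 2 ^ k = x + 1 := ⟨2 ^ k - 1, by
    have := Nat.one_le_two_pow (n := k)
    omega⟩
  rw [hx]
  have e1 : x + 1 - 1 = x := by omega
  rw [e1]
  ring

lemma two_support (k : ℕ) (hk : 2 ≤ k) (L : ℕ) (hL : L < 2 ^ (2 * k)) :
    dsum Kbar (2 ^ k + 1) 2 L
      = ∑ j ∈ range k, if L = (2 ^ j + 1) * (2 ^ k + 1) - 4 then (1 : Kbar) else 0 := by
  classical
  have h4 : 4 ≤ 2 ^ k := by
    calc 4 = 2 ^ 2 := by norm_num
      _ ≤ 2 ^ k := Nat.pow_le_pow_right (by norm_num) hk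
  have hbig : ∀ j, 2 * (2 ^ k + 1) ≤ (2 ^ j + 1) * (2 ^ k + 1) := by
    intro j
    have := Nat.one_le_two_pow (n := j)
    exact Nat.mul_le_mul_right _ (by omega)
  rcases Nat.eq_zero_or_pos L with h0 | h0
  · subst h0
    rw [dsum_at_zero Kbar _ 2 (by norm_num) (by omega)]
    symm
    apply Finset.sum_eq_zero
    intro j _
    rw [if_neg]
    have := hbig j
    omega
  by_cases hd : (2 ^ k + 1) ∣ L + 2 ^ 2
  swap
  · rw [dsum_ndvd Kbar _ 2 L hd]
    symm
    apply Finset.sum_eq_zero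
    intro j _
    rw [if_neg]
    intro h1
    apply hd
    have := hbig j
    refine ⟨2 ^ j + 1, ?_⟩
    rw [mul_comm (2 ^ k + 1)]
    omega
  obtain ⟨p, hp⟩ : ∃ p, 2 ^ k = p + 1 := ⟨2 ^ k - 1, by omega⟩
  have hs : 2 ^ k + 1 = 2 + p := by omega
  have hodd : Odd (2 + p) := by
    have h2 : Even (2 ^ k) := (Nat.even_pow.mpr ⟨even_two, by omega⟩)
    rw [← hs]
    exact h2.add_one
  obtain ⟨ζ, hζ⟩ := exists_root (2 + p) hodd
  have hN : p * (2 + p) + 1 = 2 ^ (2 * k) := by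
    rw [← pow_facts k, hs, hp]
    have e1 : p + 1 - 1 = p := by omega
    rw [e1]
  rw [hs] at hd ⊢
  rw [← gsum_dsum 2 p L (by norm_num) (by omega) hζ hodd]
  obtain ⟨e, he⟩ := hd
  have he1 : 1 ≤ e := by
    rcases Nat.eq_zero_or_pos e with h1 | h1
    · subst h1
      omega
    · exact h1
  have hep : e ≤ p := by
    by_contra hcon
    have h1 : (2 + p) * (p + 1) ≤ (2 + p) * e := Nat.mul_le_mul_left _ (by omega)
    have h2 : (2 + p) * (p + 1) = p * (2 + p) + (2 + p) := by ring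
    omega
  have hLp : L + p * (2 + p) = 2 * p + (e + p - 2) * (2 + p) := by
    obtain ⟨p', rfl⟩ : ∃ p', p = p' + 2 := ⟨p - 2, by omega⟩
    have e2 : e + (p' + 2) - 2 = e + p' := by omega
    rw [e2]
    have : L + 4 = (2 + (p' + 2)) * e := he
    nlinarith [this]
  have hper := gsum_period (K := Kbar) (ζ := ζ) (m := 2) (p := p) (N := p) (f := 2 * k)
    (L := L) hζ.pow_eq_one hN h0
  rw [← hper, hLp]
  have hmers := mersenne_all k p (by omega) hp.symm (e + p - 2)
  have hiff : (∃ j, (e + p - 2) % p + 1 = 2 ^ j) ↔ ∃ j, j < k ∧ e = 2 ^ j + 1 := by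
    rcases Nat.lt_or_ge e 2 with h2 | h2
    · have h3 : e = 1 := by omega
      subst h3
      have e3 : 1 + p - 2 = p - 1 := by omega
      rw [e3, Nat.mod_eq_of_lt (by omega)]
      constructor
      · rintro ⟨j, hj⟩
        exfalso
        have e4 : p - 1 + 1 = p := by omega
        rw [e4] at hj
        cases j with
        | zero =>
          rw [pow_zero] at hj
          omega
        | succ j =>
          obtain ⟨k', rfl⟩ : ∃ k', k = k' + 1 := ⟨k - 1, by omega⟩
          rw [pow_succ] at hj hp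
          omega
      · rintro ⟨j, _, hj⟩
        exfalso
        have := Nat.one_le_two_pow (n := j)
        omega
    · have e3 : e + p - 2 = (e - 2) + p := by omega
      rw [e3, Nat.add_mod_right, Nat.mod_eq_of_lt (by omega)]
      constructor
      · rintro ⟨j, hj⟩
        refine ⟨j, ?_, by omega⟩
        by_contra hcon
        have : 2 ^ k ≤ 2 ^ j := Nat.pow_le_pow_right (by norm_num) (by omega)
        omega
      · rintro ⟨j, _, hj⟩
        exact ⟨j, by omega⟩
  rw [gsum_ite 2 p (e + p - 2) (by norm_num) (by omega) hodd hζ _ (hmers.trans hiff)]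
  have hLj : ∀ j, (L = (2 ^ j + 1) * (2 + p) - 4 ↔ e = 2 ^ j + 1) := by
    intro j
    have h5 := hbig j
    rw [hs] at h5
    constructor
    · intro h6
      have h7 : (2 + p) * e = (2 + p) * (2 ^ j + 1) := by
        rw [← he, h6, mul_comm (2 + p)]
        omega
      exact Nat.eq_of_mul_eq_mul_left (by omega) h7
    · intro h6
      have h7 : L + 4 = (2 ^ j + 1) * (2 + p) := by
        have : L + 2 ^ 2 = (2 + p) * (2 ^ j + 1) := by rw [he, h6]
        rw [mul_comm (2 ^ j + 1)]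
        omega
      omega
  simp only [hLj]
  split_ifs with hex
  · obtain ⟨j, hjk, hj⟩ := hex
    rw [Finset.sum_eq_single j]
    · rw [if_pos hj]
    · intro i _ hij
      rw [if_neg]
      intro hi
      apply hij
      apply Nat.pow_right_injective (le_refl 2)
      show 2 ^ i = 2 ^ j
      omega
    · intro hnot
      exact absurd (Finset.mem_range.mpr hjk) hnot
  · symm
    apply Finset.sum_eq_zero
    intro j hj
    rw [if_neg]
    intro h8
    exact hex ⟨j, Finset.mem_range.mp hj, h8⟩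

lemma three_support (k : ℕ) (hk : 3 ≤ k) (L : ℕ) (hL : L < 2 ^ (2 * k)) :
    dsum Kbar (2 ^ k + 1) 3 L
      = ∑ j ∈ ({6, 8} : Finset ℕ), if L = j * (2 ^ k + 1) - 9 then (1 : Kbar) else 0 := by
  have h8 : 8 ≤ 2 ^ k := by
    calc 8 = 2 ^ 3 := by norm_num
      _ ≤ 2 ^ k := Nat.pow_le_pow_right (by norm_num) hk
  have hbig : ∀ j, 2 * (2 ^ k + 1) ≤ (2 ^ j + 1) * (2 ^ k + 1) := by
    intro j
    have := Nat.one_le_two_pow (n := j)
    exact Nat.mul_le_mul_right _ (by omega)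
  have h68 : ∑ j ∈ ({6, 8} : Finset ℕ), (if L = j * (2 ^ k + 1) - 9 then (1 : Kbar) else 0)
      = if L = 6 * (2 ^ k + 1) - 9 ∨ L = 8 * (2 ^ k + 1) - 9 then 1 else 0 := by
    rw [Finset.sum_pair (by norm_num)]
    by_cases h1 : L = 6 * (2 ^ k + 1) - 9
    · rw [if_pos h1, if_neg (by omega), if_pos (Or.inl h1), add_zero]
    · by_cases h2 : L = 8 * (2 ^ k + 1) - 9
      · rw [if_neg h1, if_pos h2, if_pos (Or.inr h2), zero_add]
      · rw [if_neg h1, if_neg h2, if_neg (by tauto), zero_add]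
  rw [h68]
  by_cases hd : (2 ^ k + 1) ∣ L + 3 ^ 2
  swap
  · rw [dsum_ndvd Kbar _ 3 L hd, if_neg]
    rintro (h1 | h1)
    · apply hd
      exact ⟨6, by omega⟩
    · apply hd
      exact ⟨8, by omega⟩
  rw [step_support (2 ^ k + 1) 2 (2 ^ (2 * k)) (range k)
    (fun j => (2 ^ j + 1) * (2 ^ k + 1) - 4) (fun L' hL' => two_support k (by omega) L' hL')
    (by
      intro j _
      have := hbig j
      refine ⟨2 ^ j + 1, ?_⟩
      show (2 ^ j + 1) * (2 ^ k + 1) - 4 + 2 ^ 2 = (2 ^ k + 1) * (2 ^ j + 1)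
      rw [mul_comm (2 ^ k + 1)]
      omega) L hL hd]
  have hq := q_three k L hk hL hd
  rw [← Nat.cast_sum]
  split_ifs with h1
  · exact odd_cast_eq_one (hq.mpr h1)
  · have h2 : ¬ Odd (∑ j ∈ range k, L.choose ((2 ^ j + 1) * (2 ^ k + 1) - 4)) :=
      fun h3 => h1 (hq.mp h3)
    rw [Nat.not_odd_iff_even] at h2
    obtain ⟨r, hr⟩ := h2
    rw [hr]
    push_cast
    exact CharTwo.add_self_eq_zero _

lemma four_zero (k : ℕ) (hk : 4 ≤ k) (L : ℕ) (hL : L < 2 ^ (2 * k)) :
    dsum Kbar (2 ^ k + 1) 4 L = 0 := by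
  by_cases hd : (2 ^ k + 1) ∣ L + 4 ^ 2
  swap
  · exact dsum_ndvd Kbar _ 4 L hd
  have h16 : 16 ≤ 2 ^ k := by
    calc 16 = 2 ^ 4 := by norm_num
      _ ≤ 2 ^ k := Nat.pow_le_pow_right (by norm_num) hk
  rw [step_support (2 ^ k + 1) 3 (2 ^ (2 * k)) ({6, 8} : Finset ℕ)
    (fun j => j * (2 ^ k + 1) - 9) (fun L' hL' => three_support k (by omega) L' hL')
    (by
      intro j hj
      rw [Finset.mem_insert, Finset.mem_singleton] at hj
      refine ⟨j, ?_⟩
      show j * (2 ^ k + 1) - 9 + 3 ^ 2 = (2 ^ k + 1) * j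
      rw [mul_comm (2 ^ k + 1)]
      rcases hj with rfl | rfl <;> omega) L hL hd]
  have hq := q_four k L hk hL hd
  rw [Finset.sum_pair (by norm_num)]
  have hz : ∀ a : ℕ, Even a → ((a : ℕ) : Kbar) = 0 := by
    rintro a ⟨r, hr⟩
    rw [hr]
    push_cast
    exact CharTwo.add_self_eq_zero _
  rw [hz _ hq.1, hz _ hq.2, add_zero]

/-- The reduction of the value at `L` to the range below `2 ^ (2 k)`. -/
lemma odd_iff_dsum (k m p q L : ℕ) (hk : 1 ≤ k) (hm : 1 ≤ m) (hmp : m ≤ p)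
    (hs : m + p = 2 ^ k + 1) (hL : 1 ≤ L)
    (hmod : L ≡ m * p + q * (m + p) [MOD 2 ^ (2 * k) - 1]) :
    IsOddInt (degNum m p q) ↔ dsum Kbar (2 ^ k + 1) m L = 1 := by
  have hodd : Odd (m + p) := by
    have h2 : Even (2 ^ k) := (Nat.even_pow.mpr ⟨even_two, by omega⟩)
    rw [hs]
    exact h2.add_one
  obtain ⟨ζ, hζ⟩ := exists_root (m + p) hodd
  have hN : (2 ^ k - 1) * (m + p) + 1 = 2 ^ (2 * k) := by
    rw [hs]
    exact pow_facts k
  have hmod' : L ≡ m * p + q * (m + p) [MOD (2 ^ k - 1) * (m + p)] := by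
    have e : (2 ^ k - 1) * (m + p) = 2 ^ (2 * k) - 1 := by omega
    rw [e]
    exact hmod
  have hL0 : 1 ≤ m * p + q * (m + p) := by
    have : 1 ≤ m * p := Nat.mul_pos hm (le_trans hm hmp)
    omega
  rw [odd_degNum_iff, odd_intDeg_iff m p q hm (le_trans hm hmp) hodd hζ,
    ← gsum_congr hζ.pow_eq_one hN hL0 hL hmod', gsum_dsum m p L hm hmp hζ hodd, hs]

end Pool.Agent.H73.DG
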