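import Pool.Agent.H73.DG.Cls

/-!
# The classification for `m + p = 2 ^ k + 1` and for `m + p = 2 ^ k - 1`
-/

set_option autoImplicit false

namespace Pool.Agent.H73.DG

open Finset

lemma red_eq {M L0 L T : ℕ} (hL : 1 ≤ L) (hL2 : L ≤ M) (hT : 1 ≤ T) (hT2 : T ≤ M)
    (h : L ≡ L0 [MOD M]) : L = T ↔ L0 ≡ T [MOD M] := by
  constructor
  · intro h1
    rw [← h1]
    exact h.symm
  · intro h1
    have h2 : L ≡ T [MOD M] := h.trans h1
    obtain ⟨a, rfl⟩ : ∃ a, L = a + 1 := ⟨L - 1, by omega⟩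
    obtain ⟨b, rfl⟩ : ∃ b, T = b + 1 := ⟨T - 1, by omega⟩
    have h3 := Nat.ModEq.add_right_cancel' 1 h2
    have h4 := Nat.ModEq.eq_of_lt_of_lt h3 (by omega) (by omega)
    omega

lemma red_exists (M L0 : ℕ) (hM : 1 ≤ M) (h0 : 1 ≤ L0) :
    ∃ L, 1 ≤ L ∧ L ≤ M ∧ L ≡ L0 [MOD M] := by
  refine ⟨(L0 - 1) % M + 1, by omega, ?_, ?_⟩
  · have := Nat.mod_lt (L0 - 1) (show M > 0 by omega)
    omega
  · have h7 : (L0 - 1) % M ≡ L0 - 1 [MOD M] := Nat.mod_modEq _ _
    have h8 := h7.add_right 1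
    have e : L0 - 1 + 1 = L0 := by omega
    rw [e] at h8
    exact h8

theorem three_iff (k q : ℕ) (hk : 3 ≤ k) :
    IsOddInt (degNum 3 (2 ^ k - 2) q) ↔ q % (2 ^ k - 1) = 3 ∨ q % (2 ^ k - 1) = 5 := by
  have h8 : 8 ≤ 2 ^ k := by
    calc 8 = 2 ^ 3 := by norm_num
      _ ≤ 2 ^ k := Nat.pow_le_pow_right (by norm_num) hk
  obtain ⟨N, hN⟩ : ∃ N, 2 ^ k = N + 1 := ⟨2 ^ k - 1, by omega⟩
  have hpf := pow_facts k
  have eN : 2 ^ k - 1 = N := by omega
  rw [eN] at hpf ⊢
  have hM : 2 ^ (2 * k) - 1 = N * (2 ^ k + 1) := by omega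
  have hM1 : 1 ≤ N * (2 ^ k + 1) := Nat.mul_pos (by omega) (by omega)
  have hL0 : 1 ≤ 3 * (2 ^ k - 2) + q * (3 + (2 ^ k - 2)) := by omega
  obtain ⟨L, hL1, hL2, hL3⟩ := red_exists (N * (2 ^ k + 1))
    (3 * (2 ^ k - 2) + q * (3 + (2 ^ k - 2))) hM1 hL0
  rw [odd_iff_dsum k 3 (2 ^ k - 2) q L (by omega) (by norm_num) (by omega) (by omega) hL1
    (by rw [hM]; exact hL3), three_support k hk L (by omega)]
  have h68 : ∑ j ∈ ({6, 8} : Finset ℕ), (if L = j * (2 ^ k + 1) - 9 then (1 : Kbar) else 0)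
      = if L = 6 * (2 ^ k + 1) - 9 ∨ L = 8 * (2 ^ k + 1) - 9 then 1 else 0 := by
    rw [Finset.sum_pair (by norm_num)]
    by_cases h1 : L = 6 * (2 ^ k + 1) - 9
    · rw [if_pos h1, if_neg (by omega), if_pos (Or.inl h1), add_zero]
    · by_cases h2 : L = 8 * (2 ^ k + 1) - 9
      · rw [if_neg h1, if_pos h2, if_pos (Or.inr h2), zero_add]
      · rw [if_neg h1, if_neg h2, if_neg (by tauto), zero_add]
  rw [h68]
  have h7N : 7 * (2 ^ k + 1) ≤ N * (2 ^ k + 1) := Nat.mul_le_mul_right _ (by omega)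
  have key : ∀ r, 3 ≤ r → r ≤ 5 → (L = (r + 3) * (2 ^ k + 1) - 9 ↔ q % N = r) := by
    intro r hr1 hr2
    have hT : (r + 3) * (2 ^ k + 1) - 9 ≤ N * (2 ^ k + 1) := by
      have h9 : (r + 3) * (2 ^ k + 1) ≤ 8 * (2 ^ k + 1) := Nat.mul_le_mul_right _ (by omega)
      rcases Nat.lt_or_ge N 8 with h10 | h10
      · have h11 : N = 7 := by omega
        subst h11
        omega
      · have h12 : 8 * (2 ^ k + 1) ≤ N * (2 ^ k + 1) := Nat.mul_le_mul_right _ h10
        omega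
    have hT1 : 6 * (2 ^ k + 1) ≤ (r + 3) * (2 ^ k + 1) := Nat.mul_le_mul_right _ (by omega)
    rw [red_eq hL1 hL2 (by omega) hT hL3]
    have e1 : 3 * (2 ^ k - 2) + q * (3 + (2 ^ k - 2)) + 9 = (q + 3) * (2 ^ k + 1) := by
      have e2 : 3 + (2 ^ k - 2) = 2 ^ k + 1 := by omega
      rw [e2]
      have e3 : (q + 3) * (2 ^ k + 1) = q * (2 ^ k + 1) + 3 * (2 ^ k + 1) := by ring
      omega
    have e4 : (r + 3) * (2 ^ k + 1) - 9 + 9 = (r + 3) * (2 ^ k + 1) := by omega
    have h13 : (3 * (2 ^ k - 2) + q * (3 + (2 ^ k - 2)) ≡ (r + 3) * (2 ^ k + 1) - 9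
        [MOD N * (2 ^ k + 1)]) ↔ q + 3 ≡ r + 3 [MOD N] := by
      constructor
      · intro h14
        have h15 := h14.add_right 9
        rw [e1, e4] at h15
        exact Nat.ModEq.mul_right_cancel' (by omega) h15
      · intro h14
        have h15 := Nat.ModEq.mul_right' (2 ^ k + 1) h14
        rw [← e1, ← e4] at h15
        exact Nat.ModEq.add_right_cancel' 9 h15
    rw [h13]
    constructor
    · intro h14
      have h15 := Nat.ModEq.add_right_cancel' 3 h14
      have h16 : q % N = r % N := h15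
      rw [h16, Nat.mod_eq_of_lt (by omega)]
    · intro h14
      have h15 : q ≡ r [MOD N] := by
        show q % N = r % N
        rw [h14, Nat.mod_eq_of_lt (by omega)]
      exact h15.add_right 3
  have k3 := key 3 (by norm_num) (by norm_num)
  have k5 := key 5 (by norm_num) (by norm_num)
  norm_num at k3 k5
  rw [← k3, ← k5]
  constructor
  · intro h
    by_contra hcon
    rw [if_neg hcon] at h
    exact zero_ne_one h
  · intro h
    rw [if_pos h]

lemma four_even (k q : ℕ) (hk : 4 ≤ k) : ¬ IsOddInt (degNum 4 (2 ^ k - 3) q) := by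
  have h16 : 16 ≤ 2 ^ k := by
    calc 16 = 2 ^ 4 := by norm_num
      _ ≤ 2 ^ k := Nat.pow_le_pow_right (by norm_num) hk
  have hpf := pow_facts k
  have hM1 : 1 ≤ (2 ^ k - 1) * (2 ^ k + 1) := Nat.mul_pos (by omega) (by omega)
  have hM : 2 ^ (2 * k) - 1 = (2 ^ k - 1) * (2 ^ k + 1) := by omega
  have hL0 : 1 ≤ 4 * (2 ^ k - 3) + q * (4 + (2 ^ k - 3)) := by omega
  obtain ⟨L, hL1, hL2, hL3⟩ := red_exists ((2 ^ k - 1) * (2 ^ k + 1))
    (4 * (2 ^ k - 3) + q * (4 + (2 ^ k - 3))) hM1 hL0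
  rw [odd_iff_dsum k 4 (2 ^ k - 3) q L (by omega) (by norm_num) (by omega) (by omega) hL1
    (by rw [hM]; exact hL3), four_zero k hk L (by omega)]
  exact zero_ne_one

lemma four_five (q : ℕ) : IsOddInt (degNum 4 5 q) ↔ q % 7 = 3 := by
  have hdiv : q % 7 + q / 7 * 7 = q := by omega
  have h := period_mul 4 5 6 7 (by norm_num) (by norm_num) (by norm_num) (by norm_num)
    (q % 7) (q / 7)
  rw [hdiv] at h
  rw [h, diag_card 4 5 _ (by norm_num)]
  have hlt : q % 7 < 7 := Nat.mod_lt _ (by norm_num)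
  generalize q % 7 = r at hlt
  interval_cases r
  · exact iff_of_false (by decide +kernel) (by norm_num)
  · exact iff_of_false (by decide +kernel) (by norm_num)
  · exact iff_of_false (by decide +kernel) (by norm_num)
  · exact iff_of_true (by decide +kernel) (by norm_num)
  · exact iff_of_false (by decide +kernel) (by norm_num)
  · exact iff_of_false (by decide +kernel) (by norm_num)
  · exact iff_of_false (by decide +kernel) (by norm_num)

lemma one_odd (p q : ℕ) (hp : 1 ≤ p) : IsOddInt (degNum 1 p q) := by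
  rw [diag 1 p q hp]
  unfold diagSum
  rw [Finset.Nat.antidiagonalTuple_one, Finset.sum_singleton]
  have h : ∀ f : Fin 1 → ℕ, Nat.multinomial Finset.univ f = 1 := by
    intro f
    have h1 : (Finset.univ : Finset (Fin 1)) = {0} := rfl
    rw [h1, Nat.multinomial_singleton]
  rw [h]
  exact odd_one

/-- The classification for `m + p = 2 ^ k + 1`. -/
theorem cls (k m p q : ℕ) (hm : 1 ≤ m) (hmp : m ≤ p) (hs : m + p = 2 ^ k + 1) :
    IsOddInt (degNum m p q) ↔ m = 1 ∨ (m = 2 ∧ ∃ j, q % (2 ^ k - 1) + 1 = 2 ^ j) ∨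
      (m = 3 ∧ (q % (2 ^ k - 1) = 3 ∨ q % (2 ^ k - 1) = 5)) ∨ (k = 3 ∧ m = 4 ∧ q % 7 = 3) := by
  have hp1 : 1 ≤ p := le_trans hm hmp
  rcases Nat.lt_or_ge m 2 with h2 | h2
  · have h1 : m = 1 := by omega
    subst h1
    exact iff_of_true (one_odd p q hp1) (Or.inl rfl)
  have hk : 1 ≤ k := by
    by_contra hcon
    have h0 : k = 0 := by omega
    subst h0
    rw [pow_zero] at hs
    omega
  rcases Nat.lt_or_ge m 3 with h3 | h3
  · have h1 : m = 2 := by omega
    subst h1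
    have hp : p + 1 = 2 ^ k := by omega
    have e : 2 ^ k - 1 = p := by omega
    rw [mersenne_all k p hk hp q, e]
    constructor
    · intro h
      exact Or.inr (Or.inl ⟨rfl, h⟩)
    · rintro (h | ⟨_, h⟩ | ⟨h, _⟩ | ⟨_, h, _⟩)
      · omega
      · exact h
      · omega
      · omega
  have hk3 : 3 ≤ k := by
    by_contra hcon
    have h1 : 2 ^ k ≤ 2 ^ 2 := Nat.pow_le_pow_right (by norm_num) (by omega)
    norm_num at h1
    omega
  rcases Nat.lt_or_ge m 4 with h4 | h4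
  · have h1 : m = 3 := by omega
    subst h1
    have hp : p = 2 ^ k - 2 := by omega
    rw [hp, three_iff k q hk3]
    constructor
    · intro h
      exact Or.inr (Or.inr (Or.inl ⟨rfl, h⟩))
    · rintro (h | ⟨h, _⟩ | ⟨_, h⟩ | ⟨_, h, _⟩)
      · omega
      · omega
      · exact h
      · omega
  rcases Nat.lt_or_ge k 4 with hk4 | hk4
  · have h1 : k = 3 := by omega
    subst h1
    norm_num at hs
    have h5 : m = 4 := by omega
    have h6 : p = 5 := by omega
    subst h5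
    subst h6
    rw [four_five q]
    constructor
    · intro h
      exact Or.inr (Or.inr (Or.inr ⟨rfl, rfl, h⟩))
    · rintro (h | ⟨h, _⟩ | ⟨h, _⟩ | ⟨_, _, h⟩)
      · omega
      · omega
      · omega
      · exact h
  · have h16 : 16 ≤ 2 ^ k := by
      calc 16 = 2 ^ 4 := by norm_num
        _ ≤ 2 ^ k := Nat.pow_le_pow_right (by norm_num) hk4
    have hodd : Odd (2 ^ k + 1) := by
      have h2 : Even (2 ^ k) := (Nat.even_pow.mpr ⟨even_two, by omega⟩)
      exact h2.add_one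
    constructor
    · intro h
      exfalso
      obtain ⟨q', hq'⟩ := mono 4 (2 ^ k - 3) m p (by norm_num) h4 hmp (by omega)
        (by
          have e : 4 + (2 ^ k - 3) = 2 ^ k + 1 := by omega
          rw [e]
          exact hodd) ⟨q, h⟩
      exact four_even k q' hk4 hq'
    · rintro (h | ⟨h, _⟩ | ⟨h, _⟩ | ⟨h, _, _⟩)
      · omega
      · omega
      · omega
      · omega

/-- The classification for `m + p = 2 ^ k - 1`. -/
theorem cls_mersenne (k m p q : ℕ) (hm : 1 ≤ m) (hmp : m ≤ p) (hs : m + p + 1 = 2 ^ k) :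
    IsOddInt (degNum m p q) ↔ m = 1 := by
  have hp1 : 1 ≤ p := le_trans hm hmp
  rcases Nat.lt_or_ge m 2 with h2 | h2
  · have h1 : m = 1 := by omega
    subst h1
    exact iff_of_true (one_odd p q hp1) rfl
  · refine iff_of_false ?_ (by omega)
    intro h
    have hk3 : 3 ≤ k := by
      by_contra hcon
      have h1 : 2 ^ k ≤ 2 ^ 2 := Nat.pow_le_pow_right (by norm_num) (by omega)
      norm_num at h1
      omega
    obtain ⟨k', rfl⟩ : ∃ k', k = k' + 3 := ⟨k - 3, by omega⟩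
    have e8 : 2 ^ (k' + 3) = 8 * 2 ^ k' := by rw [pow_add]; ring
    have hk1 := Nat.one_le_two_pow (n := k')
    have hodd : Odd (2 + (2 ^ (k' + 3) - 3)) := by
      refine ⟨4 * 2 ^ k' - 1, ?_⟩
      omega
    obtain ⟨q', hq'⟩ := mono 2 (2 ^ (k' + 3) - 3) m p (by norm_num) h2 hmp (by omega) hodd ⟨q, h⟩
    have h3 := ((parity (2 ^ (k' + 3) - 3) (by omega)).2.2.1 (k' + 3) 1 (le_refl 1)
      (by omega)).2 q' (one_dvd _)
    rw [h3] at hq'
    omega

end Pool.Agent.H73.DG
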