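import Mathlib

set_option autoImplicit false

namespace Pool.Agent.H73.DG

/-- the quotient `(2^(k t) - 1) / (2^k - 1)` -/
private def ww (k t : ℕ) : ℕ := (2 ^ (k * t) - 1) / (2 ^ k - 1)

private theorem ww_spec (k t : ℕ) : 2 ^ (k * t) = 1 + (2 ^ k - 1) * ww k t := by
  have h1 : (2 ^ k - 1) ∣ (2 ^ (k * t) - 1) := by
    have h := Nat.sub_dvd_pow_sub_pow (2 ^ k) 1 t
    rwa [one_pow, ← pow_mul] at h
  have h2 : (2 ^ k - 1) * ww k t = 2 ^ (k * t) - 1 := Nat.mul_div_cancel' h1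
  have h3 : 1 ≤ 2 ^ (k * t) := Nat.one_le_two_pow
  omega

/-- the powers of two with exponent `k n` -/
private theorem key (k r n : ℕ) (hk : 2 ≤ k) (hr : 1 ≤ r)
    (hrad : ∀ l : ℕ, l.Prime → l ∣ r → l ∣ 2 ^ k - 1) (hn : n ≠ 0)
    (h : (2 ^ k - 1) * r ∣ 2 ^ (k * n) - 1) : r ∣ n := by
  have h4 : 2 ^ 2 ≤ 2 ^ k := Nat.pow_le_pow_right (by norm_num) hk
  have ha : 2 ^ k - 1 ≠ 0 := by omega
  have hr0 : r ≠ 0 := by omega
  have hkn : 2 ^ 1 ≤ 2 ^ (k * n) :=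
    Nat.pow_le_pow_right (by norm_num) (Nat.mul_pos (by omega) (Nat.pos_of_ne_zero hn))
  have hN : 2 ^ (k * n) - 1 ≠ 0 := by omega
  rw [← Nat.factorization_prime_le_iff_dvd hr0 hn]
  intro l hl
  by_cases hlr : l ∣ r
  · have hla := hrad l hl hlr
    have hfact : Fact l.Prime := ⟨hl⟩
    have hl2 : ¬ l ∣ 2 ^ k := by
      intro h1
      have h2 : l ∣ 2 ^ k - (2 ^ k - 1) := Nat.dvd_sub h1 hla
      have h3 : 2 ^ k - (2 ^ k - 1) = 1 := by omega
      rw [h3] at h2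
      exact hl.one_lt.ne' (Nat.dvd_one.1 h2)
    have hodd : Odd l := by
      refine hl.odd_of_ne_two ?_
      rintro rfl
      exact hl2 (dvd_pow_self 2 (by omega))
    have e1 := padicValNat.pow_sub_pow (p := l) hodd (x := 2 ^ k) (y := 1) (by omega) hla hl2 hn
    rw [one_pow, ← pow_mul] at e1
    have e2 := (Nat.factorization_le_iff_dvd (mul_ne_zero ha hr0) hN).2 h l
    rw [Nat.factorization_mul ha hr0, Finsupp.add_apply, Nat.factorization_def _ hl,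
      Nat.factorization_def _ hl, Nat.factorization_def _ hl, e1] at e2
    rw [Nat.factorization_def _ hl, Nat.factorization_def _ hl]
    omega
  · rw [Nat.factorization_eq_zero_of_not_dvd hlr]
    exact Nat.zero_le _

private theorem inj (k r : ℕ) (hk : 2 ≤ k) (hr : 1 ≤ r)
    (hrad : ∀ l : ℕ, l.Prime → l ∣ r → l ∣ 2 ^ k - 1) {t t' : ℕ} (htt : t' < t) (ht : t < r)
    (h : ww k t ≡ ww k t' [MOD r]) : False := by
  have h4 : 2 ^ 2 ≤ 2 ^ k := Nat.pow_le_pow_right (by norm_num) hk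
  have h1 : (2 ^ k - 1) * ww k t ≡ (2 ^ k - 1) * ww k t' [MOD (2 ^ k - 1) * r] :=
    Nat.ModEq.mul_left' _ h
  have h2 : 2 ^ (k * t) ≡ 2 ^ (k * t') [MOD (2 ^ k - 1) * r] := by
    rw [ww_spec k t, ww_spec k t']
    exact Nat.ModEq.add_left 1 h1
  have h3 : k * t = k * t' + k * (t - t') := by
    rw [← mul_add]
    congr 1
    omega
  have h5 : (2 ^ k - 1) * r ∣ 2 ^ (k * t) - 2 ^ (k * t') :=
    (Nat.modEq_iff_dvd' (Nat.pow_le_pow_right (by norm_num)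
      (Nat.mul_le_mul_left k htt.le))).1 h2.symm
  have h6 : 2 ^ (k * t) - 2 ^ (k * t') = 2 ^ (k * t') * (2 ^ (k * (t - t')) - 1) := by
    rw [h3, pow_add, Nat.mul_sub_one]
  rw [h6] at h5
  have hodd1 : Nat.Coprime (2 ^ k - 1) 2 := by
    rw [Nat.coprime_two_right]
    have h7 : Even (2 ^ k) := (Nat.even_pow' (by omega)).2 even_two
    exact Nat.Even.sub_odd (by omega) h7 odd_one
  have hodd2 : Nat.Coprime r 2 := by
    rw [Nat.coprime_comm, Nat.Prime.coprime_iff_not_dvd Nat.prime_two]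
    intro h7
    have h8 := hrad 2 Nat.prime_two h7
    have h9 : Nat.gcd (2 ^ k - 1) 2 = 2 := Nat.gcd_eq_right h8
    rw [Nat.Coprime] at hodd1
    omega
  have hcop : Nat.Coprime ((2 ^ k - 1) * r) (2 ^ (k * t')) :=
    Nat.Coprime.pow_right _ (Nat.Coprime.mul_left hodd1 hodd2)
  have h7 := hcop.dvd_of_dvd_mul_left h5
  have h8 := key k r (t - t') hk hr hrad (by omega) h7
  have h9 := Nat.le_of_dvd (by omega) h8
  omega

theorem gen_mersenne (k r : ℕ) (hk : 2 ≤ k) (hr : 1 ≤ r)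
    (hrad : ∀ l : ℕ, l.Prime → l ∣ r → l ∣ 2 ^ k - 1) (u : ℕ) :
    ∃ i : ℕ, 2 ^ i ≡ 1 + (2 ^ k - 1) * u [MOD (2 ^ k - 1) * r] := by
  have hf : Function.Injective
      (fun t : Fin r => (⟨ww k (t : ℕ) % r, Nat.mod_lt _ hr⟩ : Fin r)) := by
    intro t t' h
    have h1 : ww k (t : ℕ) ≡ ww k (t' : ℕ) [MOD r] := congrArg Fin.val h
    rcases lt_trichotomy (t : ℕ) (t' : ℕ) with h2 | h2 | h2
    · exact (inj k r hk hr hrad h2 t'.isLt h1.symm).elim
    · exact Fin.ext h2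
    · exact (inj k r hk hr hrad h2 t.isLt h1).elim
  obtain ⟨t, ht⟩ := (Finite.injective_iff_surjective.1 hf) ⟨u % r, Nat.mod_lt _ hr⟩
  have h1 : ww k (t : ℕ) ≡ u [MOD r] := congrArg Fin.val ht
  refine ⟨k * t, ?_⟩
  rw [ww_spec k t]
  exact Nat.ModEq.add_left 1 (Nat.ModEq.mul_left' _ h1)

end Pool.Agent.H73.DG
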