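import Pool.Agent.H73.DG.Char2

/-!
# Sums of few roots of unity in characteristic two have only one representation
-/

set_option autoImplicit false

namespace Pool.Agent.H73.DG

open Finset

variable {K : Type*} [Field K] [CharP K 2]

/-- indicator function with values in `K` -/
def chi (K : Type*) [Field K] (I : Finset ℕ) (i : ℕ) : K := if i ∈ I then 1 else 0

lemma chi_sub (K : Type*) [Field K] (I J : Finset ℕ) (i : ℕ) :
    chi K I i - chi K J i = 0 ↔ (i ∈ I ↔ i ∈ J) := by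
  unfold chi
  by_cases h1 : i ∈ I <;> by_cases h2 : i ∈ J <;> simp [h1, h2]

lemma dvd_iff_eq {s i i₀ : ℕ} (hi : i < s) (hi₀ : i₀ < s) : s ∣ i + (s - 1) * i₀ ↔ i = i₀ := by
  have e : i + (s - 1) * i₀ + i₀ = i + s * i₀ := by
    obtain ⟨t, rfl⟩ : ∃ t, s = t + 1 := ⟨s - 1, by omega⟩
    simp only [Nat.add_sub_cancel]
    ring
  constructor
  · intro h
    have h2 : (i + (s - 1) * i₀ + i₀) % s = i₀ := by
      rw [Nat.add_mod, Nat.mod_eq_zero_of_dvd h, zero_add, Nat.mod_mod, Nat.mod_eq_of_lt hi₀]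
    rw [e, Nat.add_mul_mod_self_left, Nat.mod_eq_of_lt hi] at h2
    exact h2
  · rintro rfl
    refine ⟨i, ?_⟩
    omega

/-- Fourier inversion. -/
lemma four {ζ : K} {s : ℕ} (hζ : IsPrimitiveRoot ζ s) (hs : Odd s) (I : Finset ℕ)
    (hI : I ⊆ range s) {i₀ : ℕ} (hi₀ : i₀ < s) :
    ∑ a ∈ range s, (∑ i ∈ I, (ζ ^ a) ^ i) * (ζ ^ a) ^ ((s - 1) * i₀) = chi K I i₀ := by
  have h1 : ∀ a, (∑ i ∈ I, (ζ ^ a) ^ i) * (ζ ^ a) ^ ((s - 1) * i₀) =
      ∑ i ∈ I, (ζ ^ a) ^ (i + (s - 1) * i₀) := by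
    intro a
    rw [Finset.sum_mul]
    exact Finset.sum_congr rfl (fun i _ => (pow_add _ _ _).symm)
  simp only [h1]
  rw [Finset.sum_comm]
  have h2 : ∀ i ∈ I, ∑ a ∈ range s, (ζ ^ a) ^ (i + (s - 1) * i₀) =
      if i = i₀ then (1 : K) else 0 := by
    intro i hi
    rw [root_sum hζ hs]
    simp only [dvd_iff_eq (Finset.mem_range.mp (hI hi)) hi₀]
  rw [Finset.sum_congr rfl h2, Finset.sum_ite_eq']
  rfl

lemma frob {ζ : K} {s : ℕ} (hζ : ζ ^ s = 1) {I J : Finset ℕ}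
    (hsum : ∑ i ∈ I, ζ ^ i = ∑ i ∈ J, ζ ^ i) {a k : ℕ} (h : 2 ^ k ≡ a [MOD s]) :
    ∑ i ∈ I, (ζ ^ a) ^ i = ∑ i ∈ J, (ζ ^ a) ^ i := by
  have hp : ζ ^ (2 ^ k) = ζ ^ a := by
    rw [pow_eq_pow_mod (2 ^ k) hζ, h, ← pow_eq_pow_mod a hζ]
  have key : ∀ I : Finset ℕ, ∑ i ∈ I, (ζ ^ a) ^ i = (∑ i ∈ I, ζ ^ i) ^ (2 ^ k) := by
    intro I
    rw [sum_pow_char_pow 2]
    refine Finset.sum_congr rfl fun i _ => ?_
    rw [← hp, ← pow_mul, ← pow_mul, mul_comm]
  rw [key I, key J, hsum]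

lemma chi_const {ζ : K} {l j : ℕ} (hl2 : Odd l) (hζ : IsPrimitiveRoot ζ (l ^ (j + 1)))
    (h2 : ∀ a : ℕ, ¬ l ∣ a → ∃ i : ℕ, 2 ^ i ≡ a [MOD l ^ (j + 1)])
    (I J : Finset ℕ) (hI : I ⊆ range (l ^ (j + 1))) (hJ : J ⊆ range (l ^ (j + 1)))
    (hsum : ∑ i ∈ I, ζ ^ i = ∑ i ∈ J, ζ ^ i) {i₀ i₁ : ℕ} (h0 : i₀ < l ^ (j + 1))
    (h1 : i₁ < l ^ (j + 1)) (h : i₀ % l ^ j = i₁ % l ^ j) :
    chi K I i₀ - chi K J i₀ = chi K I i₁ - chi K J i₁ := by
  have hs : Odd (l ^ (j + 1)) := hl2.pow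
  rw [← four hζ hs I hI h0, ← four hζ hs J hJ h0, ← four hζ hs I hI h1, ← four hζ hs J hJ h1,
    ← Finset.sum_sub_distrib, ← Finset.sum_sub_distrib]
  refine Finset.sum_congr rfl fun a _ => ?_
  by_cases ha : l ∣ a
  · obtain ⟨b, rfl⟩ := ha
    have e : ((ζ ^ (l * b)) ^ (l ^ (j + 1) - 1)) ^ l ^ j = 1 := by
      have e1 : l * b * ((l ^ (j + 1) - 1) * l ^ j) = l ^ (j + 1) * (b * (l ^ (j + 1) - 1)) := by
        generalize hu : l ^ (j + 1) - 1 = u
        rw [pow_succ]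
        ring
      rw [← pow_mul, ← pow_mul, e1, pow_mul, hζ.pow_eq_one, one_pow]
    have e2 : (ζ ^ (l * b)) ^ ((l ^ (j + 1) - 1) * i₀) = (ζ ^ (l * b)) ^ ((l ^ (j + 1) - 1) * i₁) := by
      rw [pow_mul (ζ ^ (l * b)) (l ^ (j + 1) - 1) i₀, pow_mul (ζ ^ (l * b)) (l ^ (j + 1) - 1) i₁,
        pow_eq_pow_mod i₀ e, h, ← pow_eq_pow_mod i₁ e]
    rw [e2]
  · obtain ⟨k, hk⟩ := h2 a ha
    have e3 := frob hζ.pow_eq_one hsum hk
    rw [e3, sub_self, sub_self]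

lemma class_card {r c : ℕ} (l : ℕ) (hc : c < r) :
    ((range (r * l)).filter (fun i => i % r = c)).card = l := by
  have : (range (r * l)).filter (fun i => i % r = c) = (range l).image (fun t => c + r * t) := by
    ext i
    simp only [Finset.mem_filter, Finset.mem_range, Finset.mem_image]
    constructor
    · rintro ⟨h1, h2⟩
      refine ⟨i / r, Nat.div_lt_of_lt_mul h1, ?_⟩
      rw [← h2]
      exact Nat.mod_add_div i r
    · rintro ⟨t, ht, rfl⟩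
      refine ⟨?_, ?_⟩
      · calc c + r * t < r + r * t := by omega
          _ = r * (t + 1) := by ring
          _ ≤ r * l := Nat.mul_le_mul_left _ ht
      · rw [Nat.add_mul_mod_self_left, Nat.mod_eq_of_lt hc]
  rw [this, Finset.card_image_of_injective, Finset.card_range]
  intro x y h
  have h3 : r * x = r * y := Nat.add_left_cancel h
  exact Nat.eq_of_mul_eq_mul_left (by omega) h3

/-- Two sets of exponents with the same sum of powers and the same size agree, if one of them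
has fewer than half of the elements in every residue class. -/
theorem isolated_gen {ζ : K} {l j : ℕ} (hl : l.Prime) (hl2 : Odd l)
    (hζ : IsPrimitiveRoot ζ (l ^ (j + 1)))
    (h2 : ∀ a : ℕ, ¬ l ∣ a → ∃ i : ℕ, 2 ^ i ≡ a [MOD l ^ (j + 1)])
    (I J : Finset ℕ) (hI : I ⊆ range (l ^ (j + 1))) (hJ : J ⊆ range (l ^ (j + 1)))
    (hsparse : ∀ c, 2 * (J.filter (fun a => a % l ^ j = c)).card < l)
    (hsum : ∑ i ∈ I, ζ ^ i = ∑ i ∈ J, ζ ^ i) (hcard : I.card = J.card) : I = J := by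
  have hr : 0 < l ^ j := pow_pos hl.pos j
  have hsr : l ^ (j + 1) = l ^ j * l := pow_succ l j
  have hconst : ∀ i₀ i₁ : ℕ, i₀ < l ^ (j + 1) → i₁ < l ^ (j + 1) → i₀ % l ^ j = i₁ % l ^ j →
      (i₀ ∈ I ↔ i₀ ∈ J) → (i₁ ∈ I ↔ i₁ ∈ J) := by
    intro i₀ i₁ h0 h1 h hiff
    rw [← chi_sub K] at hiff ⊢
    rw [← chi_const hl2 hζ h2 I J hI hJ hsum h0 h1 h]
    exact hiff
  have hlt : ∀ i₀ : ℕ, i₀ < l ^ (j + 1) → ¬ (i₀ ∈ I ↔ i₀ ∈ J) →
      (J.filter (fun a => a % l ^ j = i₀ % l ^ j)).card <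
        (I.filter (fun a => a % l ^ j = i₀ % l ^ j)).card := by
    intro i₀ h0 hn
    have hbad : ∀ i, i < l ^ (j + 1) → i % l ^ j = i₀ % l ^ j → ¬ (i ∈ I ↔ i ∈ J) :=
      fun i hi hmod hiff => hn (hconst i i₀ hi h0 hmod hiff)
    have hdis : Disjoint (I.filter (fun a => a % l ^ j = i₀ % l ^ j))
        (J.filter (fun a => a % l ^ j = i₀ % l ^ j)) := by
      rw [Finset.disjoint_left]
      intro i hi hi'
      rw [Finset.mem_filter] at hi hi'
      exact hbad i (Finset.mem_range.mp (hI hi.1)) hi.2 ⟨fun _ => hi'.1, fun _ => hi.1⟩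
    have hun : (I.filter (fun a => a % l ^ j = i₀ % l ^ j)) ∪
        (J.filter (fun a => a % l ^ j = i₀ % l ^ j)) =
        (range (l ^ j * l)).filter (fun i => i % l ^ j = i₀ % l ^ j) := by
      ext i
      simp only [Finset.mem_union, Finset.mem_filter]
      constructor
      · rintro (⟨h3, h4⟩ | ⟨h3, h4⟩)
        · exact ⟨hsr ▸ hI h3, h4⟩
        · exact ⟨hsr ▸ hJ h3, h4⟩
      · rintro ⟨h3, h4⟩
        rw [← hsr, Finset.mem_range] at h3
        have h5 := hbad i h3 h4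
        by_cases h6 : i ∈ I
        · exact Or.inl ⟨h6, h4⟩
        · refine Or.inr ⟨?_, h4⟩
          by_contra h7
          exact h5 ⟨fun h => absurd h h6, fun h => absurd h h7⟩
    have hc := class_card l (Nat.mod_lt i₀ hr)
    rw [← hun, Finset.card_union_of_disjoint hdis] at hc
    have := hsparse (i₀ % l ^ j)
    omega
  have hle : ∀ c ∈ range (l ^ j), (J.filter (fun a => a % l ^ j = c)).card ≤
      (I.filter (fun a => a % l ^ j = c)).card := by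
    intro c _
    by_cases hex : ∃ i, i < l ^ (j + 1) ∧ i % l ^ j = c ∧ ¬ (i ∈ I ↔ i ∈ J)
    · obtain ⟨i, hi, rfl, hn⟩ := hex
      exact (hlt i hi hn).le
    · have : J.filter (fun a => a % l ^ j = c) = I.filter (fun a => a % l ^ j = c) := by
        ext i
        simp only [Finset.mem_filter]
        constructor
        · rintro ⟨h3, h4⟩
          refine ⟨?_, h4⟩
          by_contra h5
          exact hex ⟨i, Finset.mem_range.mp (hJ h3), h4, fun h => h5 (h.mpr h3)⟩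
        · rintro ⟨h3, h4⟩
          refine ⟨?_, h4⟩
          by_contra h5
          exact hex ⟨i, Finset.mem_range.mp (hI h3), h4, fun h => h5 (h.mp h3)⟩
      rw [this]
  by_contra hne
  have hex : ∃ i, ¬ (i ∈ I ↔ i ∈ J) := by
    by_contra hall
    push Not at hall
    exact hne (Finset.ext hall)
  obtain ⟨i₀, hi₀⟩ := hex
  have h0 : i₀ < l ^ (j + 1) := by
    by_contra hcon
    apply hi₀
    constructor
    · intro h
      exact absurd (Finset.mem_range.mp (hI h)) hcon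
    · intro h
      exact absurd (Finset.mem_range.mp (hJ h)) hcon
  have hmaps : ∀ A : Finset ℕ, A.card =
      ∑ c ∈ range (l ^ j), (A.filter (fun a => a % l ^ j = c)).card := fun A =>
    Finset.card_eq_sum_card_fiberwise (fun a _ => Finset.mem_coe.mpr
      (Finset.mem_range.mpr (Nat.mod_lt a hr)))
  have hsumlt := Finset.sum_lt_sum hle
    ⟨i₀ % l ^ j, Finset.mem_range.mpr (Nat.mod_lt i₀ hr), hlt i₀ h0 hi₀⟩
  rw [← hmaps J, ← hmaps I] at hsumlt
  omega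

theorem isolated {ζ : K} {j : ℕ} (hζ : IsPrimitiveRoot ζ (3 ^ (j + 1)))
    (h2 : ∀ a : ℕ, ¬ 3 ∣ a → ∃ i : ℕ, 2 ^ i ≡ a [MOD 3 ^ (j + 1)])
    (I J : Finset ℕ) (hI : I ⊆ range (3 ^ (j + 1))) (hJ : J ⊆ range (3 ^ (j + 1)))
    (hsparse : ∀ a ∈ J, ∀ b ∈ J, a % 3 ^ j = b % 3 ^ j → a = b)
    (hsum : ∑ i ∈ I, ζ ^ i = ∑ i ∈ J, ζ ^ i) (hcard : I.card = J.card) : I = J := by
  refine isolated_gen Nat.prime_three (by decide) hζ h2 I J hI hJ ?_ hsum hcard
  intro c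
  have h1 : (J.filter (fun a => a % 3 ^ j = c)).card ≤ 1 := by
    rw [Finset.card_le_one]
    intro a ha b hb
    rw [Finset.mem_filter] at ha hb
    exact hsparse a ha.1 b hb.1 (ha.2.trans hb.2.symm)
  omega

end Pool.Agent.H73.DG
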