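import Pool.Agent.H73.DG.Char2
import Pool.Agent.H73.DG.Iso

set_option autoImplicit false

/-!
# Sums of powers with exponents in different residue classes have only one representation
-/

namespace Pool.Agent.H73.DG

open Finset

variable {K : Type*} [Field K] [CharP K 2]

private lemma class_iff {r x c : ℕ} (hc : c < r) : r ∣ x + (r - c) ↔ x % r = c := by
  constructor
  · intro h
    have h2 : (x + (r - c) + c) % r = c := by
      rw [Nat.add_mod, Nat.mod_eq_zero_of_dvd h, zero_add, Nat.mod_mod, Nat.mod_eq_of_lt hc]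
    have e : x + (r - c) + c = x + r := by omega
    rw [e, Nat.add_mod_right] at h2
    exact h2
  · intro h
    have h1 := Nat.mod_add_div x r
    refine ⟨x / r + 1, ?_⟩
    rw [Nat.mul_add, Nat.mul_one]
    omega

private lemma class_sum {ζ : K} {a r : ℕ} (hr : Odd r) (hη : IsPrimitiveRoot (ζ ^ a) r)
    (I : Finset ℕ) {c : ℕ} (hc : c < r) :
    ∑ u ∈ range r, ((ζ ^ a) ^ u) ^ (r - c) * ∑ x ∈ I, (ζ ^ (1 + a * u)) ^ x =
      ∑ x ∈ I.filter (fun x => x % r = c), ζ ^ x := by
  have h1 : ∀ u, ((ζ ^ a) ^ u) ^ (r - c) * ∑ x ∈ I, (ζ ^ (1 + a * u)) ^ x =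
      ∑ x ∈ I, ζ ^ x * ((ζ ^ a) ^ u) ^ (x + (r - c)) := by
    intro u
    rw [Finset.mul_sum]
    refine Finset.sum_congr rfl fun x _ => ?_
    rw [pow_add ζ, pow_one, mul_pow, pow_mul ζ a u, pow_add ((ζ ^ a) ^ u)]
    ring
  simp only [h1]
  rw [Finset.sum_comm, Finset.sum_filter]
  refine Finset.sum_congr rfl fun x _ => ?_
  rw [← Finset.mul_sum, root_sum hη hr]
  simp only [class_iff hc]
  split_ifs <;> simp

theorem isolated_sparse {ζ : K} {a r : ℕ} (hodd : Odd (a * r))
    (hζ : IsPrimitiveRoot ζ (a * r))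
    (h2 : ∀ u : ℕ, ∃ i : ℕ, 2 ^ i ≡ 1 + a * u [MOD a * r])
    (I J : Finset ℕ) (hI : I ⊆ range (a * r)) (hJ : J ⊆ range (a * r))
    (hsparse : ∀ x ∈ J, ∀ y ∈ J, x % r = y % r → x = y)
    (hsum : ∑ i ∈ I, ζ ^ i = ∑ i ∈ J, ζ ^ i) (hcard : I.card = J.card) : I = J := by
  have hr : Odd r := (Nat.odd_mul.mp hodd).2
  have hr0 : 0 < r := hr.pos
  have hη : IsPrimitiveRoot (ζ ^ a) r := hζ.pow hodd.pos rfl
  have hcls : ∀ c, c < r → ∑ x ∈ I.filter (fun x => x % r = c), ζ ^ x =
      ∑ x ∈ J.filter (fun x => x % r = c), ζ ^ x := by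
    intro c hc
    rw [← class_sum hr hη I hc, ← class_sum hr hη J hc]
    refine Finset.sum_congr rfl fun u _ => ?_
    obtain ⟨i, hi⟩ := h2 u
    rw [frob hζ.pow_eq_one hsum hi]
  have hJ1 : ∀ c, (J.filter (fun x => x % r = c)).card ≤ 1 := by
    intro c
    rw [Finset.card_le_one]
    intro x hx y hy
    rw [Finset.mem_filter] at hx hy
    exact hsparse x hx.1 y hy.1 (hx.2.trans hy.2.symm)
  have hle : ∀ c ∈ range r, (J.filter (fun x => x % r = c)).card ≤
      (I.filter (fun x => x % r = c)).card := by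
    intro c hc
    rw [Finset.mem_range] at hc
    rcases Nat.eq_zero_or_pos (J.filter (fun x => x % r = c)).card with h | h
    · omega
    · obtain ⟨x0, hx0⟩ := Finset.card_eq_one.mp (le_antisymm (hJ1 c) h)
      have h3 := hcls c hc
      rw [hx0, Finset.sum_singleton] at h3
      have h4 : 0 < (I.filter (fun x => x % r = c)).card := by
        rw [Finset.card_pos]
        by_contra hne
        rw [Finset.not_nonempty_iff_eq_empty] at hne
        rw [hne, Finset.sum_empty] at h3
        exact pow_ne_zero x0 (hζ.ne_zero hodd.pos.ne') h3.symm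
      have := hJ1 c
      omega
  have hmaps : ∀ A : Finset ℕ, A.card =
      ∑ c ∈ range r, (A.filter (fun x => x % r = c)).card := fun A =>
    Finset.card_eq_sum_card_fiberwise (fun x _ => Finset.mem_coe.mpr
      (Finset.mem_range.mpr (Nat.mod_lt x hr0)))
  have heq : ∀ c ∈ range r, (J.filter (fun x => x % r = c)).card =
      (I.filter (fun x => x % r = c)).card := by
    rw [← Finset.sum_eq_sum_iff_of_le hle, ← hmaps, ← hmaps, hcard]
  have hset : ∀ c, c < r → I.filter (fun x => x % r = c) = J.filter (fun x => x % r = c) := by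
    intro c hc
    have h1 := heq c (Finset.mem_range.mpr hc)
    rcases Nat.eq_zero_or_pos (J.filter (fun x => x % r = c)).card with h | h
    · rw [Finset.card_eq_zero.mp h, Finset.card_eq_zero.mp (h1.symm.trans h)]
    · have h3 := le_antisymm (hJ1 c) h
      obtain ⟨x0, hx0⟩ := Finset.card_eq_one.mp h3
      obtain ⟨x1, hx1⟩ := Finset.card_eq_one.mp (h1.symm.trans h3)
      have h4 := hcls c hc
      rw [hx0, hx1, Finset.sum_singleton, Finset.sum_singleton] at h4
      have m0 : x0 ∈ J := by
        have : x0 ∈ J.filter (fun x => x % r = c) := by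
          rw [hx0]
          exact Finset.mem_singleton_self x0
        exact (Finset.mem_filter.mp this).1
      have m1 : x1 ∈ I := by
        have : x1 ∈ I.filter (fun x => x % r = c) := by
          rw [hx1]
          exact Finset.mem_singleton_self x1
        exact (Finset.mem_filter.mp this).1
      have h5 := hζ.pow_inj (Finset.mem_range.mp (hI m1)) (Finset.mem_range.mp (hJ m0)) h4
      rw [hx0, hx1, h5]
  ext x
  have h1 := hset (x % r) (Nat.mod_lt x hr0)
  constructor
  · intro hx
    have h3 : x ∈ I.filter (fun y => y % r = x % r) := Finset.mem_filter.mpr ⟨hx, rfl⟩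
    rw [h1] at h3
    exact (Finset.mem_filter.mp h3).1
  · intro hx
    have h3 : x ∈ J.filter (fun y => y % r = x % r) := Finset.mem_filter.mpr ⟨hx, rfl⟩
    rw [← h1] at h3
    exact (Finset.mem_filter.mp h3).1

end Pool.Agent.H73.DG
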