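import Pool.Agent.H73.DG.Exist
import Pool.Agent.H73.DG.Iso5
import Pool.Agent.H73.DG.Gen5

/-!
# Odd `d(m,p,q)` for `m + p = a r` and `m ≤ r`
-/

set_option autoImplicit false

namespace Pool.Agent.H73.DG

open Finset

/-- If `m + p = a r` is odd, `3 ≤ a`, `1 ≤ m ≤ r` and every residue congruent to one modulo `a` is a
power of two modulo `a r`, then `d(m,p,q)` is odd for some `q`. -/
theorem exists_odd_sparse (a r m p : ℕ) (ha : 3 ≤ a) (hodd : Odd (a * r))
    (h2 : ∀ u : ℕ, ∃ i : ℕ, 2 ^ i ≡ 1 + a * u [MOD a * r])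
    (hm : 1 ≤ m) (hmr : m ≤ r) (hp : m + p = a * r) :
    ∃ q, IsOddInt (degNum m p q) := by
  have hge : 3 * r ≤ a * r := Nat.mul_le_mul_right _ ha
  have hp1 : 1 ≤ p := by omega
  have hodd' : Odd (m + p) := by
    rw [hp]
    exact hodd
  obtain ⟨ζ, hζ⟩ := exists_root (m + p) hodd'
  apply exists_odd_of_isolated m p hm hp1 hodd' hζ
  intro I hI hsum hcard
  rw [hp] at hζ hI
  apply isolated_sparse hodd hζ h2 I (range m) hI
  · intro x hx
    have := Finset.mem_range.mp hx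
    exact Finset.mem_range.mpr (by omega)
  · intro x hx y hy hxy
    have h3 := Finset.mem_range.mp hx
    have h4 := Finset.mem_range.mp hy
    rw [Nat.mod_eq_of_lt (by omega), Nat.mod_eq_of_lt (by omega)] at hxy
    exact hxy
  · exact hsum
  · rw [Finset.card_range]
    exact hcard

/-- The case `a = 2 ^ k - 1`, where every prime factor of `r` divides `2 ^ k - 1`. -/
theorem exists_odd_mersenne (k r m p : ℕ) (hk : 2 ≤ k)
    (hrad : ∀ l : ℕ, l.Prime → l ∣ r → l ∣ 2 ^ k - 1)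
    (hm : 1 ≤ m) (hmr : m ≤ r) (hp : m + p = (2 ^ k - 1) * r) :
    ∃ q, IsOddInt (degNum m p q) := by
  have h4 : 4 ≤ 2 ^ k := by
    calc 4 = 2 ^ 2 := by norm_num
      _ ≤ 2 ^ k := Nat.pow_le_pow_right (by norm_num) hk
  have ha : Odd (2 ^ k - 1) := by
    have h2 : Even (2 ^ k) := (Nat.even_pow.mpr ⟨even_two, by omega⟩)
    obtain ⟨c, hc⟩ := h2
    exact ⟨c - 1, by omega⟩
  have hr : Odd r := by
    by_contra hcon
    rw [Nat.not_odd_iff_even] at hcon
    have h2 := hrad 2 Nat.prime_two (even_iff_two_dvd.mp hcon)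
    exact (Nat.not_even_iff_odd.mpr ha) (even_iff_two_dvd.mpr h2)
  exact exists_odd_sparse (2 ^ k - 1) r m p (by omega) (ha.mul hr)
    (fun u => gen_mersenne k r hk (by omega) hrad u) hm hmr hp

end Pool.Agent.H73.DG
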