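import Pool.Agent.H73.DG.Cls2
import Pool.Agent.H73.DG.Exist5

/-!
# The classification for `m + p = (4 ^ g - 1) / 3` and for `m + p = 455`
-/

set_option autoImplicit false

namespace Pool.Agent.H73.DG

open Finset

lemma testBit_top {x e : ℕ} (h1 : 2 ^ e ≤ x) (h2 : x < 2 * 2 ^ e) : x.testBit e = true := by
  rw [Nat.testBit_eq_decide_div_mod_eq, decide_eq_true_iff]
  have hpos : 0 < 2 ^ e := by positivity
  have h3 : x / 2 ^ e = 1 := by
    apply Nat.div_eq_of_lt_le
    · rw [one_mul]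
      exact h1
    · show x < (1 + 1) * 2 ^ e
      omega
  rw [h3]

lemma third_facts (g s : ℕ) (hg : 3 ≤ g) (hs : 3 * s + 1 = 4 ^ g) :
    ∃ c, 1 ≤ c ∧ 4 ^ g = 64 * c ∧ s = 21 * c + (c - 1) / 3 ∧ 3 * ((c - 1) / 3) = c - 1 := by
  obtain ⟨g', rfl⟩ : ∃ g', g = g' + 3 := ⟨g - 3, by omega⟩
  have h1 : 4 ^ (g' + 3) = 64 * 4 ^ g' := by rw [pow_add]; ring
  have h2 : 1 ≤ 4 ^ g' := Nat.one_le_pow _ _ (by norm_num)
  refine ⟨4 ^ g', h2, h1, ?_, ?_⟩ <;> omega

lemma third_two (g p q : ℕ) (hg : 3 ≤ g) (hs : 3 * (2 + p) + 1 = 4 ^ g) :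
    IsOddInt (degNum 2 p q) ↔ q % 3 = 1 := by
  obtain ⟨c, hc1, hc2, hc3, hc4⟩ := third_facts g (2 + p) hg hs
  have hp1 : 1 ≤ p := by omega
  have hN : 3 * (2 + p) + 1 = 2 ^ (2 * g) := by
    rw [hs, pow_mul]
    norm_num
  have hdiv : q % 3 + q / 3 * 3 = q := by omega
  have h := period_mul 2 p (2 * g) 3 (by norm_num) hp1 (by norm_num) hN (q % 3) (q / 3)
  rw [hdiv] at h
  rw [h]
  have hlt : q % 3 < 3 := Nat.mod_lt _ (by norm_num)
  generalize q % 3 = r at hlt
  interval_cases r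
  · refine iff_of_false ?_ (by norm_num)
    rw [diag_card 2 p 0 (by omega)]
    have h0 : diagCard 2 p 0 = 0 := by
      unfold diagCard
      rw [Finset.card_eq_zero, Finset.filter_eq_empty_iff]
      intro n hn hcon
      rw [Finset.Nat.mem_antidiagonalTuple, Fin.sum_univ_two] at hn
      have h1 := hcon 0 1 (by decide)
      have e0 : ((0 : Fin 2) : ℕ) = 0 := rfl
      have e1 : ((1 : Fin 2) : ℕ) = 1 := rfl
      have n0 : n 0 = 0 := by omega
      have n1 : n 1 = 0 := by omega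
      rw [e0, e1, n0, n1, zero_mul, add_zero, add_zero] at h1
      obtain ⟨g', rfl⟩ : ∃ g', g = g' + 1 := ⟨g - 1, by omega⟩
      have h2 : 4 ^ (g' + 1) = 4 * 2 ^ (2 * g') := by
        rw [pow_succ, pow_mul]
        norm_num
        ring
      have t1 : (p + 1 + 2 * 0 - 2).testBit (2 * g') = true := testBit_top (by omega) (by omega)
      have t2 : (p + 1 + 2 * 1 - 2).testBit (2 * g') = true := testBit_top (by omega) (by omega)
      have t3 := congrArg (fun x => x.testBit (2 * g')) h1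
      simp only [Nat.testBit_land, t1, t2, Nat.zero_testBit] at t3
      exact absurd t3 (by decide)
    rw [h0]
    decide
  · refine iff_of_true ?_ rfl
    have h3 := ((parity p hp1).2.2.1 (2 * g) 3 (by norm_num) (by
      rw [← hN]
      ring)).2 1 (by norm_num)
    rw [h3]
    right
    have h64 : 3 * (2 + p) + 1 = 64 * c := by rw [hs, hc2]
    omega
  · refine iff_of_false ?_ (by norm_num)
    obtain ⟨h', hh⟩ : ∃ h', p = 2 * h' - 1 ∧ 1 ≤ h' := by
      refine ⟨(p + 1) / 2, ?_, ?_⟩ <;> omega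
    rw [hh.1, two_two h' hh.2]
    rintro ⟨r, hr⟩
    have h5 : 3 * (2 + p) + 1 = 64 * c := by rw [hs, hc2]
    have h6 : 3 * h' + 1 = 32 * c - 1 := by omega
    cases r with
    | zero =>
      rw [pow_zero] at hr
      omega
    | succ r =>
      rw [pow_succ] at hr
      omega

lemma third_support (g p L : ℕ) (hg : 3 ≤ g) (hs : 3 * (2 + p) + 1 = 4 ^ g)
    (hL : L < 3 * (2 + p) + 1) :
    dsum Kbar (2 + p) 2 L = ∑ _j ∈ ({0} : Finset ℕ), if L = 3 * (2 + p) - 4 then (1 : Kbar) else 0 := by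
  classical
  rw [Finset.sum_singleton]
  obtain ⟨c, hc1, hc2, hc3, hc4⟩ := third_facts g (2 + p) hg hs
  rcases Nat.eq_zero_or_pos L with h0 | h0
  · subst h0
    rw [dsum_at_zero Kbar _ 2 (by norm_num) (by omega), if_neg (by omega)]
  by_cases hd : (2 + p) ∣ L + 2 ^ 2
  swap
  · rw [dsum_ndvd Kbar _ 2 L hd, if_neg]
    intro h1
    apply hd
    exact ⟨3, by omega⟩
  have hN : 3 * (2 + p) + 1 = 2 ^ (2 * g) := by
    rw [hs, pow_mul]
    norm_num
  have hodd : Odd (2 + p) := by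
    have h5 : 3 * (2 + p) + 1 = 64 * c := by rw [hs, hc2]
    rw [Nat.odd_iff]
    omega
  obtain ⟨ζ, hζ⟩ := exists_root (2 + p) hodd
  rw [← gsum_dsum 2 p L (by norm_num) (by omega) hζ hodd]
  obtain ⟨e, he⟩ := hd
  have he1 : 1 ≤ e := by
    rcases Nat.eq_zero_or_pos e with h1 | h1
    · subst h1
      omega
    · exact h1
  have he3 : e ≤ 3 := by
    by_contra hcon
    have h1 : (2 + p) * 4 ≤ (2 + p) * e := Nat.mul_le_mul_left _ (by omega)
    omega
  have hper := gsum_period (K := Kbar) (ζ := ζ) (m := 2) (p := p) (N := 3) (f := 2 * g)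
    (L := L) hζ.pow_eq_one hN h0
  have hLp : L + 3 * (2 + p) = 2 * p + (e + 1) * (2 + p) := by
    have : L + 4 = (2 + p) * e := he
    nlinarith [this]
  rw [← hper, hLp]
  rw [gsum_ite 2 p (e + 1) (by norm_num) (by omega) hodd hζ _ (third_two g p (e + 1) hg hs)]
  have hiff : (e + 1) % 3 = 1 ↔ L = 3 * (2 + p) - 4 := by
    constructor
    · intro h1
      have h2 : e = 3 := by omega
      subst h2
      omega
    · intro h1
      have h2 : (2 + p) * e = (2 + p) * 3 := by omega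
      have h3 := Nat.eq_of_mul_eq_mul_left (by omega) h2
      rw [h3]
  by_cases h4 : (e + 1) % 3 = 1
  · rw [if_pos h4, if_pos (hiff.mp h4)]
  · rw [if_neg h4, if_neg (fun h5 => h4 (hiff.mpr h5))]

/-- The classification for `m + p = (4 ^ g - 1) / 3`, `g ≥ 3`. -/
theorem cls_third (g m p q : ℕ) (hg : 3 ≤ g) (hm : 1 ≤ m) (hmp : m ≤ p)
    (hs : 3 * (m + p) + 1 = 4 ^ g) :
    IsOddInt (degNum m p q) ↔ m = 1 ∨ (m = 2 ∧ q % 3 = 1) := by
  rcases Nat.lt_or_ge m 2 with h2 | h2
  · have h1 : m = 1 := by omega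
    subst h1
    exact iff_of_true (one_odd p q (by omega)) (Or.inl rfl)
  rcases Nat.lt_or_ge m 3 with h3 | h3
  · have h1 : m = 2 := by omega
    subst h1
    rw [third_two g p q hg hs]
    constructor
    · intro h
      exact Or.inr ⟨rfl, h⟩
    · rintro (h | ⟨_, h⟩)
      · omega
      · exact h
  refine iff_of_false ?_ (by omega)
  intro h
  obtain ⟨c, hc1, hc2, hc3, hc4⟩ := third_facts g (m + p) hg hs
  obtain ⟨s, hsv⟩ : ∃ s, s = m + p := ⟨_, rfl⟩
  have hodd : Odd (m + p) := by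
    have h5 : 3 * (m + p) + 1 = 64 * c := by rw [hs, hc2]
    rw [Nat.odd_iff]
    omega
  obtain ⟨q', hq'⟩ := mono 3 (s - 3) m p (by norm_num) h3 hmp (by omega)
    (by
      have e : 3 + (s - 3) = m + p := by omega
      rw [e]
      exact hodd) ⟨q, h⟩
  have hp3 : 3 + (s - 3) = s := by omega
  have hN : 3 * (3 + (s - 3)) + 1 = 2 ^ (2 * g) := by
    rw [hp3, hsv, hs, pow_mul]
    norm_num
  have hodd3 : Odd (3 + (s - 3)) := by
    rw [hp3, hsv]
    exact hodd
  obtain ⟨ζ, hζ⟩ := exists_root (3 + (s - 3)) hodd3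
  have hL0 : 1 ≤ 3 * (s - 3) + q' * (3 + (s - 3)) := by omega
  obtain ⟨L, hL1, hL2, hL3⟩ := red_exists (3 * (3 + (s - 3)))
    (3 * (s - 3) + q' * (3 + (s - 3))) (by omega) hL0
  rw [odd_degNum_iff, odd_intDeg_iff 3 (s - 3) q' (by norm_num) (by omega) hodd3 hζ,
    ← gsum_congr hζ.pow_eq_one hN hL0 hL1 hL3, gsum_dsum 3 (s - 3) L (by norm_num) (by omega) hζ
    hodd3, hp3] at hq'
  rw [hp3] at hL2
  have hz : dsum Kbar s 3 L = 0 := by
    by_cases hd : s ∣ L + 3 ^ 2
    swap
    · exact dsum_ndvd Kbar s 3 L hd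
    have h2p : 2 + (s - 2) = s := by omega
    have hstep := step_support (K := Kbar) s 2 (3 * s + 1) ({0} : Finset ℕ)
      (fun _ => 3 * s - 4)
      (fun L' hL' => by
        have h6 := third_support g (s - 2) L' hg (by rw [h2p, hsv]; exact hs)
          (by rw [h2p]; exact hL')
        rw [h2p] at h6
        exact h6)
      (fun _ _ => ⟨3, by show 3 * s - 4 + 2 ^ 2 = s * 3; omega⟩) L (by omega) hd
    rw [hstep, Finset.sum_singleton]
    have hlt : L < 3 * s - 4 := by
      by_contra hcon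
      obtain ⟨e, he⟩ := hd
      have h7 : e ≤ 3 := by
        by_contra h8
        have : s * 4 ≤ s * e := Nat.mul_le_mul_left _ (by omega)
        omega
      have h9 : s * e ≤ s * 3 := Nat.mul_le_mul_left _ h7
      omega
    rw [Nat.choose_eq_zero_of_lt hlt, Nat.cast_zero]
  rw [hz] at hq'
  exact zero_ne_one hq'

/-- For `m + p = 455` only `m = 1` gives odd numbers. -/
theorem cls_455 (m p q : ℕ) (hm : 1 ≤ m) (hmp : m ≤ p) (hs : m + p = 455) :
    IsOddInt (degNum m p q) ↔ m = 1 := by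
  rcases Nat.lt_or_ge m 2 with h2 | h2
  · have h1 : m = 1 := by omega
    subst h1
    exact iff_of_true (one_odd p q (by omega)) rfl
  refine iff_of_false ?_ (by omega)
  intro h
  obtain ⟨q', hq'⟩ := mono 2 453 m p (by norm_num) h2 hmp (by omega) (by decide) ⟨q, h⟩
  have hdiv : q' % 9 + q' / 9 * 9 = q' := by omega
  have h3 := period_mul 2 453 12 9 (by norm_num) (by norm_num) (by norm_num) (by norm_num)
    (q' % 9) (q' / 9)
  rw [hdiv] at h3
  rw [h3, diag_card 2 453 _ (by norm_num)] at hq'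
  have hlt : q' % 9 < 9 := Nat.mod_lt _ (by norm_num)
  generalize q' % 9 = r at hlt hq'
  interval_cases r
  · exact absurd hq' (by decide +kernel)
  · exact absurd hq' (by decide +kernel)
  · exact absurd hq' (by decide +kernel)
  · exact absurd hq' (by decide +kernel)
  · exact absurd hq' (by decide +kernel)
  · exact absurd hq' (by decide +kernel)
  · exact absurd hq' (by decide +kernel)
  · exact absurd hq' (by decide +kernel)
  · exact absurd hq' (by decide +kernel)

end Pool.Agent.H73.DG
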