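import Pool.Agent.H73.DG.Exist5

/-!
# Isolated sets from the minimum distance of a binary cyclic code
-/

set_option autoImplicit false

namespace Pool.Agent.H73.DG

open Finset

section

variable {K : Type*} [Field K] [CharP K 2]

lemma class_iff' {r x c : ℕ} (hc : c < r) : r ∣ x + (r - c) ↔ x % r = c := by
  constructor
  · intro h
    have h2 : (x + (r - c) + c) % r = c := by
      rw [Nat.add_mod, Nat.mod_eq_zero_of_dvd h, zero_add, Nat.mod_mod, Nat.mod_eq_of_lt hc]
    have e : x + (r - c) + c = x + r := by omega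
    rw [e, Nat.add_mod_right] at h2
    exact h2
  · intro h
    have h1 := Nat.mod_add_div x r
    refine ⟨x / r + 1, ?_⟩
    rw [Nat.mul_add, Nat.mul_one]
    omega

lemma class_sum' {ζ : K} {a r : ℕ} (hr : Odd r) (hη : IsPrimitiveRoot (ζ ^ a) r)
    (I : Finset ℕ) {c : ℕ} (hc : c < r) :
    ∑ u ∈ range r, ((ζ ^ a) ^ u) ^ (r - c) * ∑ x ∈ I, (ζ ^ (1 + a * u)) ^ x =
      ∑ x ∈ I.filter (fun x => x % r = c), ζ ^ x := by
  have h1 : ∀ u, ((ζ ^ a) ^ u) ^ (r - c) * ∑ x ∈ I, (ζ ^ (1 + a * u)) ^ x =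
      ∑ x ∈ I, ζ ^ x * ((ζ ^ a) ^ u) ^ (x + (r - c)) := by
    intro u
    rw [Finset.mul_sum]
    refine Finset.sum_congr rfl fun x _ => ?_
    rw [pow_add ζ, pow_one, mul_pow, pow_mul ζ a u, pow_add ((ζ ^ a) ^ u)]
    ring
  simp only [h1]
  rw [Finset.sum_comm, Finset.sum_filter]
  refine Finset.sum_congr rfl fun x _ => ?_
  rw [← Finset.mul_sum, root_sum hη hr]
  simp only [class_iff' hc]
  split_ifs <;> simp

lemma class_key {ζ : K} {a r c i : ℕ} (hζ0 : ζ ≠ 0)
    (hcode : ∀ T : Finset ℕ, T ⊆ range a → T.Nonempty → ∑ t ∈ T, (ζ ^ r) ^ t = 0 →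
      2 * c < T.card)
    (A B : Finset ℕ) (hA : ∀ x ∈ A, x < a * r ∧ x % r = i) (hB : ∀ x ∈ B, x < a * r ∧ x % r = i)
    (hs : ∑ x ∈ A, ζ ^ x = ∑ x ∈ B, ζ ^ x) (hBc : B.card ≤ c) : A = B ∨ B.card < A.card := by
  classical
  by_cases hAB : A = B
  · exact Or.inl hAB
  right
  have hne : ((A \ B) ∪ (B \ A)).Nonempty := by
    by_contra hcon
    rw [Finset.not_nonempty_iff_eq_empty, Finset.union_eq_empty, Finset.sdiff_eq_empty_iff_subset,
      Finset.sdiff_eq_empty_iff_subset] at hcon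
    exact hAB (Finset.Subset.antisymm hcon.1 hcon.2)
  have hD : ∀ x ∈ (A \ B) ∪ (B \ A), x < a * r ∧ x % r = i := by
    intro x hx
    rcases Finset.mem_union.mp hx with h | h
    · exact hA x (Finset.mem_sdiff.mp h).1
    · exact hB x (Finset.mem_sdiff.mp h).1
  have hdis : Disjoint (A \ B) (B \ A) := by
    rw [Finset.disjoint_left]
    intro x h1 h2
    exact (Finset.mem_sdiff.mp h1).2 (Finset.mem_sdiff.mp h2).1
  have e1 := Finset.sum_sdiff (f := fun x => ζ ^ x) (Finset.inter_subset_left (s₁ := A) (s₂ := B))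
  have e2 := Finset.sum_sdiff (f := fun x => ζ ^ x) (Finset.inter_subset_left (s₁ := B) (s₂ := A))
  rw [Finset.sdiff_inter_self_left] at e1 e2
  rw [Finset.inter_comm B A] at e2
  have hsumD : ∑ x ∈ (A \ B) ∪ (B \ A), ζ ^ x = 0 := by
    rw [Finset.sum_union hdis]
    have e3 : ∑ x ∈ A \ B, ζ ^ x = ∑ x ∈ B \ A, ζ ^ x := by
      have e4 : ∑ x ∈ A \ B, ζ ^ x + ∑ x ∈ A ∩ B, ζ ^ x
          = ∑ x ∈ B \ A, ζ ^ x + ∑ x ∈ A ∩ B, ζ ^ x := by
        rw [e1, e2, hs]
      exact add_right_cancel e4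
    rw [e3, CharTwo.add_self_eq_zero]
  have hinj : ∀ x ∈ (A \ B) ∪ (B \ A), ∀ y ∈ (A \ B) ∪ (B \ A), x / r = y / r → x = y := by
    intro x hx y hy hxy
    have h1 := Nat.div_add_mod x r
    have h2 := Nat.div_add_mod y r
    rw [(hD x hx).2] at h1
    rw [(hD y hy).2] at h2
    rw [← h1, ← h2, hxy]
  have hT := hcode (((A \ B) ∪ (B \ A)).image (fun x => x / r))
    (by
      intro t ht
      obtain ⟨x, hx, rfl⟩ := Finset.mem_image.mp ht
      rw [Finset.mem_range]
      apply Nat.div_lt_of_lt_mul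
      rw [mul_comm]
      exact (hD x hx).1)
    (hne.image _)
    (by
      rw [Finset.sum_image (fun x hx y hy h => hinj x hx y hy h)]
      have h1 : ζ ^ i * ∑ x ∈ (A \ B) ∪ (B \ A), (ζ ^ r) ^ (x / r) = 0 := by
        rw [Finset.mul_sum, ← hsumD]
        apply Finset.sum_congr rfl
        intro x hx
        rw [← pow_mul, ← pow_add]
        congr 1
        have h2 := Nat.div_add_mod x r
        rw [(hD x hx).2] at h2
        omega
      rcases mul_eq_zero.mp h1 with h | h
      · exact absurd h (pow_ne_zero _ hζ0)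
      · exact h)
  rw [Finset.card_image_of_injOn (fun x hx y hy h => hinj x hx y hy h)] at hT
  have h3 := Finset.card_union_le (A \ B) (B \ A)
  have h4 := Finset.card_le_card (Finset.sdiff_subset (s := A) (t := B))
  have h5 := Finset.card_le_card (Finset.sdiff_subset (s := B) (t := A))
  omega

theorem isolated_code {ζ : K} {a r c : ℕ} (hodd : Odd (a * r))
    (hζ : IsPrimitiveRoot ζ (a * r))
    (h2 : ∀ u : ℕ, ∃ i : ℕ, 2 ^ i ≡ 1 + a * u [MOD a * r])
    (hcode : ∀ T : Finset ℕ, T ⊆ range a → T.Nonempty → ∑ t ∈ T, (ζ ^ r) ^ t = 0 →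
      2 * c < T.card)
    (I J : Finset ℕ) (hI : I ⊆ range (a * r)) (hJ : J ⊆ range (a * r))
    (hsparse : ∀ i, (J.filter (fun x => x % r = i)).card ≤ c)
    (hsum : ∑ i ∈ I, ζ ^ i = ∑ i ∈ J, ζ ^ i) (hcard : I.card = J.card) : I = J := by
  have hr : Odd r := (Nat.odd_mul.mp hodd).2
  have hr0 : 0 < r := hr.pos
  have hη : IsPrimitiveRoot (ζ ^ a) r := hζ.pow hodd.pos rfl
  have hζ0 : ζ ≠ 0 := hζ.ne_zero hodd.pos.ne'
  have hcls : ∀ i, i < r → ∑ x ∈ I.filter (fun x => x % r = i), ζ ^ x =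
      ∑ x ∈ J.filter (fun x => x % r = i), ζ ^ x := by
    intro i hi
    rw [← class_sum' hr hη I hi, ← class_sum' hr hη J hi]
    refine Finset.sum_congr rfl fun u _ => ?_
    obtain ⟨e, he⟩ := h2 u
    rw [frob hζ.pow_eq_one hsum he]
  have hkey : ∀ i, i < r → I.filter (fun x => x % r = i) = J.filter (fun x => x % r = i) ∨
      (J.filter (fun x => x % r = i)).card < (I.filter (fun x => x % r = i)).card := by
    intro i hi
    refine class_key (i := i) hζ0 hcode _ _ ?_ ?_ (hcls i hi) (hsparse i)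
    · intro x hx
      rw [Finset.mem_filter] at hx
      exact ⟨Finset.mem_range.mp (hI hx.1), hx.2⟩
    · intro x hx
      rw [Finset.mem_filter] at hx
      exact ⟨Finset.mem_range.mp (hJ hx.1), hx.2⟩
  have hle : ∀ i ∈ range r, (J.filter (fun x => x % r = i)).card ≤
      (I.filter (fun x => x % r = i)).card := by
    intro i hi
    rcases hkey i (Finset.mem_range.mp hi) with h | h
    · rw [h]
    · omega
  have hmaps : ∀ A : Finset ℕ, A.card =
      ∑ i ∈ range r, (A.filter (fun x => x % r = i)).card := fun A =>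
    Finset.card_eq_sum_card_fiberwise (fun x _ => Finset.mem_coe.mpr
      (Finset.mem_range.mpr (Nat.mod_lt x hr0)))
  have heq : ∀ i ∈ range r, (J.filter (fun x => x % r = i)).card =
      (I.filter (fun x => x % r = i)).card := by
    rw [← Finset.sum_eq_sum_iff_of_le hle, ← hmaps, ← hmaps, hcard]
  have hset : ∀ i, i < r → I.filter (fun x => x % r = i) = J.filter (fun x => x % r = i) := by
    intro i hi
    have h1 := heq i (Finset.mem_range.mpr hi)
    rcases hkey i hi with h | h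
    · exact h
    · omega
  ext x
  have h1 := hset (x % r) (Nat.mod_lt x hr0)
  constructor
  · intro hx
    have h3 : x ∈ I.filter (fun y => y % r = x % r) := Finset.mem_filter.mpr ⟨hx, rfl⟩
    rw [h1] at h3
    exact (Finset.mem_filter.mp h3).1
  · intro hx
    have h3 : x ∈ J.filter (fun y => y % r = x % r) := Finset.mem_filter.mpr ⟨hx, rfl⟩
    rw [← h1] at h3
    exact (Finset.mem_filter.mp h3).1

end

/-- Let `m + p = a r` be odd, let every residue congruent to one modulo `a` be a power of two modulo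
`a r`, and suppose that no nonempty set of at most `2 c` distinct `a`-th roots of unity in
characteristic two has sum zero. If `1 ≤ m ≤ r c`, then `d(m,p,q)` is odd for some `q`. -/
theorem exists_odd_code (a r c m p : ℕ) (hodd : Odd (a * r)) (hp1 : 1 ≤ p)
    (h2 : ∀ u : ℕ, ∃ i : ℕ, 2 ^ i ≡ 1 + a * u [MOD a * r])
    (hcode : ∀ ζ : Kbar, IsPrimitiveRoot ζ a → ∀ T : Finset ℕ, T ⊆ range a → T.Nonempty →
      ∑ t ∈ T, ζ ^ t = 0 → 2 * c < T.card)
    (hm : 1 ≤ m) (hmr : m ≤ r * c) (hp : m + p = a * r) :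
    ∃ q, IsOddInt (degNum m p q) := by
  have hodd' : Odd (m + p) := by
    rw [hp]
    exact hodd
  have hr : Odd r := (Nat.odd_mul.mp hodd).2
  have hr0 : 0 < r := hr.pos
  obtain ⟨ζ, hζ⟩ := exists_root (m + p) hodd'
  apply exists_odd_of_isolated m p hm hp1 hodd' hζ
  intro I hI hsum hcard
  rw [hp] at hζ hI
  have hζr : IsPrimitiveRoot (ζ ^ r) a := hζ.pow hodd.pos (mul_comm a r)
  apply isolated_code hodd hζ h2 (hcode (ζ ^ r) hζr) I (range m) hI
  · intro x hx
    have := Finset.mem_range.mp hx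
    exact Finset.mem_range.mpr (by omega)
  · intro i
    have hsub : ((range m).filter (fun x => x % r = i)) ⊆ (range c).image (fun t => r * t + i) := by
      intro x hx
      rw [Finset.mem_filter, Finset.mem_range] at hx
      rw [Finset.mem_image]
      refine ⟨x / r, ?_, ?_⟩
      · rw [Finset.mem_range]
        apply Nat.div_lt_of_lt_mul
        omega
      · rw [← hx.2]
        exact Nat.div_add_mod x r
    calc _ ≤ ((range c).image (fun t => r * t + i)).card := Finset.card_le_card hsub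
      _ ≤ (range c).card := Finset.card_image_le
      _ = c := Finset.card_range c
  · exact hsum
  · rw [Finset.card_range]
    exact hcard

/-- The case `r = 1`. -/
theorem exists_odd_code_one (s c m p : ℕ) (hodd : Odd s) (hp1 : 1 ≤ p)
    (hcode : ∀ ζ : Kbar, IsPrimitiveRoot ζ s → ∀ T : Finset ℕ, T ⊆ range s → T.Nonempty →
      ∑ t ∈ T, ζ ^ t = 0 → 2 * c < T.card)
    (hm : 1 ≤ m) (hmr : m ≤ c) (hp : m + p = s) :
    ∃ q, IsOddInt (degNum m p q) := by
  apply exists_odd_code s 1 c m p (by rw [mul_one]; exact hodd) hp1 _ hcode hm (by omega)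
    (by rw [mul_one]; exact hp)
  intro u
  refine ⟨0, ?_⟩
  rw [pow_zero, mul_one]
  unfold Nat.ModEq
  rw [Nat.add_mul_mod_self_left]

end Pool.Agent.H73.DG
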