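import Pool.Agent.H73.DG.Stab

/-!
# The classification for fixed cofactor
-/

set_option autoImplicit false

namespace Pool.Agent.H73.DG

open Finset

/-- Let `N k = 2 ^ e - 1`, `k ≥ 5`, `g ≥ 2`, `N (m + p) = 2 ^ (e g) - 1`, and let `t k` and `u k` have
a common binary digit one whenever `t, u ≥ 1` and `t + u < N`. Then `d(m,p,q)` is odd exactly for
`m = 1` and for `m = 2`, `q ≡ -2` modulo `N` and `p ≡ 1, 3` modulo eight. -/
theorem cls_cof (N k e g m p q : ℕ) (hNk : N * k + 1 = 2 ^ e) (hN1 : 1 ≤ N) (hk : 5 ≤ k)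
    (hg : 2 ≤ g) (hm : 1 ≤ m) (hmp : m ≤ p) (hs : N * (m + p) + 1 = 2 ^ (e * g))
    (hD : ∀ t u, 1 ≤ t → 1 ≤ u → t + u < N → (t * k) &&& (u * k) ≠ 0) :
    IsOddInt (degNum m p q) ↔ m = 1 ∨ (m = 2 ∧ N ∣ q + 2 ∧ (p % 8 = 1 ∨ p % 8 = 3)) := by
  obtain ⟨n, rfl⟩ : ∃ n, g = n + 2 := ⟨g - 2, by omega⟩
  rcases Nat.lt_or_ge m 2 with h2 | h2
  · have h1 : m = 1 := by omega
    subst h1
    exact iff_of_true (one_odd p q (by omega)) (Or.inl rfl)
  have he : e ≠ 0 := by
    rintro rfl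
    have : 1 * 5 ≤ N * k := Nat.mul_le_mul hN1 hk
    rw [pow_zero] at hNk
    omega
  have hodd : Odd (m + p) := by
    have h1 : Odd (N * (m + p)) := by
      obtain ⟨f', hf'⟩ : ∃ f', e * (n + 2) = f' + 1 :=
        ⟨e * (n + 2) - 1, by
          have : 0 < e * (n + 2) := Nat.mul_pos (by omega) (by omega)
          omega⟩
      rw [hf', pow_succ] at hs
      refine ⟨2 ^ f' - 1, ?_⟩
      have := Nat.one_le_two_pow (n := f')
      omega
    exact (Nat.odd_mul.mp h1).2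
  rcases Nat.lt_or_ge m 3 with h3 | h3
  · have h1 : m = 2 := by omega
    subst h1
    by_cases hq : N ∣ q + 2
    · have hN' : N * (p + 2) + 1 = 2 ^ (e * (n + 2)) := by rw [add_comm p 2]; exact hs
      rw [((parity p (by omega)).2.2.1 _ N hN1 hN').2 q hq]
      constructor
      · intro h
        exact Or.inr ⟨rfl, hq, h⟩
      · rintro (h | ⟨_, _, h⟩)
        · omega
        · exact h
    · refine iff_of_false ?_ ?_
      · rw [par_gen N k e n 2 p q hNk hN1 (by norm_num) (by omega) hs]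
        have hz : mulCard k 2 ((q + 2 - 1) % N + 1) = 0 := by
          unfold mulCard
          rw [Finset.card_eq_zero, Finset.filter_eq_empty_iff]
          rintro t ht ⟨h4, h5⟩
          rw [Finset.mem_piAntidiag, Fin.sum_univ_two] at ht
          have h6 := (h5 0 1 (by decide)).2
          refine hD (t 0) (t 1) (h4 0) (h4 1) ?_ h6
          have h7 : (q + 2 - 1) % N < N := Nat.mod_lt _ (by omega)
          have h8 : (q + 2 - 1) % N + 1 ≠ N := by
            intro h9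
            apply hq
            have h10 := Nat.mod_add_div (q + 2 - 1) N
            refine ⟨1 + (q + 2 - 1) / N, ?_⟩
            rw [Nat.mul_add, mul_one]
            omega
          have h11 := ht.1
          omega
        rw [hz]
        decide
      · rintro (h | ⟨_, h, _⟩)
        · omega
        · exact hq h
  · refine iff_of_false ?_ (by omega)
    intro h
    have e3 : 3 + (m + p - 3) = m + p := by omega
    obtain ⟨q', hq'⟩ := mono 3 (m + p - 3) m p (by norm_num) h3 hmp (by omega)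
      (by rw [e3]; exact hodd) ⟨q, h⟩
    rw [par_gen N k e n 3 (m + p - 3) q' hNk hN1 (by norm_num) (by omega)
      (by rw [e3]; exact hs)] at hq'
    have hz : mulCard k 3 ((q' + 3 - 1) % N + 1) = 0 := by
      unfold mulCard
      rw [Finset.card_eq_zero, Finset.filter_eq_empty_iff]
      rintro t ht ⟨h4, h5⟩
      rw [Finset.mem_piAntidiag, Fin.sum_univ_three] at ht
      have h6 := (h5 0 1 (by decide)).2
      refine hD (t 0) (t 1) (h4 0) (h4 1) ?_ h6
      have h7 : (q' + 3 - 1) % N < N := Nat.mod_lt _ (by omega)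
      have h11 := ht.1
      have h12 := h4 2
      omega
    rw [hz] at hq'
    exact absurd hq' (by decide)

lemma compl_sum (a x y : ℕ) (hx : x < 2 ^ a) (hy : y < 2 ^ a) (h1 : x &&& y = 0)
    (h2 : (2 ^ a - 1 - x) &&& (2 ^ a - 1 - y) = 0) : x + y = 2 ^ a - 1 := by
  induction a generalizing x y with
  | zero =>
    rw [pow_zero] at hx hy
    omega
  | succ a ih =>
    have e0 : 2 ^ (a + 1) = 2 * 2 ^ a := by rw [pow_succ, mul_comm]
    have hpos := Nat.one_le_two_pow (n := a)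
    rw [land_zero_iff] at h1 h2
    have e1 : (2 ^ (a + 1) - 1 - x) / 2 = 2 ^ a - 1 - x / 2 := by omega
    have e2 : (2 ^ (a + 1) - 1 - y) / 2 = 2 ^ a - 1 - y / 2 := by omega
    rw [e1, e2] at h2
    have h3 := ih (x / 2) (y / 2) (by omega) (by omega) h1.1 h2.1
    have h4 := h1.2
    have h5 := h2.2
    omega

lemma unit_ex (c z : ℕ) (hz : 1 ≤ z) (hz2 : z ≤ 2 ^ c) : z * (2 ^ c - 1)
    = (2 ^ c - 1 - (z - 1)) + 2 ^ c * (z - 1) := by
  obtain ⟨w, rfl⟩ : ∃ w, z = w + 1 := ⟨z - 1, by omega⟩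
  obtain ⟨b, hb⟩ : ∃ b, 2 ^ c = b + 1 + w := ⟨2 ^ c - 1 - w, by omega⟩
  rw [hb]
  have e1 : b + 1 + w - 1 = b + w := by omega
  have e2 : w + 1 - 1 = w := by omega
  have e3 : b + w - w = b := by omega
  rw [e1, e2, e3]
  ring

/-- If `N` divides `2 ^ c + 1` and `N k = 4 ^ c - 1`, then `t k` and `u k` have a common binary digit
one whenever `t, u ≥ 1` and `t + u < N`. -/
lemma unit_D (c N k t u : ℕ) (hN : N ∣ 2 ^ c + 1) (hNk : N * k + 1 = 2 ^ (2 * c)) (ht : 1 ≤ t)
    (hu : 1 ≤ u) (htu : t + u < N) : (t * k) &&& (u * k) ≠ 0 := by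
  intro h
  obtain ⟨d, hd⟩ := hN
  have hpos := Nat.one_le_two_pow (n := c)
  have hN1 : 1 ≤ N := by omega
  have hd1 : 1 ≤ d := by
    rcases Nat.eq_zero_or_pos d with h1 | h1
    · rw [h1, mul_zero] at hd
      omega
    · exact h1
  have hk : k = d * (2 ^ c - 1) := by
    have e : 2 ^ (2 * c) = 2 ^ c * 2 ^ c := by rw [← pow_add]; congr 1; ring
    have h1 : N * k = N * (d * (2 ^ c - 1)) := by
      obtain ⟨b, hb⟩ : ∃ b, 2 ^ c = b + 1 := ⟨2 ^ c - 1, by omega⟩
      rw [← mul_assoc, ← hd, hb, Nat.add_sub_cancel]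
      rw [e, hb] at hNk
      have h2 : (b + 1) * (b + 1) = (b + 1 + 1) * b + 1 := by ring
      omega
    exact Nat.eq_of_mul_eq_mul_left hN1 h1
  have hsum : t * d + u * d < 2 ^ c + 1 := by
    rw [hd, ← add_mul]
    exact Nat.mul_lt_mul_of_pos_right htu hd1
  have ht1 : 1 ≤ t * d := Nat.mul_pos ht hd1
  have hu1 : 1 ≤ u * d := Nat.mul_pos hu hd1
  rw [hk, ← mul_assoc, ← mul_assoc, unit_ex c (t * d) ht1 (by omega),
    unit_ex c (u * d) hu1 (by omega), blk c _ _ _ _ (by omega) (by omega)] at h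
  have h1 := compl_sum c (t * d - 1) (u * d - 1) (by omega) (by omega) h.2 h.1
  omega

/-- Let `N` divide `2 ^ c + 1`, `5 N < 4 ^ c`, `g ≥ 2` and `N (m + p) = 4 ^ (c g) - 1`. Then
`d(m,p,q)` is odd exactly for `m = 1` and for `m = 2`, `q ≡ -2` modulo `N` and `N ≡ 3, 5` modulo
eight. -/
theorem cls_unit (c N g m p q : ℕ) (hN : N ∣ 2 ^ c + 1) (h5 : 5 * N < 2 ^ (2 * c)) (hg : 2 ≤ g)
    (hm : 1 ≤ m) (hmp : m ≤ p) (hs : N * (m + p) + 1 = 2 ^ (2 * c * g)) :
    IsOddInt (degNum m p q) ↔ m = 1 ∨ (m = 2 ∧ N ∣ q + 2 ∧ (N % 8 = 3 ∨ N % 8 = 5)) := by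
  have hN1 : 1 ≤ N := by
    rcases Nat.eq_zero_or_pos N with h | h
    · rw [h] at hN
      exact absurd (Nat.eq_zero_of_zero_dvd hN) (Nat.succ_ne_zero _)
    · exact h
  obtain ⟨k, hk⟩ : N ∣ 2 ^ (2 * c) - 1 := by
    have e : 2 ^ (2 * c) = 2 ^ c * 2 ^ c := by rw [← pow_add]; congr 1; ring
    obtain ⟨b, hb⟩ : ∃ b, 2 ^ c = b + 1 := ⟨2 ^ c - 1, by
      have := Nat.one_le_two_pow (n := c)
      omega⟩
    obtain ⟨d, hd⟩ := hN
    refine ⟨d * b, ?_⟩
    rw [← mul_assoc, ← hd, e, hb]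
    have h2 : (b + 1) * (b + 1) = (b + 1 + 1) * b + 1 := by ring
    omega
  have hNk : N * k + 1 = 2 ^ (2 * c) := by
    rw [← hk]
    omega
  have hk5 : 5 ≤ k := by
    by_contra hcon
    have h1 : N * k ≤ N * 4 := Nat.mul_le_mul_left N (by omega)
    omega
  rw [cls_cof N k (2 * c) g m p q hNk hN1 hk5 hg hm hmp hs
    (fun t u ht hu htu => unit_D c N k t u hN hNk ht hu htu)]
  have h8 : m = 2 → ((p % 8 = 1 ∨ p % 8 = 3) ↔ (N % 8 = 3 ∨ N % 8 = 5)) := by
    rintro rfl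
    obtain ⟨f', hf'⟩ : ∃ f', 2 * c * g = f' + 3 := by
      refine ⟨2 * c * g - 3, ?_⟩
      have hc : 2 ≤ c := by
        by_contra hcon
        have h1 : c = 0 ∨ c = 1 := by omega
        rcases h1 with h1 | h1
        · subst h1
          norm_num at h5
          omega
        · subst h1
          norm_num at h5
          omega
      have h1 : 2 * 2 * 2 ≤ 2 * c * g := Nat.mul_le_mul (Nat.mul_le_mul_left 2 hc) hg
      omega
    rw [hf', pow_add 2 f' 3] at hs
    norm_num at hs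
    have hmod : (N % 8) * ((2 + p) % 8) % 8 = 7 := by
      rw [← Nat.mul_mod]
      omega
    have hN8 : N % 8 < 8 := Nat.mod_lt _ (by norm_num)
    have hp8 : (2 + p) % 8 = (2 + p % 8) % 8 := by omega
    rw [hp8] at hmod
    have hp9 : p % 8 < 8 := Nat.mod_lt _ (by norm_num)
    generalize N % 8 = y at *
    generalize p % 8 = z at *
    interval_cases y <;> interval_cases z <;> simp_all
  constructor
  · rintro (h | ⟨h, h1, h2⟩)
    · exact Or.inl h
    · exact Or.inr ⟨h, h1, (h8 h).mp h2⟩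
  · rintro (h | ⟨h, h1, h2⟩)
    · exact Or.inl h
    · exact Or.inr ⟨h, h1, (h8 h).mpr h2⟩

end Pool.Agent.H73.DG
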