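import Pool.Agent.H73.DG.General

/-!
# The diagonal formula for the parity of `d(m,p,q)`
-/

set_option autoImplicit false

namespace Pool.Agent.H73.DG

open Finset

lemma multinomial_dvd_union {ι : Type*} [DecidableEq ι] (S R : Finset ι) (f : ι → ℕ) :
    Nat.multinomial S f ∣ Nat.multinomial (R ∪ S) f := by
  induction R using Finset.induction_on with
  | empty => rw [Finset.empty_union]
  | insert a R _ ih =>
    rw [Finset.insert_union]
    by_cases ha : a ∈ R ∪ S
    · rw [Finset.insert_eq_of_mem ha]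
      exact ih
    · rw [Nat.multinomial_insert ha]
      exact Dvd.dvd.mul_left ih _

lemma choose_dvd_multinomial {m : ℕ} (b : Fin m → ℕ) {i j : Fin m} (hij : i ≠ j) :
    (b i + b j).choose (b i) ∣ Nat.multinomial Finset.univ b := by
  have h := multinomial_dvd_union ({i, j} : Finset (Fin m)) Finset.univ b
  have e : (Finset.univ : Finset (Fin m)) ∪ {i, j} = Finset.univ :=
    Finset.union_eq_left.mpr (Finset.subset_univ _)
  rw [e, Nat.binomial_eq_choose hij] at h
  exact h

lemma two_dvd_of_eq {m : ℕ} (b : Fin m → ℕ) {i j : Fin m} (hij : i ≠ j) (h : b i = b j)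
    (hpos : 0 < b i) : 2 ∣ Nat.multinomial Finset.univ b := by
  refine dvd_trans ?_ (choose_dvd_multinomial b hij)
  rw [← h]
  obtain ⟨c, hc⟩ : ∃ c, b i = c + 1 := ⟨b i - 1, by omega⟩
  rw [hc]
  have h2 := Nat.two_dvd_centralBinom_succ c
  rw [Nat.centralBinom, two_mul] at h2
  exact h2

lemma two_dvd_of_odd {m : ℕ} (b : Fin m → ℕ) {i j : Fin m} (hij : i ≠ j) (hi : Odd (b i))
    (hj : Odd (b j)) : 2 ∣ Nat.multinomial Finset.univ b := by
  refine dvd_trans ?_ (choose_dvd_multinomial b hij)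
  exact choose_even_odd _ _ (hi.add_odd hj) hi

/-- The number of `i` reversed: `m - 1 - i`. -/
lemma rev_val {m : ℕ} (i : Fin m) : ((Fin.rev i : Fin m) : ℕ) = m - 1 - (i : ℕ) := by
  rw [Fin.val_rev]
  omega

/-- The term of the pair `(n, σ)`. -/
def term (m p : ℕ) (x : (Fin m → ℕ) × Equiv.Perm (Fin m)) : ZMod 2 :=
  if ∀ i : Fin m, (x.2 i : ℕ) ≤ p + (i : ℕ) + x.1 i * (m + p) then
    ((Nat.multinomial Finset.univ
      (fun i : Fin m => p + (i : ℕ) + x.1 i * (m + p) - (x.2 i : ℕ)) : ℕ) : ZMod 2) else 0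

/-- The reflection of the pair `(n, σ)`. -/
def refl (m : ℕ) (x : (Fin m → ℕ) × Equiv.Perm (Fin m)) : (Fin m → ℕ) × Equiv.Perm (Fin m) :=
  (fun i => x.1 (x.2.symm (Fin.rev i)), (Fin.revPerm.trans x.2.symm).trans Fin.revPerm)

lemma refl_refl (m : ℕ) (x : (Fin m → ℕ) × Equiv.Perm (Fin m)) : refl m (refl m x) = x := by
  obtain ⟨n, σ⟩ := x
  unfold refl
  ext i
  · simp
  · simp

lemma term_refl (m p : ℕ) (hmp : m ≤ p) (x : (Fin m → ℕ) × Equiv.Perm (Fin m)) :
    term m p (refl m x) = term m p x := by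
  obtain ⟨n, σ⟩ := x
  have hle : ∀ (y : (Fin m → ℕ) × Equiv.Perm (Fin m)) (i : Fin m),
      (y.2 i : ℕ) ≤ p + (i : ℕ) + y.1 i * (m + p) := by
    intro y i
    have := (y.2 i).2
    omega
  unfold term
  rw [if_pos (hle _), if_pos (hle _)]
  congr 1
  let π : Equiv.Perm (Fin m) := Fin.revPerm.trans σ.symm
  have hb : (fun i : Fin m => p + (i : ℕ) + (refl m (n, σ)).1 i * (m + p)
      - (((refl m (n, σ)).2 i : Fin m) : ℕ))
      = fun i : Fin m => (fun i : Fin m => p + (i : ℕ) + n i * (m + p) - (σ i : ℕ)) (π i) := by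
    funext i
    unfold refl
    show p + (i : ℕ) + n (σ.symm (Fin.rev i)) * (m + p)
      - ((Fin.rev (σ.symm (Fin.rev i)) : Fin m) : ℕ)
      = p + ((σ.symm (Fin.rev i) : Fin m) : ℕ) + n (σ.symm (Fin.rev i)) * (m + p)
        - ((σ (σ.symm (Fin.rev i)) : Fin m) : ℕ)
    rw [Equiv.apply_symm_apply, rev_val, rev_val]
    have h1 := (σ.symm (Fin.rev i)).2
    have h2 := i.2
    omega
  rw [hb]
  unfold Nat.multinomial
  rw [Equiv.sum_comp π (fun i : Fin m => p + (i : ℕ) + n i * (m + p) - (σ i : ℕ)),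
    Equiv.prod_comp π (fun i : Fin m => (p + (i : ℕ) + n i * (m + p) - (σ i : ℕ)).factorial)]

lemma refl_ne (m p : ℕ) (hmp : m ≤ p) (x : (Fin m → ℕ) × Equiv.Perm (Fin m))
    (hσ : x.2 ≠ Fin.revPerm) (ht : term m p x ≠ 0) : refl m x ≠ x := by
  intro hx
  apply ht
  obtain ⟨n, σ⟩ := x
  have h1 : ∀ i, n (σ.symm (Fin.rev i)) = n i := by
    intro i
    exact congrFun (congrArg Prod.fst hx) i
  have h2 : ∀ i, Fin.rev (σ.symm (Fin.rev i)) = σ i := by
    intro i
    have := congrArg (fun y : (Fin m → ℕ) × Equiv.Perm (Fin m) => y.2 i) hx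
    exact this
  obtain ⟨i, hi⟩ : ∃ i, σ i ≠ Fin.rev i := by
    by_contra hcon
    rw [not_exists] at hcon
    apply hσ
    ext i
    have := hcon i
    rw [not_not] at this
    simp only [this, Fin.revPerm_apply]
  unfold term
  split_ifs with hc
  · rw [ZMod.natCast_eq_zero_iff]
    have hne : i ≠ σ.symm (Fin.rev i) := by
      intro h
      apply hi
      rw [h, Equiv.apply_symm_apply, ← h]
    have hs : σ (σ.symm (Fin.rev i)) = Fin.rev i := Equiv.apply_symm_apply _ _
    have h3 := h2 i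
    have h4 := congrArg (fun z : Fin m => (z : ℕ)) h3
    simp only [rev_val] at h4
    refine two_dvd_of_eq _ hne ?_ ?_
    · show p + (i : ℕ) + n i * (m + p) - (σ i : ℕ)
        = p + ((σ.symm (Fin.rev i) : Fin m) : ℕ) + n (σ.symm (Fin.rev i)) * (m + p)
          - ((σ (σ.symm (Fin.rev i)) : Fin m) : ℕ)
      rw [h1 i, hs, rev_val, ← h4]
      have h5 := (σ.symm (Fin.rev i)).2
      have h6 := i.2
      omega
    · show 0 < p + (i : ℕ) + n i * (m + p) - (σ i : ℕ)
      have := (σ i).2
      omega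
  · rfl

lemma intDeg_zmod (m p q : ℕ) : ((intDeg m p q : ℤ) : ZMod 2)
    = ∑ x ∈ Finset.Nat.antidiagonalTuple m q ×ˢ (Finset.univ : Finset (Equiv.Perm (Fin m))),
      term m p x := by
  unfold intDeg term
  push_cast
  rw [CharTwo.neg_eq, one_pow, one_mul, Finset.sum_product]
  apply Finset.sum_congr rfl
  intro n _
  apply Finset.sum_congr rfl
  intro σ _
  rw [sign_cast, one_mul]

/-- The diagonal sum. -/
def diagSum (m p q : ℕ) : ℕ :=
  ∑ n ∈ Finset.Nat.antidiagonalTuple m q,
    Nat.multinomial Finset.univ (fun i : Fin m => p + 1 + 2 * (i : ℕ) - m + n i * (m + p))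

lemma intDeg_diag (m p q : ℕ) (hmp : m ≤ p) :
    ((intDeg m p q : ℤ) : ZMod 2) = ((diagSum m p q : ℕ) : ZMod 2) := by
  rw [intDeg_zmod]
  unfold diagSum
  push_cast
  rw [← Finset.sum_filter_add_sum_filter_not _ (fun x => x.2 = Fin.revPerm)]
  have h0 : ∑ x ∈ (Finset.Nat.antidiagonalTuple m q ×ˢ
      (Finset.univ : Finset (Equiv.Perm (Fin m)))).filter (fun x => ¬ x.2 = Fin.revPerm),
      term m p x = 0 := by
    apply Finset.sum_involution (fun x _ => refl m x)
    · intro x _
      rw [term_refl m p hmp x, CharTwo.add_self_eq_zero]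
    · intro x hx ht
      exact refl_ne m p hmp x (Finset.mem_filter.mp hx).2 ht
    · intro x hx
      rw [Finset.mem_filter, Finset.mem_product] at hx ⊢
      refine ⟨⟨?_, Finset.mem_univ _⟩, ?_⟩
      · rw [Finset.Nat.mem_antidiagonalTuple]
        rw [Finset.Nat.mem_antidiagonalTuple] at hx
        rw [← hx.1.1]
        exact Equiv.sum_comp (Fin.revPerm.trans x.2.symm) (fun i => x.1 i)
      · intro h
        apply hx.2
        have h2 := congrArg (fun y => (refl m y).2) (show refl m x = (( refl m x).1, Fin.revPerm) from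
          Prod.ext rfl h)
        simp only [refl_refl] at h2
        rw [h2]
        ext i
        simp [refl]
    · intro x _
      exact refl_refl m x
  rw [h0, add_zero]
  symm
  apply Finset.sum_bij (fun n _ => (n, (Fin.revPerm : Equiv.Perm (Fin m))))
  · intro n hn
    rw [Finset.mem_filter, Finset.mem_product]
    exact ⟨⟨hn, Finset.mem_univ _⟩, rfl⟩
  · intro n _ n' _ h
    exact congrArg Prod.fst h
  · rintro ⟨n, σ⟩ hx
    rw [Finset.mem_filter, Finset.mem_product] at hx
    refine ⟨n, hx.1.1, ?_⟩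
    rw [← hx.2]
  · intro n _
    unfold term
    rw [if_pos (by
      intro i
      have := (Fin.revPerm i).2
      simp only at this ⊢
      omega)]
    congr 2
    funext i
    show p + 1 + 2 * (i : ℕ) - m + n i * (m + p)
      = p + (i : ℕ) + n i * (m + p) - ((Fin.rev i : Fin m) : ℕ)
    rw [rev_val]
    have := i.2
    omega

/-- The diagonal formula: for `m ≤ p` the number `d(m,p,q)` is odd if and only if the sum of the
multinomial coefficients with the entries `p - m + 1 + 2 i + n i (m + p)` is odd. -/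
theorem diag (m p q : ℕ) (hmp : m ≤ p) :
    IsOddInt (degNum m p q) ↔ Odd (diagSum m p q) := by
  rw [odd_degNum_iff, ← Int.not_even_iff_odd, ← Nat.not_even_iff_odd, even_iff_two_dvd,
    even_iff_two_dvd]
  have h := intDeg_diag m p q hmp
  have h1 := ZMod.intCast_zmod_eq_zero_iff_dvd (intDeg m p q) 2
  have h2 := ZMod.natCast_eq_zero_iff (diagSum m p q) 2
  rw [h] at h1
  have h3 := h1.symm.trans h2
  exact not_congr h3

/-- If `m + p` is even and `2 ≤ m ≤ p`, then `d(m,p,q)` is even for every `q`. -/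
theorem even_of_even (m p q : ℕ) (hm : 2 ≤ m) (hmp : m ≤ p) (he : Even (m + p)) :
    IsEvenInt (degNum m p q) := by
  rcases deg_int m p q with h | h
  · exfalso
    rw [diag m p q hmp] at h
    have h2 : Even (diagSum m p q) := by
      rw [even_iff_two_dvd]
      unfold diagSum
      apply Finset.dvd_sum
      intro n _
      obtain ⟨r, hr⟩ := he
      have hodd : ∀ i : Fin m, Odd (p + 1 + 2 * (i : ℕ) - m + n i * (m + p)) := by
        intro i
        refine ⟨r - m + (i : ℕ) + n i * r, ?_⟩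
        rw [hr]
        have e : n i * (r + r) = 2 * (n i * r) := by ring
        rw [e]
        omega
      exact two_dvd_of_odd _ (i := ⟨0, by omega⟩) (j := ⟨1, by omega⟩)
        (by
          intro h3
          have := congrArg (fun z : Fin m => (z : ℕ)) h3
          simp at this) (hodd _) (hodd _)
    exact (Nat.not_odd_iff_even.mpr h2) h
  · exact h

end Pool.Agent.H73.DG
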