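import Pool.Agent.H73.DG.Diag

/-!
# The diagonal formula for the sum over roots of unity
-/

set_option autoImplicit false

namespace Pool.Agent.H73.DG

open Finset

variable {K : Type*} [Field K] [CharP K 2]

/-- The term of the pair `(b, σ)`. -/
def bterm (K : Type*) [Field K] (m p : ℕ) (x : (Fin m → ℕ) × Equiv.Perm (Fin m)) : K :=
  if ∀ i : Fin m, (m + p) ∣ x.1 i + (x.2 i : ℕ) + (p + (i : ℕ)) * (m + p - 1) then
    ((Nat.multinomial Finset.univ x.1 : ℕ) : K) else 0

lemma dvd_swap {m p s b u v : ℕ} (hu : u < m) (hv : v < m) (hs : 1 ≤ s) :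
    s ∣ b + (m - 1 - u) + (p + v) * (s - 1) ↔ s ∣ b + (m - 1 - v) + (p + u) * (s - 1) := by
  have h1 : (m - 1 - u) + u = (m - 1 - v) + v := by omega
  have e : b + (m - 1 - u) + (p + v) * (s - 1) + s * u =
      b + (m - 1 - v) + (p + u) * (s - 1) + s * v := by
    obtain ⟨t, rfl⟩ : ∃ t, s = t + 1 := ⟨s - 1, by omega⟩
    simp only [Nat.add_sub_cancel]
    have e1 : b + (m - 1 - u) + (p + v) * t + (t + 1) * u =
        b + ((m - 1 - u) + u) + (p * t + v * t + u * t) := by ring
    have e2 : b + (m - 1 - v) + (p + u) * t + (t + 1) * v =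
        b + ((m - 1 - v) + v) + (p * t + v * t + u * t) := by ring
    rw [e1, e2, h1]
  have h2 : s ∣ b + (m - 1 - u) + (p + v) * (s - 1) + s * u ↔
      s ∣ b + (m - 1 - u) + (p + v) * (s - 1) := Nat.dvd_add_left (dvd_mul_right s u)
  have h3 : s ∣ b + (m - 1 - v) + (p + u) * (s - 1) + s * v ↔
      s ∣ b + (m - 1 - v) + (p + u) * (s - 1) := Nat.dvd_add_left (dvd_mul_right s v)
  rw [e] at h2
  exact h2.symm.trans h3

omit [CharP K 2] in
lemma bterm_refl (m p : ℕ) (hm : 1 ≤ m) (x : (Fin m → ℕ) × Equiv.Perm (Fin m)) :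
    bterm K m p (refl m x) = bterm K m p x := by
  obtain ⟨b, σ⟩ := x
  let π : Equiv.Perm (Fin m) := Fin.revPerm.trans σ.symm
  have hmul : Nat.multinomial Finset.univ (refl m (b, σ)).1 = Nat.multinomial Finset.univ b := by
    show Nat.multinomial Finset.univ (fun i => b (π i)) = Nat.multinomial Finset.univ b
    unfold Nat.multinomial
    rw [Equiv.sum_comp π b, Equiv.prod_comp π (fun i => (b i).factorial)]
  have hiff : (∀ i : Fin m, (m + p) ∣ (refl m (b, σ)).1 i + (((refl m (b, σ)).2 i : Fin m) : ℕ) +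
      (p + (i : ℕ)) * (m + p - 1)) ↔
      ∀ i : Fin m, (m + p) ∣ b i + (σ i : ℕ) + (p + (i : ℕ)) * (m + p - 1) := by
    rw [← π.forall_congr_right (q := fun i : Fin m =>
      (m + p) ∣ b i + (σ i : ℕ) + (p + (i : ℕ)) * (m + p - 1))]
    refine forall_congr' fun i => ?_
    show (m + p) ∣ b (π i) + ((Fin.rev (π i) : Fin m) : ℕ) + (p + (i : ℕ)) * (m + p - 1) ↔
      (m + p) ∣ b (π i) + (σ (π i) : ℕ) + (p + ((π i : Fin m) : ℕ)) * (m + p - 1)
    have h1 : σ (π i) = Fin.rev i := Equiv.apply_symm_apply _ _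
    rw [h1, rev_val, rev_val]
    exact dvd_swap (π i).2 i.2 (by omega)
  unfold bterm
  exact if_congr hiff (by rw [hmul]) rfl

lemma brefl_ne (m p : ℕ) (hmp : m ≤ p) (x : (Fin m → ℕ) × Equiv.Perm (Fin m))
    (hσ : x.2 ≠ Fin.revPerm) (ht : bterm K m p x ≠ 0) : refl m x ≠ x := by
  intro hx
  apply ht
  obtain ⟨b, σ⟩ := x
  have h1 : ∀ i, b (σ.symm (Fin.rev i)) = b i := by
    intro i
    exact congrFun (congrArg Prod.fst hx) i
  obtain ⟨i, hi⟩ : ∃ i, σ i ≠ Fin.rev i := by
    by_contra hcon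
    rw [not_exists] at hcon
    apply hσ
    ext i
    have := hcon i
    rw [not_not] at this
    simp only [this, Fin.revPerm_apply]
  unfold bterm
  split_ifs with hc
  · have hne : i ≠ σ.symm (Fin.rev i) := by
      intro h
      apply hi
      rw [h, Equiv.apply_symm_apply, ← h]
    have h2 : 2 ∣ Nat.multinomial Finset.univ b := by
      refine two_dvd_of_eq b hne (h1 i).symm ?_
      by_contra h0
      have h0' : b i = 0 := by omega
      have h3 := hc i
      have h3' : (m + p) ∣ b i + (σ i : ℕ) + (p + (i : ℕ)) * (m + p - 1) := h3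
      rw [h0', zero_add] at h3'
      have h4 := bij_mod (by omega) (by have := i.2; omega) h3'
      have h5 := (σ i).2
      omega
    obtain ⟨c, hc2⟩ := h2
    show ((Nat.multinomial Finset.univ b : ℕ) : K) = 0
    rw [hc2]
    push_cast
    rw [CharTwo.two_eq_zero, zero_mul]
  · rfl

/-- The diagonal formula for the sum over roots of unity. -/
theorem gsum_diag {ζ : K} (m p L : ℕ) (hm : 1 ≤ m) (hmp : m ≤ p)
    (hζ : IsPrimitiveRoot ζ (m + p)) (hs : Odd (m + p)) :
    gsum ζ m p L = ∑ b ∈ Finset.piAntidiag (Finset.univ : Finset (Fin m)) L,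
      if ∀ i : Fin m, (m + p) ∣ b i + (m - 1 - (i : ℕ)) + (p + (i : ℕ)) * (m + p - 1) then
        ((Nat.multinomial Finset.univ b : ℕ) : K) else 0 := by
  rw [gsum_eq m p L hζ hs, Finset.sum_comm]
  have e0 : (∑ b ∈ Finset.piAntidiag (Finset.univ : Finset (Fin m)) L, ∑ σ : Equiv.Perm (Fin m),
      if ∀ i : Fin m, (m + p) ∣ b i + (σ i : ℕ) + (p + (i : ℕ)) * (m + p - 1) then
          ((Nat.multinomial Finset.univ b : ℕ) : K) else 0) =
      ∑ x ∈ Finset.piAntidiag (Finset.univ : Finset (Fin m)) L ×ˢ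
        (Finset.univ : Finset (Equiv.Perm (Fin m))), bterm K m p x := by
    rw [Finset.sum_product]
    rfl
  rw [e0, ← Finset.sum_filter_add_sum_filter_not _ (fun x => x.2 = Fin.revPerm)]
  have h0 : ∑ x ∈ (Finset.piAntidiag (Finset.univ : Finset (Fin m)) L ×ˢ
      (Finset.univ : Finset (Equiv.Perm (Fin m)))).filter (fun x => ¬ x.2 = Fin.revPerm),
      bterm K m p x = 0 := by
    apply Finset.sum_involution (fun x _ => refl m x)
    · intro x _
      rw [bterm_refl m p hm x, CharTwo.add_self_eq_zero]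
    · intro x hx ht
      exact brefl_ne m p hmp x (Finset.mem_filter.mp hx).2 ht
    · intro x hx
      rw [Finset.mem_filter, Finset.mem_product] at hx ⊢
      refine ⟨⟨?_, Finset.mem_univ _⟩, ?_⟩
      · rw [Finset.mem_piAntidiag]
        rw [Finset.mem_piAntidiag] at hx
        refine ⟨?_, fun i _ => Finset.mem_univ i⟩
        rw [← hx.1.1.1]
        exact Equiv.sum_comp (Fin.revPerm.trans x.2.symm) (fun i => x.1 i)
      · intro h
        apply hx.2
        have h2 := congrArg (fun y => (refl m y).2) (show refl m x = ((refl m x).1, Fin.revPerm) from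
          Prod.ext rfl h)
        simp only [refl_refl] at h2
        rw [h2]
        ext i
        simp [refl]
    · intro x _
      exact refl_refl m x
  rw [h0, add_zero]
  symm
  apply Finset.sum_bij (fun b _ => (b, (Fin.revPerm : Equiv.Perm (Fin m))))
  · intro b hb
    rw [Finset.mem_filter, Finset.mem_product]
    exact ⟨⟨hb, Finset.mem_univ _⟩, rfl⟩
  · intro b _ b' _ h
    exact congrArg Prod.fst h
  · rintro ⟨b, σ⟩ hx
    rw [Finset.mem_filter, Finset.mem_product] at hx
    refine ⟨b, hx.1.1, ?_⟩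
    rw [← hx.2]
  · intro b _
    unfold bterm
    refine if_congr (forall_congr' fun i => ?_) rfl rfl
    show (m + p) ∣ b i + (m - 1 - (i : ℕ)) + (p + (i : ℕ)) * (m + p - 1) ↔
      (m + p) ∣ b i + ((Fin.rev i : Fin m) : ℕ) + (p + (i : ℕ)) * (m + p - 1)
    rw [rev_val]

end Pool.Agent.H73.DG
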