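import Pool.Agent.H73.DG.Diag

/-!
# The parity of `d(m,p,q)` through binary digits
-/

set_option autoImplicit false

namespace Pool.Agent.H73.DG

open Finset

lemma land_zero_iff (a b : ℕ) :
    a &&& b = 0 ↔ (a / 2 &&& b / 2 = 0) ∧ ¬ (a % 2 = 1 ∧ b % 2 = 1) := by
  have h1 : (a &&& b) / 2 = a / 2 &&& b / 2 := Nat.and_div_two
  have h2 : (a &&& b) % 2 = 1 ↔ a % 2 = 1 ∧ b % 2 = 1 := Nat.and_mod_two_eq_one
  rw [← h1, ← h2]
  omega

lemma odd_choose_iff (a b : ℕ) : Odd ((a + b).choose a) ↔ a &&& b = 0 := by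
  induction h : a + b using Nat.strong_induction_on generalizing a b with
  | _ N ih =>
    subst h
    rcases Nat.eq_zero_or_pos (a + b) with h0 | hpos
    · have ha : a = 0 := by omega
      have hb : b = 0 := by omega
      subst ha hb
      simp
    · have : Fact (Nat.Prime 2) := ⟨Nat.prime_two⟩
      have hl := Choose.choose_modEq_choose_mod_mul_choose_div_nat (n := a + b) (k := a) (p := 2)
      have hih := ih (a / 2 + b / 2) (by omega) (a / 2) (b / 2) rfl
      rw [land_zero_iff a b, ← hih]
      rw [Nat.odd_iff, hl, ← Nat.odd_iff]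
      rcases Nat.mod_two_eq_zero_or_one a with ha | ha <;>
        rcases Nat.mod_two_eq_zero_or_one b with hb | hb
      · have e1 : (a + b) % 2 = 0 := by omega
        have e2 : (a + b) / 2 = a / 2 + b / 2 := by omega
        rw [e1, e2, ha]
        simp
      · have e1 : (a + b) % 2 = 1 := by omega
        have e2 : (a + b) / 2 = a / 2 + b / 2 := by omega
        rw [e1, e2, ha]
        simp
      · have e1 : (a + b) % 2 = 1 := by omega
        have e2 : (a + b) / 2 = a / 2 + b / 2 := by omega
        rw [e1, e2, ha, hb]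
        simp
      · have e1 : (a + b) % 2 = 0 := by omega
        rw [e1, ha, hb]
        simp

lemma add_land (a b c : ℕ) (hab : a &&& b = 0) :
    (a + b) &&& c = 0 ↔ a &&& c = 0 ∧ b &&& c = 0 := by
  induction h : a + b using Nat.strong_induction_on generalizing a b c with
  | _ N ih =>
    subst h
    rcases Nat.eq_zero_or_pos (a + b) with h0 | hpos
    · have ha : a = 0 := by omega
      have hb : b = 0 := by omega
      subst ha hb
      simp
    · rw [land_zero_iff] at hab
      obtain ⟨h1, h2⟩ := hab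
      have hih := ih (a / 2 + b / 2) (by omega) (a / 2) (b / 2) (c / 2) h1 rfl
      have e : (a + b) / 2 = a / 2 + b / 2 := by omega
      rw [land_zero_iff (a + b) c, land_zero_iff a c, land_zero_iff b c, e, hih]
      constructor
      · rintro ⟨⟨h3, h4⟩, h5⟩
        exact ⟨⟨h3, by omega⟩, ⟨h4, by omega⟩⟩
      · rintro ⟨⟨h3, h5⟩, ⟨h4, h6⟩⟩
        exact ⟨⟨h3, h4⟩, by omega⟩

lemma sum_land {ι : Type*} [DecidableEq ι] (S : Finset ι) (f : ι → ℕ)
    (h : ∀ i ∈ S, ∀ j ∈ S, i ≠ j → f i &&& f j = 0) (c : ℕ) :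
    (∑ i ∈ S, f i) &&& c = 0 ↔ ∀ i ∈ S, f i &&& c = 0 := by
  induction S using Finset.induction_on generalizing c with
  | empty => simp
  | insert a S ha ih =>
    have hS : ∀ i ∈ S, ∀ j ∈ S, i ≠ j → f i &&& f j = 0 := fun i hi j hj hij =>
      h i (Finset.mem_insert_of_mem hi) j (Finset.mem_insert_of_mem hj) hij
    have ha2 : f a &&& ∑ i ∈ S, f i = 0 := by
      rw [Nat.and_comm, ih hS]
      intro i hi
      exact h i (Finset.mem_insert_of_mem hi) a (Finset.mem_insert_self a S)
        (fun hia => ha (hia ▸ hi))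
    rw [Finset.sum_insert ha, add_land _ _ _ ha2, ih hS, Finset.forall_mem_insert]

lemma multinomial_odd_iff_aux {ι : Type*} [DecidableEq ι] (S : Finset ι) (f : ι → ℕ) :
    Odd (Nat.multinomial S f) ↔ ∀ i ∈ S, ∀ j ∈ S, i ≠ j → f i &&& f j = 0 := by
  induction S using Finset.induction_on with
  | empty => simp
  | insert a S ha ih =>
    rw [Nat.multinomial_insert ha, Nat.odd_mul, odd_choose_iff, ih]
    constructor
    · rintro ⟨h1, h2⟩
      have h3 : ∀ i ∈ S, f i &&& f a = 0 := by
        rw [← sum_land S f h2, Nat.and_comm]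
        exact h1
      intro i hi j hj hij
      rw [Finset.mem_insert] at hi hj
      rcases hi with rfl | hi <;> rcases hj with rfl | hj
      · exact absurd rfl hij
      · rw [Nat.and_comm]
        exact h3 j hj
      · exact h3 i hi
      · exact h2 i hi j hj hij
    · intro h
      have hS : ∀ i ∈ S, ∀ j ∈ S, i ≠ j → f i &&& f j = 0 := fun i hi j hj hij =>
        h i (Finset.mem_insert_of_mem hi) j (Finset.mem_insert_of_mem hj) hij
      refine ⟨?_, hS⟩
      rw [Nat.and_comm, sum_land S f hS]
      intro i hi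
      exact h i (Finset.mem_insert_of_mem hi) a (Finset.mem_insert_self a S)
        (fun hia => ha (hia ▸ hi))

theorem multinomial_odd_iff {m : ℕ} (b : Fin m → ℕ) :
    Odd (Nat.multinomial Finset.univ b) ↔ ∀ i j : Fin m, i ≠ j → b i &&& b j = 0 := by
  rw [multinomial_odd_iff_aux]
  constructor
  · intro h i j hij
    exact h i (Finset.mem_univ i) j (Finset.mem_univ j) hij
  · intro h i _ j _ hij
    exact h i j hij

/-- The number of the `n` with sum `q` such that the numbers `p - m + 1 + 2 i + n i (m + p)` have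
pairwise no common binary digit one. -/
def diagCard (m p q : ℕ) : ℕ :=
  ((Finset.Nat.antidiagonalTuple m q).filter (fun n : Fin m → ℕ =>
    ∀ i j : Fin m, i ≠ j →
      (p + 1 + 2 * (i : ℕ) - m + n i * (m + p)) &&& (p + 1 + 2 * (j : ℕ) - m + n j * (m + p))
        = 0)).card

theorem diag_card (m p q : ℕ) (hmp : m ≤ p) :
    IsOddInt (degNum m p q) ↔ Odd (diagCard m p q) := by
  rw [diag m p q hmp]
  unfold diagSum diagCard
  rw [Finset.odd_sum_iff_odd_card_odd]
  have h : (Finset.Nat.antidiagonalTuple m q).filter (fun n : Fin m → ℕ => Odd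
      (Nat.multinomial Finset.univ (fun i : Fin m => p + 1 + 2 * (i : ℕ) - m + n i * (m + p)))) =
      (Finset.Nat.antidiagonalTuple m q).filter (fun n : Fin m → ℕ =>
        ∀ i j : Fin m, i ≠ j →
          (p + 1 + 2 * (i : ℕ) - m + n i * (m + p)) &&& (p + 1 + 2 * (j : ℕ) - m + n j * (m + p))
            = 0) :=
    Finset.filter_congr (fun n _ => multinomial_odd_iff _)
  rw [h]

end Pool.Agent.H73.DG
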