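import Pool.Agent.H73.DG.Order
import Pool.Agent.H73.DG.Land

/-!
# The parity of `d(m,p,q)` by the binary digits of any number in the class
-/

set_option autoImplicit false

namespace Pool.Agent.H73.DG

open Finset

/-- The number of the `b` with sum `L` such that `b i ≡ -(2 i + 1)` modulo `s` for all `i < m` and
the `b i` have pairwise no common binary digit one. -/
def splitCard (s m L : ℕ) : ℕ :=
  ((Finset.piAntidiag (Finset.univ : Finset (Fin m)) L).filter (fun b : Fin m → ℕ =>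
    (∀ i : Fin m, s ∣ b i + (2 * (i : ℕ) + 1)) ∧ ∀ i j : Fin m, i ≠ j → b i &&& b j = 0)).card

section

variable {K : Type*} [Field K] [CharP K 2]

lemma cast_parity (n : ℕ) : ((n : ℕ) : K) = if Odd n then 1 else 0 := by
  split_ifs with h
  · obtain ⟨t, ht⟩ := h
    rw [ht]
    push_cast
    rw [CharTwo.two_eq_zero, zero_mul, zero_add]
  · rw [Nat.not_odd_iff_even] at h
    obtain ⟨t, ht⟩ := h
    rw [ht]
    push_cast
    exact CharTwo.add_self_eq_zero _

lemma cond_iff {m p : ℕ} (hp : 1 ≤ p) (i : Fin m) (x : ℕ) :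
    ((m + p) ∣ x + (m - 1 - (i : ℕ)) + (p + (i : ℕ)) * (m + p - 1)) ↔
      (m + p) ∣ x + (2 * ((Fin.rev i : Fin m) : ℕ) + 1) := by
  have hi := i.2
  have e : x + (m - 1 - (i : ℕ)) + (p + (i : ℕ)) * (m + p - 1)
      = x + (2 * ((Fin.rev i : Fin m) : ℕ) + 1) + (m + p) * (p + (i : ℕ) - 1) := by
    have hr : ((Fin.rev i : Fin m) : ℕ) = m - 1 - (i : ℕ) := by
      rw [Fin.val_rev]
      omega
    rw [hr]
    obtain ⟨p', rfl⟩ : ∃ p', p = p' + 1 := ⟨p - 1, by omega⟩
    obtain ⟨m', hm'⟩ : ∃ m', m = (i : ℕ) + 1 + m' := ⟨m - 1 - (i : ℕ), by omega⟩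
    have e1 : m + (p' + 1) - 1 = m + p' := by omega
    have e2 : p' + 1 + (i : ℕ) - 1 = p' + (i : ℕ) := by omega
    have e3 : m - 1 - (i : ℕ) = m' := by omega
    rw [e1, e2, e3]
    clear e1 e2 e3 hr hi
    generalize (i : ℕ) = t at hm' ⊢
    rw [hm']
    ring
  rw [e]
  exact (Nat.dvd_add_left (dvd_mul_right _ _))

lemma gsum_split {ζ : K} (m p L : ℕ) (hm : 1 ≤ m) (hmp : m ≤ p)
    (hζ : IsPrimitiveRoot ζ (m + p)) (hs : Odd (m + p)) :
    gsum ζ m p L = ((splitCard (m + p) m L : ℕ) : K) := by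
  classical
  rw [gsum_diag m p L hm hmp hζ hs]
  have h1 : ∀ b ∈ Finset.piAntidiag (Finset.univ : Finset (Fin m)) L,
      (if ∀ i : Fin m, (m + p) ∣ b i + (m - 1 - (i : ℕ)) + (p + (i : ℕ)) * (m + p - 1) then
        ((Nat.multinomial Finset.univ b : ℕ) : K) else 0)
      = if ((∀ i : Fin m, (m + p) ∣ b i + (2 * ((Fin.rev i : Fin m) : ℕ) + 1)) ∧
          ∀ i j : Fin m, i ≠ j → b i &&& b j = 0) then 1 else 0 := by
    intro b _
    have h2 : (∀ i : Fin m, (m + p) ∣ b i + (m - 1 - (i : ℕ)) + (p + (i : ℕ)) * (m + p - 1)) ↔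
        (∀ i : Fin m, (m + p) ∣ b i + (2 * ((Fin.rev i : Fin m) : ℕ) + 1)) :=
      forall_congr' fun i => cond_iff (by omega) i (b i)
    by_cases hc : ∀ i : Fin m, (m + p) ∣ b i + (2 * ((Fin.rev i : Fin m) : ℕ) + 1)
    · rw [if_pos (h2.mpr hc), cast_parity]
      by_cases ho : ∀ i j : Fin m, i ≠ j → b i &&& b j = 0
      · rw [if_pos ((multinomial_odd_iff b).mpr ho), if_pos ⟨hc, ho⟩]
      · rw [if_neg (fun h => ho ((multinomial_odd_iff b).mp h)), if_neg (fun h => ho h.2)]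
    · rw [if_neg (fun h => hc (h2.mp h)), if_neg (fun h => hc h.1)]
  rw [Finset.sum_congr rfl h1, ← Finset.sum_filter, Finset.sum_const, nsmul_eq_mul, mul_one]
  congr 1
  unfold splitCard
  apply Finset.card_nbij' (fun b i => b (Fin.rev i)) (fun b i => b (Fin.rev i))
  · intro b hb
    rw [Finset.mem_coe, Finset.mem_filter, Finset.mem_piAntidiag] at hb ⊢
    refine ⟨⟨?_, fun i _ => Finset.mem_univ i⟩, ?_, ?_⟩
    · rw [← hb.1.1]
      exact Equiv.sum_comp Fin.revPerm (fun i => b i)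
    · intro i
      have := hb.2.1 (Fin.rev i)
      rw [Fin.rev_rev] at this
      exact this
    · intro i j hij
      exact hb.2.2 _ _ (fun h => hij (Fin.rev_injective h))
  · intro b hb
    rw [Finset.mem_coe, Finset.mem_filter, Finset.mem_piAntidiag] at hb ⊢
    refine ⟨⟨?_, fun i _ => Finset.mem_univ i⟩, ?_, ?_⟩
    · rw [← hb.1.1]
      exact Equiv.sum_comp Fin.revPerm (fun i => b i)
    · intro i
      exact hb.2.1 (Fin.rev i)
    · intro i j hij
      exact hb.2.2 _ _ (fun h => hij (Fin.rev_injective h))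
  · intro b _
    funext i
    simp only [Fin.rev_rev]
  · intro b _
    funext i
    simp only [Fin.rev_rev]

end

/-- If `m ≤ p` and `N (m + p) + 1 = 2 ^ f`, then `d(m,p,q)` is odd exactly if any positive `L`
congruent to `m p + q (m + p)` modulo `2 ^ f - 1` has an odd number of splittings. -/
theorem split_iff (m p q f N L : ℕ) (hm : 1 ≤ m) (hmp : m ≤ p) (hN1 : 1 ≤ N)
    (hN : N * (m + p) + 1 = 2 ^ f) (hL : 1 ≤ L)
    (hmod : L ≡ m * p + q * (m + p) [MOD N * (m + p)]) :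
    IsOddInt (degNum m p q) ↔ Odd (splitCard (m + p) m L) := by
  have hf : f ≠ 0 := by
    rintro rfl
    have : 1 ≤ N * (m + p) := Nat.mul_pos hN1 (by omega)
    rw [pow_zero] at hN
    omega
  have hodd2 : Odd (N * (m + p)) := by
    obtain ⟨f', rfl⟩ := Nat.exists_eq_succ_of_ne_zero hf
    rw [Nat.succ_eq_add_one, pow_succ] at hN
    exact ⟨2 ^ f' - 1, by
      have := Nat.one_le_two_pow (n := f')
      omega⟩
  have hs : Odd (m + p) := (Nat.odd_mul.mp hodd2).2
  have hp : 1 ≤ p := le_trans hm hmp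
  obtain ⟨ζ, hζ⟩ := exists_root (m + p) hs
  have hL0 : 1 ≤ m * p + q * (m + p) := by
    have : 1 ≤ m * p := Nat.mul_pos hm hp
    omega
  rw [odd_degNum_iff, odd_intDeg_iff m p q hm hp hs hζ,
    ← gsum_congr hζ.pow_eq_one hN hL0 hL hmod, gsum_split m p L hm hmp hζ hs, cast_parity]
  constructor
  · intro h
    by_contra hcon
    rw [if_neg hcon] at h
    exact zero_ne_one h
  · intro h
    rw [if_pos h]

end Pool.Agent.H73.DG
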