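import Mathlib

/-!
# [H73 DG Gen2] two generates the units modulo powers of three (for MP_cc7c04_an; written by helper75)
-/

set_option autoImplicit false

namespace Pool.Agent.H73.DG

private lemma lift (j : ℕ) : ∃ u : ℕ, 2 ^ (2 * 3 ^ j) = 1 + 3 ^ (j + 1) * u ∧ ¬ 3 ∣ u := by
  induction j with
  | zero => exact ⟨1, by norm_num, by norm_num⟩
  | succ j ih =>
    obtain ⟨u, hu, hu3⟩ := ih
    refine ⟨u + 3 ^ (j + 1) * u ^ 2 + 3 ^ (2 * j + 1) * u ^ 3, ?_, ?_⟩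
    · have e1 : 2 * 3 ^ (j + 1) = 2 * 3 ^ j * 3 := by ring
      rw [e1, pow_mul, hu]
      ring
    · intro h
      apply hu3
      have e2 : 3 ∣ 3 ^ (j + 1) * u ^ 2 := Dvd.dvd.mul_right (dvd_pow_self 3 (by omega)) _
      have e3 : 3 ∣ 3 ^ (2 * j + 1) * u ^ 3 := Dvd.dvd.mul_right (dvd_pow_self 3 (by omega)) _
      exact (Nat.dvd_add_left e2).1 ((Nat.dvd_add_left e3).1 h)

private lemma choose_t (W c : ℤ) (hW : ¬ (3 : ℤ) ∣ W) : ∃ t : ℕ, t ≤ 2 ∧ (3 : ℤ) ∣ W * t - c := by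
  have h1 : W % 3 = 1 ∨ W % 3 = 2 := by omega
  have h2 : c % 3 = 0 ∨ c % 3 = 1 ∨ c % 3 = 2 := by omega
  rcases h1 with h1 | h1 <;> rcases h2 with h2 | h2 | h2
  · exact ⟨0, by norm_num, by push_cast; omega⟩
  · exact ⟨1, by norm_num, by push_cast; omega⟩
  · exact ⟨2, by norm_num, by push_cast; omega⟩
  · exact ⟨0, by norm_num, by push_cast; omega⟩
  · exact ⟨2, by norm_num, by push_cast; omega⟩
  · exact ⟨1, by norm_num, by push_cast; omega⟩

private lemma expand (j t : ℕ) (ht : t ≤ 2) (u : ℤ) :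
    ∃ r : ℤ, (1 + 3 ^ (j + 1) * u) ^ t = 1 + 3 ^ (j + 1) * (u * t) + 3 ^ (j + 2) * r := by
  interval_cases t
  · exact ⟨0, by simp⟩
  · exact ⟨0, by simp⟩
  · exact ⟨3 ^ j * u ^ 2, by push_cast; ring⟩

/-- Every natural number prime to three is congruent to a power of two modulo `3 ^ j`. -/
theorem two_gen (j a : ℕ) (ha : ¬ 3 ∣ a) : ∃ i : ℕ, 2 ^ i ≡ a [MOD 3 ^ j] := by
  rcases j with _ | j
  · exact ⟨0, by rw [pow_zero 3]; exact Nat.modEq_one⟩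
  induction j with
  | zero =>
    have h1 : a % 3 = 1 ∨ a % 3 = 2 := by omega
    rcases h1 with h1 | h1
    · refine ⟨0, ?_⟩
      have e1 : 2 ^ 0 % 3 = a % 3 := by rw [h1]; norm_num
      simpa [Nat.ModEq] using e1
    · refine ⟨1, ?_⟩
      have e1 : 2 ^ 1 % 3 = a % 3 := by rw [h1]; norm_num
      simpa [Nat.ModEq] using e1
  | succ j ih =>
    obtain ⟨i, hi⟩ := ih
    obtain ⟨u, hu, hu3⟩ := lift j
    rw [Nat.modEq_iff_dvd] at hi
    obtain ⟨c, hc⟩ := hi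
    push_cast at hc
    have hW : ¬ (3 : ℤ) ∣ 2 ^ i * (u : ℤ) := by
      intro h
      have hp : Prime (3 : ℤ) := Int.prime_three
      rcases hp.dvd_or_dvd h with h | h
      · have h2 := hp.dvd_of_dvd_pow h
        norm_num at h2
      · exact hu3 (by exact_mod_cast h)
    obtain ⟨t, ht, s, hs⟩ := choose_t (2 ^ i * (u : ℤ)) c hW
    obtain ⟨r, hr⟩ := expand j t ht (u : ℤ)
    refine ⟨i + 2 * 3 ^ j * t, ?_⟩
    rw [Nat.modEq_iff_dvd]
    refine ⟨-(s + 2 ^ i * r), ?_⟩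
    push_cast
    have hu' : (2 : ℤ) ^ (2 * 3 ^ j) = 1 + 3 ^ (j + 1) * (u : ℤ) := by exact_mod_cast hu
    have hcs : c = 2 ^ i * (u : ℤ) * t - 3 * s := by linarith
    rw [pow_add, pow_mul, hu', hr]
    have ha' : (a : ℤ) = 2 ^ i + 3 ^ (j + 1) * c := by linarith
    rw [ha', hcs]
    ring

end Pool.Agent.H73.DG
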