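import Mathlib

/-!
# [H73 DG Lag] sums over the levels of a function (for MP_cc7c04_an; written by helper75)
-/

set_option autoImplicit false

namespace Pool.Agent.H73.DG

theorem level_sum {K ι : Type*} [Field K] [DecidableEq K] (X : Finset ι) (B w : ι → K)
    (h : ∀ q : ℕ, ∑ x ∈ X, B x * w x ^ q = 0) (v : K) :
    ∑ x ∈ X.filter (fun x => w x = v), B x = 0 := by
  classical
  have hP : ∀ P : Polynomial K, ∑ x ∈ X, B x * P.eval (w x) = 0 := by
    intro P
    have e1 : ∀ x ∈ X, B x * P.eval (w x) =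
        ∑ q ∈ Finset.range (P.natDegree + 1), P.coeff q * (B x * w x ^ q) := by
      intro x _
      rw [Polynomial.eval_eq_sum_range, Finset.mul_sum]
      exact Finset.sum_congr rfl fun q _ => by ring
    rw [Finset.sum_congr rfl e1, Finset.sum_comm]
    refine Finset.sum_eq_zero fun q _ => ?_
    rw [← Finset.mul_sum, h q, mul_zero]
  obtain ⟨P, hPd⟩ : ∃ P : Polynomial K,
      P = ∏ u ∈ (X.image w).erase v, (Polynomial.X - Polynomial.C u) := ⟨_, rfl⟩
  have hev : ∀ y, P.eval y = ∏ u ∈ (X.image w).erase v, (y - u) := by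
    intro y
    rw [hPd, Polynomial.eval_prod]
    refine Finset.prod_congr rfl fun u _ => ?_
    simp
  have h0 : ∀ x ∈ X, w x ≠ v → P.eval (w x) = 0 := by
    intro x hx hv
    rw [hev]
    exact Finset.prod_eq_zero (Finset.mem_erase.2 ⟨hv, Finset.mem_image_of_mem w hx⟩) (sub_self _)
  have hv : P.eval v ≠ 0 := by
    rw [hev, Finset.prod_ne_zero_iff]
    intro u hu
    exact sub_ne_zero.2 (Finset.ne_of_mem_erase hu).symm
  have h1 := hP P
  rw [← Finset.sum_filter_add_sum_filter_not X (fun x => w x = v)] at h1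
  have h2 : ∑ x ∈ X.filter (fun x => ¬ w x = v), B x * P.eval (w x) = 0 := by
    refine Finset.sum_eq_zero fun x hx => ?_
    rw [Finset.mem_filter] at hx
    rw [h0 x hx.1 hx.2, mul_zero]
  have h3 : ∑ x ∈ X.filter (fun x => w x = v), B x * P.eval (w x) =
      (∑ x ∈ X.filter (fun x => w x = v), B x) * P.eval v := by
    rw [Finset.sum_mul]
    refine Finset.sum_congr rfl fun x hx => ?_
    rw [Finset.mem_filter] at hx
    rw [hx.2]
  rw [h2, h3, add_zero] at h1
  exact (mul_eq_zero.1 h1).resolve_right hv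

end Pool.Agent.H73.DG
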