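import Pool.Agent.H73.DG.General
import Pool.Agent.H73.DG.Iso
import Pool.Agent.H73.DG.Gen2
import Pool.Agent.H73.DG.Lag

/-!
# For every `m` there are odd `d(m,p,q)`
-/

set_option autoImplicit false

namespace Pool.Agent.H73.DG

open Finset

section

variable {K : Type*} [Field K] [CharP K 2]

lemma vsum {m : ℕ} (v : Fin m → K) :
    ∑ σ : Equiv.Perm (Fin m), ∏ i, v i ^ (σ i : ℕ) = (Matrix.vandermonde v).det := by
  rw [← Matrix.det_transpose, Matrix.det_apply']
  apply Finset.sum_congr rfl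
  intro σ _
  rw [sign_cast, one_mul]
  rfl

lemma vsum' {m : ℕ} (v : Fin m → K) :
    ∑ σ : Equiv.Perm (Fin m), ∏ i, v (σ i) ^ (i : ℕ) = (Matrix.vandermonde v).det := by
  rw [Matrix.det_apply']
  apply Finset.sum_congr rfl
  intro σ _
  rw [sign_cast, one_mul]
  rfl

lemma vperm {m : ℕ} (v : Fin m → K) (σ : Equiv.Perm (Fin m)) :
    (Matrix.vandermonde (fun i => v (σ i))).det = (Matrix.vandermonde v).det := by
  have h := Matrix.det_permute σ (Matrix.vandermonde v)
  rw [sign_cast, one_mul] at h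
  rw [← h]
  rfl

/-- The weight of `x`. -/
def wt (ζ : K) (m p : ℕ) (x : Fin m → ℕ) : K :=
  ∑ σ : Equiv.Perm (Fin m), ∏ i : Fin m, (ζ ^ x i) ^ ((σ i : ℕ) + (p + (i : ℕ)) * (m + p - 1))

lemma wt_eq (ζ : K) (m p : ℕ) (x : Fin m → ℕ) :
    wt ζ m p x = (∏ i : Fin m, (ζ ^ x i) ^ ((p + (i : ℕ)) * (m + p - 1))) *
      (Matrix.vandermonde (fun i => ζ ^ x i)).det := by
  unfold wt
  rw [← vsum, Finset.mul_sum]
  apply Finset.sum_congr rfl
  intro σ _
  rw [← Finset.prod_mul_distrib]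
  apply Finset.prod_congr rfl
  intro i _
  rw [pow_add, mul_comm]

lemma gsum_wt (ζ : K) (m p L : ℕ) :
    gsum ζ m p L = ∑ x ∈ Fintype.piFinset (fun _ : Fin m => range (m + p)),
      wt ζ m p x * (∑ i : Fin m, ζ ^ x i) ^ L := by
  unfold gsum wt
  rw [Finset.sum_comm]
  apply Finset.sum_congr rfl
  intro x _
  rw [Finset.sum_mul]

lemma vdm_ne {m s : ℕ} {η : K} (hη : IsPrimitiveRoot η s) (hms : m ≤ s) :
    (Matrix.vandermonde (fun i : Fin m => η ^ (i : ℕ))).det ≠ 0 := by
  rw [Matrix.det_vandermonde_ne_zero_iff]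
  intro a b hab
  apply Fin.ext
  exact hη.pow_inj (lt_of_lt_of_le a.2 hms) (lt_of_lt_of_le b.2 hms) hab

lemma sum_perm_wt_ne {ζ : K} {m p : ℕ} (hm : 1 ≤ m) (hp : 1 ≤ p)
    (hζ : IsPrimitiveRoot ζ (m + p)) :
    ∑ σ : Equiv.Perm (Fin m), wt ζ m p (fun i => ((σ i : Fin m) : ℕ)) ≠ 0 := by
  have hcop : Nat.Coprime (m + p - 1) (m + p) := by
    obtain ⟨s', hs'⟩ : ∃ s', m + p = s' + 1 := ⟨m + p - 1, by omega⟩
    rw [hs']
    simp
  have hη := hζ.pow_of_coprime (m + p - 1) hcop
  have hζ0 : ζ ≠ 0 := hζ.ne_zero (by omega)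
  have h1 : ∀ σ : Equiv.Perm (Fin m), wt ζ m p (fun i => ((σ i : Fin m) : ℕ))
      = (∏ i : Fin m, ((ζ ^ (m + p - 1)) ^ (i : ℕ)) ^ p) *
        (Matrix.vandermonde (fun i : Fin m => ζ ^ (i : ℕ))).det *
        ∏ i : Fin m, ((ζ ^ (m + p - 1)) ^ ((σ i : Fin m) : ℕ)) ^ (i : ℕ) := by
    intro σ
    rw [wt_eq, vperm (fun i : Fin m => ζ ^ (i : ℕ)) σ]
    have h2 : (∏ i : Fin m, (ζ ^ ((σ i : Fin m) : ℕ)) ^ ((p + (i : ℕ)) * (m + p - 1)))
        = (∏ i : Fin m, ((ζ ^ (m + p - 1)) ^ (i : ℕ)) ^ p) *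
          ∏ i : Fin m, ((ζ ^ (m + p - 1)) ^ ((σ i : Fin m) : ℕ)) ^ (i : ℕ) := by
      have h3 : (∏ i : Fin m, ((ζ ^ (m + p - 1)) ^ (i : ℕ)) ^ p)
          = ∏ i : Fin m, ((ζ ^ (m + p - 1)) ^ ((σ i : Fin m) : ℕ)) ^ p :=
        (Equiv.prod_comp σ (fun i : Fin m => ((ζ ^ (m + p - 1)) ^ (i : ℕ)) ^ p)).symm
      rw [h3, ← Finset.prod_mul_distrib]
      apply Finset.prod_congr rfl
      intro i _
      rw [← pow_mul, ← pow_mul, ← pow_mul, ← pow_mul, ← pow_mul, ← pow_add]
      congr 1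
      ring
    rw [h2]
    ring
  simp only [h1]
  rw [← Finset.mul_sum]
  have h4 := vsum' (K := K) (fun i : Fin m => (ζ ^ (m + p - 1)) ^ (i : ℕ))
  rw [h4]
  refine mul_ne_zero (mul_ne_zero ?_ (vdm_ne hζ (by omega))) (vdm_ne hη (by omega))
  rw [Finset.prod_ne_zero_iff]
  intro i _
  exact pow_ne_zero _ (pow_ne_zero _ (pow_ne_zero _ hζ0))

lemma wt_zero {ζ : K} {m p : ℕ} (x : Fin m → ℕ) (hx : ¬ Function.Injective x) :
    wt ζ m p x = 0 := by
  rw [wt_eq]
  have h : (Matrix.vandermonde (fun i => ζ ^ x i)).det = 0 := by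
    by_contra hcon
    have h2 := Matrix.det_vandermonde_ne_zero_iff.mp hcon
    apply hx
    intro a b hab
    apply h2
    simp only [hab]
  rw [h, mul_zero]

end

/-- If the set of the first `m` exponents is determined by its number of elements and the sum of the
powers of `ζ`, then `d(m,p,q)` is odd for some `q`. -/
lemma exists_odd_of_isolated (m p : ℕ) (hm : 1 ≤ m) (hp : 1 ≤ p) (hs : Odd (m + p)) {ζ : Kbar}
    (hζ : IsPrimitiveRoot ζ (m + p))
    (hiso : ∀ I : Finset ℕ, I ⊆ range (m + p) → ∑ i ∈ I, ζ ^ i = ∑ i ∈ range m, ζ ^ i →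
      I.card = m → I = range m) :
    ∃ q, IsOddInt (degNum m p q) := by
  classical
  by_contra hcon
  rw [not_exists] at hcon
  have h0 : ∀ q, gsum ζ m p (m * p + q * (m + p)) = 0 := by
    intro q
    have h1 := hcon q
    rw [odd_degNum_iff, Int.not_odd_iff_even] at h1
    rw [← intDeg_cast m p q hm hp hζ hs]
    obtain ⟨k, hk⟩ := h1
    rw [hk]
    push_cast
    rw [CharTwo.add_self_eq_zero]
  have hall : ∀ t : ℕ, gsum ζ m p (m * p + t) = 0 := by
    intro t
    by_cases hd : (m + p) ∣ (m * p + t) + (m * p) * (m + p - 1)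
    · have e : (m * p + t) + (m * p) * (m + p - 1) = t + (m * p) * (m + p) := by
        obtain ⟨s', hs'⟩ : ∃ s', m + p = s' + 1 := ⟨m + p - 1, by omega⟩
        rw [hs']
        have e1 : s' + 1 - 1 = s' := by omega
        rw [e1]
        ring
      rw [e] at hd
      have hd2 : (m + p) ∣ t := (Nat.dvd_add_left (dvd_mul_left _ _)).mp hd
      obtain ⟨q, rfl⟩ := hd2
      rw [mul_comm (m + p) q]
      exact h0 q
    · exact gsum_zero m p _ hm hp hζ hs hd
  have hlev := level_sum (Fintype.piFinset (fun _ : Fin m => range (m + p)))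
    (fun x => wt ζ m p x * (∑ i : Fin m, ζ ^ x i) ^ (m * p)) (fun x => ∑ i : Fin m, ζ ^ x i)
    (by
      intro t
      rw [← hall t, gsum_wt]
      apply Finset.sum_congr rfl
      intro x _
      rw [pow_add]
      ring) (∑ i : Fin m, ζ ^ (i : ℕ))
  have hw0 : (∑ i : Fin m, ζ ^ (i : ℕ)) ≠ 0 := by
    rw [Fin.sum_univ_eq_sum_range (fun i => ζ ^ i) m]
    intro h
    have h2 := hζ.pow_ne_one_of_pos_of_lt (by omega : m ≠ 0) (by omega : m < m + p)
    apply h2
    have h3 := geom_sum_mul ζ m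
    rw [h, zero_mul] at h3
    exact (sub_eq_zero.mp h3.symm)
  have hlev2 : ∑ x ∈ (Fintype.piFinset (fun _ : Fin m => range (m + p))).filter
      (fun x => ∑ i : Fin m, ζ ^ x i = ∑ i : Fin m, ζ ^ (i : ℕ)), wt ζ m p x = 0 := by
    have h5 : ∑ x ∈ (Fintype.piFinset (fun _ : Fin m => range (m + p))).filter
      (fun x => ∑ i : Fin m, ζ ^ x i = ∑ i : Fin m, ζ ^ (i : ℕ)),
        wt ζ m p x * (∑ i : Fin m, ζ ^ x i) ^ (m * p)
        = (∑ x ∈ (Fintype.piFinset (fun _ : Fin m => range (m + p))).filter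
      (fun x => ∑ i : Fin m, ζ ^ x i = ∑ i : Fin m, ζ ^ (i : ℕ)), wt ζ m p x) *
          (∑ i : Fin m, ζ ^ (i : ℕ)) ^ (m * p) := by
      rw [Finset.sum_mul]
      apply Finset.sum_congr rfl
      intro x hx
      rw [(Finset.mem_filter.mp hx).2]
    rw [h5] at hlev
    rcases mul_eq_zero.mp hlev with h | h
    · exact h
    · exact absurd h (pow_ne_zero _ hw0)
  have hinj : Function.Injective
      (fun (σ : Equiv.Perm (Fin m)) (i : Fin m) => ((σ i : Fin m) : ℕ)) := by
    intro σ τ h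
    apply Equiv.ext
    intro i
    apply Fin.ext
    exact congrFun h i
  have hsub : (Finset.univ : Finset (Equiv.Perm (Fin m))).image
      (fun (σ : Equiv.Perm (Fin m)) (i : Fin m) => ((σ i : Fin m) : ℕ))
      ⊆ (Fintype.piFinset (fun _ : Fin m => range (m + p))).filter
      (fun x => ∑ i : Fin m, ζ ^ x i = ∑ i : Fin m, ζ ^ (i : ℕ)) := by
    intro x hx
    obtain ⟨σ, _, rfl⟩ := Finset.mem_image.mp hx
    rw [Finset.mem_filter]
    refine ⟨?_, ?_⟩
    · rw [Fintype.mem_piFinset]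
      intro i
      have := (σ i).2
      exact Finset.mem_range.mpr (by omega)
    · exact Equiv.sum_comp σ (fun i : Fin m => ζ ^ (i : ℕ))
  have hfin : ∑ x ∈ (Fintype.piFinset (fun _ : Fin m => range (m + p))).filter
      (fun x => ∑ i : Fin m, ζ ^ x i = ∑ i : Fin m, ζ ^ (i : ℕ)), wt ζ m p x
      = ∑ σ : Equiv.Perm (Fin m), wt ζ m p (fun i => ((σ i : Fin m) : ℕ)) := by
    rw [← Finset.sum_subset hsub, Finset.sum_image (fun σ _ τ _ h => hinj h)]
    intro x hx hx2
    rw [Finset.mem_filter, Fintype.mem_piFinset] at hx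
    apply wt_zero
    intro hxinj
    apply hx2
    have hI : (Finset.univ.image x) = range m := by
      apply hiso
      · intro a ha
        obtain ⟨i, _, rfl⟩ := Finset.mem_image.mp ha
        exact hx.1 i
      · rw [Finset.sum_image (fun a _ b _ h => hxinj h), hx.2,
          Fin.sum_univ_eq_sum_range (fun i => ζ ^ i) m]
      · rw [Finset.card_image_of_injective _ hxinj, Finset.card_univ, Fintype.card_fin]
    have hlt : ∀ i, x i < m := by
      intro i
      have : x i ∈ (Finset.univ.image x) := Finset.mem_image_of_mem x (Finset.mem_univ i)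
      rw [hI] at this
      exact Finset.mem_range.mp this
    have hbij : Function.Bijective (fun i : Fin m => (⟨x i, hlt i⟩ : Fin m)) := by
      apply Finite.injective_iff_bijective.mp
      intro a b hab
      apply hxinj
      exact congrArg (fun z : Fin m => (z : ℕ)) hab
    rw [Finset.mem_image]
    exact ⟨Equiv.ofBijective _ hbij, Finset.mem_univ _, rfl⟩
  rw [hfin] at hlev2
  exact sum_perm_wt_ne hm hp hζ hlev2

/-- Let `l` be an odd prime such that two generates the units modulo `l ^ (j + 1)`. If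
`2 m ≤ l ^ j (l - 1)` and `m + p = l ^ (j + 1)`, then `d(m,p,q)` is odd for some `q`. -/
theorem exists_odd_gen (l j : ℕ) (hl : l.Prime) (hl2 : Odd l)
    (h2 : ∀ a : ℕ, ¬ l ∣ a → ∃ i : ℕ, 2 ^ i ≡ a [MOD l ^ (j + 1)])
    (m p : ℕ) (hm : 1 ≤ m) (hml : 2 * m ≤ l ^ j * (l - 1)) (hp : m + p = l ^ (j + 1)) :
    ∃ q, IsOddInt (degNum m p q) := by
  obtain ⟨g, hg⟩ := hl2
  have hl1 : 3 ≤ l := by
    have := hl.two_le
    omega
  have hpow : 1 ≤ l ^ j := Nat.one_le_pow _ _ (by omega)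
  have hp1 : 1 ≤ p := by
    by_contra hcon
    have hp0 : p = 0 := by omega
    subst hp0
    have h5 : m = l ^ j * l := by rw [← pow_succ]; omega
    have h6 : l ^ j * (l - 1) ≤ l ^ j * l := Nat.mul_le_mul_left _ (by omega)
    omega
  have hodd : Odd (m + p) := by
    rw [hp]
    exact Odd.pow ⟨g, hg⟩
  obtain ⟨ζ, hζ⟩ := exists_root (m + p) hodd
  apply exists_odd_of_isolated m p hm hp1 hodd hζ
  intro I hI hsum hcard
  rw [hp] at hζ hI
  apply isolated_gen hl ⟨g, hg⟩ hζ h2 I (range m) hI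
  · intro a ha
    have := Finset.mem_range.mp ha
    rw [← hp]
    exact Finset.mem_range.mpr (by omega)
  · intro c
    have hgm : m ≤ l ^ j * g := by
      have e : l - 1 = 2 * g := by omega
      rw [e] at hml
      have e2 : l ^ j * (2 * g) = 2 * (l ^ j * g) := by ring
      omega
    have hc : ((range m).filter (fun a => a % l ^ j = c)).card ≤ g := by
      have hsub : ((range m).filter (fun a => a % l ^ j = c))
          ⊆ (range g).image (fun t => l ^ j * t + c) := by
        intro a ha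
        rw [Finset.mem_filter, Finset.mem_range] at ha
        rw [Finset.mem_image]
        refine ⟨a / l ^ j, ?_, ?_⟩
        · rw [Finset.mem_range]
          apply Nat.div_lt_of_lt_mul
          omega
        · rw [← ha.2]
          exact Nat.div_add_mod a (l ^ j)
      calc _ ≤ ((range g).image (fun t => l ^ j * t + c)).card := Finset.card_le_card hsub
        _ ≤ (range g).card := Finset.card_image_le
        _ = g := Finset.card_range g
    omega
  · exact hsum
  · rw [Finset.card_range]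
    exact hcard

end Pool.Agent.H73.DG
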