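import Pool.Agent.H73.DG.Parity

/-!
# The values at `q + 2 = c (w + 1)` when `c (p + 2) = 2 ^ k + 1`
-/

set_option autoImplicit false

namespace Pool.Agent.H73.DG

open Finset

section

variable {K : Type*} [Field K] [CharP K 2]

lemma rsum_family {ζ : K} {s c k w M : ℕ} (hs3 : 2 ≤ s) (hζ : IsPrimitiveRoot ζ s) (hodd : Odd s)
    (hc : c * s = 2 ^ k + 1) (hw1 : 1 ≤ w) (hws : w < s) (hM : M + 3 = (w + 1) * (c * s)) :
    rsum ζ s M = ((2 * w - 1).choose (w - 1) : K) := by
  have : Fact (Nat.Prime 2) := ⟨Nat.prime_two⟩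
  obtain ⟨v, rfl⟩ : ∃ v, w = v + 1 := ⟨w - 1, by omega⟩
  have hM1 : 1 ≤ M := by
    have h1 : 2 ^ k + 1 ≥ 2 := by
      have := Nat.one_le_two_pow (n := k)
      omega
    have h2 : (v + 1 + 1) * (c * s) ≥ 2 * (c * s) := Nat.mul_le_mul_right _ (by omega)
    rw [← hc] at h1
    have h3 : c * s ≠ 2 := by
      intro h
      rw [h] at hc
      have hk : 2 ^ k = 1 := by omega
      have hsd : s ∣ 2 := ⟨c, by rw [mul_comm]; exact h.symm⟩
      have := Nat.le_of_dvd (by norm_num) hsd
      have hs2 : s = 2 := by omega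
      rw [hs2] at hodd
      exact absurd hodd (by decide)
    omega
  have e0 : 2 * (v + 1) - 1 = 2 * v + 1 := by omega
  have e1 : v + 1 - 1 = v := by omega
  rw [e0, e1]
  have term : ∀ t ∈ range s, (ζ ^ t) ^ 2 * (1 + ζ ^ t) ^ M
      = ∑ a ∈ range (2 * v + 1 + 1), (ζ ^ t) ^ (a + (s - v)) * ((2 * v + 1).choose a : K) := by
    intro t _
    have hz : (ζ ^ t) ^ s = 1 := by
      rw [← pow_mul, mul_comm, pow_mul, hζ.pow_eq_one, one_pow]
    generalize ζ ^ t = z at hz
    have hexp : ∑ a ∈ range (2 * v + 1 + 1), z ^ (a + (s - v)) * ((2 * v + 1).choose a : K)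
        = z ^ (s - v) * (1 + z) ^ (2 * v + 1) := by
      rw [add_comm 1 z, add_pow, Finset.mul_sum]
      apply Finset.sum_congr rfl
      intro a _
      rw [one_pow, pow_add]
      ring
    rw [hexp]
    by_cases h1 : z = 1
    · rw [h1]
      simp only [one_pow, CharTwo.add_self_eq_zero, one_mul]
      rw [zero_pow (by omega), zero_pow (by omega)]
    · have hne : 1 + z ≠ 0 := by
        intro h0
        apply h1
        have : z = -1 := by
          rw [eq_neg_iff_add_eq_zero, add_comm]
          exact h0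
        rw [this, CharTwo.neg_eq]
      have hz0 : z ≠ 0 := by
        rintro rfl
        rw [zero_pow (by omega)] at hz
        exact zero_ne_one hz
      have hzk : z ^ (2 ^ k + 1) = 1 := by rw [← hc, mul_comm, pow_mul, hz, one_pow]
      have hb : z * (1 + z) ^ (2 ^ k + 1) = (1 + z) ^ 2 := by
        rw [pow_succ, add_pow_char_pow, one_pow]
        rw [pow_succ] at hzk
        calc z * ((1 + z ^ 2 ^ k) * (1 + z)) = (z + z ^ 2 ^ k * z) * (1 + z) := by ring
          _ = (1 + z) ^ 2 := by rw [hzk]; ring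
      have hb2 : z ^ (v + 2) * (1 + z) ^ (M + 3) = (1 + z) ^ (2 * v + 1 + 3) := by
        rw [hM, hc, mul_comm (v + 1 + 1) (2 ^ k + 1), pow_mul]
        have e3 : v + 2 = v + 1 + 1 := by ring
        rw [e3, ← mul_pow, hb, ← pow_mul]
        congr 1
      have hb3 : z ^ (v + 2) * (1 + z) ^ M = (1 + z) ^ (2 * v + 1) := by
        apply mul_right_cancel₀ (pow_ne_zero 3 hne)
        rw [mul_assoc, ← pow_add, hb2, ← pow_add]
      have hb4 : z ^ v * z ^ (s - v) = 1 := by
        rw [← pow_add]
        have e4 : v + (s - v) = s := by omega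
        rw [e4, hz]
      calc z ^ 2 * (1 + z) ^ M = (z ^ v * z ^ (s - v)) * (z ^ 2 * (1 + z) ^ M) := by
            rw [hb4, one_mul]
        _ = z ^ (s - v) * (z ^ (v + 2) * (1 + z) ^ M) := by rw [pow_add z v 2]; ring
        _ = z ^ (s - v) * (1 + z) ^ (2 * v + 1) := by rw [hb3]
  unfold rsum
  rw [Finset.sum_congr rfl term, Finset.sum_comm]
  have h2 : ∀ a ∈ range (2 * v + 1 + 1),
      ∑ t ∈ range s, (ζ ^ t) ^ (a + (s - v)) * ((2 * v + 1).choose a : K)
        = if a = v then ((2 * v + 1).choose a : K) else 0 := by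
    intro a ha
    have ha' := Finset.mem_range.mp ha
    rw [← Finset.sum_mul, root_sum hζ hodd]
    by_cases hav : a = v
    · rw [if_pos hav, if_pos, one_mul]
      exact ⟨1, by omega⟩
    · rw [if_neg hav, if_neg, zero_mul]
      rintro ⟨b, hb⟩
      have hb0 : b ≠ 0 := by
        rintro rfl
        omega
      have hb2 : b < 2 := by
        by_contra hcon
        have : s * 2 ≤ s * b := Nat.mul_le_mul_left _ (by omega)
        omega
      have hb1 : b = 1 := by omega
      subst hb1
      omega
  rw [Finset.sum_congr rfl h2, Finset.sum_ite_eq' (range (2 * v + 1 + 1)) v,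
    if_pos (Finset.mem_range.mpr (by omega))]

end

lemma choose_odd_iff (w : ℕ) (hw : 1 ≤ w) :
    Odd ((2 * w - 1).choose (w - 1)) ↔ ∃ j, w = 2 ^ j := by
  induction w using Nat.strong_induction_on with
  | _ w ih =>
    have : Fact (Nat.Prime 2) := ⟨Nat.prime_two⟩
    have hl := Choose.choose_modEq_choose_mod_mul_choose_div_nat (p := 2) (n := 2 * w - 1) (k := w - 1)
    have e1 : (2 * w - 1) % 2 = 1 := by omega
    have e2 : (2 * w - 1) / 2 = w - 1 := by omega
    have e3 : Nat.choose 1 ((w - 1) % 2) = 1 := by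
      have : (w - 1) % 2 = 0 ∨ (w - 1) % 2 = 1 := by omega
      rcases this with h | h <;> rw [h] <;> rfl
    rw [e1, e2, e3, one_mul] at hl
    have hpar : Odd ((2 * w - 1).choose (w - 1)) ↔ Odd ((w - 1).choose ((w - 1) / 2)) := by
      rw [Nat.odd_iff, Nat.odd_iff]
      have h := hl
      unfold Nat.ModEq at h
      rw [h]
    rw [hpar]
    rcases Nat.even_or_odd' w with ⟨v, rfl | rfl⟩
    · have e4 : (2 * v - 1) / 2 = v - 1 := by omega
      rw [e4, ih v (by omega) (by omega)]
      constructor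
      · rintro ⟨j, rfl⟩
        exact ⟨j + 1, by rw [pow_succ]; ring⟩
      · rintro ⟨j, hj⟩
        cases j with
        | zero =>
          exfalso
          rw [pow_zero] at hj
          omega
        | succ j =>
          refine ⟨j, ?_⟩
          rw [pow_succ] at hj
          omega
    · have e4 : 2 * v + 1 - 1 = 2 * v := by omega
      have e5 : 2 * v / 2 = v := by omega
      rw [e4, e5]
      rcases Nat.eq_zero_or_pos v with h0 | h0
      · subst h0
        constructor
        · intro _
          exact ⟨0, by norm_num⟩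
        · intro _
          decide
      · constructor
        · intro h
          exfalso
          obtain ⟨u, rfl⟩ : ∃ u, v = u + 1 := ⟨v - 1, by omega⟩
          have h2 := Nat.two_dvd_centralBinom_succ u
          rw [Nat.centralBinom] at h2
          rw [Nat.odd_iff] at h
          omega
        · rintro ⟨j, hj⟩
          exfalso
          cases j with
          | zero =>
            rw [pow_zero] at hj
            omega
          | succ j =>
            rw [pow_succ] at hj
            omega

theorem family (p : ℕ) (hp : 1 ≤ p) (k c w q : ℕ) (hc : c * (p + 2) = 2 ^ k + 1) (hw1 : 1 ≤ w)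
    (hw : w ≤ p + 1) (hq : q + 2 = c * (w + 1)) :
    IsOddInt (degNum 2 p q) ↔ ∃ j, w = 2 ^ j := by
  have hk0 : k ≠ 0 := by
    rintro rfl
    rw [pow_zero] at hc
    have hd : (p + 2) ∣ 2 := ⟨c, by rw [mul_comm]; exact hc.symm⟩
    have := Nat.le_of_dvd (by norm_num) hd
    omega
  have hodd : Odd (2 ^ k + 1) := by
    obtain ⟨a', rfl⟩ := Nat.exists_eq_succ_of_ne_zero hk0
    exact ⟨2 ^ a', by rw [Nat.succ_eq_add_one, pow_succ]; ring⟩
  have hs : Odd (2 + p) := by
    have hd : (p + 2) ∣ 2 ^ k + 1 := ⟨c, by rw [mul_comm]; exact hc.symm⟩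
    have := Odd.of_dvd_nat hodd hd
    rw [add_comm]
    exact this
  obtain ⟨ζ, hζ⟩ := exists_root (2 + p) hs
  rw [odd_iff p _ hp, odd_ballot_iff p _ hp hs hζ, ← choose_odd_iff w hw1]
  have hfam := rsum_family (K := Kbar) (s := 2 + p) (c := c) (k := k) (w := w)
    (M := 2 * p + q * (2 + p) + 1) (by omega) hζ hs (by rw [add_comm 2 p]; exact hc) hw1 (by omega)
    (by
      have e : 2 * p + q * (2 + p) + 1 + 3 = (q + 2) * (2 + p) := by ring
      rw [e, hq]
      ring)
  rw [hfam]
  constructor
  · intro h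
    by_contra hcon
    rw [Nat.not_odd_iff_even] at hcon
    obtain ⟨r, hr⟩ := hcon
    rw [hr] at h
    push_cast at h
    rw [CharTwo.add_self_eq_zero] at h
    exact zero_ne_one h
  · intro h
    exact odd_cast_eq_one h

theorem mersenne_all (k p : ℕ) (hk : 1 ≤ k) (hp : p + 1 = 2 ^ k) (q : ℕ) :
    IsOddInt (degNum 2 p q) ↔ ∃ j, q % p + 1 = 2 ^ j := by
  have h2k : 2 ≤ 2 ^ k := by
    calc 2 = 2 ^ 1 := by norm_num
      _ ≤ 2 ^ k := Nat.pow_le_pow_right (by norm_num) hk
  have hp1 : 1 ≤ p := by omega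
  have hper := ((parity p hp1).2.2.1 (2 * k) p hp1 (by
    rw [two_mul, pow_add, ← hp]
    ring)).1
  have hred : ∀ t r, IsOddInt (degNum 2 p (r + t * p)) ↔ IsOddInt (degNum 2 p r) := by
    intro t
    induction t with
    | zero =>
      intro r
      rw [zero_mul, add_zero]
    | succ t ih =>
      intro r
      have e : r + (t + 1) * p = (r + t * p) + p := by ring
      rw [e, hper, ih]
  have hq : q % p + q / p * p = q := by
    rw [mul_comm]
    exact Nat.mod_add_div q p
  have hlt : q % p < p := Nat.mod_lt q (by omega)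
  have hfam := family p hp1 k 1 (q % p + 1) (q % p) (by rw [one_mul]; omega) (by omega) (by omega)
    (by ring)
  have h := hred (q / p) (q % p)
  rw [hq] at h
  exact h.trans hfam

end Pool.Agent.H73.DG
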