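import Mathlib

set_option autoImplicit false

namespace Pool.Agent.H73.DG

open Finset

/-- two numbers in the same nonzero block share a binary digit -/
private theorem share {x y s : ℕ} (h : x / 2 ^ s = y / 2 ^ s) (h0 : x / 2 ^ s ≠ 0) :
    x &&& y ≠ 0 := by
  intro hxy
  obtain ⟨k, hk⟩ : ∃ k, x / 2 ^ s / 2 ^ k = 1 := by
    refine ⟨Nat.log 2 (x / 2 ^ s), ?_⟩
    apply Nat.div_eq_of_lt_le
    · rw [one_mul]
      exact Nat.pow_log_le_self 2 h0
    · have := Nat.lt_pow_succ_log_self (by norm_num : 1 < 2) (x / 2 ^ s)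
      rw [pow_succ] at this
      omega
  have hx : x / 2 ^ (s + k) = 1 := by
    rw [pow_add, ← Nat.div_div_eq_div_mul]
    exact hk
  have hy : y / 2 ^ (s + k) = 1 := by
    rw [pow_add, ← Nat.div_div_eq_div_mul, ← h]
    exact hk
  have bx : Nat.testBit x (s + k) = true := by
    rw [Nat.testBit_eq_decide_div_mod_eq, hx]
    rfl
  have bY : Nat.testBit y (s + k) = true := by
    rw [Nat.testBit_eq_decide_div_mod_eq, hy]
    rfl
  have hb : Nat.testBit (x &&& y) (s + k) = true := by
    rw [Nat.testBit_and, bx, bY]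
    rfl
  rw [hxy, Nat.zero_testBit] at hb
  exact Bool.false_ne_true hb

theorem disjoint_interval (m a t : ℕ) (ha : 1 ≤ a) (ht : m ≤ 2 ^ t) (Z : Finset (Fin m))
    (hZ : ∀ i ∈ Z, ∀ j ∈ Z, i ≠ j → (a + (i : ℕ)) &&& (a + (j : ℕ)) = 0) :
    Z.card ≤ t + 1 := by
  rcases lt_or_ge a (2 ^ t) with hB | hB
  · have h1 : Z.card ≤ (range (t + 1)).card := by
      refine Finset.card_le_card_of_injOn (fun i : Fin m => Nat.log 2 (a + (i : ℕ))) ?_ ?_
      · intro i hi
        rw [Finset.mem_coe, Finset.mem_range]
        apply Nat.log_lt_of_lt_pow (by omega)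
        have h2 := i.isLt
        rw [pow_succ]
        omega
      · intro i hi j hj hij
        by_contra hne
        have hlog : Nat.log 2 (a + (i : ℕ)) = Nat.log 2 (a + (j : ℕ)) := hij
        have key : ∀ x : ℕ, x ≠ 0 → x / 2 ^ (Nat.log 2 x) = 1 := by
          intro x hx
          apply Nat.div_eq_of_lt_le
          · rw [one_mul]
            exact Nat.pow_log_le_self 2 hx
          · have := Nat.lt_pow_succ_log_self (by norm_num : 1 < 2) x
            rw [pow_succ] at this
            omega
        have e1 := key (a + (i : ℕ)) (by omega)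
        have e2 := key (a + (j : ℕ)) (by omega)
        rw [← hlog] at e2
        exact share (e1.trans e2.symm) (by rw [e1]; exact one_ne_zero)
          (hZ i (Finset.mem_coe.1 hi) j (Finset.mem_coe.1 hj) hne)
    rwa [Finset.card_range] at h1
  · have hp : 0 < 2 ^ t := by positivity
    have ha1 : 1 ≤ a / 2 ^ t := (Nat.one_le_div_iff hp).2 hB
    have hmono : ∀ i : Fin m, a / 2 ^ t ≤ (a + (i : ℕ)) / 2 ^ t := fun i =>
      Nat.div_le_div_right (Nat.le_add_right _ _)
    have hup : ∀ i : Fin m, (a + (i : ℕ)) / 2 ^ t ≤ a / 2 ^ t + 1 := by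
      intro i
      rw [← Nat.add_div_right a hp]
      apply Nat.div_le_div_right
      have := i.isLt
      omega
    have h1 : Z.card ≤ (range 2).card := by
      refine Finset.card_le_card_of_injOn
        (fun i : Fin m => (a + (i : ℕ)) / 2 ^ t - a / 2 ^ t) ?_ ?_
      · intro i hi
        rw [Finset.mem_coe, Finset.mem_range]
        have := hup i
        have := hmono i
        show (a + (i : ℕ)) / 2 ^ t - a / 2 ^ t < 2
        omega
      · intro i hi j hj hij
        by_contra hne
        have hij' : (a + (i : ℕ)) / 2 ^ t - a / 2 ^ t = (a + (j : ℕ)) / 2 ^ t - a / 2 ^ t := hij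
        have e1 := hmono i
        have e2 := hmono j
        have e3 : (a + (i : ℕ)) / 2 ^ t = (a + (j : ℕ)) / 2 ^ t := by omega
        exact share e3 (by omega) (hZ i (Finset.mem_coe.1 hi) j (Finset.mem_coe.1 hj) hne)
    rw [Finset.card_range] at h1
    rcases Nat.eq_zero_or_pos t with h0 | h0
    · have h2 : Z.card ≤ m := by
        have := Finset.card_le_univ Z
        rwa [Fintype.card_fin] at this
      rw [h0, pow_zero] at ht
      omega
    · omega

end Pool.Agent.H73.DG
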