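import Mathlib

set_option autoImplicit false

namespace Pool.Agent.H73.DG

open Finset

/-- Legendre's formula for `p = 2` -/
private theorem v2_fact (n : ℕ) : padicValNat 2 n.factorial + (Nat.digits 2 n).sum = n := by
  have : Fact (Nat.Prime 2) := ⟨Nat.prime_two⟩
  have h := sub_one_mul_padicValNat_factorial (p := 2) n
  have h2 := Nat.digit_sum_le 2 n
  omega

private theorem v2_prod {ι : Type*} [DecidableEq ι] (s : Finset ι) (b : ι → ℕ) :
    padicValNat 2 (∏ i ∈ s, (b i).factorial) = ∑ i ∈ s, padicValNat 2 (b i).factorial := by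
  have : Fact (Nat.Prime 2) := ⟨Nat.prime_two⟩
  induction s using Finset.induction_on with
  | empty => simp
  | insert a s ha ih =>
    rw [Finset.prod_insert ha, Finset.sum_insert ha, padicValNat.mul (Nat.factorial_ne_zero _)
      (Finset.prod_ne_zero_iff.2 fun i _ => Nat.factorial_ne_zero _), ih]

private theorem one_le_digit_sum {n : ℕ} (hn : 1 ≤ n) : 1 ≤ (Nat.digits 2 n).sum := by
  by_contra hlt
  have h0 : (Nat.digits 2 n).sum = 0 := by omega
  have hall : ∀ x ∈ Nat.digits 2 n, x = 0 := List.sum_eq_zero_iff.1 h0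
  have hne : Nat.digits 2 n ≠ [] := Nat.digits_ne_nil_iff_ne_zero.2 (by omega)
  exact Nat.getLast_digit_ne_zero 2 (by omega) (hall _ (List.getLast_mem hne))

theorem digit_sum_of_odd {m : ℕ} (b : Fin m → ℕ) (hb : ∀ i, 1 ≤ b i)
    (h : Odd (Nat.multinomial Finset.univ b)) :
    m ≤ (Nat.digits 2 (∑ i, b i)).sum := by
  have : Fact (Nat.Prime 2) := ⟨Nat.prime_two⟩
  have hspec := Nat.multinomial_spec Finset.univ b
  have hv := congrArg (padicValNat 2) hspec
  have hM0 : Nat.multinomial Finset.univ b ≠ 0 := by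
    intro h0
    rw [h0] at h
    exact absurd h (by decide)
  have hM : padicValNat 2 (Nat.multinomial Finset.univ b) = 0 := by
    apply padicValNat.eq_zero_of_not_dvd
    intro hd
    exact (Nat.not_even_iff_odd.2 h) (even_iff_two_dvd.2 hd)
  rw [padicValNat.mul (Finset.prod_ne_zero_iff.2 fun i _ => Nat.factorial_ne_zero _) hM0, hM,
    add_zero, v2_prod] at hv
  have h1 : ∑ i, (padicValNat 2 (b i).factorial + 1) ≤ ∑ i, b i := by
    refine Finset.sum_le_sum fun i _ => ?_
    have h2 := v2_fact (b i)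
    have h3 := one_le_digit_sum (hb i)
    omega
  rw [Finset.sum_add_distrib, Finset.sum_const, Finset.card_univ, Fintype.card_fin, smul_eq_mul,
    mul_one] at h1
  have h4 := v2_fact (∑ i, b i)
  omega

theorem digit_sum_le {f L : ℕ} (h : L < 2 ^ f) : (Nat.digits 2 L).sum ≤ f := by
  have h1 : (Nat.digits 2 L).length ≤ f :=
    (Nat.digits_length_le_iff (by norm_num) L).2 h
  have h2 : (Nat.digits 2 L).sum ≤ (Nat.digits 2 L).length • 1 := by
    refine List.sum_le_card_nsmul _ _ fun x hx => ?_
    have := Nat.digits_lt_base (by norm_num : 1 < 2) hx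
    omega
  rw [smul_eq_mul, mul_one] at h2
  exact h2.trans h1

end Pool.Agent.H73.DG
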