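import Pool.Agent.H73.DG.DiagL
import Pool.Agent.H73.DG.Wt

/-!
# If `m + p` divides `2 ^ f - 1` and `f < m ≤ p`, then all `d(m,p,q)` are even
-/

set_option autoImplicit false

namespace Pool.Agent.H73.DG

open Finset

section

variable {K : Type*} [Field K] [CharP K 2]

lemma gsum_period_mul {ζ : K} {m p N f L : ℕ} (hζ : ζ ^ (m + p) = 1)
    (hN : N * (m + p) + 1 = 2 ^ f) (hL : 1 ≤ L) (t : ℕ) :
    gsum ζ m p (L + t * (N * (m + p))) = gsum ζ m p L := by
  induction t with
  | zero => rw [zero_mul, add_zero]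
  | succ t ih =>
    have e : L + (t + 1) * (N * (m + p)) = (L + t * (N * (m + p))) + N * (m + p) := by ring
    rw [e, gsum_period hζ hN (by omega), ih]

lemma gsum_congr {ζ : K} {m p N f L L' : ℕ} (hζ : ζ ^ (m + p) = 1)
    (hN : N * (m + p) + 1 = 2 ^ f) (hL : 1 ≤ L) (hL' : 1 ≤ L')
    (h : L' ≡ L [MOD N * (m + p)]) : gsum ζ m p L' = gsum ζ m p L := by
  rcases le_total L L' with hle | hle
  · have h2 := (Nat.modEq_iff_dvd' hle).mp h.symm
    obtain ⟨t, ht⟩ := h2
    have e : L' = L + t * (N * (m + p)) := by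
      rw [mul_comm t]
      omega
    rw [e, gsum_period_mul hζ hN hL]
  · have h2 := (Nat.modEq_iff_dvd' hle).mp h
    obtain ⟨t, ht⟩ := h2
    have e : L = L' + t * (N * (m + p)) := by
      rw [mul_comm t]
      omega
    rw [e, gsum_period_mul hζ hN hL']

end

/-- If `m ≤ p`, `N (m + p) + 1 = 2 ^ f` and `d(m,p,q)` is odd, then every positive number congruent
to `m p + q (m + p)` modulo `2 ^ f - 1` has at least `m` binary digits one. -/
theorem digit_bound (m p q f N L : ℕ) (hm : 1 ≤ m) (hmp : m ≤ p) (hN1 : 1 ≤ N)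
    (hN : N * (m + p) + 1 = 2 ^ f) (hL : 1 ≤ L)
    (hmod : L ≡ m * p + q * (m + p) [MOD N * (m + p)]) (hodd : IsOddInt (degNum m p q)) :
    m ≤ (Nat.digits 2 L).sum := by
  have hf : f ≠ 0 := by
    rintro rfl
    have : 1 ≤ N * (m + p) := Nat.mul_pos hN1 (by omega)
    rw [pow_zero] at hN
    omega
  have hodd2 : Odd (N * (m + p)) := by
    obtain ⟨f', rfl⟩ := Nat.exists_eq_succ_of_ne_zero hf
    rw [Nat.succ_eq_add_one, pow_succ] at hN
    exact ⟨2 ^ f' - 1, by
      have := Nat.one_le_two_pow (n := f')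
      omega⟩
  have hs : Odd (m + p) := (Nat.odd_mul.mp hodd2).2
  have hp : 1 ≤ p := le_trans hm hmp
  obtain ⟨ζ, hζ⟩ := exists_root (m + p) hs
  rw [odd_degNum_iff, odd_intDeg_iff m p q hm hp hs hζ] at hodd
  have hL0 : 1 ≤ m * p + q * (m + p) := by
    have : 1 ≤ m * p := Nat.mul_pos hm hp
    omega
  have h1 : gsum ζ m p L = 1 := by
    rw [gsum_congr hζ.pow_eq_one hN hL0 hL hmod]
    exact hodd
  rw [gsum_diag m p L hm hmp hζ hs] at h1
  have h2 : ∑ b ∈ Finset.piAntidiag (Finset.univ : Finset (Fin m)) L,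
      (if ∀ i : Fin m, (m + p) ∣ b i + (m - 1 - (i : ℕ)) + (p + (i : ℕ)) * (m + p - 1) then
        ((Nat.multinomial Finset.univ b : ℕ) : Kbar) else 0) ≠ 0 := by
    rw [h1]
    exact one_ne_zero
  obtain ⟨b, hb, hne⟩ := Finset.exists_ne_zero_of_sum_ne_zero h2
  have hsum : ∑ i, b i = L := (Finset.mem_piAntidiag.mp hb).1
  by_cases hc : ∀ i : Fin m, (m + p) ∣ b i + (m - 1 - (i : ℕ)) + (p + (i : ℕ)) * (m + p - 1)
  · rw [if_pos hc] at hne
    have hmo : Odd (Nat.multinomial Finset.univ b) := by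
      by_contra hcon
      rw [Nat.not_odd_iff_even] at hcon
      obtain ⟨r, hr⟩ := hcon
      apply hne
      rw [hr]
      push_cast
      exact CharTwo.add_self_eq_zero _
    rw [← hsum]
    apply digit_sum_of_odd b _ hmo
    intro i
    by_contra hcon
    have hb0 : b i = 0 := by omega
    have h3 := hc i
    rw [hb0, zero_add] at h3
    have h4 : (m + p) ∣ (m - 1 - (i : ℕ)) + (p + (i : ℕ)) * (m + p - 1) +
        (p + 1 + 2 * (i : ℕ) - m) := by
      have hi := i.2
      refine ⟨p + (i : ℕ), ?_⟩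
      obtain ⟨s', hs'⟩ : ∃ s', m + p = s' + 1 := ⟨m + p - 1, by omega⟩
      rw [hs']
      have e1 : s' + 1 - 1 = s' := by omega
      rw [e1]
      have e2 : m - 1 - (i : ℕ) + (p + (i : ℕ)) * s' + (p + 1 + 2 * (i : ℕ) - m)
          = (p + (i : ℕ)) * s' + (p + (i : ℕ)) := by omega
      rw [e2]
      ring
    have h5 := (Nat.dvd_add_right h3).mp h4
    have h6 := Nat.le_of_dvd (by have := i.2; omega) h5
    have := i.2
    omega
  · rw [if_neg hc] at hne
    exact absurd rfl hne

/-- If `2 ≤ ... f < m ≤ p` and `N (m + p) + 1 = 2 ^ f`, then `d(m,p,q)` is even for every `q`. -/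
theorem even_of_order (m p q f N : ℕ) (hmp : m ≤ p) (hN1 : 1 ≤ N)
    (hN : N * (m + p) + 1 = 2 ^ f) (hfm : f < m) : IsEvenInt (degNum m p q) := by
  rcases deg_int m p q with h | h
  · exfalso
    have hm : 1 ≤ m := by omega
    have hNs : 1 ≤ N * (m + p) := Nat.mul_pos hN1 (by omega)
    have hL0 : 1 ≤ m * p + q * (m + p) := by
      have : 1 ≤ m * p := Nat.mul_pos hm (le_trans hm hmp)
      omega
    have hb := digit_bound m p q f N ((m * p + q * (m + p) - 1) % (N * (m + p)) + 1) hm hmp hN1 hN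
      (by omega) (by
        have h7 : (m * p + q * (m + p) - 1) % (N * (m + p)) ≡ m * p + q * (m + p) - 1
          [MOD N * (m + p)] := Nat.mod_modEq _ _
        have h8 := h7.add_right 1
        have e : m * p + q * (m + p) - 1 + 1 = m * p + q * (m + p) := by omega
        rw [e] at h8
        exact h8) h
    have hlt := Nat.mod_lt (m * p + q * (m + p) - 1) (by omega : N * (m + p) > 0)
    have h9 := digit_sum_le (f := f) (L := (m * p + q * (m + p) - 1) % (N * (m + p)) + 1)
      (by omega)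
    omega
  · exact h

end Pool.Agent.H73.DG
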