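import Pool.Agent.H73.DG.Land
import Pool.Agent.H35.DG.Three

/-!
# The case `m = 3`, `p = 2 ^ k - 2`
-/

set_option autoImplicit false

namespace Pool.Agent.H73.DG

open Finset

theorem three_family (k : ℕ) (hk : 3 ≤ k) :
    Odd (diagCard 3 (2 ^ k - 2) 3) ∧ Odd (diagCard 3 (2 ^ k - 2) 5) :=
  Pool.Agent.H35.DG.three_family k hk

end Pool.Agent.H73.DG
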