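import Pool.Agent.H73.DG.Small
import Pool.Agent.H73.DG.Exist
import Pool.Agent.H73.DG.Order
import Pool.Agent.H73.DG.Land
import Pool.Agent.H73.DG.Intv
import Pool.Agent.H73.DG.Three

/-!
# Residue classes of `q`, a lower bound for `q`, and the case `m = 3`
-/

set_option autoImplicit false

namespace Pool.Agent.H73.DG

open Finset

lemma exists_period (s : ℕ) (hs : Odd s) (h3 : 3 ≤ s) : ∃ N f, 1 ≤ N ∧ N * s + 1 = 2 ^ f := by
  have hcop : Nat.Coprime 2 s := (Nat.coprime_two_left).mpr hs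
  have h1 := Nat.ModEq.pow_totient hcop
  have hphi : 1 ≤ Nat.totient s := Nat.totient_pos.mpr (by omega)
  have h2 : 2 ≤ 2 ^ Nat.totient s := by
    calc 2 = 2 ^ 1 := by norm_num
      _ ≤ 2 ^ Nat.totient s := Nat.pow_le_pow_right (by norm_num) hphi
  obtain ⟨N, hN⟩ := (Nat.modEq_iff_dvd' (by omega)).mp h1.symm
  refine ⟨N, Nat.totient s, ?_, ?_⟩
  · rcases Nat.eq_zero_or_pos N with h0 | h0
    · subst h0
      rw [mul_zero] at hN
      omega
    · exact h0
  · rw [mul_comm]
    omega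

lemma period_mul (m p f N : ℕ) (hm : 1 ≤ m) (hp : 1 ≤ p) (hN1 : 1 ≤ N)
    (hN : N * (m + p) + 1 = 2 ^ f) (q t : ℕ) :
    IsOddInt (degNum m p (q + t * N)) ↔ IsOddInt (degNum m p q) := by
  induction t with
  | zero => rw [zero_mul, add_zero]
  | succ t ih =>
    have e : q + (t + 1) * N = (q + t * N) + N := by ring
    rw [e, deg_period m p f N hm hp hN1 hN, ih]

/-- For `m + p = l ^ (j + 1)`, `2 m ≤ l ^ j (l - 1)`, where `l` is an odd prime and two generates the
units modulo `l ^ (j + 1)`, the number `d(m,p,q)` is odd for all `q` in a residue class. -/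
theorem odd_class (l j : ℕ) (hl : l.Prime) (hl2 : Odd l)
    (h2 : ∀ a : ℕ, ¬ l ∣ a → ∃ i : ℕ, 2 ^ i ≡ a [MOD l ^ (j + 1)])
    (m p : ℕ) (hm : 1 ≤ m) (hml : 2 * m ≤ l ^ j * (l - 1)) (hp : m + p = l ^ (j + 1)) :
    ∃ q₀ N, 1 ≤ N ∧ ∀ t, IsOddInt (degNum m p (q₀ + t * N)) := by
  have hl3 : 3 ≤ l := by
    have := hl.two_le
    obtain ⟨g, hg⟩ := hl2
    omega
  have hpow : 1 ≤ l ^ j := Nat.one_le_pow _ _ (by omega)
  have hs3 : 3 ≤ l ^ (j + 1) := by
    rw [pow_succ]
    calc 3 ≤ l := hl3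
      _ = 1 * l := (one_mul l).symm
      _ ≤ l ^ j * l := Nat.mul_le_mul_right _ hpow
  have hp1 : 1 ≤ p := by
    by_contra hcon
    have hp0 : p = 0 := by omega
    subst hp0
    have h5 : m = l ^ j * l := by rw [← pow_succ]; omega
    have h6 : l ^ j * (l - 1) ≤ l ^ j * l := Nat.mul_le_mul_left _ (by omega)
    omega
  obtain ⟨N, f, hN1, hN⟩ := exists_period (l ^ (j + 1)) (Odd.pow hl2) hs3
  obtain ⟨q, hq⟩ := exists_odd_gen l j hl hl2 h2 m p hm hml hp
  refine ⟨q, N, hN1, ?_⟩
  intro t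
  rw [period_mul m p f N hm hp1 hN1 (by rw [hp]; exact hN)]
  exact hq

/-- If `m ≤ p`, `m ≤ 2 ^ t` and `d(m,p,q)` is odd, then `m ≤ q + t + 1`. -/
theorem q_bound (m p q t : ℕ) (hmp : m ≤ p) (ht : m ≤ 2 ^ t)
    (hodd : IsOddInt (degNum m p q)) : m ≤ q + t + 1 := by
  rcases Nat.lt_or_ge m 2 with hm2 | hm2
  · omega
  · have hs : ¬ Even (m + p) := by
      intro he
      have h1 := even_of_even m p q hm2 hmp he
      rw [even_degNum_iff] at h1
      rw [odd_degNum_iff] at hodd
      exact (Int.not_odd_iff_even.mpr h1) hodd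
    rw [Nat.not_even_iff_odd] at hs
    obtain ⟨r, hr⟩ := hs
    rw [diag_card m p q hmp] at hodd
    have hpos : 0 < diagCard m p q := by
      obtain ⟨k, hk⟩ := hodd
      omega
    unfold diagCard at hpos
    obtain ⟨n, hn⟩ := Finset.card_pos.mp hpos
    rw [Finset.mem_filter, Finset.Nat.mem_antidiagonalTuple] at hn
    obtain ⟨hsum, hdis⟩ := hn
    have hZ := disjoint_interval m (r + 1 - m) t (by omega) ht
      (Finset.univ.filter (fun i : Fin m => n i = 0)) (by
        intro i hi j hj hij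
        have h1 := (Finset.mem_filter.mp hi).2
        have h2 := (Finset.mem_filter.mp hj).2
        have h3 := hdis i j hij
        rw [h1, h2, zero_mul, add_zero, add_zero] at h3
        have e1 : p + 1 + 2 * (i : ℕ) - m = 2 * (r + 1 - m + (i : ℕ)) := by omega
        have e2 : p + 1 + 2 * (j : ℕ) - m = 2 * (r + 1 - m + (j : ℕ)) := by omega
        rw [e1, e2] at h3
        apply Nat.eq_of_testBit_eq
        intro k
        have h4 := congrArg (fun x => x.testBit (k + 1)) h3
        have f1 : (2 * (r + 1 - m + (i : ℕ))).testBit (k + 1) = (r + 1 - m + (i : ℕ)).testBit k := by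
          rw [Nat.testBit_succ, Nat.mul_div_cancel_left _ (by norm_num)]
        have f2 : (2 * (r + 1 - m + (j : ℕ))).testBit (k + 1) = (r + 1 - m + (j : ℕ)).testBit k := by
          rw [Nat.testBit_succ, Nat.mul_div_cancel_left _ (by norm_num)]
        simp only [Nat.testBit_land, f1, f2, Nat.zero_testBit] at h4 ⊢
        exact h4)
    have hcard : m ≤ (Finset.univ.filter (fun i : Fin m => n i = 0)).card + q := by
      have h5 := Finset.card_filter_add_card_filter_not (s := (Finset.univ : Finset (Fin m)))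
        (fun i : Fin m => n i = 0)
      rw [Finset.card_univ, Fintype.card_fin] at h5
      have h6 : (Finset.univ.filter (fun i : Fin m => ¬ n i = 0)).card ≤ q := by
        rw [← hsum]
        calc (Finset.univ.filter (fun i : Fin m => ¬ n i = 0)).card
            = ∑ i ∈ Finset.univ.filter (fun i : Fin m => ¬ n i = 0), 1 := by
              rw [Finset.card_eq_sum_ones]
          _ ≤ ∑ i ∈ Finset.univ.filter (fun i : Fin m => ¬ n i = 0), n i := by
              apply Finset.sum_le_sum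
              intro i hi
              have := (Finset.mem_filter.mp hi).2
              omega
          _ ≤ ∑ i, n i := Finset.sum_le_sum_of_subset (Finset.filter_subset _ _)
      omega
    omega

theorem three_class (k q : ℕ) (hk : 3 ≤ k)
    (hq : q % (2 ^ k - 1) = 3 ∨ q % (2 ^ k - 1) = 5) : IsOddInt (degNum 3 (2 ^ k - 2) q) := by
  have h8 : 8 ≤ 2 ^ k := by
    calc 8 = 2 ^ 3 := by norm_num
      _ ≤ 2 ^ k := Nat.pow_le_pow_right (by norm_num) hk
  have hN : (2 ^ k - 1) * (3 + (2 ^ k - 2)) + 1 = 2 ^ (2 * k) := by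
    rw [two_mul, pow_add]
    obtain ⟨x, hx⟩ : ∃ x, 2 ^ k = x + 2 := ⟨2 ^ k - 2, by omega⟩
    rw [hx]
    have e1 : x + 2 - 1 = x + 1 := by omega
    have e2 : x + 2 - 2 = x := by omega
    rw [e1, e2]
    ring
  have hdiv : q % (2 ^ k - 1) + q / (2 ^ k - 1) * (2 ^ k - 1) = q := by
    rw [mul_comm]
    exact Nat.mod_add_div q _
  have h := period_mul 3 (2 ^ k - 2) (2 * k) (2 ^ k - 1) (by norm_num) (by omega) (by omega) hN
    (q % (2 ^ k - 1)) (q / (2 ^ k - 1))
  rw [hdiv] at h
  rw [h, diag_card 3 (2 ^ k - 2) _ (by omega)]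
  have h3 := three_family k hk
  rcases hq with h1 | h1
  · rw [h1]
    exact h3.1
  · rw [h1]
    exact h3.2

theorem two_one (h : ℕ) (hh : 1 ≤ h) :
    IsOddInt (degNum 2 (2 * h - 1) 1) ↔ Odd ((3 * h).choose h) := by
  rw [odd_iff (2 * h - 1) 1 (by omega)]
  exact ballot_one h hh

theorem two_two (h : ℕ) (hh : 1 ≤ h) :
    IsOddInt (degNum 2 (2 * h - 1) 2) ↔ ∃ r, 3 * h + 1 = 4 ^ r := by
  rw [odd_iff (2 * h - 1) 2 (by omega)]
  exact ballot_two h hh

end Pool.Agent.H73.DG
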