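import Mathlib

/-!
# The hook length formula as a signed sum of multinomial coefficients
-/

set_option autoImplicit false

namespace Pool.Agent.H73.DG

open Finset

private theorem vdm_prod (m : ℕ) (a : Fin m → ℕ) :
    ∏ j, ∏ k ∈ Finset.univ.filter (fun k : Fin m => k < j), ((a j : ℚ) - (a k : ℚ)) =
      (Matrix.vandermonde fun i => (a i : ℚ)).det := by
  rw [Matrix.det_vandermonde]
  exact Finset.prod_comm' (by simp)

private theorem vdm_det (m : ℕ) (a : Fin m → ℕ) :
    (Matrix.vandermonde fun i => (a i : ℚ)).det =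
      ∑ σ : Equiv.Perm (Fin m), ((Equiv.Perm.sign σ : ℤ) : ℚ) * ∏ i, ((a i).descFactorial (σ i) : ℚ) := by
  rw [Matrix.det_eval_matrixOfPolynomials_eq_det_vandermonde _ (fun i : Fin m => descPochhammer ℚ i)
      (fun i => descPochhammer_natDegree ℚ i) (fun i => monic_descPochhammer ℚ i),
    ← Matrix.det_transpose, Matrix.det_apply']
  refine Finset.sum_congr rfl fun σ _ => ?_
  congr 1
  refine Finset.prod_congr rfl fun i _ => ?_
  rw [Matrix.transpose_apply, Matrix.of_apply, descPochhammer_eval_eq_descFactorial]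

private theorem vdm_term (m : ℕ) (a : Fin m → ℕ) (L : ℕ)
    (hL : ∑ j, a j = L + ∑ j : Fin m, (j : ℕ)) (σ : Equiv.Perm (Fin m)) :
    (L.factorial : ℚ) * (∏ i, ((a i).descFactorial (σ i) : ℚ)) / ∏ j : Fin m, ((a j).factorial : ℚ) =
      if ∀ i, (σ i : ℕ) ≤ a i then
        ((Nat.multinomial Finset.univ (fun i => a i - (σ i : ℕ)) : ℕ) : ℚ) else 0 := by
  have hne : (∏ j : Fin m, ((a j).factorial : ℚ)) ≠ 0 :=
    Finset.prod_ne_zero_iff.2 fun j _ => by exact_mod_cast Nat.factorial_ne_zero _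
  split_ifs with h
  · have h1 : ∑ i, (a i - (σ i : ℕ)) = L := by
      have h2 : ∑ i, (a i - (σ i : ℕ)) + ∑ i, (σ i : ℕ) = ∑ i, a i := by
        rw [← Finset.sum_add_distrib]
        exact Finset.sum_congr rfl fun i _ => Nat.sub_add_cancel (h i)
      have h3 : ∑ i, ((σ i : Fin m) : ℕ) = ∑ j : Fin m, (j : ℕ) :=
        Equiv.sum_comp σ (fun j : Fin m => (j : ℕ))
      omega
    have h4 := Nat.multinomial_spec Finset.univ (fun i : Fin m => a i - (σ i : ℕ))
    rw [h1] at h4
    have h5 : ∏ j : Fin m, (a j).factorial =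
        (∏ i, (a i - (σ i : ℕ)).factorial) * ∏ i, (a i).descFactorial (σ i) := by
      rw [← Finset.prod_mul_distrib]
      exact Finset.prod_congr rfl fun i _ => (Nat.factorial_mul_descFactorial (h i)).symm
    rw [div_eq_iff hne, ← h4]
    have h6 : (∏ j : Fin m, ((a j).factorial : ℚ)) = ((∏ j : Fin m, (a j).factorial : ℕ) : ℚ) := by
      push_cast
      rfl
    rw [h6, h5]
    push_cast
    ring
  · push Not at h
    obtain ⟨i, hi⟩ := h
    have h1 : ∏ i, ((a i).descFactorial (σ i) : ℚ) = 0 :=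
      Finset.prod_eq_zero (Finset.mem_univ i) (by
        rw [Nat.descFactorial_eq_zero_iff_lt.2 hi]
        simp)
    rw [h1, mul_zero, zero_div]

/-- the hook length formula as a signed sum of multinomial coefficients -/
theorem vdm_multinomial (m : ℕ) (a : Fin m → ℕ) (L : ℕ)
    (hL : ∑ j, a j = L + ∑ j : Fin m, (j : ℕ)) :
    (L.factorial : ℚ) * ((∏ j : Fin m, ∏ k ∈ Finset.univ.filter (fun k : Fin m => k < j),
        ((a j : ℚ) - (a k : ℚ))) / ∏ j : Fin m, ((a j).factorial : ℚ))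
      = ∑ σ : Equiv.Perm (Fin m), ((Equiv.Perm.sign σ : ℤ) : ℚ) *
          (if ∀ i, (σ i : ℕ) ≤ a i then
            ((Nat.multinomial Finset.univ (fun i => a i - (σ i : ℕ)) : ℕ) : ℚ) else 0) := by
  rw [vdm_prod, vdm_det, Finset.sum_div, Finset.mul_sum]
  refine Finset.sum_congr rfl fun σ _ => ?_
  rw [← vdm_term m a L hL σ]
  ring

end Pool.Agent.H73.DG
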