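import Pool.Agent.H73.DG.Family
import Pool.Agent.H73.DG.Vdm
import Pool.Agent.H73.DG.Bij

/-!
# `d(m,p,q)` is an integer, and its parity is periodic in `q` when `m + p` is odd
-/

set_option autoImplicit false

namespace Pool.Agent.H73.DG

open Finset

/-- The integer `d(m,p,q)`, as an alternating sum of multinomial coefficients. -/
def intDeg (m p q : ℕ) : ℤ :=
  (-1) ^ (q * (m + 1)) * ∑ n ∈ Finset.Nat.antidiagonalTuple m q,
    ∑ σ : Equiv.Perm (Fin m), (Equiv.Perm.sign σ : ℤ) *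
      (if ∀ i : Fin m, (σ i : ℕ) ≤ p + (i : ℕ) + n i * (m + p) then
        ((Nat.multinomial Finset.univ
          (fun i : Fin m => p + (i : ℕ) + n i * (m + p) - (σ i : ℕ)) : ℕ) : ℤ) else 0)

lemma degNum_eq (m p q : ℕ) : degNum m p q = (intDeg m p q : ℚ) := by
  unfold degNum intDeg
  rw [mul_assoc, Finset.mul_sum]
  push_cast
  congr 1
  apply Finset.sum_congr rfl
  intro n hn
  have hsum : ∑ i, n i = q := Finset.Nat.mem_antidiagonalTuple.mp hn
  have key := vdm_multinomial m (fun i : Fin m => p + (i : ℕ) + n i * (m + p))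
    (m * p + q * (m + p)) (by
      rw [Finset.sum_add_distrib, Finset.sum_add_distrib, ← Finset.sum_mul, hsum,
        Finset.sum_const, Finset.card_univ, Fintype.card_fin, smul_eq_mul]
      ring)
  rw [← key]
  congr 2
  apply Finset.prod_congr rfl
  intro j _
  apply Finset.prod_congr rfl
  intro k _
  push_cast
  ring

section

variable {K : Type*} [Field K] [CharP K 2]

/-- The sum over roots of unity. -/
def gsum (ζ : K) (m p L : ℕ) : K :=
  ∑ σ : Equiv.Perm (Fin m), ∑ x ∈ Fintype.piFinset (fun _ : Fin m => range (m + p)),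
    (∏ i : Fin m, (ζ ^ x i) ^ ((σ i : ℕ) + (p + (i : ℕ)) * (m + p - 1))) *
      (∑ i : Fin m, ζ ^ x i) ^ L

lemma sign_cast (m : ℕ) (σ : Equiv.Perm (Fin m)) : (((Equiv.Perm.sign σ : ℤˣ) : ℤ) : K) = 1 := by
  rcases Int.units_eq_one_or (Equiv.Perm.sign σ) with h | h
  · rw [h]
    simp
  · rw [h]
    simp [CharTwo.neg_eq]

lemma gsum_eq {ζ : K} (m p L : ℕ) (hζ : IsPrimitiveRoot ζ (m + p)) (hs : Odd (m + p)) :
    gsum ζ m p L = ∑ σ : Equiv.Perm (Fin m),
      ∑ b ∈ Finset.piAntidiag (Finset.univ : Finset (Fin m)) L,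
        if ∀ i : Fin m, (m + p) ∣ b i + (σ i : ℕ) + (p + (i : ℕ)) * (m + p - 1) then
          ((Nat.multinomial Finset.univ b : ℕ) : K) else 0 := by
  unfold gsum
  apply Finset.sum_congr rfl
  intro σ _
  have h2 : ∀ b ∈ Finset.piAntidiag (Finset.univ : Finset (Fin m)) L,
      (if ∀ i : Fin m, (m + p) ∣ b i + (σ i : ℕ) + (p + (i : ℕ)) * (m + p - 1) then
        ((Nat.multinomial Finset.univ b : ℕ) : K) else 0)
      = ∑ x ∈ Fintype.piFinset (fun _ : Fin m => range (m + p)),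
          (∏ i : Fin m, (ζ ^ x i) ^ ((σ i : ℕ) + (p + (i : ℕ)) * (m + p - 1))) *
            (((Nat.multinomial Finset.univ b : ℕ) : K) * ∏ i : Fin m, (ζ ^ x i) ^ b i) := by
    intro b _
    have h3 : (∏ i : Fin m, ∑ t ∈ range (m + p),
        (ζ ^ t) ^ (b i + (σ i : ℕ) + (p + (i : ℕ)) * (m + p - 1)))
        = if ∀ i : Fin m, (m + p) ∣ b i + (σ i : ℕ) + (p + (i : ℕ)) * (m + p - 1) then (1 : K)
          else 0 := by
      simp only [root_sum hζ hs]
      split_ifs with h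
      · apply Finset.prod_eq_one
        intro i _
        rw [if_pos (h i)]
      · rw [not_forall] at h
        obtain ⟨i, hi⟩ := h
        exact Finset.prod_eq_zero (Finset.mem_univ i) (if_neg hi)
    have h4 : (if ∀ i : Fin m, (m + p) ∣ b i + (σ i : ℕ) + (p + (i : ℕ)) * (m + p - 1) then
        ((Nat.multinomial Finset.univ b : ℕ) : K) else 0)
        = ((Nat.multinomial Finset.univ b : ℕ) : K) * (∏ i : Fin m, ∑ t ∈ range (m + p),
        (ζ ^ t) ^ (b i + (σ i : ℕ) + (p + (i : ℕ)) * (m + p - 1))) := by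
      rw [h3]
      split_ifs <;> simp
    rw [h4, Finset.prod_univ_sum, Finset.mul_sum]
    apply Finset.sum_congr rfl
    intro x _
    rw [mul_left_comm]
    congr 1
    rw [← Finset.prod_mul_distrib]
    apply Finset.prod_congr rfl
    intro i _
    rw [← pow_add]
    congr 1
    ring
  rw [Finset.sum_congr rfl h2, Finset.sum_comm]
  apply Finset.sum_congr rfl
  intro x _
  rw [← Finset.mul_sum, Finset.sum_pow_eq_sum_piAntidiag]

lemma intDeg_cast {ζ : K} (m p q : ℕ) (hm : 1 ≤ m) (hp : 1 ≤ p) (hζ : IsPrimitiveRoot ζ (m + p))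
    (hs : Odd (m + p)) :
    ((intDeg m p q : ℤ) : K) = gsum ζ m p (m * p + q * (m + p)) := by
  rw [gsum_eq m p _ hζ hs]
  unfold intDeg
  push_cast
  rw [CharTwo.neg_eq, one_pow, one_mul, Finset.sum_comm]
  apply Finset.sum_congr rfl
  intro σ _
  simp only [sign_cast, one_mul]
  exact sum_bij (K := K) m p q hm hp σ (fun b => ((Nat.multinomial Finset.univ b : ℕ) : K))

/-- The sum over roots of unity vanishes unless `L ≡ m p` modulo `m + p`. -/
lemma gsum_zero {ζ : K} (m p L : ℕ) (hm : 1 ≤ m) (hp : 1 ≤ p) (hζ : IsPrimitiveRoot ζ (m + p))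
    (hs : Odd (m + p)) (hL : ¬ (m + p) ∣ L + (m * p) * (m + p - 1)) :
    gsum ζ m p L = 0 := by
  rw [gsum_eq m p _ hζ hs]
  apply Finset.sum_eq_zero
  intro σ _
  apply Finset.sum_eq_zero
  intro b hb
  rw [if_neg]
  intro h
  apply hL
  have hsum : ∑ i, b i = L := (Finset.mem_piAntidiag.mp hb).1
  have hσ : ∑ i : Fin m, ((σ i : Fin m) : ℕ) = ∑ i : Fin m, (i : ℕ) :=
    Equiv.sum_comp σ (fun i : Fin m => (i : ℕ))
  have h5 : (m + p) ∣ ∑ i : Fin m, (b i + (σ i : ℕ) + (p + (i : ℕ)) * (m + p - 1)) :=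
    Finset.dvd_sum (fun i _ => h i)
  rw [Finset.sum_add_distrib, Finset.sum_add_distrib, hsum, hσ, ← Finset.sum_mul,
    Finset.sum_add_distrib, Finset.sum_const, Finset.card_univ, Fintype.card_fin,
    smul_eq_mul] at h5
  obtain ⟨s', hs'⟩ : ∃ s', m + p = s' + 1 := ⟨m + p - 1, by omega⟩
  rw [hs'] at h5 ⊢
  have e1 : s' + 1 - 1 = s' := by omega
  rw [e1] at h5 ⊢
  have e : L + ∑ i : Fin m, (i : ℕ) + (m * p + ∑ i : Fin m, (i : ℕ)) * s'
      = (L + m * p * s') + (s' + 1) * ∑ i : Fin m, (i : ℕ) := by ring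
  rw [e] at h5
  exact (Nat.dvd_add_left (dvd_mul_right _ _)).mp h5

lemma frob_sum {m s N f : ℕ} (z : Fin m → K) (hz : ∀ i, z i ^ s = 1) (hN : N * s + 1 = 2 ^ f) :
    (∑ i, z i) ^ (N * s + 1) = ∑ i, z i := by
  have : Fact (Nat.Prime 2) := ⟨Nat.prime_two⟩
  rw [hN, sum_pow_char_pow, ← hN]
  apply Finset.sum_congr rfl
  intro i _
  rw [pow_add, mul_comm N s, pow_mul, hz, one_pow, one_mul, pow_one]

lemma gsum_period {ζ : K} {m p N f L : ℕ} (hζ : ζ ^ (m + p) = 1)
    (hN : N * (m + p) + 1 = 2 ^ f) (hL : 1 ≤ L) :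
    gsum ζ m p (L + N * (m + p)) = gsum ζ m p L := by
  unfold gsum
  apply Finset.sum_congr rfl
  intro σ _
  apply Finset.sum_congr rfl
  intro x _
  congr 1
  obtain ⟨L', rfl⟩ : ∃ L', L = L' + 1 := ⟨L - 1, by omega⟩
  have e : L' + 1 + N * (m + p) = L' + (N * (m + p) + 1) := by ring
  rw [e, pow_add, frob_sum (s := m + p) _ _ hN, pow_succ]
  intro i
  rw [← pow_mul, mul_comm, pow_mul, hζ, one_pow]

end

lemma odd_intDeg_iff (m p q : ℕ) (hm : 1 ≤ m) (hp : 1 ≤ p) (hs : Odd (m + p)) {ζ : Kbar}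
    (hζ : IsPrimitiveRoot ζ (m + p)) :
    Odd (intDeg m p q) ↔ gsum ζ m p (m * p + q * (m + p)) = 1 := by
  rw [← intDeg_cast m p q hm hp hζ hs]
  constructor
  · rintro ⟨k, hk⟩
    rw [hk]
    push_cast
    have h3 : (2 : Kbar) * (k : Kbar) = 0 := by
      rw [two_mul]
      exact CharTwo.add_self_eq_zero _
    rw [h3, zero_add]
  · intro h
    by_contra hcon
    rw [Int.not_odd_iff_even] at hcon
    obtain ⟨k, hk⟩ := hcon
    rw [hk] at h
    push_cast at h
    rw [CharTwo.add_self_eq_zero] at h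
    exact zero_ne_one h

lemma odd_degNum_iff (m p q : ℕ) : IsOddInt (degNum m p q) ↔ Odd (intDeg m p q) := by
  unfold IsOddInt
  rw [degNum_eq m p q]
  constructor
  · rintro ⟨D, hD, h⟩
    have : intDeg m p q = D := by exact_mod_cast h
    rw [this]
    exact hD
  · intro h
    exact ⟨_, h, rfl⟩

lemma even_degNum_iff (m p q : ℕ) : IsEvenInt (degNum m p q) ↔ Even (intDeg m p q) := by
  unfold IsEvenInt
  rw [degNum_eq m p q]
  constructor
  · rintro ⟨D, hD, h⟩
    have : intDeg m p q = D := by exact_mod_cast h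
    rw [this]
    exact hD
  · intro h
    exact ⟨_, h, rfl⟩

/-- `d(m,p,q)` is an odd or an even integer. -/
theorem deg_int (m p q : ℕ) : IsOddInt (degNum m p q) ∨ IsEvenInt (degNum m p q) := by
  rw [odd_degNum_iff, even_degNum_iff]
  exact (Int.even_or_odd _).symm

/-- For `m + p` odd the parity of `d(m,p,q)` has the period `N` in `q`, for every `N` such that
`N (m + p) + 1` is a power of two. -/
theorem deg_period (m p f N : ℕ) (hm : 1 ≤ m) (hp : 1 ≤ p) (hN1 : 1 ≤ N)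
    (hN : N * (m + p) + 1 = 2 ^ f) (q : ℕ) :
    IsOddInt (degNum m p (q + N)) ↔ IsOddInt (degNum m p q) := by
  have hf : f ≠ 0 := by
    rintro rfl
    have : 1 ≤ N * (m + p) := Nat.mul_pos hN1 (by omega)
    rw [pow_zero] at hN
    omega
  have hodd : Odd (N * (m + p)) := by
    obtain ⟨f', rfl⟩ := Nat.exists_eq_succ_of_ne_zero hf
    rw [Nat.succ_eq_add_one, pow_succ] at hN
    exact ⟨2 ^ f' - 1, by
      have := Nat.one_le_two_pow (n := f')
      omega⟩
  have hs : Odd (m + p) := (Nat.odd_mul.mp hodd).2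
  obtain ⟨ζ, hζ⟩ := exists_root (m + p) hs
  rw [odd_degNum_iff, odd_degNum_iff, odd_intDeg_iff m p _ hm hp hs hζ,
    odd_intDeg_iff m p _ hm hp hs hζ]
  have e : m * p + (q + N) * (m + p) = (m * p + q * (m + p)) + N * (m + p) := by ring
  rw [e, gsum_period hζ.pow_eq_one hN]
  have : 1 ≤ m * p := Nat.mul_pos hm hp
  omega

end Pool.Agent.H73.DG
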