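import Mathlib

/-!
# Splitting off one entry from the diagonal sum
-/

set_option autoImplicit false

namespace Pool.Agent.H73.DG

open Finset

/-- The diagonal sum: over the `b` with sum `L` and `b i ≡ - (2 (m - 1 - i) + 1)` modulo `s`. -/
def dsum (K : Type*) [CommRing K] (s m L : ℕ) : K :=
  ∑ b ∈ Finset.piAntidiag (Finset.univ : Finset (Fin m)) L,
    if ∀ i : Fin m, s ∣ b i + (2 * (m - 1 - (i : ℕ)) + 1) then
      ((Nat.multinomial Finset.univ b : ℕ) : K) else 0

lemma multinomial_fin_cons {m : ℕ} (a : ℕ) (b : Fin m → ℕ) :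
    Nat.multinomial Finset.univ (Fin.cons a b : Fin (m + 1) → ℕ) =
      (a + ∑ i, b i).choose a * Nat.multinomial Finset.univ b := by
  have h1 := Nat.multinomial_spec Finset.univ (Fin.cons a b : Fin (m + 1) → ℕ)
  rw [Fin.prod_univ_succ, Fin.sum_univ_succ] at h1
  simp only [Fin.cons_zero, Fin.cons_succ] at h1
  have h2 := Nat.multinomial_spec Finset.univ b
  have h3 := Nat.choose_mul_factorial_mul_factorial (Nat.le_add_right a (∑ i, b i))
  rw [Nat.add_sub_cancel_left] at h3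
  have hpos : 0 < a.factorial * ∏ i, (b i).factorial :=
    Nat.mul_pos (Nat.factorial_pos _) (Finset.prod_pos fun i _ => Nat.factorial_pos _)
  apply Nat.eq_of_mul_eq_mul_left hpos
  rw [h1, ← h3, ← h2]
  ring

theorem dsum_succ (K : Type*) [CommRing K] (s m L : ℕ) :
    dsum K s (m + 1) L = ∑ c ∈ Finset.HasAntidiagonal.antidiagonal L,
      (if s ∣ c.1 + (2 * m + 1) then ((L.choose c.1 : ℕ) : K) else 0) * dsum K s m c.2 := by
  have hsum : ∀ b ∈ Finset.piAntidiag (Finset.univ : Finset (Fin (m + 1))) L,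
      b 0 + ∑ i, Fin.tail b i = L := by
    intro b hb
    have h := (Finset.mem_piAntidiag.mp hb).1
    rw [Fin.sum_univ_succ] at h
    exact h
  unfold dsum
  simp only [Finset.mul_sum]
  rw [Finset.sum_sigma']
  refine Finset.sum_bij' (fun b _ => (⟨(b 0, L - b 0), Fin.tail b⟩ : Σ _ : ℕ × ℕ, (Fin m → ℕ)))
    (fun x _ => (Fin.cons x.1.1 x.2 : Fin (m + 1) → ℕ)) ?_ ?_ ?_ ?_ ?_
  · intro b hb
    have h := hsum b hb
    rw [Finset.mem_sigma, Finset.HasAntidiagonal.mem_antidiagonal, Finset.mem_piAntidiag]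
    refine ⟨?_, ?_, fun i _ => Finset.mem_univ i⟩
    · show b 0 + (L - b 0) = L
      omega
    · show ∑ i, Fin.tail b i = L - b 0
      omega
  · rintro ⟨⟨c, d⟩, b⟩ hx
    rw [Finset.mem_sigma, Finset.HasAntidiagonal.mem_antidiagonal, Finset.mem_piAntidiag] at hx
    rw [Finset.mem_piAntidiag]
    refine ⟨?_, fun i _ => Finset.mem_univ i⟩
    have h1 : c + d = L := hx.1
    have h2 : ∑ i, b i = d := hx.2.1
    show ∑ i, (Fin.cons c b : Fin (m + 1) → ℕ) i = L
    rw [Fin.sum_univ_succ]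
    simp only [Fin.cons_zero, Fin.cons_succ]
    omega
  · intro b _
    exact Fin.cons_self_tail b
  · rintro ⟨⟨c, d⟩, b⟩ hx
    rw [Finset.mem_sigma, Finset.HasAntidiagonal.mem_antidiagonal] at hx
    have h1 : c + d = L := hx.1
    have h2 : L - c = d := by omega
    show (⟨((Fin.cons c b : Fin (m + 1) → ℕ) 0, L - (Fin.cons c b : Fin (m + 1) → ℕ) 0),
      Fin.tail (Fin.cons c b : Fin (m + 1) → ℕ)⟩ : Σ _ : ℕ × ℕ, (Fin m → ℕ)) = ⟨(c, d), b⟩
    rw [Fin.cons_zero, Fin.tail_cons, h2]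
  · intro b hb
    have h := hsum b hb
    have hmult : Nat.multinomial Finset.univ b =
        L.choose (b 0) * Nat.multinomial Finset.univ (Fin.tail b) := by
      have h3 := multinomial_fin_cons (b 0) (Fin.tail b)
      rw [Fin.cons_self_tail, h] at h3
      exact h3
    have hiff : (∀ i : Fin (m + 1), s ∣ b i + (2 * (m + 1 - 1 - (i : ℕ)) + 1)) ↔
        (s ∣ b 0 + (2 * m + 1)) ∧
          ∀ i : Fin m, s ∣ Fin.tail b i + (2 * (m - 1 - (i : ℕ)) + 1) := by
      rw [Fin.forall_fin_succ]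
      refine and_congr ?_ (forall_congr' fun i => ?_)
      · simp
      · have e : m + 1 - 1 - ((i.succ : Fin (m + 1)) : ℕ) = m - 1 - (i : ℕ) := by
          rw [Fin.val_succ]
          omega
        rw [e]
        rfl
    by_cases h0 : s ∣ b 0 + (2 * m + 1)
    · by_cases h1 : ∀ i : Fin m, s ∣ Fin.tail b i + (2 * (m - 1 - (i : ℕ)) + 1)
      · rw [if_pos (hiff.mpr ⟨h0, h1⟩), if_pos h0, if_pos h1, hmult]
        push_cast
        rfl
      · rw [if_neg (fun h => h1 (hiff.mp h).2), if_neg h1, mul_zero]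
    · rw [if_neg (fun h => h0 (hiff.mp h).1), if_neg h0, zero_mul]

end Pool.Agent.H73.DG
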