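import Mathlib

set_option autoImplicit false

namespace Pool.Agent.H73.DG

open Finset

/-- the coefficient of one nonzero value vanishes -/
private theorem fiber_zero {K ι : Type*} [Field K] [DecidableEq K] (X : Finset ι) (B u : ι → K)
    (Q D : ℕ) (hD : (X.image u).card ≤ D)
    (h : ∀ q, Q ≤ q → q < Q + D → ∑ x ∈ X, B x * u x ^ q = 0) (v : K) (hv : v ∈ X.image u)
    (hv0 : v ≠ 0) : ∑ x ∈ X.filter (fun x => u x = v), B x = 0 := by
  classical
  obtain ⟨P, hP⟩ : ∃ P : Polynomial K,
      P = ∏ c ∈ (X.image u).erase v, (Polynomial.X - Polynomial.C c) := ⟨_, rfl⟩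
  have hdeg : P.natDegree < D := by
    rw [hP, Polynomial.natDegree_prod_of_monic _ _ fun c _ => Polynomial.monic_X_sub_C c]
    simp only [Polynomial.natDegree_X_sub_C, Finset.sum_const, smul_eq_mul, mul_one]
    rw [Finset.card_erase_of_mem hv]
    have h1 : 0 < (X.image u).card := Finset.card_pos.2 ⟨v, hv⟩
    omega
  have hev0 : ∀ x ∈ X, u x ≠ v → P.eval (u x) = 0 := by
    intro x hx hxv
    rw [hP, Polynomial.eval_prod]
    apply Finset.prod_eq_zero (Finset.mem_erase.2 ⟨hxv, Finset.mem_image_of_mem u hx⟩)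
    simp
  have hevv : P.eval v ≠ 0 := by
    rw [hP, Polynomial.eval_prod, Finset.prod_ne_zero_iff]
    intro c hc
    simp only [Polynomial.eval_sub, Polynomial.eval_X, Polynomial.eval_C]
    exact sub_ne_zero.2 (Finset.ne_of_mem_erase hc).symm
  have e1 : ∑ x ∈ X, B x * u x ^ Q * P.eval (u x) =
      (∑ x ∈ X.filter (fun x => u x = v), B x) * (v ^ Q * P.eval v) := by
    rw [Finset.sum_mul, Finset.sum_filter]
    refine Finset.sum_congr rfl fun x hx => ?_
    by_cases hxv : u x = v
    · rw [if_pos hxv, hxv]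
      ring
    · rw [if_neg hxv, hev0 x hx hxv, mul_zero]
  have e2 : ∑ x ∈ X, B x * u x ^ Q * P.eval (u x) = 0 := by
    have e3 : ∀ x ∈ X, B x * u x ^ Q * P.eval (u x) =
        ∑ i ∈ range D, P.coeff i * (B x * u x ^ (Q + i)) := by
      intro x _
      rw [Polynomial.eval_eq_sum_range' hdeg, Finset.mul_sum]
      refine Finset.sum_congr rfl fun i _ => ?_
      rw [pow_add]
      ring
    rw [Finset.sum_congr rfl e3, Finset.sum_comm]
    refine Finset.sum_eq_zero fun i hi => ?_
    rw [← Finset.mul_sum, h (Q + i) (Nat.le_add_right _ _)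
      (Nat.add_lt_add_left (Finset.mem_range.1 hi) Q), mul_zero]
  rw [e1] at e2
  rcases mul_eq_zero.1 e2 with h1 | h1
  · exact h1
  · exact absurd h1 (mul_ne_zero (pow_ne_zero _ hv0) hevv)

theorem window_zero {K ι : Type*} [Field K] [DecidableEq K] (X : Finset ι) (B u : ι → K)
    (Q D : ℕ) (hD : (X.image u).card ≤ D)
    (h : ∀ q, Q ≤ q → q < Q + D → ∑ x ∈ X, B x * u x ^ q = 0)
    (h0 : ∀ x ∈ X, u x = 0 → B x = 0) (q : ℕ) : ∑ x ∈ X, B x * u x ^ q = 0 := by
  classical
  rw [← Finset.sum_fiberwise_of_maps_to (s := X) (t := X.image u) (g := u)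
    fun x hx => Finset.mem_image_of_mem u hx]
  refine Finset.sum_eq_zero fun v hv => ?_
  by_cases hv0 : v = 0
  · refine Finset.sum_eq_zero fun x hx => ?_
    have hx' := Finset.mem_filter.1 hx
    rw [h0 x hx'.1 (hx'.2.trans hv0), zero_mul]
  · have e1 : ∑ x ∈ X.filter (fun x => u x = v), B x * u x ^ q =
        (∑ x ∈ X.filter (fun x => u x = v), B x) * v ^ q := by
      rw [Finset.sum_mul]
      refine Finset.sum_congr rfl fun x hx => ?_
      rw [(Finset.mem_filter.1 hx).2]
    rw [e1, fiber_zero X B u Q D hD h v hv hv0, zero_mul]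

end Pool.Agent.H73.DG
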