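import Pool.Agent.H73.DG.Exist
import Pool.Agent.H73.DG.Win

/-!
# Odd values in every window of length `C(m + p - 1, m - 1)`
-/

set_option autoImplicit false

namespace Pool.Agent.H73.DG

open Finset

/-- If `m + p` is odd and `d(m,p,q)` is odd for some `q`, then it is odd for one of any
`C(m + p - 1, m - 1)` consecutive `q`. -/
theorem odd_window (m p : ℕ) (hm : 1 ≤ m) (hp : 1 ≤ p) (hs : Odd (m + p))
    (hex : ∃ q, IsOddInt (degNum m p q)) (Q : ℕ) :
    ∃ q, Q ≤ q ∧ q < Q + (m + p - 1).choose (m - 1) ∧ IsOddInt (degNum m p q) := by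
  classical
  by_contra hcon
  obtain ⟨ζ, hζ⟩ := exists_root (m + p) hs
  have hev : ∀ q, ¬ IsOddInt (degNum m p q) → gsum ζ m p (m * p + q * (m + p)) = 0 := by
    intro q h1
    rw [odd_degNum_iff, Int.not_odd_iff_even] at h1
    rw [← intDeg_cast m p q hm hp hζ hs]
    obtain ⟨k, hk⟩ := h1
    rw [hk]
    push_cast
    rw [CharTwo.add_self_eq_zero]
  have hrew : ∀ q, gsum ζ m p (m * p + q * (m + p))
      = ∑ x ∈ (Fintype.piFinset (fun _ : Fin m => range (m + p))).filter
          (fun x => Function.Injective x),
        (wt ζ m p x * (∑ i : Fin m, ζ ^ x i) ^ (m * p)) *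
          ((∑ i : Fin m, ζ ^ x i) ^ (m + p)) ^ q := by
    intro q
    rw [gsum_wt, Finset.sum_filter]
    apply Finset.sum_congr rfl
    intro x _
    split_ifs with hx
    · rw [mul_assoc, ← pow_mul, ← pow_add]
      congr 2
      ring
    · rw [wt_zero x hx, zero_mul]
  have hcard : (((Fintype.piFinset (fun _ : Fin m => range (m + p))).filter
      (fun x => Function.Injective x)).image
        (fun x => (∑ i : Fin m, ζ ^ x i) ^ (m + p))).card ≤ (m + p - 1).choose (m - 1) := by
    have hsub : (((Fintype.piFinset (fun _ : Fin m => range (m + p))).filter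
      (fun x => Function.Injective x)).image
        (fun x => (∑ i : Fin m, ζ ^ x i) ^ (m + p)))
        ⊆ (Finset.powersetCard (m - 1) ((range (m + p)).erase 0)).image
          (fun J => (1 + ∑ i ∈ J, ζ ^ i) ^ (m + p)) := by
      intro v hv
      obtain ⟨x, hx, rfl⟩ := Finset.mem_image.mp hv
      rw [Finset.mem_filter, Fintype.mem_piFinset] at hx
      obtain ⟨hx1, hx2⟩ := hx
      have hxl : ∀ i, x i < m + p := fun i => Finset.mem_range.mp (hx1 i)
      obtain ⟨a, ha, ha2⟩ : ∃ a, a < m + p ∧ a = x ⟨0, by omega⟩ := ⟨_, hxl _, rfl⟩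
      have hroot : ∀ b, ζ ^ (b % (m + p)) = ζ ^ b := by
        intro b
        conv_rhs => rw [← Nat.mod_add_div b (m + p), pow_add, pow_mul, hζ.pow_eq_one, one_pow,
          mul_one]
      have hyinj : Function.Injective (fun i : Fin m => (x i + (m + p - a)) % (m + p)) := by
        intro i j hij
        apply hx2
        have h1 := hxl i
        have h2 := hxl j
        have h3 : x i + (m + p - a) ≡ x j + (m + p - a) [MOD (m + p)] := hij
        have h4 := Nat.ModEq.add_right_cancel' _ h3
        exact Nat.ModEq.eq_of_lt_of_lt h4 h1 h2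
      have hy0 : (x ⟨0, by omega⟩ + (m + p - a)) % (m + p) = 0 := by
        rw [← ha2]
        have e : a + (m + p - a) = m + p := by omega
        rw [e, Nat.mod_self]
      have hmem0 : 0 ∈ Finset.univ.image (fun i : Fin m => (x i + (m + p - a)) % (m + p)) := by
        rw [Finset.mem_image]
        exact ⟨⟨0, by omega⟩, Finset.mem_univ _, hy0⟩
      rw [Finset.mem_image]
      refine ⟨(Finset.univ.image (fun i : Fin m => (x i + (m + p - a)) % (m + p))).erase 0, ?_, ?_⟩
      · rw [Finset.mem_powersetCard]
        constructor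
        · apply Finset.erase_subset_erase
          intro b hb
          obtain ⟨i, _, rfl⟩ := Finset.mem_image.mp hb
          exact Finset.mem_range.mpr (Nat.mod_lt _ (by omega))
        · rw [Finset.card_erase_of_mem hmem0, Finset.card_image_of_injective _ hyinj,
            Finset.card_univ, Fintype.card_fin]
      · have h5 : (1 : Kbar) + ∑ i ∈ (Finset.univ.image
            (fun i : Fin m => (x i + (m + p - a)) % (m + p))).erase 0, ζ ^ i
            = ∑ i : Fin m, ζ ^ (x i + (m + p - a)) := by
          have h6 := Finset.add_sum_erase (Finset.univ.image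
            (fun i : Fin m => (x i + (m + p - a)) % (m + p))) (fun i => ζ ^ i) hmem0
          simp only [pow_zero] at h6
          rw [h6, Finset.sum_image (fun a _ b _ h => hyinj h)]
          apply Finset.sum_congr rfl
          intro i _
          exact hroot _
        simp only [h5]
        have h7 : ∑ i : Fin m, ζ ^ (x i + (m + p - a)) = (∑ i : Fin m, ζ ^ x i) * ζ ^ (m + p - a) := by
          rw [Finset.sum_mul]
          apply Finset.sum_congr rfl
          intro i _
          rw [pow_add]
        rw [h7, mul_pow, ← pow_mul, mul_comm (m + p - a), pow_mul, hζ.pow_eq_one, one_pow, mul_one]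
    calc _ ≤ ((Finset.powersetCard (m - 1) ((range (m + p)).erase 0)).image
          (fun J => (1 + ∑ i ∈ J, ζ ^ i) ^ (m + p))).card := Finset.card_le_card hsub
      _ ≤ (Finset.powersetCard (m - 1) ((range (m + p)).erase 0)).card := Finset.card_image_le
      _ = (m + p - 1).choose (m - 1) := by
        rw [Finset.card_powersetCard, Finset.card_erase_of_mem (Finset.mem_range.mpr (by omega)),
          Finset.card_range]
  have hz := window_zero ((Fintype.piFinset (fun _ : Fin m => range (m + p))).filter
      (fun x => Function.Injective x))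
      (fun x => wt ζ m p x * (∑ i : Fin m, ζ ^ x i) ^ (m * p))
      (fun x => (∑ i : Fin m, ζ ^ x i) ^ (m + p)) Q ((m + p - 1).choose (m - 1)) hcard
      (by
        intro q hq1 hq2
        have h3 : ¬ IsOddInt (degNum m p q) := by
          intro h4
          exact hcon ⟨q, hq1, hq2, h4⟩
        have h5 := hev q h3
        rw [hrew q] at h5
        exact h5)
      (by
        intro x _ hx
        have h6 : (∑ i : Fin m, ζ ^ x i) = 0 := by
          by_contra hne
          exact (pow_ne_zero _ hne) hx
        have h7 : m * p ≠ 0 := by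
          have := Nat.mul_pos hm hp
          omega
        rw [h6, zero_pow h7, mul_zero])
  obtain ⟨q, hq⟩ := hex
  rw [odd_degNum_iff, odd_intDeg_iff m p q hm hp hs hζ, hrew q] at hq
  have h8 := hz q
  rw [h8] at hq
  exact zero_ne_one hq

end Pool.Agent.H73.DG
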