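import Pool.Agent.H73.DG.Final
import Pool.Agent.H73.DG.Window
import Pool.Agent.H73.DG.Step

/-!
# Monotonicity in `m` for fixed `m + p`
-/

set_option autoImplicit false

namespace Pool.Agent.H73.DG

open Finset

section

variable {K : Type*} [Field K] [CharP K 2]

lemma gsum_dsum {ζ : K} (m p L : ℕ) (hm : 1 ≤ m) (hmp : m ≤ p)
    (hζ : IsPrimitiveRoot ζ (m + p)) (hs : Odd (m + p)) :
    gsum ζ m p L = dsum K (m + p) m L := by
  rw [gsum_diag m p L hm hmp hζ hs]
  unfold dsum
  apply Finset.sum_congr rfl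
  intro b _
  have h : (∀ i : Fin m, (m + p) ∣ b i + (m - 1 - (i : ℕ)) + (p + (i : ℕ)) * (m + p - 1)) ↔
      ∀ i : Fin m, (m + p) ∣ b i + (2 * (m - 1 - (i : ℕ)) + 1) := by
    apply forall_congr'
    intro i
    have hi := i.2
    have e : b i + (m - 1 - (i : ℕ)) + (p + (i : ℕ)) * (m + p - 1)
        = b i + (2 * (m - 1 - (i : ℕ)) + 1) + (m + p) * (p + (i : ℕ) - 1) := by
      obtain ⟨p', rfl⟩ : ∃ p', p = p' + 1 := ⟨p - 1, by omega⟩
      obtain ⟨u, hu⟩ : ∃ u, m = (i : ℕ) + 1 + u := ⟨m - 1 - (i : ℕ), by omega⟩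
      have e1 : m + (p' + 1) - 1 = m + p' := by omega
      have e2 : p' + 1 + (i : ℕ) - 1 = p' + (i : ℕ) := by omega
      have e3 : m - 1 - (i : ℕ) = u := by omega
      rw [e1, e2, e3]
      linarith [hu]
    rw [e]
    exact (Nat.dvd_add_left (dvd_mul_right _ _))
  simp only [h]

end

lemma dsum_zero_mono (K : Type*) [CommRing K] (s m : ℕ) (h : ∀ L, dsum K s m L = 0) (r : ℕ) :
    ∀ L, dsum K s (m + r) L = 0 := by
  induction r with
  | zero => exact h
  | succ r ih =>
    intro L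
    rw [← add_assoc, dsum_succ]
    apply Finset.sum_eq_zero
    intro c _
    rw [ih, mul_zero]

lemma dsum_zero_of_even (m p : ℕ) (hm : 1 ≤ m) (hmp : m ≤ p) (hs : Odd (m + p))
    (h : ∀ q, ¬ IsOddInt (degNum m p q)) (L : ℕ) : dsum Kbar (m + p) m L = 0 := by
  have hp : 1 ≤ p := le_trans hm hmp
  obtain ⟨ζ, hζ⟩ := exists_root (m + p) hs
  have hs3 : 3 ≤ m + p := by
    obtain ⟨r, hr⟩ := hs
    omega
  obtain ⟨N, f, hN1, hN⟩ := exists_period (m + p) hs hs3
  rcases Nat.eq_zero_or_pos L with h0 | h0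
  · subst h0
    unfold dsum
    apply Finset.sum_eq_zero
    intro b hb
    rw [if_neg]
    intro hc
    have hsum : ∑ i, b i = 0 := (Finset.mem_piAntidiag.mp hb).1
    have hb0 : b ⟨0, by omega⟩ = 0 := by
      have := Finset.sum_eq_zero_iff.mp hsum ⟨0, by omega⟩ (Finset.mem_univ _)
      exact this
    have h1 := hc ⟨0, by omega⟩
    rw [hb0, zero_add] at h1
    have h2 := Nat.le_of_dvd (by omega) h1
    simp only at h2
    omega
  · rw [← gsum_dsum m p L hm hmp hζ hs, ← gsum_period_mul hζ.pow_eq_one hN h0 (m * p)]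
    by_cases hd : (m + p) ∣ (L + m * p * (N * (m + p))) + (m * p) * (m + p - 1)
    · have hge : m * p ≤ L + m * p * (N * (m + p)) := by
        have h1 : 1 ≤ N * (m + p) := Nat.mul_pos hN1 (by omega)
        have h2 : m * p * 1 ≤ m * p * (N * (m + p)) := Nat.mul_le_mul_left _ h1
        omega
      obtain ⟨t, ht⟩ := Nat.exists_eq_add_of_le hge
      rw [ht] at hd ⊢
      have e : (m * p + t) + (m * p) * (m + p - 1) = t + (m * p) * (m + p) := by
        obtain ⟨s', hs'⟩ : ∃ s', m + p = s' + 1 := ⟨m + p - 1, by omega⟩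
        rw [hs']
        have e1 : s' + 1 - 1 = s' := by omega
        rw [e1]
        ring
      rw [e] at hd
      have hd2 : (m + p) ∣ t := (Nat.dvd_add_left (dvd_mul_left _ _)).mp hd
      obtain ⟨q, rfl⟩ := hd2
      rw [mul_comm (m + p) q]
      have h1 := h q
      rw [odd_degNum_iff, Int.not_odd_iff_even] at h1
      rw [← intDeg_cast m p q hm hp hζ hs]
      obtain ⟨k, hk⟩ := h1
      rw [hk]
      push_cast
      rw [CharTwo.add_self_eq_zero]
    · exact gsum_zero m p _ hm hp hζ hs hd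

/-- For fixed odd `m + p` the numbers `m ≤ p` such that `d(m,p,q)` is odd for some `q` form an
initial segment. -/
theorem mono (m p m' p' : ℕ) (hm : 1 ≤ m) (hmm : m ≤ m') (hmp : m' ≤ p') (he : m' + p' = m + p)
    (hs : Odd (m + p)) (h : ∃ q, IsOddInt (degNum m' p' q)) : ∃ q, IsOddInt (degNum m p q) := by
  by_contra hcon
  rw [not_exists] at hcon
  have h1 := dsum_zero_of_even m p hm (by omega) hs hcon
  obtain ⟨r, rfl⟩ := Nat.exists_eq_add_of_le hmm
  have h2 := dsum_zero_mono Kbar (m + p) m h1 r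
  obtain ⟨q, hq⟩ := h
  have hs' : Odd (m + r + p') := by
    rw [he]
    exact hs
  obtain ⟨ζ, hζ⟩ := exists_root (m + r + p') hs'
  rw [odd_degNum_iff, odd_intDeg_iff (m + r) p' q (by omega) (by omega) hs' hζ,
    gsum_dsum (m + r) p' _ (by omega) hmp hζ hs', he] at hq
  rw [h2] at hq
  exact zero_ne_one hq

end Pool.Agent.H73.DG
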