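import Pool.Agent.H73.DG.Value

/-!
# The parity of `d(2,p,q)`
-/

set_option autoImplicit false

namespace Pool.Agent.H73.DG

open Finset

/-- `x` is an odd integer. -/
def IsOddInt (x : ℚ) : Prop := ∃ D : ℤ, Odd D ∧ x = (D : ℚ)

/-- `x` is an even integer. -/
def IsEvenInt (x : ℚ) : Prop := ∃ D : ℤ, Even D ∧ x = (D : ℚ)

lemma odd_iff (p q : ℕ) (hp : 1 ≤ p) : IsOddInt (degNum 2 p q) ↔ Odd (ballot p q) := by
  unfold IsOddInt
  rw [degNum_two p q hp]
  constructor
  · rintro ⟨D, hD, h⟩
    have : ballot p q = D := by exact_mod_cast h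
    rw [this]
    exact hD
  · intro h
    exact ⟨_, h, rfl⟩

lemma even_iff (p q : ℕ) (hp : 1 ≤ p) : IsEvenInt (degNum 2 p q) ↔ Even (ballot p q) := by
  unfold IsEvenInt
  rw [degNum_two p q hp]
  constructor
  · rintro ⟨D, hD, h⟩
    have : ballot p q = D := by exact_mod_cast h
    rw [this]
    exact hD
  · intro h
    exact ⟨_, h, rfl⟩

/-- The algebraic closure of the field with two elements. -/
abbrev Kbar : Type := AlgebraicClosure (ZMod 2)

instance : CharP Kbar 2 := charP_of_injective_algebraMap (algebraMap (ZMod 2) Kbar).injective 2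

lemma exists_root (s : ℕ) (hs : Odd s) : ∃ ζ : Kbar, IsPrimitiveRoot ζ s := by
  have : NeZero ((s : ℕ) : Kbar) := by
    refine ⟨?_⟩
    rw [odd_cast_eq_one hs]
    exact one_ne_zero
  exact HasEnoughRootsOfUnity.exists_primitiveRoot Kbar s

lemma odd_ballot_iff (p q : ℕ) (hp : 1 ≤ p) (hs : Odd (2 + p)) {ζ : Kbar}
    (hζ : IsPrimitiveRoot ζ (2 + p)) :
    Odd (ballot p q) ↔ rsum ζ (2 + p) (2 * p + q * (2 + p) + 1) = 1 := by
  rw [← ballot_eq_rsum p q hp hζ hs]
  constructor
  · rintro ⟨k, hk⟩
    rw [hk]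
    push_cast
    have h3 : (2 : Kbar) * (k : Kbar) = 0 := by
      rw [two_mul]
      exact CharTwo.add_self_eq_zero _
    rw [h3, zero_add]
  · intro h
    by_contra hcon
    rw [Int.not_odd_iff_even] at hcon
    obtain ⟨k, hk⟩ := hcon
    rw [hk] at h
    push_cast at h
    rw [CharTwo.add_self_eq_zero] at h
    exact zero_ne_one h

lemma choose_even_odd (L k : ℕ) (hL : Even L) (hk : Odd k) : 2 ∣ L.choose k := by
  obtain ⟨k', rfl⟩ : ∃ k', k = k' + 1 := ⟨k - 1, by
    obtain ⟨j, hj⟩ := hk
    omega⟩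
  rcases Nat.eq_zero_or_pos L with h0 | h0
  · subst h0
    simp
  · obtain ⟨L', rfl⟩ : ∃ L', L = L' + 1 := ⟨L - 1, by omega⟩
    have h := Nat.add_one_mul_choose_eq L' k'
    have h2 : 2 ∣ (L' + 1).choose (k' + 1) * (k' + 1) := by
      rw [← h]
      exact Dvd.dvd.mul_right (even_iff_two_dvd.mp hL) _
    rcases (Nat.Prime.dvd_mul Nat.prime_two).mp h2 with h3 | h3
    · exact h3
    · exfalso
      obtain ⟨j, hj⟩ := hk
      omega

lemma ballot_even (p q : ℕ) (hp : 1 ≤ p) (he : Even p) : Even (ballot p q) := by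
  have hpe := even_iff_two_dvd.mp he
  have hz : ((ballot p q : ℤ) : ZMod 2) = 0 := by
    unfold ballot
    push_cast
    rw [CharTwo.neg_eq, one_pow, one_mul, Finset.sum_sub_distrib]
    have hL : Even (2 * p + q * (2 + p)) := by
      obtain ⟨r, hr⟩ := he
      exact ⟨p + q * (1 + r), by rw [hr]; ring⟩
    have h2 : ∑ i ∈ range (q + 1), ((((2 * p + q * (2 + p)).choose (p + i * (2 + p) - 1) : ℕ)) : ZMod 2)
        = 0 := by
      apply Finset.sum_eq_zero
      intro i _
      rw [ZMod.natCast_eq_zero_iff]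
      apply choose_even_odd _ _ hL
      obtain ⟨r, hr⟩ := he
      refine ⟨r + i * (1 + r) - 1, ?_⟩
      have e : p + i * (2 + p) = 2 * (r + i * (1 + r)) := by rw [hr]; ring
      have : 1 ≤ r + i * (1 + r) := by omega
      omega
    have h1 : ∑ i ∈ range (q + 1), ((((2 * p + q * (2 + p)).choose (p + i * (2 + p)) : ℕ)) : ZMod 2)
        = 0 := by
      apply Finset.sum_involution (fun i _ => q - i)
      · intro i hi
        have hi' : i ≤ q := by
          have := Finset.mem_range.mp hi
          omega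
        have e : (2 * p + q * (2 + p)).choose (p + (q - i) * (2 + p))
            = (2 * p + q * (2 + p)).choose (p + i * (2 + p)) := by
          apply Nat.choose_symm_of_eq_add
          obtain ⟨r, rfl⟩ : ∃ r, q = i + r := ⟨q - i, by omega⟩
          have e3 : i + r - i = r := by omega
          rw [e3]
          ring
        rw [e, CharTwo.add_self_eq_zero]
      · intro i hi hne heq
        apply hne
        have hi' : i ≤ q := by
          have := Finset.mem_range.mp hi
          omega
        have hq : q = 2 * i := by omega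
        have e : (2 * p + q * (2 + p)).choose (p + i * (2 + p))
            = Nat.centralBinom (p + i * (2 + p) - 1 + 1) := by
          rw [Nat.centralBinom]
          have e1 : p + i * (2 + p) - 1 + 1 = p + i * (2 + p) := by omega
          rw [e1, hq]
          congr 1
          ring
        rw [e, ZMod.natCast_eq_zero_iff]
        exact Nat.two_dvd_centralBinom_succ _
      · intro i hi
        have := Finset.mem_range.mp hi
        exact Finset.mem_range.mpr (by omega)
      · intro i hi
        have := Finset.mem_range.mp hi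
        show q - (q - i) = i
        omega
    rw [h1, h2, sub_zero]
  exact even_iff_two_dvd.mpr ((ZMod.intCast_zmod_eq_zero_iff_dvd _ 2).mp hz)

theorem parity (p : ℕ) (hp : 1 ≤ p) :
    (∀ q, IsOddInt (degNum 2 p q) ∨ IsEvenInt (degNum 2 p q)) ∧
    (Even p → ∀ q, IsEvenInt (degNum 2 p q)) ∧
    (∀ f N : ℕ, 1 ≤ N → N * (p + 2) + 1 = 2 ^ f →
      (∀ q, IsOddInt (degNum 2 p (q + N)) ↔ IsOddInt (degNum 2 p q)) ∧
      (∀ q, N ∣ q + 2 → (IsOddInt (degNum 2 p q) ↔ p % 8 = 1 ∨ p % 8 = 3))) ∧
    (∀ a q : ℕ, (p + 2) ∣ 2 ^ a + 1 → (q + 2) * (p + 2) = 2 * (2 ^ a + 1) →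
      IsOddInt (degNum 2 p q)) := by
  refine ⟨?_, ?_, ?_, ?_⟩
  · intro q
    rw [odd_iff p q hp, even_iff p q hp]
    exact (Int.even_or_odd _).symm
  · intro he q
    rw [even_iff p q hp]
    exact ballot_even p q hp he
  · intro f N hN1 hN
    have hf : f ≠ 0 := by
      rintro rfl
      have : 1 ≤ N * (p + 2) := Nat.mul_pos hN1 (by omega)
      rw [pow_zero] at hN
      omega
    have hodd : Odd (N * (p + 2)) := by
      obtain ⟨f', rfl⟩ := Nat.exists_eq_succ_of_ne_zero hf
      rw [Nat.succ_eq_add_one, pow_succ] at hN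
      exact ⟨2 ^ f' - 1, by
        have := Nat.one_le_two_pow (n := f')
        omega⟩
    have hs : Odd (2 + p) := by
      have := (Nat.odd_mul.mp hodd).2
      rw [add_comm]
      exact this
    obtain ⟨ζ, hζ⟩ := exists_root (2 + p) hs
    have hN' : N * (2 + p) + 1 = 2 ^ f := by rw [add_comm 2 p]; exact hN
    constructor
    · intro q
      rw [odd_iff p _ hp, odd_iff p _ hp, odd_ballot_iff p _ hp hs hζ, odd_ballot_iff p _ hp hs hζ]
      have e : 2 * p + (q + N) * (2 + p) + 1 = (2 * p + q * (2 + p) + 1) + N * (2 + p) := by ring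
      rw [e, rsum_period hζ.pow_eq_one hN' (by omega)]
    · rintro q ⟨c, hc⟩
      rw [odd_iff p _ hp, odd_ballot_iff p _ hp hs hζ]
      obtain ⟨h, hh⟩ := hs
      have hsum := rsum_minus_two (K := Kbar) (h := h) (N := N) (f := f) (c := c)
        (M := 2 * p + q * (2 + p) + 1) (ζ := ζ) (by omega) (by rw [← hh]; exact hζ)
        (by rw [← hh]; exact hN') (by omega) (by
          rw [← hh]
          have : c * (N * (2 + p)) = (q + 2) * (2 + p) := by rw [hc]; ring
          rw [this]
          ring)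
      rw [← hh] at hsum
      rw [hsum]
      constructor
      · intro hx
        by_contra hcon
        rw [if_neg (by omega)] at hx
        exact zero_ne_one hx
      · intro hx
        rw [if_pos (by omega)]
  · intro a q ha hq
    have ha0 : a ≠ 0 := by
      rintro rfl
      have := Nat.le_of_dvd (by norm_num) ha
      norm_num at this
      omega
    have hodd : Odd (2 ^ a + 1) := by
      obtain ⟨a', rfl⟩ := Nat.exists_eq_succ_of_ne_zero ha0
      exact ⟨2 ^ a', by rw [Nat.succ_eq_add_one, pow_succ]; ring⟩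
    have hs : Odd (2 + p) := by
      have := Odd.of_dvd_nat hodd ha
      rw [add_comm]
      exact this
    obtain ⟨ζ, hζ⟩ := exists_root (2 + p) hs
    rw [odd_iff p _ hp, odd_ballot_iff p _ hp hs hζ]
    apply rsum_mersenne (a := a) (by omega) hζ hs (by rw [add_comm 2 p]; exact ha)
    have e : 2 * p + q * (2 + p) + 1 + 3 = (q + 2) * (p + 2) := by ring
    have e2 : 2 ^ (a + 1) = 2 ^ a * 2 := pow_succ 2 a
    omega

end Pool.Agent.H73.DG
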