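import Pool.Agent.H73.DG.Dig
import Pool.Agent.H73.DG.Mono
import Pool.Agent.H73.DG.Cls2

/-!
# Repunits to the base `2 ^ a`: splittings
-/

set_option autoImplicit false

namespace Pool.Agent.H73.DG

open Finset

/-- The repunit with `n` digits to the base `B`. -/
def rpu (B : ℕ) : ℕ → ℕ
  | 0 => 0
  | n + 1 => 1 + B * rpu B n

lemma rpu_mul (B n : ℕ) (hB : 1 ≤ B) : (B - 1) * rpu B n + 1 = B ^ n := by
  obtain ⟨c, rfl⟩ : ∃ c, B = c + 1 := ⟨B - 1, by omega⟩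
  have e : c + 1 - 1 = c := by omega
  rw [e]
  induction n with
  | zero => simp [rpu]
  | succ n ih =>
    rw [pow_succ, ← ih]
    show c * (1 + (c + 1) * rpu (c + 1) n) + 1 = _
    ring

lemma blk (a x0 x1 y0 y1 : ℕ) (hx : x0 < 2 ^ a) (hy : y0 < 2 ^ a) :
    (x0 + 2 ^ a * x1) &&& (y0 + 2 ^ a * y1) = 0 ↔ x0 &&& y0 = 0 ∧ x1 &&& y1 = 0 := by
  have h1 : ((x0 + 2 ^ a * x1) &&& (y0 + 2 ^ a * y1)) % 2 ^ a = x0 &&& y0 := by
    rw [Nat.and_mod_two_pow, Nat.add_mul_mod_self_left, Nat.add_mul_mod_self_left,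
      Nat.mod_eq_of_lt hx, Nat.mod_eq_of_lt hy]
  have h2 : ((x0 + 2 ^ a * x1) &&& (y0 + 2 ^ a * y1)) / 2 ^ a = x1 &&& y1 := by
    rw [Nat.and_div_two_pow, Nat.add_mul_div_left _ _ (by positivity),
      Nat.add_mul_div_left _ _ (by positivity), Nat.div_eq_of_lt hx, Nat.div_eq_of_lt hy, zero_add,
      zero_add]
  constructor
  · intro h
    rw [h] at h1 h2
    exact ⟨by rw [← h1, Nat.zero_mod], by rw [← h2, Nat.zero_div]⟩
  · rintro ⟨h3, h4⟩
    rw [h3] at h1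
    rw [h4] at h2
    have h5 := Nat.mod_add_div ((x0 + 2 ^ a * x1) &&& (y0 + 2 ^ a * y1)) (2 ^ a)
    rw [h1, h2, mul_zero, add_zero] at h5
    exact h5.symm

lemma rpu_land (a n t u : ℕ) (ht : t < 2 ^ a) (hu : u < 2 ^ a) :
    (t * rpu (2 ^ a) (n + 1)) &&& (u * rpu (2 ^ a) (n + 1)) = 0 ↔ t &&& u = 0 := by
  induction n with
  | zero =>
    have e : rpu (2 ^ a) (0 + 1) = 1 := by
      show 1 + 2 ^ a * 0 = 1
      simp
    rw [e, mul_one, mul_one]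
  | succ n ih =>
    have e : ∀ x, x * rpu (2 ^ a) (n + 1 + 1) = x + 2 ^ a * (x * rpu (2 ^ a) (n + 1)) := by
      intro x
      show x * (1 + 2 ^ a * rpu (2 ^ a) (n + 1)) = _
      ring
    rw [e t, e u, blk a _ _ _ _ ht hu, ih, and_self]

lemma rpu_odd (a n : ℕ) (ha : 1 ≤ a) : Odd (rpu (2 ^ a) (n + 1)) := by
  obtain ⟨a', rfl⟩ : ∃ a', a = a' + 1 := ⟨a - 1, by omega⟩
  refine ⟨2 ^ a' * rpu (2 ^ (a' + 1)) n, ?_⟩
  show 1 + 2 ^ (a' + 1) * rpu (2 ^ (a' + 1)) n = _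
  rw [pow_succ]
  ring

/-- The division of `t s - c` by the square of the base. -/
lemma rpu_div (B n t c : ℕ) (hB : 4 ≤ B) (ht1 : 1 ≤ t) (htB : t < B) (hc : c ≤ 5) :
    (t * rpu B (n + 3) - c) / (B * B) = t * rpu B (n + 1) := by
  have e : t * rpu B (n + 3) - c = (t + t * B - c) + (B * B) * (t * rpu B (n + 1)) := by
    have e1 : t * rpu B (n + 3) = t + t * B + (B * B) * (t * rpu B (n + 1)) := by
      show t * (1 + B * (1 + B * rpu B (n + 1))) = _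
      ring
    have h2 : 4 ≤ t * B := le_trans hB (Nat.le_mul_of_pos_left B ht1)
    omega
  have hlt : t + t * B - c < B * B := by
    have h1 : (t + 1) * B ≤ B * B := Nat.mul_le_mul_right B htB
    have h2 : (t + 1) * B = t * B + B := by ring
    omega
  rw [e, Nat.add_mul_div_left _ _ (by positivity), Nat.div_eq_of_lt hlt, zero_add]

/-- No splittings into three parts. -/
lemma split_three (a n L T : ℕ) (ha : 2 ≤ a) (hT : T < 2 ^ a)
    (hL : L + 9 = T * rpu (2 ^ a) (n + 3)) : splitCard (rpu (2 ^ a) (n + 3)) 3 L = 0 := by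
  have hB : 4 ≤ 2 ^ a := by
    have := Nat.pow_le_pow_right (n := 2) (by norm_num) ha
    norm_num at this
    exact this
  have hso := rpu_odd a (n + 2) (by omega)
  have hRo := rpu_odd a n (by omega)
  unfold splitCard
  rw [Finset.card_eq_zero, Finset.filter_eq_empty_iff]
  intro b hb hcon
  obtain ⟨hdiv, hdis⟩ := hcon
  rw [Finset.mem_piAntidiag, Fin.sum_univ_three] at hb
  have hsum := hb.1
  have c0 : ((0 : Fin 3) : ℕ) = 0 := rfl
  have c1 : ((1 : Fin 3) : ℕ) = 1 := rfl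
  have c2 : ((2 : Fin 3) : ℕ) = 2 := rfl
  obtain ⟨t0, ht0⟩ := hdiv 0
  obtain ⟨t1, ht1⟩ := hdiv 1
  obtain ⟨t2, ht2⟩ := hdiv 2
  rw [c0] at ht0
  rw [c1] at ht1
  rw [c2] at ht2
  generalize hs : rpu (2 ^ a) (n + 3) = s at *
  have hs1 : 1 ≤ s := hso.pos
  have p0 : 1 ≤ t0 := by
    rcases Nat.eq_zero_or_pos t0 with h | h
    · rw [h, mul_zero] at ht0
      omega
    · exact h
  have p1 : 1 ≤ t1 := by
    rcases Nat.eq_zero_or_pos t1 with h | h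
    · rw [h, mul_zero] at ht1
      omega
    · exact h
  have p2 : 1 ≤ t2 := by
    rcases Nat.eq_zero_or_pos t2 with h | h
    · rw [h, mul_zero] at ht2
      omega
    · exact h
  have hTs : s * (t0 + t1 + t2) = s * T := by
    rw [mul_add, mul_add, ← ht0, ← ht1, ← ht2, mul_comm s T]
    omega
  have hTe : t0 + t1 + t2 = T := Nat.eq_of_mul_eq_mul_left hs1 hTs
  have q0 : b 0 / (2 ^ a * 2 ^ a) = t0 * rpu (2 ^ a) (n + 1) := by
    rw [← rpu_div (2 ^ a) n t0 1 hB p0 (by omega) (by norm_num), hs, mul_comm t0 s, ← ht0]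
    congr 1
  have q1 : b 1 / (2 ^ a * 2 ^ a) = t1 * rpu (2 ^ a) (n + 1) := by
    rw [← rpu_div (2 ^ a) n t1 3 hB p1 (by omega) (by norm_num), hs, mul_comm t1 s, ← ht1]
    congr 1
  have q2 : b 2 / (2 ^ a * 2 ^ a) = t2 * rpu (2 ^ a) (n + 1) := by
    rw [← rpu_div (2 ^ a) n t2 5 hB p2 (by omega) (by norm_num), hs, mul_comm t2 s, ← ht2]
    congr 1
  have key : ∀ x y : ℕ, x &&& y = 0 → ¬ (Odd x ∧ Odd y) := by
    rintro x y h ⟨h1, h2⟩
    have h3 := (land_zero_iff x y).mp h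
    exact h3.2 ⟨Nat.odd_iff.mp h1, Nat.odd_iff.mp h2⟩
  have key2 : ∀ x y : ℕ, x &&& y = 0 → ¬ (Odd (x / (2 ^ a * 2 ^ a)) ∧ Odd (y / (2 ^ a * 2 ^ a))) := by
    intro x y h
    apply key
    rw [← pow_add, ← Nat.and_div_two_pow, h, Nat.zero_div]
  have hd01 := hdis 0 1 (by decide)
  have hd02 := hdis 0 2 (by decide)
  have hd12 := hdis 1 2 (by decide)
  have k01 := key2 _ _ hd01
  have k02 := key2 _ _ hd02
  have k12 := key2 _ _ hd12
  rw [q0, q1, Nat.odd_mul, Nat.odd_mul] at k01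
  rw [q0, q2, Nat.odd_mul, Nat.odd_mul] at k02
  rw [q1, q2, Nat.odd_mul, Nat.odd_mul] at k12
  have o0 : Even t0 → Odd (b 0) := by
    intro h
    have h1 : Even (b 0 + (2 * 0 + 1)) := by rw [ht0]; exact h.mul_left s
    rcases Nat.even_or_odd (b 0) with h2 | h2
    · exfalso
      obtain ⟨x, hx⟩ := h1
      obtain ⟨y, hy⟩ := h2
      omega
    · exact h2
  have o1 : Even t1 → Odd (b 1) := by
    intro h
    have h1 : Even (b 1 + (2 * 1 + 1)) := by rw [ht1]; exact h.mul_left s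
    rcases Nat.even_or_odd (b 1) with h2 | h2
    · exfalso
      obtain ⟨x, hx⟩ := h1
      obtain ⟨y, hy⟩ := h2
      omega
    · exact h2
  have o2 : Even t2 → Odd (b 2) := by
    intro h
    have h1 : Even (b 2 + (2 * 2 + 1)) := by rw [ht2]; exact h.mul_left s
    rcases Nat.even_or_odd (b 2) with h2 | h2
    · exfalso
      obtain ⟨x, hx⟩ := h1
      obtain ⟨y, hy⟩ := h2
      omega
    · exact h2
  rcases Nat.even_or_odd t0 with e0 | e0 <;> rcases Nat.even_or_odd t1 with e1 | e1 <;>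
    rcases Nat.even_or_odd t2 with e2 | e2
  · exact key _ _ hd01 ⟨o0 e0, o1 e1⟩
  · exact key _ _ hd01 ⟨o0 e0, o1 e1⟩
  · exact key _ _ hd02 ⟨o0 e0, o2 e2⟩
  · exact k12 ⟨⟨e1, hRo⟩, ⟨e2, hRo⟩⟩
  · exact key _ _ hd12 ⟨o1 e1, o2 e2⟩
  · exact k02 ⟨⟨e0, hRo⟩, ⟨e2, hRo⟩⟩
  · exact k01 ⟨⟨e0, hRo⟩, ⟨e1, hRo⟩⟩
  · exact k01 ⟨⟨e0, hRo⟩, ⟨e1, hRo⟩⟩

end Pool.Agent.H73.DG
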