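import Pool.Agent.H73.DG.Rpu

/-!
# Repunits to the base `2 ^ a`: splittings into two parts
-/

set_option autoImplicit false

namespace Pool.Agent.H73.DG

open Finset

lemma pow_of_land (y : ℕ) (hy : 1 ≤ y) (h : y &&& (y - 1) = 0) : ∃ e, y = 2 ^ e := by
  induction y using Nat.strong_induction_on with
  | _ y ih =>
    rcases Nat.even_or_odd' y with ⟨z, rfl | rfl⟩
    · have hz : 1 ≤ z := by omega
      rw [land_zero_iff] at h
      have e1 : 2 * z / 2 = z := by omega
      have e2 : (2 * z - 1) / 2 = z - 1 := by omega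
      rw [e1, e2] at h
      obtain ⟨e, he⟩ := ih z (by omega) hz h.1
      exact ⟨e + 1, by rw [pow_succ, ← he, mul_comm]⟩
    · rw [land_zero_iff] at h
      have e1 : (2 * z + 1) / 2 = z := by omega
      have e2 : (2 * z + 1 - 1) / 2 = z := by omega
      rw [e1, e2, Nat.and_self] at h
      refine ⟨0, ?_⟩
      rw [pow_zero]
      omega

lemma land_two_iff (x : ℕ) (hx : 3 ≤ x) : x &&& (x - 2) = 0 ↔ ∃ j, 1 ≤ j ∧ x = 2 ^ j := by
  constructor
  · intro h
    rw [land_zero_iff] at h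
    rcases Nat.even_or_odd' x with ⟨z, rfl | rfl⟩
    · have e1 : 2 * z / 2 = z := by omega
      have e2 : (2 * z - 2) / 2 = z - 1 := by omega
      rw [e1, e2] at h
      obtain ⟨e, he⟩ := pow_of_land z (by omega) h.1
      exact ⟨e + 1, by omega, by rw [pow_succ, ← he, mul_comm]⟩
    · exfalso
      apply h.2
      omega
  · rintro ⟨j, hj, rfl⟩
    obtain ⟨j', rfl⟩ : ∃ j', j = j' + 1 := ⟨j - 1, by omega⟩
    rw [land_zero_iff]
    have e0 : 2 ^ (j' + 1) = 2 * 2 ^ j' := by rw [pow_succ, mul_comm]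
    have hpos := Nat.one_le_two_pow (n := j')
    have e1 : 2 ^ (j' + 1) / 2 = 2 ^ j' := by omega
    have e2 : (2 ^ (j' + 1) - 2) / 2 = 2 ^ j' - 1 := by omega
    rw [e1, e2, Nat.and_two_pow_sub_one_eq_mod, Nat.mod_self]
    exact ⟨rfl, by omega⟩

lemma pair_iff (a n t u : ℕ) (ha : 2 ≤ a) (ht1 : 1 ≤ t) (hu1 : 1 ≤ u) (ht : t < 2 ^ a)
    (hu : u < 2 ^ a) :
    (t * rpu (2 ^ a) (n + 3) - 1) &&& (u * rpu (2 ^ a) (n + 3) - 3) = 0 ↔
      (3 ≤ u ∧ t &&& u = 0 ∧ (t - 1) &&& (u - 3) = 0) ∨ (t = 2 ∧ u = 1) := by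
  have hB : 4 ≤ 2 ^ a := by
    have := Nat.pow_le_pow_right (n := 2) (by norm_num) ha
    norm_num at this
    exact this
  have es : ∀ x, x * rpu (2 ^ a) (n + 3)
      = x + 2 ^ a * (x + 2 ^ a * (x * rpu (2 ^ a) (n + 1))) := by
    intro x
    show x * (1 + 2 ^ a * (1 + 2 ^ a * rpu (2 ^ a) (n + 1))) = _
    ring
  have e1 : t * rpu (2 ^ a) (n + 3) - 1
      = (t - 1) + 2 ^ a * (t + 2 ^ a * (t * rpu (2 ^ a) (n + 1))) := by
    rw [es]
    omega
  rcases Nat.lt_or_ge u 3 with h3 | h3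
  · have e2 : u * rpu (2 ^ a) (n + 3) - 3
        = (u + 2 ^ a - 3) + 2 ^ a * ((u - 1) + 2 ^ a * (u * rpu (2 ^ a) (n + 1))) := by
      rw [es]
      obtain ⟨u', rfl⟩ : ∃ u', u = u' + 1 := ⟨u - 1, by omega⟩
      have e3 : u' + 1 - 1 = u' := by omega
      rw [e3]
      have e4 : 2 ^ a * (u' + 1 + 2 ^ a * ((u' + 1) * rpu (2 ^ a) (n + 1)))
          = 2 ^ a + 2 ^ a * (u' + 2 ^ a * ((u' + 1) * rpu (2 ^ a) (n + 1))) := by ring
      rw [e4]
      omega
    rw [e1, e2, blk a _ _ _ _ (by omega) (by omega), blk a _ _ _ _ (by omega) (by omega),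
      rpu_land a n t u ht hu]
    have hu12 : u = 1 ∨ u = 2 := by omega
    obtain ⟨c, hc⟩ : ∃ c, a = c + 1 := ⟨a - 1, by omega⟩
    have hc2 : 2 ^ a = 2 * 2 ^ c := by rw [hc, pow_succ, mul_comm]
    rcases hu12 with rfl | rfl
    · constructor
      · rintro ⟨h1, _, h2⟩
        right
        refine ⟨?_, rfl⟩
        rw [land_zero_iff] at h1 h2
        have h4 : t % 2 = 0 := by
          by_contra hcon
          apply h2.2
          omega
        have e5 : (1 + 2 ^ a - 3) / 2 = 2 ^ c - 1 := by omega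
        have h5 := h1.1
        rw [e5, Nat.and_two_pow_sub_one_eq_mod] at h5
        rw [Nat.mod_eq_of_lt (by omega)] at h5
        omega
      · rintro (⟨h1, _⟩ | ⟨h1, _⟩)
        · omega
        · subst h1
          refine ⟨?_, ?_, ?_⟩
          · rw [land_zero_iff]
            have e6 : (2 - 1) / 2 = 0 := by norm_num
            rw [e6, Nat.zero_and]
            exact ⟨rfl, by omega⟩
          · rfl
          · rfl
    · constructor
      · rintro ⟨h1, h2, _⟩
        exfalso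
        have e5 : 2 + 2 ^ a - 3 = 2 ^ a - 1 := by omega
        rw [e5, Nat.and_two_pow_sub_one_eq_mod, Nat.mod_eq_of_lt (by omega)] at h1
        have h6 : t = 1 := by omega
        subst h6
        exact absurd h2 (by decide)
      · rintro (⟨h1, _⟩ | ⟨_, h1⟩)
        · omega
        · omega
  · have e2 : u * rpu (2 ^ a) (n + 3) - 3
        = (u - 3) + 2 ^ a * (u + 2 ^ a * (u * rpu (2 ^ a) (n + 1))) := by
      rw [es]
      omega
    rw [e1, e2, blk a _ _ _ _ (by omega) (by omega), blk a _ _ _ _ ht hu,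
      rpu_land a n t u ht hu]
    constructor
    · rintro ⟨h1, h2, _⟩
      exact Or.inl ⟨h3, h2, h1⟩
    · rintro (⟨_, h1, h2⟩ | ⟨_, h1⟩)
      · exact ⟨h2, h1, h1⟩
      · omega

/-- The number of splittings into two parts as a number of pairs. -/
lemma split_two (s L T : ℕ) (hs : 4 ≤ s) (hL : L + 4 = T * s) :
    splitCard s 2 L = ((antidiagonal T).filter (fun x => 1 ≤ x.1 ∧ 1 ≤ x.2 ∧
      (x.1 * s - 1) &&& (x.2 * s - 3) = 0)).card := by
  have c0 : ((0 : Fin 2) : ℕ) = 0 := rfl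
  have c1 : ((1 : Fin 2) : ℕ) = 1 := rfl
  have hspos : 0 < s := by omega
  unfold splitCard
  apply Finset.card_bij' (fun b _ => ((b 0 + 1) / s, (b 1 + 3) / s))
    (fun x _ => ![x.1 * s - 1, x.2 * s - 3])
  · intro b hb
    rw [Finset.mem_filter, Finset.mem_piAntidiag, Fin.sum_univ_two] at hb
    obtain ⟨⟨hsum, _⟩, hdiv, hdis⟩ := hb
    obtain ⟨t, ht⟩ := hdiv 0
    obtain ⟨u, hu⟩ := hdiv 1
    rw [c0, mul_zero, zero_add] at ht
    rw [c1] at hu
    have hu' : b 1 + 3 = s * u := hu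
    have e1 : (b 0 + 1) / s = t := by rw [ht, Nat.mul_div_cancel_left _ hspos]
    have e2 : (b 1 + 3) / s = u := by rw [hu', Nat.mul_div_cancel_left _ hspos]
    rw [Finset.mem_filter, Finset.HasAntidiagonal.mem_antidiagonal]
    simp only [e1, e2]
    have h1 : s * (t + u) = s * T := by
      rw [mul_add, ← ht, ← hu', mul_comm s T]
      omega
    refine ⟨Nat.eq_of_mul_eq_mul_left hspos h1, ?_, ?_, ?_⟩
    · rcases Nat.eq_zero_or_pos t with h | h
      · rw [h, mul_zero] at ht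
        omega
      · exact h
    · rcases Nat.eq_zero_or_pos u with h | h
      · rw [h, mul_zero] at hu'
        omega
      · exact h
    · have e3 : t * s - 1 = b 0 := by rw [mul_comm, ← ht]; omega
      have e4 : u * s - 3 = b 1 := by rw [mul_comm, ← hu']; omega
      rw [e3, e4]
      exact hdis 0 1 (by decide)
  · intro x hx
    rw [Finset.mem_filter, Finset.HasAntidiagonal.mem_antidiagonal] at hx
    obtain ⟨hsum, h1, h2, h3⟩ := hx
    have h4 : s ≤ x.1 * s := Nat.le_mul_of_pos_left s h1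
    have h5 : s ≤ x.2 * s := Nat.le_mul_of_pos_left s h2
    have h6 : x.1 * s + x.2 * s = T * s := by rw [← add_mul, hsum]
    rw [Finset.mem_filter, Finset.mem_piAntidiag, Fin.sum_univ_two]
    refine ⟨⟨?_, fun i _ => Finset.mem_univ i⟩, ?_, ?_⟩
    · show x.1 * s - 1 + (x.2 * s - 3) = L
      omega
    · intro i
      fin_cases i
      · show s ∣ x.1 * s - 1 + (2 * 0 + 1)
        have e : x.1 * s - 1 + (2 * 0 + 1) = x.1 * s := by omega
        rw [e]
        exact dvd_mul_left _ _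
      · show s ∣ x.2 * s - 3 + (2 * 1 + 1)
        have e : x.2 * s - 3 + (2 * 1 + 1) = x.2 * s := by omega
        rw [e]
        exact dvd_mul_left _ _
    · intro i j hij
      fin_cases i <;> fin_cases j
      · exact absurd rfl hij
      · exact h3
      · show (x.2 * s - 3) &&& (x.1 * s - 1) = 0
        rw [Nat.and_comm]
        exact h3
      · exact absurd rfl hij
  · intro b hb
    rw [Finset.mem_filter, Finset.mem_piAntidiag, Fin.sum_univ_two] at hb
    obtain ⟨⟨hsum, _⟩, hdiv, hdis⟩ := hb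
    obtain ⟨t, ht⟩ := hdiv 0
    obtain ⟨u, hu⟩ := hdiv 1
    rw [c0, mul_zero, zero_add] at ht
    rw [c1] at hu
    have hu' : b 1 + 3 = s * u := hu
    have e1 : (b 0 + 1) / s = t := by rw [ht, Nat.mul_div_cancel_left _ hspos]
    have e2 : (b 1 + 3) / s = u := by rw [hu', Nat.mul_div_cancel_left _ hspos]
    simp only [e1, e2]
    funext i
    fin_cases i
    · show t * s - 1 = b 0
      rw [mul_comm, ← ht]
      omega
    · show u * s - 3 = b 1
      rw [mul_comm, ← hu']
      omega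
  · intro x hx
    rw [Finset.mem_filter, Finset.HasAntidiagonal.mem_antidiagonal] at hx
    obtain ⟨hsum, h1, h2, h3⟩ := hx
    have h4 : s ≤ x.1 * s := Nat.le_mul_of_pos_left s h1
    have h5 : s ≤ x.2 * s := Nat.le_mul_of_pos_left s h2
    have e1 : (x.1 * s - 1 + 1) / s = x.1 := by
      have e : x.1 * s - 1 + 1 = x.1 * s := by omega
      rw [e, Nat.mul_div_cancel _ hspos]
    have e2 : (x.2 * s - 3 + 3) / s = x.2 := by
      have e : x.2 * s - 3 + 3 = x.2 * s := by omega
      rw [e, Nat.mul_div_cancel _ hspos]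
    exact Prod.ext e1 e2

end Pool.Agent.H73.DG
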