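import Pool.Agent.H73.DG.Rpu2

/-!
# The classification for `m + p = (2 ^ (a b) - 1) / (2 ^ a - 1)`
-/

set_option autoImplicit false

namespace Pool.Agent.H73.DG

open Finset

lemma count_par (u : ℕ) : Odd (((antidiagonal (u + 4)).filter (fun x => 1 ≤ x.1 ∧ 3 ≤ x.2 ∧
    x.1 &&& x.2 = 0 ∧ (x.1 - 1) &&& (x.2 - 3) = 0)).card) ↔ (u + 3) &&& (u + 1) = 0 := by
  rw [← odd_choose_iff]
  have e : u + 3 + (u + 1) = u + (u + 4) := by omega
  rw [e, Nat.add_choose_eq, Finset.odd_sum_iff_odd_card_odd]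
  have hcard : ((antidiagonal (u + 4)).filter (fun x => 1 ≤ x.1 ∧ 3 ≤ x.2 ∧
      x.1 &&& x.2 = 0 ∧ (x.1 - 1) &&& (x.2 - 3) = 0)).card
      = ((antidiagonal (u + 3)).filter (fun x => Odd (u.choose x.1 * (u + 4).choose x.2))).card := by
    refine Finset.card_bij' (fun x _ => (x.1 - 1, x.2)) (fun x _ => (x.1 + 1, x.2)) ?_ ?_ ?_ ?_
    · intro x hx
      rw [Finset.mem_filter, Finset.HasAntidiagonal.mem_antidiagonal] at hx
      obtain ⟨h1, h2, h3, h4, h5⟩ := hx
      rw [Finset.mem_filter, Finset.HasAntidiagonal.mem_antidiagonal]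
      refine ⟨by show x.1 - 1 + x.2 = u + 3; omega, ?_⟩
      show Odd (u.choose (x.1 - 1) * (u + 4).choose x.2)
      rw [Nat.odd_mul]
      constructor
      · have e1 : u = (x.1 - 1) + (x.2 - 3) := by omega
        have h6 := (odd_choose_iff (x.1 - 1) (x.2 - 3)).mpr h5
        rw [← e1] at h6
        exact h6
      · have e1 : u + 4 = x.2 + x.1 := by omega
        rw [e1, odd_choose_iff, Nat.and_comm]
        exact h4
    · intro x hx
      rw [Finset.mem_filter, Finset.HasAntidiagonal.mem_antidiagonal, Nat.odd_mul] at hx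
      obtain ⟨h1, h2, h3⟩ := hx
      have hle : x.1 ≤ u := by
        by_contra hcon
        rw [Nat.choose_eq_zero_of_lt (by omega)] at h2
        exact absurd h2 (by decide)
      rw [Finset.mem_filter, Finset.HasAntidiagonal.mem_antidiagonal]
      refine ⟨by show x.1 + 1 + x.2 = u + 4; omega, by show 1 ≤ x.1 + 1; omega,
        by show 3 ≤ x.2; omega, ?_, ?_⟩
      · show (x.1 + 1) &&& x.2 = 0
        have e1 : u + 4 = x.2 + (x.1 + 1) := by omega
        rw [e1, odd_choose_iff, Nat.and_comm] at h3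
        exact h3
      · show (x.1 + 1 - 1) &&& (x.2 - 3) = 0
        have e1 : u = x.1 + (x.2 - 3) := by omega
        have e2 : x.1 + 1 - 1 = x.1 := by omega
        have h6 := h2
        rw [e1] at h6
        rw [e2]
        exact (odd_choose_iff _ _).mp h6
    · intro x hx
      rw [Finset.mem_filter] at hx
      have h1 := hx.2.1
      apply Prod.ext
      · show x.1 - 1 + 1 = x.1
        omega
      · rfl
    · intro x _
      apply Prod.ext
      · show x.1 + 1 - 1 = x.1
        omega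
      · rfl
  rw [hcard]

lemma split_par (a n T L : ℕ) (ha : 2 ≤ a) (hT1 : 1 ≤ T) (hT : T < 2 ^ a)
    (hL : L + 4 = T * rpu (2 ^ a) (n + 3)) :
    Odd (splitCard (rpu (2 ^ a) (n + 3)) 2 L) ↔ ∃ j, 1 ≤ j ∧ T - 1 = 2 ^ j := by
  have hB : 4 ≤ 2 ^ a := by
    have := Nat.pow_le_pow_right (n := 2) (by norm_num) ha
    norm_num at this
    exact this
  have hs4 : 4 ≤ rpu (2 ^ a) (n + 3) := by
    show 4 ≤ 1 + 2 ^ a * (1 + 2 ^ a * rpu (2 ^ a) (n + 1))
    have : 2 ^ a * 1 ≤ 2 ^ a * (1 + 2 ^ a * rpu (2 ^ a) (n + 1)) :=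
      Nat.mul_le_mul_left _ (by omega)
    omega
  rw [split_two _ L T hs4 hL]
  have hcongr : (antidiagonal T).filter (fun x => 1 ≤ x.1 ∧ 1 ≤ x.2 ∧
      (x.1 * rpu (2 ^ a) (n + 3) - 1) &&& (x.2 * rpu (2 ^ a) (n + 3) - 3) = 0)
      = (antidiagonal T).filter (fun x => (1 ≤ x.1 ∧ 3 ≤ x.2 ∧ x.1 &&& x.2 = 0 ∧
        (x.1 - 1) &&& (x.2 - 3) = 0) ∨ (x.1 = 2 ∧ x.2 = 1)) := by
    apply Finset.filter_congr
    intro x hx
    rw [Finset.HasAntidiagonal.mem_antidiagonal] at hx
    constructor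
    · rintro ⟨h1, h2, h3⟩
      rw [pair_iff a n x.1 x.2 ha h1 h2 (by omega) (by omega)] at h3
      rcases h3 with ⟨h4, h5, h6⟩ | h4
      · exact Or.inl ⟨h1, h4, h5, h6⟩
      · exact Or.inr h4
    · rintro (⟨h1, h2, h3, h4⟩ | ⟨h1, h2⟩)
      · refine ⟨h1, by omega, ?_⟩
        rw [pair_iff a n x.1 x.2 ha h1 (by omega) (by omega) (by omega)]
        exact Or.inl ⟨h2, h3, h4⟩
      · refine ⟨by omega, by omega, ?_⟩
        rw [pair_iff a n x.1 x.2 ha (by omega) (by omega) (by omega) (by omega)]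
        exact Or.inr ⟨h1, h2⟩
  rw [hcongr]
  rcases Nat.lt_or_ge T 4 with h4 | h4
  · clear hcongr hL
    interval_cases T
    · refine iff_of_false (by decide) ?_
      rintro ⟨j, hj, h⟩
      have := Nat.one_le_two_pow (n := j)
      omega
    · refine iff_of_false (by decide) ?_
      rintro ⟨j, hj, h⟩
      obtain ⟨j', rfl⟩ : ∃ j', j = j' + 1 := ⟨j - 1, by omega⟩
      have := Nat.one_le_two_pow (n := j')
      rw [pow_succ] at h
      omega
    · exact iff_of_true (by decide) ⟨1, le_refl 1, by norm_num⟩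
  · obtain ⟨u, rfl⟩ : ∃ u, T = u + 4 := ⟨T - 4, by omega⟩
    have h5 : (antidiagonal (u + 4)).filter (fun x => (1 ≤ x.1 ∧ 3 ≤ x.2 ∧ x.1 &&& x.2 = 0 ∧
        (x.1 - 1) &&& (x.2 - 3) = 0) ∨ (x.1 = 2 ∧ x.2 = 1))
        = (antidiagonal (u + 4)).filter (fun x => 1 ≤ x.1 ∧ 3 ≤ x.2 ∧
          x.1 &&& x.2 = 0 ∧ (x.1 - 1) &&& (x.2 - 3) = 0) := by
      apply Finset.filter_congr
      intro x hx
      rw [Finset.HasAntidiagonal.mem_antidiagonal] at hx
      constructor
      · rintro (h | h)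
        · exact h
        · omega
      · exact Or.inl
    rw [h5, count_par]
    have e1 : u + 4 - 1 = u + 3 := by omega
    have e2 : u + 1 = u + 3 - 2 := by omega
    rw [e1, e2]
    exact land_two_iff (u + 3) (by omega)

/-- If `m + p = (2 ^ (a b) - 1) / (2 ^ a - 1)` with `a ≥ 2` and `b ≥ 3`, then `d(m,p,q)` is odd
exactly for `m = 1` and for `m = 2` and `q + 1 ≡ 2 ^ j` modulo `2 ^ a - 1` with `1 ≤ j < a`. -/
theorem cls_rpu (a b m p q : ℕ) (ha : 2 ≤ a) (hb : 3 ≤ b) (hm : 1 ≤ m) (hmp : m ≤ p)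
    (hs : (2 ^ a - 1) * (m + p) + 1 = 2 ^ (a * b)) :
    IsOddInt (degNum m p q) ↔
      m = 1 ∨ (m = 2 ∧ ∃ j, 1 ≤ j ∧ j < a ∧ q + 1 ≡ 2 ^ j [MOD 2 ^ a - 1]) := by
  have hB : 4 ≤ 2 ^ a := by
    have := Nat.pow_le_pow_right (n := 2) (by norm_num) ha
    norm_num at this
    exact this
  obtain ⟨n, rfl⟩ : ∃ n, b = n + 3 := ⟨b - 3, by omega⟩
  have hrep : m + p = rpu (2 ^ a) (n + 3) := by
    have h1 := rpu_mul (2 ^ a) (n + 3) (by omega)
    rw [← pow_mul, ← hs] at h1
    exact (Nat.eq_of_mul_eq_mul_left (by omega) (Nat.add_right_cancel h1)).symm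
  have hodd : Odd (m + p) := by
    rw [hrep]
    exact rpu_odd a (n + 2) (by omega)
  have hs21 : 21 ≤ m + p := by
    rw [hrep]
    show 21 ≤ 1 + 2 ^ a * (1 + 2 ^ a * (1 + 2 ^ a * rpu (2 ^ a) n))
    have h1 : 4 * (1 + 2 ^ a * (1 + 2 ^ a * rpu (2 ^ a) n))
        ≤ 2 ^ a * (1 + 2 ^ a * (1 + 2 ^ a * rpu (2 ^ a) n)) := Nat.mul_le_mul_right _ hB
    have h2 : 4 * (1 + 2 ^ a * rpu (2 ^ a) n) ≤ 2 ^ a * (1 + 2 ^ a * rpu (2 ^ a) n) :=
      Nat.mul_le_mul_right _ hB
    omega
  rcases Nat.lt_or_ge m 2 with h2 | h2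
  · have h1 : m = 1 := by omega
    subst h1
    exact iff_of_true (one_odd p q (by omega)) (Or.inl rfl)
  rcases Nat.lt_or_ge m 3 with h3 | h3
  · have h1 : m = 2 := by omega
    subst h1
    set N := 2 ^ a - 1 with hN
    have hN3 : 3 ≤ N := by omega
    have hTl : (q + 1) % N < N := Nat.mod_lt _ (by omega)
    have hle : 1 * (2 + p) ≤ ((q + 1) % N + 1) * (2 + p) := Nat.mul_le_mul_right _ (by omega)
    have key := split_iff 2 p q (a * (n + 3)) N (((q + 1) % N + 1) * (2 + p) - 4) (by norm_num) hmp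
      (by omega) hs (by omega) (by
        have h4 := Nat.mod_add_div (q + 1) N
        have h5 : 2 * p + q * (2 + p) = (((q + 1) % N + 1) * (2 + p) - 4)
            + N * (2 + p) * ((q + 1) / N) := by
          have h6 : (((q + 1) % N + 1) + N * ((q + 1) / N)) * (2 + p) = (q + 2) * (2 + p) := by
            congr 1
            omega
          have h7 : (((q + 1) % N + 1) + N * ((q + 1) / N)) * (2 + p)
              = ((q + 1) % N + 1) * (2 + p) + N * (2 + p) * ((q + 1) / N) := by ring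
          have h8 : (q + 2) * (2 + p) = 2 * p + q * (2 + p) + 4 := by ring
          omega
        rw [h5]
        show _ % _ = _ % _
        rw [Nat.add_mul_mod_self_left])
    rw [hrep] at key
    rw [key, split_par a n ((q + 1) % N + 1) _ ha (by omega) (by omega) (by
      rw [← hrep]
      omega)]
    have e1 : (q + 1) % N + 1 - 1 = (q + 1) % N := by omega
    rw [e1]
    constructor
    · rintro ⟨j, hj, h⟩
      right
      refine ⟨rfl, j, hj, ?_, ?_⟩
      · by_contra hcon
        have h4 := Nat.pow_le_pow_right (n := 2) (by norm_num) (by omega : a ≤ j)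
        omega
      · show (q + 1) % N = 2 ^ j % N
        rw [← h, Nat.mod_mod]
    · rintro (h | ⟨_, j, hj, hja, h⟩)
      · omega
      · refine ⟨j, hj, ?_⟩
        have h4 : (q + 1) % N = 2 ^ j % N := h
        rw [h4]
        apply Nat.mod_eq_of_lt
        have h5 := Nat.pow_le_pow_right (n := 2) (by norm_num) (by omega : j + 1 ≤ a)
        rw [pow_succ] at h5
        have h6 := Nat.pow_le_pow_right (n := 2) (by norm_num) hj
        rw [pow_one] at h6
        omega
  · refine iff_of_false ?_ (by omega)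
    intro h
    have e3 : 3 + (m + p - 3) = m + p := by omega
    obtain ⟨q', hq'⟩ := mono 3 (m + p - 3) m p (by norm_num) h3 hmp (by omega)
      (by rw [e3]; exact hodd) ⟨q, h⟩
    set N := 2 ^ a - 1 with hN
    have hN3 : 3 ≤ N := by omega
    have hTl : (q' + 2) % N < N := Nat.mod_lt _ (by omega)
    have hle : 1 * (m + p) ≤ ((q' + 2) % N + 1) * (m + p) := Nat.mul_le_mul_right _ (by omega)
    have key := split_iff 3 (m + p - 3) q' (a * (n + 3)) N (((q' + 2) % N + 1) * (m + p) - 9)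
      (by norm_num) (by omega) (by omega) (by rw [e3]; exact hs) (by omega) (by
        rw [e3]
        have h4 := Nat.mod_add_div (q' + 2) N
        have h5 : 3 * (m + p - 3) + q' * (m + p) = (((q' + 2) % N + 1) * (m + p) - 9)
            + N * (m + p) * ((q' + 2) / N) := by
          have h6 : (((q' + 2) % N + 1) + N * ((q' + 2) / N)) * (m + p) = (q' + 3) * (m + p) := by
            congr 1
            omega
          have h7 : (((q' + 2) % N + 1) + N * ((q' + 2) / N)) * (m + p)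
              = ((q' + 2) % N + 1) * (m + p) + N * (m + p) * ((q' + 2) / N) := by ring
          have h8 : (q' + 3) * (m + p) = 3 * (m + p) + q' * (m + p) := by ring
          omega
        rw [h5]
        show _ % _ = _ % _
        rw [Nat.add_mul_mod_self_left])
    rw [e3, hrep] at key
    rw [hrep] at hq'
    rw [key, split_three a n _ ((q' + 2) % N + 1) ha (by omega) (by
      rw [← hrep]
      omega)] at hq'
    exact absurd hq' (by decide)

end Pool.Agent.H73.DG
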