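import Pool.Agent.H73.DG.Tri

/-!
# Odd `d(3,p,q)` when minus one is a power of two modulo `p + 3`: the main step
-/

set_option autoImplicit false

namespace Pool.Agent.H73.DG

open Finset

section

variable {K : Type*} [Field K] [CharP K 2]

lemma conj3 {X Y Z : K} {a : ℕ} (hX : X ^ 2 ^ a = X⁻¹) (hY : Y ^ 2 ^ a = Y⁻¹)
    (hZ : Z ^ 2 ^ a = Z⁻¹) : (X + Y + Z) ^ 2 ^ a = X⁻¹ + Y⁻¹ + Z⁻¹ := by
  have : Fact (Nat.Prime 2) := ⟨Nat.prime_two⟩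
  rw [add_pow_char_pow, add_pow_char_pow, hX, hY, hZ]

lemma valg {X Y Z : K} (hX : X ≠ 0) (hY : Y ≠ 0) (hZ : Z ≠ 0) :
    (X + Y) * (Y + Z) * (Z + X) = X * Y * Z * ((X + Y + Z) * (X⁻¹ + Y⁻¹ + Z⁻¹) + 1) := by
  have h2 : (2 : K) = 0 := CharTwo.two_eq_zero
  field_simp
  linear_combination (-(X * Y * Z)) * h2

lemma nine {X Y Z : K} (hX : X ≠ 0) :
    (X * Y * Z) ^ 3 * (X⁻¹ + Y⁻¹ + Z⁻¹) ^ 9 = (Y * Z) ^ 3 * (X⁻¹ ^ 6 + (Y⁻¹ + Z⁻¹) * X⁻¹ ^ 5 +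
      (Y⁻¹ ^ 8 + Z⁻¹ ^ 8) * X ^ 2 + (Y⁻¹ ^ 8 + Z⁻¹ ^ 8) * (Y⁻¹ + Z⁻¹) * X ^ 3) := by
  have : Fact (Nat.Prime 2) := ⟨Nat.prime_two⟩
  have h8 : (X⁻¹ + Y⁻¹ + Z⁻¹) ^ 2 ^ 3 = X⁻¹ ^ 2 ^ 3 + Y⁻¹ ^ 2 ^ 3 + Z⁻¹ ^ 2 ^ 3 := by
    rw [add_pow_char_pow, add_pow_char_pow]
  have e : (X⁻¹ + Y⁻¹ + Z⁻¹) ^ 9 = (X⁻¹ + Y⁻¹ + Z⁻¹) ^ 2 ^ 3 * (X⁻¹ + Y⁻¹ + Z⁻¹) := by
    norm_num
    ring
  rw [e, h8]
  generalize Y⁻¹ = y
  generalize Z⁻¹ = z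
  norm_num
  field_simp
  ring

lemma split2 {R : Finset ℕ} (F : ℕ → K) {j k : ℕ} (hj : j ∈ R) (hk : k ∈ R) (hjk : j ≠ k) :
    ∑ i ∈ R, F i = F j + F k + ∑ i ∈ R, (if i ≠ j ∧ i ≠ k then F i else 0) := by
  have h1 : ∀ i, F i = (if i = j then F i else 0) + (if i = k then F i else 0)
      + (if i ≠ j ∧ i ≠ k then F i else 0) := by
    intro i
    by_cases h : i = j
    · subst h
      simp [hjk]
    · by_cases h' : i = k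
      · subst h'
        simp [h]
      · simp [h, h']
  rw [Finset.sum_congr rfl fun i _ => h1 i, sum_add_distrib, sum_add_distrib,
    Finset.sum_ite_eq' R j F, Finset.sum_ite_eq' R k F, if_pos hj, if_pos hk]

lemma tri_total {ζ : K} {s : ℕ} (hs : Odd s) (hs9 : 9 ≤ s) (hζ : IsPrimitiveRoot ζ s) :
    ∑ i ∈ range s, ∑ j ∈ range s, ∑ k ∈ range s, (if j < k ∧ i ≠ j ∧ i ≠ k then
      (ζ ^ i * ζ ^ j * ζ ^ k) ^ 3 * ((ζ ^ i)⁻¹ + (ζ ^ j)⁻¹ + (ζ ^ k)⁻¹) ^ 9 else 0) = 1 := by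
  have hζ0 : ζ ≠ 0 := hζ.ne_zero (by omega)
  have hne : ∀ i, ζ ^ i ≠ 0 := fun i => pow_ne_zero _ hζ0
  have hP : ∀ n, 1 ≤ n → n < s → ∑ i ∈ range s, (ζ ^ i) ^ n = 0 := by
    intro n h1 h2
    rw [root_sum hζ hs, if_neg]
    intro h
    have := Nat.le_of_dvd (by omega) h
    omega
  have hP' : ∀ n, 1 ≤ n → n < s → ∑ i ∈ range s, (ζ ^ i)⁻¹ ^ n = 0 := by
    intro n h1 h2
    have h3 := root_sum (hζ.inv) hs n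
    rw [if_neg] at h3
    · rw [← h3]
      refine sum_congr rfl fun i _ => ?_
      rw [inv_pow ζ i]
    · intro h
      have := Nat.le_of_dvd (by omega) h
      omega
  have e1 : ∑ i ∈ range s, ∑ j ∈ range s, ∑ k ∈ range s, (if j < k ∧ i ≠ j ∧ i ≠ k then
      (ζ ^ i * ζ ^ j * ζ ^ k) ^ 3 * ((ζ ^ i)⁻¹ + (ζ ^ j)⁻¹ + (ζ ^ k)⁻¹) ^ 9 else 0)
      = ∑ j ∈ range s, ∑ k ∈ range s, ∑ i ∈ range s, (if j < k ∧ i ≠ j ∧ i ≠ k then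
      (ζ ^ i * ζ ^ j * ζ ^ k) ^ 3 * ((ζ ^ i)⁻¹ + (ζ ^ j)⁻¹ + (ζ ^ k)⁻¹) ^ 9 else 0) := by
    refine Eq.trans sum_comm ?_
    exact sum_congr rfl fun j _ => sum_comm
  rw [e1]
  have e2 : ∀ j ∈ range s, ∀ k ∈ range s, ∑ i ∈ range s, (if j < k ∧ i ≠ j ∧ i ≠ k then
      (ζ ^ i * ζ ^ j * ζ ^ k) ^ 3 * ((ζ ^ i)⁻¹ + (ζ ^ j)⁻¹ + (ζ ^ k)⁻¹) ^ 9 else 0)
      = if j < k then (if j = k then 0 else (ζ ^ j) ^ 6 * (ζ ^ k)⁻¹ ^ 6) +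
        (if k = j then 0 else (ζ ^ k) ^ 6 * (ζ ^ j)⁻¹ ^ 6) else 0 := by
    intro j hj k hk
    by_cases hjk : j < k
    · rw [if_pos hjk, if_neg (by omega), if_neg (by omega)]
      have h1 := split2 (fun i => (ζ ^ i * ζ ^ j * ζ ^ k) ^ 3 *
        ((ζ ^ i)⁻¹ + (ζ ^ j)⁻¹ + (ζ ^ k)⁻¹) ^ 9) hj hk (by omega)
      have h0 : ∑ i ∈ range s, (ζ ^ i * ζ ^ j * ζ ^ k) ^ 3 *
        ((ζ ^ i)⁻¹ + (ζ ^ j)⁻¹ + (ζ ^ k)⁻¹) ^ 9 = 0 := by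
        have h3 : ∀ i ∈ range s, (ζ ^ i * ζ ^ j * ζ ^ k) ^ 3 *
          ((ζ ^ i)⁻¹ + (ζ ^ j)⁻¹ + (ζ ^ k)⁻¹) ^ 9 = (ζ ^ j * ζ ^ k) ^ 3 * ((ζ ^ i)⁻¹ ^ 6 +
            ((ζ ^ j)⁻¹ + (ζ ^ k)⁻¹) * (ζ ^ i)⁻¹ ^ 5 +
            ((ζ ^ j)⁻¹ ^ 8 + (ζ ^ k)⁻¹ ^ 8) * (ζ ^ i) ^ 2 +
            ((ζ ^ j)⁻¹ ^ 8 + (ζ ^ k)⁻¹ ^ 8) * ((ζ ^ j)⁻¹ + (ζ ^ k)⁻¹) * (ζ ^ i) ^ 3) :=
          fun i _ => nine (hne i)
        rw [sum_congr rfl h3, ← mul_sum, sum_add_distrib, sum_add_distrib, sum_add_distrib,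
          ← mul_sum, ← mul_sum, ← mul_sum, hP' 6 (by norm_num) (by omega),
          hP' 5 (by norm_num) (by omega), hP 2 (by norm_num) (by omega),
          hP 3 (by norm_num) (by omega)]
        ring
      rw [h0] at h1
      have h4 : ∑ i ∈ range s, (if j < k ∧ i ≠ j ∧ i ≠ k then
        (ζ ^ i * ζ ^ j * ζ ^ k) ^ 3 * ((ζ ^ i)⁻¹ + (ζ ^ j)⁻¹ + (ζ ^ k)⁻¹) ^ 9 else 0)
        = ∑ i ∈ range s, (if i ≠ j ∧ i ≠ k then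
        (ζ ^ i * ζ ^ j * ζ ^ k) ^ 3 * ((ζ ^ i)⁻¹ + (ζ ^ j)⁻¹ + (ζ ^ k)⁻¹) ^ 9 else 0) := by
        refine sum_congr rfl fun i _ => ?_
        simp only [hjk, true_and]
      rw [h4]
      have h5 : (ζ ^ j * ζ ^ j * ζ ^ k) ^ 3 * ((ζ ^ j)⁻¹ + (ζ ^ j)⁻¹ + (ζ ^ k)⁻¹) ^ 9
          = (ζ ^ j) ^ 6 * (ζ ^ k)⁻¹ ^ 6 := by
        rw [CharTwo.add_self_eq_zero, zero_add]
        have := hne k
        field_simp
      have h6 : (ζ ^ k * ζ ^ j * ζ ^ k) ^ 3 * ((ζ ^ k)⁻¹ + (ζ ^ j)⁻¹ + (ζ ^ k)⁻¹) ^ 9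
          = (ζ ^ k) ^ 6 * (ζ ^ j)⁻¹ ^ 6 := by
        have e : (ζ ^ k)⁻¹ + (ζ ^ j)⁻¹ + (ζ ^ k)⁻¹ = (ζ ^ j)⁻¹ + ((ζ ^ k)⁻¹ + (ζ ^ k)⁻¹) := by ring
        rw [e, CharTwo.add_self_eq_zero, add_zero]
        have := hne j
        field_simp
      beta_reduce at h1
      rw [h5, h6] at h1
      rw [← sub_eq_zero, CharTwo.sub_eq_add, add_comm]
      exact h1.symm
    · simp only [hjk, false_and, if_false, sum_const_zero]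
  have e3 : ∑ j ∈ range s, ∑ k ∈ range s, ∑ i ∈ range s, (if j < k ∧ i ≠ j ∧ i ≠ k then
      (ζ ^ i * ζ ^ j * ζ ^ k) ^ 3 * ((ζ ^ i)⁻¹ + (ζ ^ j)⁻¹ + (ζ ^ k)⁻¹) ^ 9 else 0)
      = ∑ j ∈ range s, ∑ k ∈ range s,
        if j < k then (if j = k then 0 else (ζ ^ j) ^ 6 * (ζ ^ k)⁻¹ ^ 6) +
        (if k = j then 0 else (ζ ^ k) ^ 6 * (ζ ^ j)⁻¹ ^ 6) else 0 :=
    sum_congr rfl fun j hj => sum_congr rfl fun k hk => e2 j hj k hk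
  rw [e3, ← pair_sum (fun j k => if j = k then 0 else (ζ ^ j) ^ 6 * (ζ ^ k)⁻¹ ^ 6)
    (fun j => if_pos rfl)]
  have e4 : ∑ j ∈ range s, ∑ k ∈ range s, (ζ ^ j) ^ 6 * (ζ ^ k)⁻¹ ^ 6 = 0 := by
    rw [← sum_mul_sum, hP 6 (by norm_num) (by omega), zero_mul]
  have e5 : ∑ j ∈ range s, ∑ k ∈ range s, (if j = k then (ζ ^ j) ^ 6 * (ζ ^ k)⁻¹ ^ 6 else 0)
      = 1 := by
    have h1 : ∀ j ∈ range s, ∑ k ∈ range s, (if j = k then (ζ ^ j) ^ 6 * (ζ ^ k)⁻¹ ^ 6 else 0)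
        = 1 := by
      intro j hj
      rw [Finset.sum_ite_eq, if_pos hj]
      have := hne j
      field_simp
    rw [sum_congr rfl h1, sum_const, card_range, nsmul_eq_mul, mul_one]
    obtain ⟨t, ht⟩ := hs
    rw [ht]
    push_cast
    rw [CharTwo.two_eq_zero, zero_mul, zero_add]
  have e6 : ∑ j ∈ range s, ∑ k ∈ range s, (if j = k then 0 else (ζ ^ j) ^ 6 * (ζ ^ k)⁻¹ ^ 6)
      + ∑ j ∈ range s, ∑ k ∈ range s, (if j = k then (ζ ^ j) ^ 6 * (ζ ^ k)⁻¹ ^ 6 else 0)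
      = ∑ j ∈ range s, ∑ k ∈ range s, (ζ ^ j) ^ 6 * (ζ ^ k)⁻¹ ^ 6 := by
    simp only [← sum_add_distrib]
    refine sum_congr rfl fun j _ => sum_congr rfl fun k _ => ?_
    split_ifs <;> simp
  rw [e4, e5] at e6
  rw [← CharTwo.sub_eq_add, sub_eq_zero] at e6
  exact e6

lemma trip {R : Finset ℕ} (P : ℕ → ℕ → ℕ → Prop) [∀ i j k, Decidable (P i j k)]
    (f : ℕ → ℕ → ℕ → K) :
    ∑ t ∈ (R ×ˢ (R ×ˢ R)).filter (fun t => P t.1 t.2.1 t.2.2), f t.1 t.2.1 t.2.2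
      = ∑ i ∈ R, ∑ j ∈ R, ∑ k ∈ R, (if P i j k then f i j k else 0) := by
  rw [Finset.sum_filter, Finset.sum_product]
  refine sum_congr rfl fun i _ => ?_
  rw [Finset.sum_product]

end

open Classical in
/-- If minus one is a power of two modulo `p + 3` and `p ≥ 6`, then `d(3,p,q)` is odd for some
`q`. -/
theorem exists_odd_three (p a : ℕ) (hp : 6 ≤ p) (ha : (3 + p) ∣ 2 ^ a + 1) :
    ∃ q, IsOddInt (degNum 3 p q) := by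
  by_contra hcon
  rw [not_exists] at hcon
  have hs : Odd (3 + p) := by
    have h1 : a ≠ 0 := by
      rintro rfl
      have := Nat.le_of_dvd (by norm_num) ha
      norm_num at this
      omega
    have h2 : Odd (2 ^ a + 1) := by
      obtain ⟨a', rfl⟩ := Nat.exists_eq_succ_of_ne_zero h1
      rw [Nat.succ_eq_add_one, pow_succ, mul_comm]
      exact odd_two_mul_add_one _
    exact Odd.of_dvd_nat h2 ha
  obtain ⟨ζ, hζ⟩ := exists_root (3 + p) hs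
  have hζ1 : ζ ^ (3 + p) = 1 := hζ.pow_eq_one
  have hζ0 : ζ ≠ 0 := hζ.ne_zero (by omega)
  have hne : ∀ i, ζ ^ i ≠ 0 := fun i => pow_ne_zero _ hζ0
  have hconj : ∀ i, (ζ ^ i) ^ 2 ^ a = (ζ ^ i)⁻¹ := by
    intro i
    apply eq_inv_of_mul_eq_one_left
    obtain ⟨c, hc⟩ := ha
    rw [← pow_succ, ← pow_mul, mul_comm, pow_mul, hc, pow_mul ζ, hζ1, one_pow, one_pow]
  have hB : ∀ v : Kbar, v ≠ 0 → ∑ i ∈ range (3 + p), ∑ j ∈ range (3 + p), ∑ k ∈ range (3 + p),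
      (if j < k then (if ζ ^ i + ζ ^ j + ζ ^ k = v then ζ ^ i * ζ ^ j * ζ ^ k *
        ((ζ ^ i + ζ ^ j) * (ζ ^ j + ζ ^ k) * (ζ ^ k + ζ ^ i)) ^ 2 else 0) else 0) = 0 := by
    intro v hv
    apply six_sum
    have h1 := level_zero 3 p (by norm_num) (by omega) hs hζ hcon v hv
    rw [Finset.sum_filter, triple_fin] at h1
    refine Eq.trans ?_ h1
    refine sum_congr rfl fun i _ => sum_congr rfl fun j _ => sum_congr rfl fun k _ => ?_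
    rw [wt3 (by omega) hζ1, Fin.sum_univ_three]
    rfl
  have hC : ∀ v : Kbar, v ≠ 0 → ∑ i ∈ range (3 + p), ∑ j ∈ range (3 + p), ∑ k ∈ range (3 + p),
      (if (j < k ∧ i ≠ j ∧ i ≠ k) ∧ ζ ^ i + ζ ^ j + ζ ^ k = v then
        (ζ ^ i * ζ ^ j * ζ ^ k) ^ 3 else 0) = 0 := by
    intro v hv
    have hval : ∀ i j k, ζ ^ i + ζ ^ j + ζ ^ k = v → ζ ^ i * ζ ^ j * ζ ^ k *
        ((ζ ^ i + ζ ^ j) * (ζ ^ j + ζ ^ k) * (ζ ^ k + ζ ^ i)) ^ 2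
        = (v * v ^ 2 ^ a + 1) ^ 2 * (ζ ^ i * ζ ^ j * ζ ^ k) ^ 3 := by
      intro i j k h
      rw [valg (hne i) (hne j) (hne k), ← conj3 (hconj i) (hconj j) (hconj k), h]
      ring
    have hmul : (v * v ^ 2 ^ a + 1) ^ 2 *
        ∑ i ∈ range (3 + p), ∑ j ∈ range (3 + p), ∑ k ∈ range (3 + p),
        (if (j < k ∧ i ≠ j ∧ i ≠ k) ∧ ζ ^ i + ζ ^ j + ζ ^ k = v then
          (ζ ^ i * ζ ^ j * ζ ^ k) ^ 3 else 0) = 0 := by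
      refine Eq.trans ?_ (hB v hv)
      rw [mul_sum]
      refine sum_congr rfl fun i _ => ?_
      rw [mul_sum]
      refine sum_congr rfl fun j _ => ?_
      rw [mul_sum]
      refine sum_congr rfl fun k _ => ?_
      by_cases h1 : j < k
      · by_cases h2 : ζ ^ i + ζ ^ j + ζ ^ k = v
        · by_cases h3 : i = j
          · subst h3
            rw [if_neg (by tauto), if_pos h1, if_pos h2, CharTwo.add_self_eq_zero]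
            ring
          · by_cases h4 : i = k
            · subst h4
              rw [if_neg (by tauto), if_pos h1, if_pos h2, CharTwo.add_self_eq_zero]
              ring
            · rw [if_pos ⟨⟨h1, h3, h4⟩, h2⟩, if_pos h1, if_pos h2, hval i j k h2]
        · rw [if_neg (by tauto), if_pos h1, if_neg h2, mul_zero]
      · rw [if_neg (by tauto), if_neg h1, mul_zero]
    rcases mul_eq_zero.mp hmul with h | h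
    · refine sum_eq_zero fun i hi => sum_eq_zero fun j hj => sum_eq_zero fun k hk => ?_
      rw [if_neg]
      rintro ⟨⟨h1, h2, h3⟩, h4⟩
      have h5 := hval i j k h4
      rw [h, zero_mul] at h5
      have hinj : ∀ x ∈ range (3 + p), ∀ y ∈ range (3 + p), x ≠ y → ζ ^ x + ζ ^ y ≠ 0 := by
        intro x hx y hy hxy h6
        rw [← CharTwo.sub_eq_add, sub_eq_zero] at h6
        exact hxy (hζ.pow_inj (mem_range.mp hx) (mem_range.mp hy) h6)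
      exact mul_ne_zero (mul_ne_zero (mul_ne_zero (hne i) (hne j)) (hne k))
        (pow_ne_zero 2 (mul_ne_zero (mul_ne_zero (hinj i hi j hj h2) (hinj j hj k hk (by omega)))
          (hinj k hk i hi (Ne.symm h3)))) h5
    · exact h
  have hT := tri_total hs (by omega) hζ
  rw [← trip (fun i j k => j < k ∧ i ≠ j ∧ i ≠ k) (fun i j k =>
    (ζ ^ i * ζ ^ j * ζ ^ k) ^ 3 * ((ζ ^ i)⁻¹ + (ζ ^ j)⁻¹ + (ζ ^ k)⁻¹) ^ 9)] at hT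
  rw [← Finset.sum_fiberwise_of_maps_to (g := fun t : ℕ × ℕ × ℕ => ζ ^ t.1 + ζ ^ t.2.1 + ζ ^ t.2.2)
    (t := ((range (3 + p) ×ˢ (range (3 + p) ×ˢ range (3 + p))).filter
      (fun t => t.2.1 < t.2.2 ∧ t.1 ≠ t.2.1 ∧ t.1 ≠ t.2.2)).image
        (fun t : ℕ × ℕ × ℕ => ζ ^ t.1 + ζ ^ t.2.1 + ζ ^ t.2.2))
    (fun t ht => mem_image_of_mem _ ht)] at hT
  have hzero : ∀ v : Kbar, ∑ t ∈ ((range (3 + p) ×ˢ (range (3 + p) ×ˢ range (3 + p))).filter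
      (fun t => t.2.1 < t.2.2 ∧ t.1 ≠ t.2.1 ∧ t.1 ≠ t.2.2)).filter
        (fun t => ζ ^ t.1 + ζ ^ t.2.1 + ζ ^ t.2.2 = v),
      (ζ ^ t.1 * ζ ^ t.2.1 * ζ ^ t.2.2) ^ 3 *
        ((ζ ^ t.1)⁻¹ + (ζ ^ t.2.1)⁻¹ + (ζ ^ t.2.2)⁻¹) ^ 9 = 0 := by
    intro v
    have h1 : ∀ t ∈ ((range (3 + p) ×ˢ (range (3 + p) ×ˢ range (3 + p))).filter
      (fun t => t.2.1 < t.2.2 ∧ t.1 ≠ t.2.1 ∧ t.1 ≠ t.2.2)).filter
        (fun t => ζ ^ t.1 + ζ ^ t.2.1 + ζ ^ t.2.2 = v),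
      (ζ ^ t.1 * ζ ^ t.2.1 * ζ ^ t.2.2) ^ 3 *
        ((ζ ^ t.1)⁻¹ + (ζ ^ t.2.1)⁻¹ + (ζ ^ t.2.2)⁻¹) ^ 9
        = (ζ ^ t.1 * ζ ^ t.2.1 * ζ ^ t.2.2) ^ 3 * (v ^ 2 ^ a) ^ 9 := by
      intro t ht
      rw [← conj3 (hconj _) (hconj _) (hconj _), (mem_filter.mp ht).2]
    rw [sum_congr rfl h1, ← sum_mul]
    by_cases hv : v = 0
    · have h2a : 2 ^ a ≠ 0 := by positivity
      rw [hv, zero_pow h2a, zero_pow (by norm_num), mul_zero]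
    · have h2 := hC v hv
      rw [← trip (fun i j k => (j < k ∧ i ≠ j ∧ i ≠ k) ∧ ζ ^ i + ζ ^ j + ζ ^ k = v)
        (fun i j k => (ζ ^ i * ζ ^ j * ζ ^ k) ^ 3)] at h2
      rw [Finset.filter_filter, h2, zero_mul]
  rw [sum_congr rfl (fun v _ => hzero v), sum_const_zero] at hT
  exact zero_ne_one hT

end Pool.Agent.H73.DG
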