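import Pool.Agent.H73.DG.Bch
import Pool.Agent.H73.DG.Mono
import Pool.Agent.H73.DG.Tri2

/-!
# Existence from consecutive residues that are zero or powers of two
-/

set_option autoImplicit false

namespace Pool.Agent.H73.DG

open Finset Polynomial

section

variable {K : Type*} [Field K] [CharP K 2]

/-- If `w` consecutive residues modulo `a` are zero or powers of two, then a nonempty set of at most
`w` distinct `a`-th roots of unity with an even number of elements does not have sum zero. -/
lemma bch_even {ζ : K} {a b w : ℕ} (ha : 0 < a) (hζ : IsPrimitiveRoot ζ a)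
    (hrun : ∀ j, j < w → (∃ i : ℕ, 2 ^ i ≡ b + j [MOD a]) ∨ a ∣ b + j)
    (T : Finset ℕ) (hT : T ⊆ range a) (hne : T.Nonempty) (heven : Even T.card)
    (hsum : ∑ t ∈ T, ζ ^ t = 0) : w < T.card := by
  classical
  by_contra hcon
  obtain ⟨t0, ht0⟩ := hne
  have hz : ∀ j, j < w → ∑ t ∈ T, (ζ ^ t) ^ (b + j) = 0 := by
    intro j hj
    rcases hrun j hj with ⟨i, hi⟩ | hd
    · have h1 := frob (I := T) (J := ∅) hζ.pow_eq_one (by rw [hsum, Finset.sum_empty]) hi
      rw [Finset.sum_empty] at h1
      rw [← h1]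
      apply Finset.sum_congr rfl
      intro t _
      rw [← pow_mul, ← pow_mul, mul_comm]
    · have h1 : ∀ t ∈ T, (ζ ^ t) ^ (b + j) = 1 := by
        intro t _
        obtain ⟨c, hc⟩ := hd
        rw [← pow_mul, mul_comm, pow_mul, hc, pow_mul ζ, hζ.pow_eq_one, one_pow, one_pow]
      rw [Finset.sum_congr rfl h1, Finset.sum_const, nsmul_eq_mul, mul_one]
      obtain ⟨c, hc⟩ := heven
      rw [hc]
      push_cast
      exact CharTwo.add_self_eq_zero _
  let P : K[X] := ∏ t ∈ T.erase t0, (X - C (ζ ^ t))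
  have hdeg : P.natDegree = T.card - 1 := by
    show (∏ t ∈ T.erase t0, (X - C (ζ ^ t))).natDegree = T.card - 1
    rw [natDegree_prod_of_monic _ _ (fun t _ => monic_X_sub_C _)]
    simp only [natDegree_X_sub_C]
    rw [← Finset.card_eq_sum_ones, Finset.card_erase_of_mem ht0]
  have hcard : 0 < T.card := Finset.card_pos.mpr ⟨t0, ht0⟩
  have h2 : ∑ t ∈ T, (ζ ^ t) ^ b * P.eval (ζ ^ t) = 0 := by
    have h3 : ∀ t ∈ T, (ζ ^ t) ^ b * P.eval (ζ ^ t)
        = ∑ j ∈ range (P.natDegree + 1), P.coeff j * (ζ ^ t) ^ (b + j) := by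
      intro t _
      rw [eval_eq_sum_range, Finset.mul_sum]
      apply Finset.sum_congr rfl
      intro j _
      rw [pow_add]
      ring
    rw [Finset.sum_congr rfl h3, Finset.sum_comm]
    apply Finset.sum_eq_zero
    intro j hj
    rw [← Finset.mul_sum, hz j, mul_zero]
    have := Finset.mem_range.mp hj
    omega
  have h4 : ∑ t ∈ T, (ζ ^ t) ^ b * P.eval (ζ ^ t) = (ζ ^ t0) ^ b * P.eval (ζ ^ t0) := by
    apply Finset.sum_eq_single_of_mem t0 ht0
    intro t ht hne'
    have h5 : P.eval (ζ ^ t) = 0 := by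
      show (∏ t ∈ T.erase t0, (X - C (ζ ^ t))).eval (ζ ^ t) = 0
      rw [eval_prod]
      apply Finset.prod_eq_zero (Finset.mem_erase.mpr ⟨hne', ht⟩)
      rw [eval_sub, eval_X, eval_C, sub_self]
    rw [h5, mul_zero]
  rw [h4] at h2
  have hζ0 : ζ ≠ 0 := hζ.ne_zero ha.ne'
  rcases mul_eq_zero.mp h2 with h6 | h6
  · exact pow_ne_zero _ (pow_ne_zero _ hζ0) h6
  · have h7 : P.eval (ζ ^ t0) ≠ 0 := by
      show (∏ t ∈ T.erase t0, (X - C (ζ ^ t))).eval (ζ ^ t0) ≠ 0
      rw [eval_prod, Finset.prod_ne_zero_iff]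
      intro t ht
      rw [Finset.mem_erase] at ht
      rw [eval_sub, eval_X, eval_C, sub_ne_zero]
      intro h8
      apply ht.1
      exact (hζ.pow_inj (Finset.mem_range.mp (hT ht0)) (Finset.mem_range.mp (hT ht.2)) h8).symm
    exact h7 h6

end

/-- Let `m + p` be odd and let `2 m` consecutive residues modulo `m + p` be zero or powers of two.
Then `d(m,p,q)` is odd for some `q`. -/
theorem exists_odd_run (b m p : ℕ) (hodd : Odd (m + p)) (hm : 1 ≤ m) (hp : 1 ≤ p)
    (hrun : ∀ j, j < 2 * m → (∃ i : ℕ, 2 ^ i ≡ b + j [MOD m + p]) ∨ (m + p) ∣ b + j) :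
    ∃ q, IsOddInt (degNum m p q) := by
  classical
  obtain ⟨ζ, hζ⟩ := exists_root (m + p) hodd
  apply exists_odd_of_isolated m p hm hp hodd hζ
  intro I hI hsum hcard
  by_contra hne
  have hR : range m ⊆ range (m + p) := by
    intro x hx
    have := mem_range.mp hx
    exact mem_range.mpr (by omega)
  have hA : (I \ range m).card = (range m \ I).card := by
    have h1 := Finset.card_sdiff_add_card_inter I (range m)
    have h2 := Finset.card_sdiff_add_card_inter (range m) I
    rw [Finset.inter_comm (range m) I, Finset.card_range] at h2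
    omega
  have hdisj : Disjoint (I \ range m) (range m \ I) := disjoint_sdiff_sdiff
  have hc2 : ((I \ range m) ∪ (range m \ I)).card = 2 * (I \ range m).card := by
    rw [Finset.card_union_of_disjoint hdisj, ← hA]
    ring
  have hle : (I \ range m).card ≤ m := by
    rw [← hcard]
    exact Finset.card_le_card sdiff_subset
  have hne1 : ((I \ range m) ∪ (range m \ I)).Nonempty := by
    rw [← Finset.card_pos, hc2]
    by_contra h0
    have h1 : (I \ range m).card = 0 := by omega
    rw [Finset.card_eq_zero, Finset.sdiff_eq_empty_iff_subset] at h1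
    apply hne
    apply Finset.eq_of_subset_of_card_le h1
    rw [Finset.card_range, hcard]
  have hsub : ((I \ range m) ∪ (range m \ I)) ⊆ range (m + p) :=
    Finset.union_subset (sdiff_subset.trans hI) (sdiff_subset.trans hR)
  have hs0 : ∑ t ∈ (I \ range m) ∪ (range m \ I), ζ ^ t = 0 := by
    rw [Finset.sum_union hdisj]
    have h1 := Finset.sum_inter_add_sum_sdiff I (range m) (fun t => ζ ^ t)
    have h2 := Finset.sum_inter_add_sum_sdiff (range m) I (fun t => ζ ^ t)
    rw [Finset.inter_comm (range m) I] at h2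
    rw [← CharTwo.sub_eq_add, sub_eq_zero]
    rw [← h1, ← h2] at hsum
    exact add_left_cancel hsum
  have hlt := bch_even (by omega) hζ hrun _ hsub hne1 (by rw [hc2]; exact even_two_mul _) hs0
  omega

/-- If `m ≤ 3`, `9 ≤ m + p` and `m + p` divides some `2 ^ a + 1`, then `d(m,p,q)` is odd for some
`q`. -/
theorem exists_odd_unitary (a m p : ℕ) (hm : 1 ≤ m) (hm3 : m ≤ 3) (hs : 9 ≤ m + p)
    (ha : (m + p) ∣ 2 ^ a + 1) : ∃ q, IsOddInt (degNum m p q) := by
  have e : 3 + (m + p - 3) = m + p := by omega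
  have h3 := exists_odd_three (m + p - 3) a (by omega) (by rw [e]; exact ha)
  have hodd : Odd (m + p) := by
    have h1 : a ≠ 0 := by
      rintro rfl
      have := Nat.le_of_dvd (by norm_num) ha
      norm_num at this
      omega
    have h2 : Odd (2 ^ a + 1) := by
      obtain ⟨a', rfl⟩ := Nat.exists_eq_succ_of_ne_zero h1
      rw [Nat.succ_eq_add_one, pow_succ, mul_comm]
      exact odd_two_mul_add_one _
    exact Odd.of_dvd_nat h2 ha
  exact mono m p 3 (m + p - 3) hm hm3 (by omega) e hodd h3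

end Pool.Agent.H73.DG
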