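import Pool.Agent.H73.DG.Family

/-!
# Parity of the ballot sums for `q = 1` and `q = 2`, `p` odd
-/

set_option autoImplicit false

namespace Pool.Agent.H73.DG

open Finset

private lemma luc (n k : ℕ) :
    n.choose k % 2 = ((n % 2).choose (k % 2) * (n / 2).choose (k / 2)) % 2 := by
  have : Fact (Nat.Prime 2) := ⟨Nat.prime_two⟩
  exact Choose.choose_modEq_choose_mod_mul_choose_div_nat (p := 2) (n := n) (k := k)

private lemma luc_ee (n k : ℕ) : (2 * n).choose (2 * k) % 2 = n.choose k % 2 := by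
  rw [luc (2 * n) (2 * k), show 2 * n % 2 = 0 by omega, show 2 * k % 2 = 0 by omega,
    show 2 * n / 2 = n by omega, show 2 * k / 2 = k by omega, Nat.choose_self, one_mul]

private lemma luc_eo (n k : ℕ) : (2 * n).choose (2 * k + 1) % 2 = 0 := by
  rw [luc (2 * n) (2 * k + 1), show 2 * n % 2 = 0 by omega, show (2 * k + 1) % 2 = 1 by omega]
  simp

private lemma luc_oe (n k : ℕ) : (2 * n + 1).choose (2 * k) % 2 = n.choose k % 2 := by
  rw [luc (2 * n + 1) (2 * k), show (2 * n + 1) % 2 = 1 by omega, show 2 * k % 2 = 0 by omega,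
    show (2 * n + 1) / 2 = n by omega, show 2 * k / 2 = k by omega, Nat.choose_zero_right, one_mul]

theorem ballot_one (h : ℕ) (hh : 1 ≤ h) :
    Odd (ballot (2 * h - 1) 1) ↔ Odd ((3 * h).choose h) := by
  obtain ⟨g, rfl⟩ : ∃ g, h = g + 1 := ⟨h - 1, by omega⟩
  have hb : ballot (2 * (g + 1) - 1) 1 =
      -(((6 * g + 5).choose (2 * g + 1) : ℤ) - ((6 * g + 5).choose (2 * g) : ℤ) +
        (((6 * g + 5).choose (4 * g + 4) : ℤ) - ((6 * g + 5).choose (4 * g + 3) : ℤ))) := by
    unfold ballot
    rw [sum_range_succ, sum_range_succ, sum_range_zero]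
    have e1 : 2 * (2 * (g + 1) - 1) + 1 * (2 + (2 * (g + 1) - 1)) = 6 * g + 5 := by omega
    have e2 : 2 * (g + 1) - 1 + 0 * (2 + (2 * (g + 1) - 1)) = 2 * g + 1 := by omega
    have e3 : 2 * (g + 1) - 1 + 1 * (2 + (2 * (g + 1) - 1)) = 4 * g + 4 := by omega
    have e4 : 2 * g + 1 - 1 = 2 * g := by omega
    have e5 : 4 * g + 4 - 1 = 4 * g + 3 := by omega
    rw [e1, e2, e3, e4, e5]
    ring
  have s1 : (6 * g + 5).choose (4 * g + 4) = (6 * g + 5).choose (2 * g + 1) := by
    refine Nat.choose_symm_of_eq_add ?_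
    omega
  have s2 : (6 * g + 5).choose (4 * g + 3) = (6 * g + 5).choose (2 * g + 2) := by
    refine Nat.choose_symm_of_eq_add ?_
    omega
  have l1 : (6 * g + 5).choose (2 * g) % 2 = (3 * g + 2).choose g % 2 := by
    have := luc_oe (3 * g + 2) g
    rw [show 2 * (3 * g + 2) + 1 = 6 * g + 5 by ring] at this
    exact this
  have l2 : (6 * g + 5).choose (2 * g + 2) % 2 = (3 * g + 2).choose (g + 1) % 2 := by
    have := luc_oe (3 * g + 2) (g + 1)
    rw [show 2 * (3 * g + 2) + 1 = 6 * g + 5 by ring, show 2 * (g + 1) = 2 * g + 2 by ring] at this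
    exact this
  have l3 : (3 * (g + 1)).choose (g + 1) = (3 * g + 2).choose g + (3 * g + 2).choose (g + 1) := by
    rw [show 3 * (g + 1) = 3 * g + 2 + 1 by ring, Nat.choose_succ_succ]
  rw [hb, s1, s2, l3, Int.odd_iff, Nat.odd_iff]
  generalize (6 * g + 5).choose (2 * g + 1) = a at *
  generalize (6 * g + 5).choose (2 * g) = b at *
  generalize (6 * g + 5).choose (2 * g + 2) = c at *
  generalize (3 * g + 2).choose g = d at *
  generalize (3 * g + 2).choose (g + 1) = e at *
  omega

private lemma even_four (g : ℕ) : 1 ≤ g → (4 * g).choose g % 2 = 0 := by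
  induction g using Nat.strong_induction_on with
  | _ g ih =>
    intro hg
    rcases Nat.even_or_odd' g with ⟨v, rfl | rfl⟩
    · rw [show 4 * (2 * v) = 2 * (4 * v) by ring, luc_ee]
      rcases Nat.even_or_odd' v with ⟨u, rfl | rfl⟩
      · rw [show 4 * (2 * u) = 2 * (2 * (2 * u)) by ring, luc_ee]
        have := ih u (by omega) (by omega)
        rw [show 2 * (2 * u) = 4 * u by ring]
        exact this
      · rw [show 4 * (2 * u + 1) = 2 * (2 * (2 * u + 1)) by ring, luc_eo]
    · rw [show 4 * (2 * v + 1) = 2 * (2 * (2 * v + 1)) by ring, luc_eo]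

private lemma odd_four (h : ℕ) :
    (4 * h + 1).choose h % 2 = 1 ↔ ∃ r, 3 * h + 1 = 4 ^ r := by
  induction h using Nat.strong_induction_on with
  | _ h ih =>
    have hpow : ∀ r : ℕ, 4 ^ r = 1 ∨ 4 ^ r % 4 = 0 := by
      intro r
      cases r with
      | zero => exact Or.inl rfl
      | succ r =>
        right
        rw [pow_succ]
        omega
    obtain ⟨g, hg⟩ : ∃ g, g = h / 4 := ⟨_, rfl⟩
    have hcase : h = 4 * g ∨ h = 4 * g + 1 ∨ h = 4 * g + 2 ∨ h = 4 * g + 3 := by omega
    rcases hcase with e | e | e | e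
    · subst e
      have l1 : (4 * (4 * g) + 1).choose (4 * g) % 2 = (4 * g).choose g % 2 := by
        rw [show 4 * (4 * g) + 1 = 2 * (2 * (4 * g)) + 1 by ring,
          show (2 * (2 * (4 * g)) + 1).choose (4 * g) = (2 * (2 * (4 * g)) + 1).choose (2 * (2 * g))
            by rw [show 2 * (2 * g) = 4 * g by ring], luc_oe, luc_ee]
      rcases Nat.eq_zero_or_pos g with h0 | h0
      · subst h0
        constructor
        · intro _
          exact ⟨0, by norm_num⟩
        · intro _
          rfl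
      · rw [l1, even_four g h0]
        constructor
        · intro h1
          omega
        · rintro ⟨r, hr⟩
          exfalso
          rcases hpow r with h1 | h1 <;> omega
    · subst e
      have l1 : (4 * (4 * g + 1) + 1).choose (4 * g + 1) % 2 = (4 * g + 1).choose g % 2 := by
        have l2 : (2 * (2 * (4 * g + 1)) + 1).choose (2 * (2 * g) + 1) % 2 =
            (2 * (4 * g + 1)).choose (2 * g) % 2 := by
          rw [luc (2 * (2 * (4 * g + 1)) + 1) (2 * (2 * g) + 1),
            show (2 * (2 * (4 * g + 1)) + 1) % 2 = 1 by omega,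
            show (2 * (2 * g) + 1) % 2 = 1 by omega,
            show (2 * (2 * (4 * g + 1)) + 1) / 2 = 2 * (4 * g + 1) by omega,
            show (2 * (2 * g) + 1) / 2 = 2 * g by omega, Nat.choose_self, one_mul]
        rw [show 4 * (4 * g + 1) + 1 = 2 * (2 * (4 * g + 1)) + 1 by ring]
        have e5 : 4 * g + 1 = 2 * (2 * g) + 1 := by ring
        calc (2 * (2 * (4 * g + 1)) + 1).choose (4 * g + 1) % 2
            = (2 * (2 * (4 * g + 1)) + 1).choose (2 * (2 * g) + 1) % 2 := by
              congr 2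
          _ = (2 * (4 * g + 1)).choose (2 * g) % 2 := l2
          _ = (4 * g + 1).choose g % 2 := luc_ee _ _
      rw [l1, ih g (by omega)]
      constructor
      · rintro ⟨r, hr⟩
        refine ⟨r + 1, ?_⟩
        rw [pow_succ, ← hr]
        ring
      · rintro ⟨r, hr⟩
        cases r with
        | zero =>
          rw [pow_zero] at hr
          omega
        | succ r =>
          refine ⟨r, ?_⟩
          rw [pow_succ] at hr
          omega
    · subst e
      have l1 : (4 * (4 * g + 2) + 1).choose (4 * g + 2) % 2 = 0 := by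
        have l2 : (2 * (2 * (4 * g + 2)) + 1).choose (2 * (2 * g + 1)) % 2 = 0 := by
          rw [luc_oe, luc_eo]
        rw [show 4 * (4 * g + 2) + 1 = 2 * (2 * (4 * g + 2)) + 1 by ring]
        have e5 : 4 * g + 2 = 2 * (2 * g + 1) := by ring
        calc (2 * (2 * (4 * g + 2)) + 1).choose (4 * g + 2) % 2
            = (2 * (2 * (4 * g + 2)) + 1).choose (2 * (2 * g + 1)) % 2 := by
              congr 2
          _ = 0 := l2
      rw [l1]
      constructor
      · intro h1
        omega
      · rintro ⟨r, hr⟩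
        exfalso
        rcases hpow r with h1 | h1 <;> omega
    · subst e
      have l1 : (4 * (4 * g + 3) + 1).choose (4 * g + 3) % 2 = 0 := by
        have l2 : (2 * (2 * (4 * g + 3)) + 1).choose (2 * (2 * g + 1) + 1) % 2 = 0 := by
          rw [luc (2 * (2 * (4 * g + 3)) + 1) (2 * (2 * g + 1) + 1),
            show (2 * (2 * (4 * g + 3)) + 1) % 2 = 1 by omega,
            show (2 * (2 * g + 1) + 1) % 2 = 1 by omega,
            show (2 * (2 * (4 * g + 3)) + 1) / 2 = 2 * (4 * g + 3) by omega,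
            show (2 * (2 * g + 1) + 1) / 2 = 2 * g + 1 by omega, Nat.choose_self, one_mul, luc_eo]
        rw [show 4 * (4 * g + 3) + 1 = 2 * (2 * (4 * g + 3)) + 1 by ring]
        calc (2 * (2 * (4 * g + 3)) + 1).choose (4 * g + 3) % 2
            = (2 * (2 * (4 * g + 3)) + 1).choose (2 * (2 * g + 1) + 1) % 2 := by
              congr 2
              omega
          _ = 0 := l2
      rw [l1]
      constructor
      · intro h1
        omega
      · rintro ⟨r, hr⟩
        exfalso
        rcases hpow r with h1 | h1 <;> omega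

theorem ballot_two (h : ℕ) (hh : 1 ≤ h) :
    Odd (ballot (2 * h - 1) 2) ↔ ∃ r, 3 * h + 1 = 4 ^ r := by
  rw [← odd_four]
  obtain ⟨g, rfl⟩ : ∃ g, h = g + 1 := ⟨h - 1, by omega⟩
  have hb : ballot (2 * (g + 1) - 1) 2 =
      (((8 * g + 8).choose (2 * g + 1) : ℤ) - ((8 * g + 8).choose (2 * g) : ℤ)) +
        (((8 * g + 8).choose (4 * g + 4) : ℤ) - ((8 * g + 8).choose (4 * g + 3) : ℤ)) +
        (((8 * g + 8).choose (6 * g + 7) : ℤ) - ((8 * g + 8).choose (6 * g + 6) : ℤ)) := by
    unfold ballot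
    rw [sum_range_succ, sum_range_succ, sum_range_succ, sum_range_zero]
    have e1 : 2 * (2 * (g + 1) - 1) + 2 * (2 + (2 * (g + 1) - 1)) = 8 * g + 8 := by omega
    have e2 : 2 * (g + 1) - 1 + 0 * (2 + (2 * (g + 1) - 1)) = 2 * g + 1 := by omega
    have e3 : 2 * (g + 1) - 1 + 1 * (2 + (2 * (g + 1) - 1)) = 4 * g + 4 := by omega
    have e3' : 2 * (g + 1) - 1 + 2 * (2 + (2 * (g + 1) - 1)) = 6 * g + 7 := by omega
    have e4 : 2 * g + 1 - 1 = 2 * g := by omega
    have e5 : 4 * g + 4 - 1 = 4 * g + 3 := by omega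
    have e6 : 6 * g + 7 - 1 = 6 * g + 6 := by omega
    rw [e1, e2, e3, e3', e4, e5, e6]
    ring
  have t1 : (8 * g + 8).choose (2 * g + 1) % 2 = 0 := by
    rw [show 8 * g + 8 = 2 * (4 * g + 4) by ring, luc_eo]
  have t2 : (8 * g + 8).choose (2 * g) % 2 = (4 * g + 4).choose g % 2 := by
    rw [show 8 * g + 8 = 2 * (4 * g + 4) by ring, luc_ee]
  have t3 : (8 * g + 8).choose (4 * g + 4) % 2 = 0 := by
    have h1 : (2 * (2 * (2 * (g + 1)))).choose (2 * (2 * (g + 1))) % 2 = 0 := by
      rw [luc_ee, luc_ee]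
      have h2 := Nat.two_dvd_centralBinom_succ g
      rw [Nat.centralBinom] at h2
      omega
    rw [show 8 * g + 8 = 2 * (2 * (2 * (g + 1))) by ring, show 4 * g + 4 = 2 * (2 * (g + 1)) by ring]
    exact h1
  have t4 : (8 * g + 8).choose (4 * g + 3) % 2 = 0 := by
    rw [show 8 * g + 8 = 2 * (4 * g + 4) by ring, show 4 * g + 3 = 2 * (2 * g + 1) + 1 by ring,
      luc_eo]
  have t5 : (8 * g + 8).choose (6 * g + 7) % 2 = 0 := by
    rw [show 8 * g + 8 = 2 * (4 * g + 4) by ring, show 6 * g + 7 = 2 * (3 * g + 3) + 1 by ring,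
      luc_eo]
  have t6 : (8 * g + 8).choose (6 * g + 6) % 2 = (4 * g + 4).choose (g + 1) % 2 := by
    have h1 : (8 * g + 8).choose (6 * g + 6) = (8 * g + 8).choose (2 * (g + 1)) := by
      refine Nat.choose_symm_of_eq_add ?_
      omega
    rw [h1, show 8 * g + 8 = 2 * (4 * g + 4) by ring, luc_ee]
  have t7 : (4 * (g + 1) + 1).choose (g + 1) =
      (4 * g + 4).choose g + (4 * g + 4).choose (g + 1) := by
    rw [show 4 * (g + 1) + 1 = 4 * g + 4 + 1 by ring, Nat.choose_succ_succ]
  rw [hb, t7, Int.odd_iff]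
  generalize (8 * g + 8).choose (2 * g + 1) = a at *
  generalize (8 * g + 8).choose (2 * g) = b at *
  generalize (8 * g + 8).choose (4 * g + 4) = c at *
  generalize (8 * g + 8).choose (4 * g + 3) = d at *
  generalize (8 * g + 8).choose (6 * g + 7) = e at *
  generalize (8 * g + 8).choose (6 * g + 6) = f at *
  generalize (4 * g + 4).choose g = u at *
  generalize (4 * g + 4).choose (g + 1) = v at *
  omega

end Pool.Agent.H73.DG
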