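import Pool.Agent.H73.DG.Rpu3
import Pool.Agent.H73.DG.Cls3

/-!
# The parity for `m + p = (2 ^ (e g) - 1) / N` does not depend on `g ≥ 2`
-/

set_option autoImplicit false

namespace Pool.Agent.H73.DG

open Finset

lemma sum_odd_sq (m : ℕ) : ∑ i : Fin m, (2 * (i : ℕ) + 1) = m ^ 2 := by
  rw [Fin.sum_univ_eq_sum_range (fun i => 2 * i + 1) m]
  induction m with
  | zero => simp
  | succ m ih =>
    rw [Finset.sum_range_succ, ih]
    ring

/-- The splittings as tuples of multipliers. -/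
lemma split_gen (s m L T : ℕ) (hs : 2 * m ≤ s) (hs1 : 1 ≤ s) (hL : L + m ^ 2 = T * s) :
    splitCard s m L = ((Finset.piAntidiag (Finset.univ : Finset (Fin m)) T).filter
      (fun t : Fin m → ℕ => (∀ i, 1 ≤ t i) ∧ ∀ i j : Fin m, i ≠ j →
        (t i * s - (2 * (i : ℕ) + 1)) &&& (t j * s - (2 * (j : ℕ) + 1)) = 0)).card := by
  have hspos : 0 < s := hs1
  have hb1 : ∀ b : Fin m → ℕ, (∀ i : Fin m, s ∣ b i + (2 * (i : ℕ) + 1)) → ∀ i : Fin m,
      1 ≤ (b i + (2 * (i : ℕ) + 1)) / s ∧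
      (b i + (2 * (i : ℕ) + 1)) / s * s = b i + (2 * (i : ℕ) + 1) := by
    intro b hb i
    have h1 := Nat.div_mul_cancel (hb i)
    refine ⟨?_, h1⟩
    rcases Nat.eq_zero_or_pos ((b i + (2 * (i : ℕ) + 1)) / s) with h | h
    · rw [h, zero_mul] at h1
      omega
    · exact h
  have ht1 : ∀ t : Fin m → ℕ, (∀ i, 1 ≤ t i) → ∀ i : Fin m,
      t i * s - (2 * (i : ℕ) + 1) + (2 * (i : ℕ) + 1) = t i * s := by
    intro t ht i
    have h1 : s ≤ t i * s := Nat.le_mul_of_pos_left s (ht i)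
    have h2 := i.2
    omega
  unfold splitCard
  refine Finset.card_bij' (fun b _ i => (b i + (2 * (i : ℕ) + 1)) / s)
    (fun t _ i => t i * s - (2 * (i : ℕ) + 1)) ?_ ?_ ?_ ?_
  · intro b hb
    rw [Finset.mem_filter, Finset.mem_piAntidiag] at hb
    obtain ⟨⟨hsum, _⟩, hdiv, hdis⟩ := hb
    have h1 := hb1 b hdiv
    rw [Finset.mem_filter, Finset.mem_piAntidiag]
    refine ⟨⟨?_, fun i _ => Finset.mem_univ i⟩, fun i => (h1 i).1, ?_⟩
    · have h2 : (∑ i : Fin m, (b i + (2 * (i : ℕ) + 1)) / s) * s = T * s := by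
        rw [Finset.sum_mul, Finset.sum_congr rfl fun i _ => (h1 i).2, Finset.sum_add_distrib,
          sum_odd_sq, hsum, hL]
      exact Nat.eq_of_mul_eq_mul_right hspos h2
    · intro i j hij
      show ((b i + (2 * (i : ℕ) + 1)) / s * s - (2 * (i : ℕ) + 1)) &&&
        ((b j + (2 * (j : ℕ) + 1)) / s * s - (2 * (j : ℕ) + 1)) = 0
      rw [(h1 i).2, (h1 j).2, Nat.add_sub_cancel, Nat.add_sub_cancel]
      exact hdis i j hij
  · intro t ht
    rw [Finset.mem_filter, Finset.mem_piAntidiag] at ht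
    obtain ⟨⟨hsum, _⟩, hge, hdis⟩ := ht
    have h1 := ht1 t hge
    rw [Finset.mem_filter, Finset.mem_piAntidiag]
    refine ⟨⟨?_, fun i _ => Finset.mem_univ i⟩, ?_, hdis⟩
    · have h2 : ∑ i : Fin m, (t i * s - (2 * (i : ℕ) + 1)) + m ^ 2 = L + m ^ 2 := by
        rw [← sum_odd_sq m, ← Finset.sum_add_distrib, Finset.sum_congr rfl fun i _ => h1 i,
          ← Finset.sum_mul, hsum, sum_odd_sq m, hL]
      exact Nat.add_right_cancel h2
    · intro i
      show s ∣ t i * s - (2 * (i : ℕ) + 1) + (2 * (i : ℕ) + 1)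
      rw [h1 i]
      exact dvd_mul_left _ _
  · intro b hb
    rw [Finset.mem_filter] at hb
    have h1 := hb1 b hb.2.1
    funext i
    show (b i + (2 * (i : ℕ) + 1)) / s * s - (2 * (i : ℕ) + 1) = b i
    rw [(h1 i).2, Nat.add_sub_cancel]
  · intro t ht
    rw [Finset.mem_filter] at ht
    have h1 := ht1 t ht.2.1
    funext i
    show (t i * s - (2 * (i : ℕ) + 1) + (2 * (i : ℕ) + 1)) / s = t i
    rw [h1 i, Nat.mul_div_cancel _ hspos]

lemma stab_pair (e k n x y c d : ℕ) (hx : 1 ≤ x) (hy : 1 ≤ y) (hc : c ≤ k) (hd : d ≤ k)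
    (hxk : x * k < 2 ^ e) (hyk : y * k < 2 ^ e) :
    (x * (k * rpu (2 ^ e) (n + 2)) - c) &&& (y * (k * rpu (2 ^ e) (n + 2)) - d) = 0 ↔
      (x * k - c) &&& (y * k - d) = 0 ∧ (x * k) &&& (y * k) = 0 := by
  have es : ∀ z w, w ≤ k → 1 ≤ z → z * (k * rpu (2 ^ e) (n + 2)) - w
      = (z * k - w) + 2 ^ e * (z * k * rpu (2 ^ e) (n + 1)) := by
    intro z w hw hz
    have h1 : z * (k * rpu (2 ^ e) (n + 2)) = z * k + 2 ^ e * (z * k * rpu (2 ^ e) (n + 1)) := by
      show z * (k * (1 + 2 ^ e * rpu (2 ^ e) (n + 1))) = _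
      ring
    have h2 : k ≤ z * k := Nat.le_mul_of_pos_left k hz
    omega
  rw [es x c hc hx, es y d hd hy, blk e _ _ _ _ (by omega) (by omega), rpu_land e n _ _ hxk hyk]

/-- The number of the `t` with sum `T`, all `t i ≥ 1`, such that the `t i k - (2 i + 1)` have
pairwise no common binary digit one, and the `t i k` have none either. -/
def mulCard (k m T : ℕ) : ℕ :=
  ((Finset.piAntidiag (Finset.univ : Finset (Fin m)) T).filter
    (fun t : Fin m → ℕ => (∀ i, 1 ≤ t i) ∧ ∀ i j : Fin m, i ≠ j →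
      ((t i * k - (2 * (i : ℕ) + 1)) &&& (t j * k - (2 * (j : ℕ) + 1)) = 0 ∧
        (t i * k) &&& (t j * k) = 0))).card

/-- The parity through multiples of `k`, if `N k = 2 ^ e - 1`, `2 m - 1 ≤ k` and
`N (m + x) = 2 ^ (e (n + 2)) - 1`. -/
theorem par_gen (N k e n m x q : ℕ) (hNk : N * k + 1 = 2 ^ e) (hN1 : 1 ≤ N) (hm : 1 ≤ m)
    (hk : 2 * m ≤ k + 1) (hx : N * (m + x) + 1 = 2 ^ (e * (n + 2))) :
    IsOddInt (degNum m x q) ↔ Odd (mulCard k m ((q + m - 1) % N + 1)) := by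
  have he1 : 1 ≤ 2 ^ e := Nat.one_le_two_pow
  unfold mulCard
  have hrep : m + x = k * rpu (2 ^ e) (n + 2) := by
    have h1 := rpu_mul (2 ^ e) (n + 2) he1
    rw [← pow_mul, ← hx, ← hNk, Nat.add_sub_cancel, hNk, mul_assoc] at h1
    exact (Nat.eq_of_mul_eq_mul_left (by omega) (Nat.add_right_cancel h1)).symm
  have hk1 : 1 ≤ k := by omega
  have hNk1 : k ≤ N * k := Nat.le_mul_of_pos_left k hN1
  have hbig : k * (1 + 2 ^ e) ≤ m + x := by
    rw [hrep]
    apply Nat.mul_le_mul_left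
    show 1 + 2 ^ e ≤ 1 + 2 ^ e * (1 + 2 ^ e * rpu (2 ^ e) n)
    have : 2 ^ e * 1 ≤ 2 ^ e * (1 + 2 ^ e * rpu (2 ^ e) n) := Nat.mul_le_mul_left _ (by omega)
    omega
  have hsq : m ^ 2 + 1 ≤ m + x ∧ 2 * m ≤ m + x := by
    have h1 : 2 * m ≤ 2 ^ e := by omega
    have h2 : (2 * m - 1) * (1 + 2 * m) ≤ k * (1 + 2 ^ e) := Nat.mul_le_mul (by omega) (by omega)
    obtain ⟨c, rfl⟩ : ∃ c, m = c + 1 := ⟨m - 1, by omega⟩
    have h3 : 2 * (c + 1) - 1 = 2 * c + 1 := by omega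
    rw [h3] at h2
    constructor
    · nlinarith [h2, hbig]
    · nlinarith [h2, hbig]
  have hTl : (q + m - 1) % N < N := Nat.mod_lt _ (by omega)
  have hle : 1 * (m + x) ≤ ((q + m - 1) % N + 1) * (m + x) := Nat.mul_le_mul_right _ (by omega)
  have key := split_iff m x q (e * (n + 2)) N (((q + m - 1) % N + 1) * (m + x) - m ^ 2) hm
    (by omega) hN1 hx (by omega) (by
      have h4 := Nat.mod_add_div (q + m - 1) N
      have h5 : m * x + q * (m + x) = (((q + m - 1) % N + 1) * (m + x) - m ^ 2)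
          + N * (m + x) * ((q + m - 1) / N) := by
        have h6 : (((q + m - 1) % N + 1) + N * ((q + m - 1) / N)) * (m + x)
            = (q + m) * (m + x) := by
          congr 1
          omega
        have h7 : (((q + m - 1) % N + 1) + N * ((q + m - 1) / N)) * (m + x)
            = ((q + m - 1) % N + 1) * (m + x) + N * (m + x) * ((q + m - 1) / N) := by ring
        have h8 : (q + m) * (m + x) = m * x + q * (m + x) + m ^ 2 := by ring
        omega
      rw [h5]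
      show _ % _ = _ % _
      rw [Nat.add_mul_mod_self_left])
  rw [key, split_gen (m + x) m _ ((q + m - 1) % N + 1) hsq.2 (by omega) (by omega)]
  have hfil : ((Finset.piAntidiag (Finset.univ : Finset (Fin m)) ((q + m - 1) % N + 1)).filter
      (fun t : Fin m → ℕ => (∀ i, 1 ≤ t i) ∧ ∀ i j : Fin m, i ≠ j →
        (t i * (m + x) - (2 * (i : ℕ) + 1)) &&& (t j * (m + x) - (2 * (j : ℕ) + 1)) = 0))
      = ((Finset.piAntidiag (Finset.univ : Finset (Fin m)) ((q + m - 1) % N + 1)).filter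
      (fun t : Fin m → ℕ => (∀ i, 1 ≤ t i) ∧ ∀ i j : Fin m, i ≠ j →
        ((t i * k - (2 * (i : ℕ) + 1)) &&& (t j * k - (2 * (j : ℕ) + 1)) = 0 ∧
          (t i * k) &&& (t j * k) = 0))) := by
    apply Finset.filter_congr
    intro t ht
    rw [Finset.mem_piAntidiag] at ht
    have hT : ∑ j, t j = (q + m - 1) % N + 1 := ht.1
    have htl : ∀ i, t i * k < 2 ^ e := by
      intro i
      have h1 : t i ≤ ∑ j, t j := Finset.single_le_sum (fun j _ => Nat.zero_le (t j))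
        (Finset.mem_univ i)
      have h2 : t i * k ≤ N * k := Nat.mul_le_mul_right k (by omega)
      omega
    constructor
    · rintro ⟨h1, h2⟩
      refine ⟨h1, fun i j hij => ?_⟩
      have h3 := h2 i j hij
      have hi := i.2
      have hj := j.2
      rw [hrep, stab_pair e k n _ _ _ _ (h1 i) (h1 j) (by omega) (by omega) (htl i) (htl j)] at h3
      exact h3
    · rintro ⟨h1, h2⟩
      refine ⟨h1, fun i j hij => ?_⟩
      have h3 := h2 i j hij
      have hi := i.2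
      have hj := j.2
      rw [hrep, stab_pair e k n _ _ _ _ (h1 i) (h1 j) (by omega) (by omega) (htl i) (htl j)]
      exact h3
  rw [hfil]

/-- If `N k = 2 ^ e - 1` and `2 m - 1 ≤ k`, the parity of `d(m,p,q)` for
`m + p = (2 ^ (e g) - 1) / N` is the same for all `g ≥ 2`. -/
theorem stab (N k e g m p p' q : ℕ) (hNk : N * k + 1 = 2 ^ e) (hN1 : 1 ≤ N) (hm : 1 ≤ m)
    (hk : 2 * m ≤ k + 1) (hg : 2 ≤ g) (hp : N * (m + p) + 1 = 2 ^ (e * g))
    (hp' : N * (m + p') + 1 = 2 ^ (e * 2)) :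
    IsOddInt (degNum m p q) ↔ IsOddInt (degNum m p' q) := by
  obtain ⟨n, rfl⟩ : ∃ n, g = n + 2 := ⟨g - 2, by omega⟩
  rw [par_gen N k e n m p q hNk hN1 hm hk hp, par_gen N k e 0 m p' q hNk hN1 hm hk hp']

/-- For `m + p = (64 ^ g - 1) / 9` with `g ≥ 2`, `d(m,p,q)` is odd exactly for `m = 1`. -/
theorem cls_nine (g m p q : ℕ) (hg : 2 ≤ g) (hm : 1 ≤ m) (hmp : m ≤ p)
    (hs : 9 * (m + p) + 1 = 64 ^ g) : IsOddInt (degNum m p q) ↔ m = 1 := by
  rcases Nat.lt_or_ge m 2 with h2 | h2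
  · have h1 : m = 1 := by omega
    subst h1
    exact iff_of_true (one_odd p q (by omega)) rfl
  refine iff_of_false ?_ (by omega)
  intro h
  have h64 : 64 ^ g = 2 ^ (6 * g) := by
    rw [pow_mul]
    norm_num
  have hbig : 64 ^ 2 ≤ 64 ^ g := Nat.pow_le_pow_right (by norm_num) hg
  have hodd : Odd (m + p) := by
    obtain ⟨g', rfl⟩ : ∃ g', g = g' + 1 := ⟨g - 1, by omega⟩
    rw [pow_succ] at hs
    rw [Nat.odd_iff]
    omega
  norm_num at hbig
  have e3 : 2 + (m + p - 2) = m + p := by omega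
  obtain ⟨q', hq'⟩ := mono 2 (m + p - 2) m p (by norm_num) h2 hmp (by omega)
    (by rw [e3]; exact hodd) ⟨q, h⟩
  rw [stab 9 7 6 g 2 (m + p - 2) 453 q' (by norm_num) (by norm_num) (by norm_num) (by norm_num) hg
    (by rw [e3, hs, h64]) (by norm_num), cls_455 2 453 q' (by norm_num) (by norm_num)
    (by norm_num)] at hq'
  exact absurd hq' (by decide)

end Pool.Agent.H73.DG
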