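import Pool.Agent.H73.DG.Cof

/-!
# For composite exponents all `d(m,p,q)` with `m ≥ 3` are even
-/

set_option autoImplicit false

namespace Pool.Agent.H73.DG

open Finset

lemma mulCard_three (k T : ℕ) (hk : Odd k) (hk5 : 5 ≤ k) : mulCard k 3 T = 0 := by
  unfold mulCard
  rw [Finset.card_eq_zero, Finset.filter_eq_empty_iff]
  rintro t _ ⟨h1, h2⟩
  have key : ∀ x y : ℕ, x &&& y = 0 → ¬ (Odd x ∧ Odd y) := by
    rintro x y h ⟨h3, h4⟩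
    exact ((land_zero_iff x y).mp h).2 ⟨Nat.odd_iff.mp h3, Nat.odd_iff.mp h4⟩
  have hev : ∀ i : Fin 3, Even (t i) → Odd (t i * k - (2 * (i : ℕ) + 1)) := by
    intro i h
    have h3 : k ≤ t i * k := Nat.le_mul_of_pos_left k (h1 i)
    have h4 := i.2
    obtain ⟨z, hz⟩ := h.mul_right k
    refine ⟨z - ((i : ℕ) + 1), ?_⟩
    omega
  have main : ∀ i j : Fin 3, i ≠ j → ¬ (Even (t i) ∧ Even (t j)) ∧ ¬ (Odd (t i) ∧ Odd (t j)) := by
    intro i j hij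
    obtain ⟨h3, h4⟩ := h2 i j hij
    refine ⟨?_, ?_⟩
    · rintro ⟨h5, h6⟩
      exact key _ _ h3 ⟨hev i h5, hev j h6⟩
    · rintro ⟨h5, h6⟩
      exact key _ _ h4 ⟨h5.mul hk, h6.mul hk⟩
  have m01 := main 0 1 (by decide)
  have m02 := main 0 2 (by decide)
  have m12 := main 1 2 (by decide)
  rcases Nat.even_or_odd (t 0) with e0 | e0 <;> rcases Nat.even_or_odd (t 1) with e1 | e1 <;>
    rcases Nat.even_or_odd (t 2) with e2 | e2
  · exact m01.1 ⟨e0, e1⟩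
  · exact m01.1 ⟨e0, e1⟩
  · exact m02.1 ⟨e0, e2⟩
  · exact m12.2 ⟨e1, e2⟩
  · exact m12.1 ⟨e1, e2⟩
  · exact m02.2 ⟨e0, e2⟩
  · exact m01.2 ⟨e0, e1⟩
  · exact m01.2 ⟨e0, e1⟩

/-- If `N k = 2 ^ e - 1`, `k ≥ 5`, `g ≥ 2` and `N (m + p) = 2 ^ (e g) - 1`, then `d(m,p,q)` is even for
all `m ≥ 3`. -/
theorem even_three (N k e g m p q : ℕ) (hNk : N * k + 1 = 2 ^ e) (hN1 : 1 ≤ N) (hk : 5 ≤ k)
    (hg : 2 ≤ g) (hm : 3 ≤ m) (hmp : m ≤ p) (hs : N * (m + p) + 1 = 2 ^ (e * g)) :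
    ¬ IsOddInt (degNum m p q) := by
  obtain ⟨n, rfl⟩ : ∃ n, g = n + 2 := ⟨g - 2, by omega⟩
  have he : e ≠ 0 := by
    rintro rfl
    have : 1 * 5 ≤ N * k := Nat.mul_le_mul hN1 hk
    rw [pow_zero] at hNk
    omega
  have hodd1 : ∀ f x, f ≠ 0 → x + 1 = 2 ^ f → Odd x := by
    intro f x hf hx
    obtain ⟨f', rfl⟩ : ∃ f', f = f' + 1 := ⟨f - 1, by omega⟩
    rw [pow_succ] at hx
    refine ⟨2 ^ f' - 1, ?_⟩
    have := Nat.one_le_two_pow (n := f')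
    omega
  have hodd : Odd (m + p) := (Nat.odd_mul.mp (hodd1 _ _ (by
    have : 0 < e * (n + 2) := Nat.mul_pos (by omega) (by omega)
    omega) hs)).2
  have hkodd : Odd k := (Nat.odd_mul.mp (hodd1 _ _ he hNk)).2
  intro h
  have e3 : 3 + (m + p - 3) = m + p := by omega
  obtain ⟨q', hq'⟩ := mono 3 (m + p - 3) m p (by norm_num) hm hmp (by omega)
    (by rw [e3]; exact hodd) ⟨q, h⟩
  rw [par_gen N k e n 3 (m + p - 3) q' hNk hN1 (by norm_num) (by omega)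
    (by rw [e3]; exact hs), mulCard_three k _ hkodd hk] at hq'
  exact absurd hq' (by decide)

end Pool.Agent.H73.DG
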