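import Pool.Agent.H73.DG.Exist

/-!
# Odd `d(3,p,q)` when minus one is a power of two modulo `p + 3`
-/

set_option autoImplicit false

namespace Pool.Agent.H73.DG

open Finset

open Classical in
/-- If every `d(m,p,q)` is even, the weights of the tuples with a given nonzero sum have sum
zero. -/
lemma level_zero (m p : ℕ) (hm : 1 ≤ m) (hp : 1 ≤ p) (hs : Odd (m + p)) {ζ : Kbar}
    (hζ : IsPrimitiveRoot ζ (m + p)) (hcon : ∀ q, ¬ IsOddInt (degNum m p q)) (v : Kbar)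
    (hv : v ≠ 0) :
    ∑ x ∈ (Fintype.piFinset (fun _ : Fin m => range (m + p))).filter
      (fun x => ∑ i : Fin m, ζ ^ x i = v), wt ζ m p x = 0 := by
  have h0 : ∀ q, gsum ζ m p (m * p + q * (m + p)) = 0 := by
    intro q
    have h1 := hcon q
    rw [odd_degNum_iff, Int.not_odd_iff_even] at h1
    rw [← intDeg_cast m p q hm hp hζ hs]
    obtain ⟨k, hk⟩ := h1
    rw [hk]
    push_cast
    rw [CharTwo.add_self_eq_zero]
  have hall : ∀ t : ℕ, gsum ζ m p (m * p + t) = 0 := by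
    intro t
    by_cases hd : (m + p) ∣ (m * p + t) + (m * p) * (m + p - 1)
    · have e : (m * p + t) + (m * p) * (m + p - 1) = t + (m * p) * (m + p) := by
        obtain ⟨s', hs'⟩ : ∃ s', m + p = s' + 1 := ⟨m + p - 1, by omega⟩
        rw [hs']
        have e1 : s' + 1 - 1 = s' := by omega
        rw [e1]
        ring
      rw [e] at hd
      have hd2 : (m + p) ∣ t := (Nat.dvd_add_left (dvd_mul_left _ _)).mp hd
      obtain ⟨q, rfl⟩ := hd2
      rw [mul_comm (m + p) q]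
      exact h0 q
    · exact gsum_zero m p _ hm hp hζ hs hd
  have hlev := level_sum (Fintype.piFinset (fun _ : Fin m => range (m + p)))
    (fun x => wt ζ m p x * (∑ i : Fin m, ζ ^ x i) ^ (m * p)) (fun x => ∑ i : Fin m, ζ ^ x i)
    (by
      intro t
      rw [← hall t, gsum_wt]
      apply Finset.sum_congr rfl
      intro x _
      rw [pow_add]
      ring) v
  have h5 : ∑ x ∈ (Fintype.piFinset (fun _ : Fin m => range (m + p))).filter
      (fun x => ∑ i : Fin m, ζ ^ x i = v),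
        wt ζ m p x * (∑ i : Fin m, ζ ^ x i) ^ (m * p)
        = (∑ x ∈ (Fintype.piFinset (fun _ : Fin m => range (m + p))).filter
      (fun x => ∑ i : Fin m, ζ ^ x i = v), wt ζ m p x) * v ^ (m * p) := by
    rw [Finset.sum_mul]
    apply Finset.sum_congr rfl
    intro x hx
    rw [(Finset.mem_filter.mp hx).2]
  rw [h5] at hlev
  rcases mul_eq_zero.mp hlev with h | h
  · exact h
  · exact absurd h (pow_ne_zero _ hv)

section

variable {K : Type*} [Field K] [CharP K 2]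

lemma pair_sum {R : Finset ℕ} (H : ℕ → ℕ → K) (h0 : ∀ j, H j j = 0) :
    ∑ j ∈ R, ∑ k ∈ R, H j k = ∑ j ∈ R, ∑ k ∈ R, if j < k then H j k + H k j else 0 := by
  have h1 : ∀ j k, H j k = (if j < k then H j k else 0) + (if k < j then H j k else 0) := by
    intro j k
    rcases lt_trichotomy j k with h | h | h
    · rw [if_pos h, if_neg (by omega), add_zero]
    · subst h
      simp [h0]
    · rw [if_neg (by omega), if_pos h, zero_add]
  calc ∑ j ∈ R, ∑ k ∈ R, H j k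
      = ∑ j ∈ R, ∑ k ∈ R, ((if j < k then H j k else 0) + (if k < j then H j k else 0)) :=
        sum_congr rfl fun j _ => sum_congr rfl fun k _ => h1 j k
    _ = ∑ j ∈ R, ∑ k ∈ R, (if j < k then H j k else 0)
          + ∑ j ∈ R, ∑ k ∈ R, (if k < j then H j k else 0) := by
        simp only [sum_add_distrib]
    _ = ∑ j ∈ R, ∑ k ∈ R, (if j < k then H j k else 0)
          + ∑ j ∈ R, ∑ k ∈ R, (if j < k then H k j else 0) := by
        congr 1
        rw [sum_comm]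
    _ = _ := by
        simp only [← sum_add_distrib]
        refine sum_congr rfl fun j _ => sum_congr rfl fun k _ => ?_
        split_ifs <;> simp

lemma triple_fin {R : Finset ℕ} (F : (Fin 3 → ℕ) → K) :
    ∑ x ∈ Fintype.piFinset (fun _ : Fin 3 => R), F x
      = ∑ i ∈ R, ∑ j ∈ R, ∑ k ∈ R, F ![i, j, k] := by
  classical
  have h : ∑ i ∈ R, ∑ j ∈ R, ∑ k ∈ R, F ![i, j, k]
      = ∑ t ∈ R ×ˢ (R ×ˢ R), F ![t.1, t.2.1, t.2.2] := by
    rw [Finset.sum_product]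
    refine sum_congr rfl fun i _ => ?_
    rw [Finset.sum_product]
  rw [h]
  refine Finset.sum_nbij' (fun x => (x 0, x 1, x 2)) (fun t => ![t.1, t.2.1, t.2.2])
    ?_ ?_ ?_ ?_ ?_
  · intro x hx
    rw [Fintype.mem_piFinset] at hx
    simp only [mem_product]
    exact ⟨hx 0, hx 1, hx 2⟩
  · intro t ht
    simp only [mem_product] at ht
    rw [Fintype.mem_piFinset]
    intro i
    fin_cases i
    · exact ht.1
    · exact ht.2.1
    · exact ht.2.2
  · intro x _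
    funext i
    fin_cases i <;> rfl
  · intro t _
    rfl
  · intro x _
    congr 1
    funext i
    fin_cases i <;> rfl

lemma wt3 {ζ : K} {p : ℕ} (hp : 1 ≤ p) (hζ : ζ ^ (3 + p) = 1) (i j k : ℕ) :
    wt ζ 3 p ![i, j, k] = (ζ ^ i) ^ 3 * (ζ ^ j) ^ 2 * ζ ^ k *
      ((ζ ^ i + ζ ^ j) * (ζ ^ j + ζ ^ k) * (ζ ^ k + ζ ^ i)) := by
  have hX : ∀ x : ℕ, (ζ ^ x) ^ (3 + p) = 1 := by
    intro x
    rw [← pow_mul, mul_comm, pow_mul, hζ, one_pow]
  have e0 : ∀ x : ℕ, (ζ ^ x) ^ ((p + 0) * (3 + p - 1)) = (ζ ^ x) ^ 3 := by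
    intro x
    obtain ⟨p', rfl⟩ : ∃ p', p = p' + 1 := ⟨p - 1, by omega⟩
    have e : (p' + 1 + 0) * (3 + (p' + 1) - 1) = (3 + (p' + 1)) * p' + 3 := by
      have : 3 + (p' + 1) - 1 = p' + 3 := by omega
      rw [this]
      ring
    rw [e, pow_add, pow_mul, hX, one_pow, one_mul]
  have e1 : ∀ x : ℕ, (ζ ^ x) ^ ((p + 1) * (3 + p - 1)) = (ζ ^ x) ^ 2 := by
    intro x
    have e : (p + 1) * (3 + p - 1) = (3 + p) * p + 2 := by
      have : 3 + p - 1 = p + 2 := by omega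
      rw [this]
      ring
    rw [e, pow_add, pow_mul, hX, one_pow, one_mul]
  have e2 : ∀ x : ℕ, (ζ ^ x) ^ ((p + 2) * (3 + p - 1)) = ζ ^ x := by
    intro x
    have e : (p + 2) * (3 + p - 1) = (3 + p) * (p + 1) + 1 := by
      have : 3 + p - 1 = p + 2 := by omega
      rw [this]
      ring
    rw [e, pow_add, pow_mul, hX, one_pow, one_mul, pow_one]
  have h2 : (2 : K) = 0 := CharTwo.two_eq_zero
  rw [wt_eq, Fin.prod_univ_three]
  have c0 : ((0 : Fin 3) : ℕ) = 0 := rfl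
  have c1 : ((1 : Fin 3) : ℕ) = 1 := rfl
  have c2 : ((2 : Fin 3) : ℕ) = 2 := rfl
  have x0 : (![i, j, k] : Fin 3 → ℕ) 0 = i := rfl
  have x1 : (![i, j, k] : Fin 3 → ℕ) 1 = j := rfl
  have x2 : (![i, j, k] : Fin 3 → ℕ) 2 = k := rfl
  rw [c0, c1, c2, x0, x1, x2, e0, e1, e2]
  congr 1
  rw [Matrix.det_fin_three]
  simp only [Matrix.vandermonde_apply, c0, c1, c2, x0, x1, x2, pow_zero, pow_one]
  linear_combination (-(ζ ^ k) * (ζ ^ j) ^ 2 - (ζ ^ i) * (ζ ^ k) ^ 2 - (ζ ^ i) ^ 2 * (ζ ^ j)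
    - ζ ^ i * ζ ^ j * ζ ^ k) * h2

end

section

variable {K : Type*} [Field K] [CharP K 2]

lemma six_gen {R : Finset ℕ} (G : ℕ → ℕ → ℕ → K)
    (g0 : ∀ i j k, (i = j ∨ j = k ∨ i = k) → G i j k = 0)
    (h : ∑ i ∈ R, ∑ j ∈ R, ∑ k ∈ R, G i j k = 0) :
    ∑ i ∈ R, ∑ j ∈ R, ∑ k ∈ R, (if j < k then
      G i j k + G i k j + (G j i k + G k i j) + (G j k i + G k j i) else 0) = 0 := by
  have s2 : ∑ i ∈ R, ∑ j ∈ R, ∑ k ∈ R, G j i k = 0 := by
    rw [sum_comm]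
    exact h
  have s3 : ∑ i ∈ R, ∑ j ∈ R, ∑ k ∈ R, G j k i = 0 := by
    have e1 : ∑ i ∈ R, ∑ j ∈ R, ∑ k ∈ R, G j k i = ∑ j ∈ R, ∑ i ∈ R, ∑ k ∈ R, G j k i := sum_comm
    have e2 : ∑ j ∈ R, ∑ i ∈ R, ∑ k ∈ R, G j k i = ∑ j ∈ R, ∑ k ∈ R, ∑ i ∈ R, G j k i :=
      sum_congr rfl fun j _ => sum_comm
    rw [e1, e2]
    exact h
  have t1 : ∑ i ∈ R, ∑ j ∈ R, ∑ k ∈ R, (if j < k then G i j k + G i k j else 0) = 0 := by
    have e : ∀ i ∈ R, ∑ j ∈ R, ∑ k ∈ R, G i j k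
        = ∑ j ∈ R, ∑ k ∈ R, (if j < k then G i j k + G i k j else 0) := fun i _ =>
      pair_sum (fun j k => G i j k) (fun j => g0 i j j (Or.inr (Or.inl rfl)))
    rw [← sum_congr rfl e]
    exact h
  have t2 : ∑ i ∈ R, ∑ j ∈ R, ∑ k ∈ R, (if j < k then G j i k + G k i j else 0) = 0 := by
    have e : ∀ i ∈ R, ∑ j ∈ R, ∑ k ∈ R, G j i k
        = ∑ j ∈ R, ∑ k ∈ R, (if j < k then G j i k + G k i j else 0) := fun i _ =>
      pair_sum (fun j k => G j i k) (fun j => g0 j i j (Or.inr (Or.inr rfl)))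
    rw [← sum_congr rfl e]
    exact s2
  have t3 : ∑ i ∈ R, ∑ j ∈ R, ∑ k ∈ R, (if j < k then G j k i + G k j i else 0) = 0 := by
    have e : ∀ i ∈ R, ∑ j ∈ R, ∑ k ∈ R, G j k i
        = ∑ j ∈ R, ∑ k ∈ R, (if j < k then G j k i + G k j i else 0) := fun i _ =>
      pair_sum (fun j k => G j k i) (fun j => g0 j j i (Or.inl rfl))
    rw [← sum_congr rfl e]
    exact s3
  have t4 : ∑ i ∈ R, ∑ j ∈ R, ∑ k ∈ R, (if j < k then
      G i j k + G i k j + (G j i k + G k i j) + (G j k i + G k j i) else 0)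
      = ∑ i ∈ R, ∑ j ∈ R, ∑ k ∈ R, (if j < k then G i j k + G i k j else 0)
      + ∑ i ∈ R, ∑ j ∈ R, ∑ k ∈ R, (if j < k then G j i k + G k i j else 0)
      + ∑ i ∈ R, ∑ j ∈ R, ∑ k ∈ R, (if j < k then G j k i + G k j i else 0) := by
    simp only [← sum_add_distrib]
    refine sum_congr rfl fun i _ => sum_congr rfl fun j _ => sum_congr rfl fun k _ => ?_
    split_ifs
    · rfl
    · simp
  rw [t4, t1, t2, t3, add_zero, add_zero]

lemma six_alg (X Y Z : K) :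
    X ^ 3 * Y ^ 2 * Z * ((X + Y) * (Y + Z) * (Z + X)) +
      X ^ 3 * Z ^ 2 * Y * ((X + Z) * (Z + Y) * (Y + X)) +
      (Y ^ 3 * X ^ 2 * Z * ((Y + X) * (X + Z) * (Z + Y)) +
      Z ^ 3 * X ^ 2 * Y * ((Z + X) * (X + Y) * (Y + Z))) +
      (Y ^ 3 * Z ^ 2 * X * ((Y + Z) * (Z + X) * (X + Y)) +
      Z ^ 3 * Y ^ 2 * X * ((Z + Y) * (Y + X) * (X + Z))) =
    X * Y * Z * ((X + Y) * (Y + Z) * (Z + X)) ^ 2 := by
  have h2 : (2 : K) = 0 := CharTwo.two_eq_zero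
  linear_combination (-(X * Y * Z) ^ 2 * ((X + Y) * (Y + Z) * (Z + X))) * h2

open Classical in
lemma six_sum {R : Finset ℕ} {ζ : K} (v : K)
    (h : ∑ i ∈ R, ∑ j ∈ R, ∑ k ∈ R, (if ζ ^ i + ζ ^ j + ζ ^ k = v then
      (ζ ^ i) ^ 3 * (ζ ^ j) ^ 2 * ζ ^ k *
        ((ζ ^ i + ζ ^ j) * (ζ ^ j + ζ ^ k) * (ζ ^ k + ζ ^ i)) else 0) = 0) :
    ∑ i ∈ R, ∑ j ∈ R, ∑ k ∈ R, (if j < k then (if ζ ^ i + ζ ^ j + ζ ^ k = v then
      ζ ^ i * ζ ^ j * ζ ^ k *
        ((ζ ^ i + ζ ^ j) * (ζ ^ j + ζ ^ k) * (ζ ^ k + ζ ^ i)) ^ 2 else 0) else 0) = 0 := by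
  have key := six_gen (R := R) (fun i j k => (if ζ ^ i + ζ ^ j + ζ ^ k = v then
      (ζ ^ i) ^ 3 * (ζ ^ j) ^ 2 * ζ ^ k *
        ((ζ ^ i + ζ ^ j) * (ζ ^ j + ζ ^ k) * (ζ ^ k + ζ ^ i)) else 0)) (by
    intro i j k hijk
    split_ifs
    · rcases hijk with rfl | rfl | rfl <;> simp [CharTwo.add_self_eq_zero]
    · rfl) h
  refine Eq.trans ?_ key
  refine sum_congr rfl fun i _ => sum_congr rfl fun j _ => sum_congr rfl fun k _ => ?_
  by_cases hjk : j < k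
  · rw [if_pos hjk, if_pos hjk]
    by_cases he : ζ ^ i + ζ ^ j + ζ ^ k = v
    · have e1 : ζ ^ i + ζ ^ k + ζ ^ j = v := by rw [← he]; ring
      have e2 : ζ ^ j + ζ ^ i + ζ ^ k = v := by rw [← he]; ring
      have e3 : ζ ^ k + ζ ^ i + ζ ^ j = v := by rw [← he]; ring
      have e4 : ζ ^ j + ζ ^ k + ζ ^ i = v := by rw [← he]; ring
      have e5 : ζ ^ k + ζ ^ j + ζ ^ i = v := by rw [← he]; ring
      rw [if_pos he, if_pos he, if_pos e1, if_pos e2, if_pos e3, if_pos e4, if_pos e5]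
      exact (six_alg _ _ _).symm
    · have e1 : ¬ (ζ ^ i + ζ ^ k + ζ ^ j = v) := by intro h'; apply he; rw [← h']; ring
      have e2 : ¬ (ζ ^ j + ζ ^ i + ζ ^ k = v) := by intro h'; apply he; rw [← h']; ring
      have e3 : ¬ (ζ ^ k + ζ ^ i + ζ ^ j = v) := by intro h'; apply he; rw [← h']; ring
      have e4 : ¬ (ζ ^ j + ζ ^ k + ζ ^ i = v) := by intro h'; apply he; rw [← h']; ring
      have e5 : ¬ (ζ ^ k + ζ ^ j + ζ ^ i = v) := by intro h'; apply he; rw [← h']; ring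
      rw [if_neg he, if_neg he, if_neg e1, if_neg e2, if_neg e3, if_neg e4, if_neg e5]
      simp only [add_zero]
  · rw [if_neg hjk, if_neg hjk]

end

end Pool.Agent.H73.DG
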