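import Pool.Agent.H73.DG.Char2

/-!
# Values and periodicity of the sum over roots of unity
-/

set_option autoImplicit false

namespace Pool.Agent.H73.DG

open Finset

variable {K : Type*} [Field K] [CharP K 2]

lemma frob_fix {z : K} {s N f : ℕ} (hz : z ^ s = 1) (hN : N * s + 1 = 2 ^ f) :
    (1 + z) ^ (N * s + 1) = 1 + z := by
  have : Fact (Nat.Prime 2) := ⟨Nat.prime_two⟩
  rw [hN, add_pow_char_pow, one_pow, ← hN, pow_add, mul_comm N s, pow_mul, hz, one_pow, one_mul,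
    pow_one]

lemma frob_fix' {z : K} {s N f : ℕ} (hz : z ^ s = 1) (hN : N * s + 1 = 2 ^ f) (c : ℕ) :
    (1 + z) ^ (c * (N * s) + 1) = 1 + z := by
  induction c with
  | zero => simp
  | succ c ih =>
    have e : (c + 1) * (N * s) + 1 = c * (N * s) + (N * s + 1) := by ring
    rw [e, pow_add, frob_fix hz hN, ← pow_succ, ih]

lemma rsum_period {ζ : K} {s N f M : ℕ} (hζ : ζ ^ s = 1) (hN : N * s + 1 = 2 ^ f) (hM : 1 ≤ M) :
    rsum ζ s (M + N * s) = rsum ζ s M := by
  unfold rsum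
  apply Finset.sum_congr rfl
  intro t _
  congr 1
  have hz : (ζ ^ t) ^ s = 1 := by rw [← pow_mul, mul_comm, pow_mul, hζ, one_pow]
  obtain ⟨M', rfl⟩ : ∃ M', M = M' + 1 := ⟨M - 1, by omega⟩
  have e : M' + 1 + N * s = M' + (N * s + 1) := by ring
  rw [e, pow_add, frob_fix hz hN, pow_succ]

lemma inv_aux (z : K) (h : ℕ) :
    (1 + z) * ∑ i ∈ range h, z ^ (2 * i + 1) = 1 + ∑ j ∈ range (2 * h + 1), z ^ j := by
  induction h with
  | zero =>
    simp [CharTwo.add_self_eq_zero]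
  | succ h ih =>
    have e : 2 * (h + 1) + 1 = 2 * h + 1 + 1 + 1 := by ring
    rw [Finset.sum_range_succ, mul_add, ih, e, Finset.sum_range_succ _ (2 * h + 1 + 1),
      Finset.sum_range_succ _ (2 * h + 1)]
    ring

lemma inv_eq {z : K} {h : ℕ} (hz : z ^ (2 * h + 1) = 1) (hne : z ≠ 1) :
    (1 + z) * ∑ i ∈ range h, z ^ (2 * i + 1) = 1 := by
  rw [inv_aux, geom_sum_eq hne, hz, sub_self, zero_div, add_zero]

lemma four_pow (z : K) (h : ℕ) :
    (∑ i ∈ range h, z ^ (2 * i + 1)) ^ 4 = ∑ i ∈ range h, z ^ (8 * i + 4) := by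
  have : Fact (Nat.Prime 2) := ⟨Nat.prime_two⟩
  have e : (4 : ℕ) = 2 ^ 2 := by norm_num
  rw [e, sum_pow_char_pow]
  apply Finset.sum_congr rfl
  intro i _
  rw [← pow_mul]
  congr 1
  ring

lemma count_six (h : ℕ) :
    (∑ i ∈ range h, if (2 * h + 1) ∣ 8 * i + 6 then (1 : K) else 0)
      = if (2 * h + 1) % 4 = 3 then 1 else 0 := by
  have key : ∀ i ∈ range h, ((2 * h + 1) ∣ 8 * i + 6 ↔ ((2 * h + 1) % 4 = 3 ∧ i = (2 * h + 1) / 4)) := by
    intro i hi
    have hi' := Finset.mem_range.mp hi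
    constructor
    · rintro ⟨c, hc⟩
      have hc4 : c < 4 := by
        by_contra hcon
        have : (2 * h + 1) * 4 ≤ (2 * h + 1) * c := Nat.mul_le_mul_left _ (by omega)
        omega
      interval_cases c <;> omega
    · rintro ⟨h1, h2⟩
      exact ⟨2, by omega⟩
  by_cases h4 : (2 * h + 1) % 4 = 3
  · rw [if_pos h4]
    have hmem : (2 * h + 1) / 4 ∈ range h := Finset.mem_range.mpr (by omega)
    rw [Finset.sum_eq_single_of_mem _ hmem]
    · rw [if_pos ((key _ hmem).mpr ⟨h4, rfl⟩)]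
    · intro b hb hne
      rw [if_neg]
      intro hd
      exact hne ((key b hb).mp hd).2
  · rw [if_neg h4]
    apply Finset.sum_eq_zero
    intro b hb
    rw [if_neg]
    intro hd
    exact h4 ((key b hb).mp hd).1

lemma count_seven (h : ℕ) (hh : 1 ≤ h) :
    (∑ i ∈ range h, if (2 * h + 1) ∣ 8 * i + 7 then (1 : K) else 0)
      = if (2 * h + 1) % 8 = 7 ∨ (2 * h + 1) % 8 = 5 then 1 else 0 := by
  have key : ∀ i ∈ range h, ((2 * h + 1) ∣ 8 * i + 7 ↔
      (((2 * h + 1) % 8 = 7 ∧ i = (2 * h + 1) / 8) ∨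
        ((2 * h + 1) % 8 = 5 ∧ i = (3 * (2 * h + 1)) / 8 - 0 ∧ 8 * i + 7 = 3 * (2 * h + 1)))) := by
    intro i hi
    have hi' := Finset.mem_range.mp hi
    constructor
    · rintro ⟨c, hc⟩
      have hc4 : c < 4 := by
        by_contra hcon
        have : (2 * h + 1) * 4 ≤ (2 * h + 1) * c := Nat.mul_le_mul_left _ (by omega)
        omega
      interval_cases c <;> omega
    · rintro (⟨h1, h2⟩ | ⟨h1, h2, h3⟩)
      · exact ⟨1, by omega⟩
      · exact ⟨3, by omega⟩
  by_cases h7 : (2 * h + 1) % 8 = 7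
  · rw [if_pos (Or.inl h7)]
    have hmem : (2 * h + 1) / 8 ∈ range h := Finset.mem_range.mpr (by omega)
    rw [Finset.sum_eq_single_of_mem _ hmem]
    · rw [if_pos ((key _ hmem).mpr (Or.inl ⟨h7, rfl⟩))]
    · intro b hb hne
      rw [if_neg]
      intro hd
      rcases (key b hb).mp hd with h' | h'
      · exact hne h'.2
      · omega
  · by_cases h5 : (2 * h + 1) % 8 = 5
    · rw [if_pos (Or.inr h5)]
      have hmem : (3 * (2 * h + 1)) / 8 ∈ range h := Finset.mem_range.mpr (by omega)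
      rw [Finset.sum_eq_single_of_mem _ hmem]
      · rw [if_pos ((key _ hmem).mpr (Or.inr ⟨h5, by omega, by omega⟩))]
      · intro b hb hne
        rw [if_neg]
        intro hd
        rcases (key b hb).mp hd with h' | h'
        · omega
        · apply hne
          omega
    · rw [if_neg (by omega)]
      apply Finset.sum_eq_zero
      intro b hb
      rw [if_neg]
      intro hd
      rcases (key b hb).mp hd with h' | h' <;> omega

lemma rsum_minus_two {ζ : K} {h N f c M : ℕ} (hh : 1 ≤ h) (hζ : IsPrimitiveRoot ζ (2 * h + 1))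
    (hN : N * (2 * h + 1) + 1 = 2 ^ f) (hM : 1 ≤ M) (hc : M + 3 = c * (N * (2 * h + 1))) :
    rsum ζ (2 * h + 1) M = if (2 * h + 1) % 8 = 3 ∨ (2 * h + 1) % 8 = 5 then 1 else 0 := by
  have hodd : Odd (2 * h + 1) := ⟨h, rfl⟩
  have term : ∀ t ∈ range (2 * h + 1), (ζ ^ t) ^ 2 * (1 + ζ ^ t) ^ M
      = ∑ i ∈ range h, ((ζ ^ t) ^ (8 * i + 6) + (ζ ^ t) ^ (8 * i + 7)) := by
    intro t _
    have hz : (ζ ^ t) ^ (2 * h + 1) = 1 := by
      rw [← pow_mul, mul_comm, pow_mul, hζ.pow_eq_one, one_pow]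
    by_cases h1 : ζ ^ t = 1
    · rw [h1]
      simp only [one_pow, CharTwo.add_self_eq_zero, Finset.sum_const_zero, one_mul]
      exact zero_pow (by omega)
    · have hinv := inv_eq hz h1
      have h4 := four_pow (ζ ^ t) h
      have e1 : (1 + ζ ^ t) ^ M = (1 + ζ ^ t) * (∑ i ∈ range h, (ζ ^ t) ^ (2 * i + 1)) ^ 4 := by
        have hfix := frob_fix' hz hN c
        have e2 : M + 4 = c * (N * (2 * h + 1)) + 1 := by omega
        calc (1 + ζ ^ t) ^ M = (1 + ζ ^ t) ^ M *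
              ((1 + ζ ^ t) * ∑ i ∈ range h, (ζ ^ t) ^ (2 * i + 1)) ^ 4 := by
                rw [hinv, one_pow, mul_one]
          _ = (1 + ζ ^ t) ^ (M + 4) * (∑ i ∈ range h, (ζ ^ t) ^ (2 * i + 1)) ^ 4 := by
                rw [mul_pow, pow_add]
                ring
          _ = _ := by rw [e2, hfix]
      rw [e1, h4, Finset.mul_sum, Finset.mul_sum]
      apply Finset.sum_congr rfl
      intro i _
      ring
  unfold rsum
  rw [Finset.sum_congr rfl term, Finset.sum_comm]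
  have h2 : ∀ i ∈ range h, ∑ t ∈ range (2 * h + 1), ((ζ ^ t) ^ (8 * i + 6) + (ζ ^ t) ^ (8 * i + 7))
      = (if (2 * h + 1) ∣ 8 * i + 6 then (1 : K) else 0)
        + (if (2 * h + 1) ∣ 8 * i + 7 then (1 : K) else 0) := by
    intro i _
    rw [Finset.sum_add_distrib, root_sum hζ hodd, root_sum hζ hodd]
  rw [Finset.sum_congr rfl h2, Finset.sum_add_distrib, count_six, count_seven h hh]
  have h8 : (2 * h + 1) % 8 = 1 ∨ (2 * h + 1) % 8 = 3 ∨ (2 * h + 1) % 8 = 5 ∨ (2 * h + 1) % 8 = 7 := by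
    omega
  rcases h8 with h8 | h8 | h8 | h8
  · rw [if_neg (by omega), if_neg (by omega), if_neg (by omega), add_zero]
  · rw [if_pos (by omega), if_neg (by omega), if_pos (by omega), add_zero]
  · rw [if_neg (by omega), if_pos (by omega), if_pos (by omega), zero_add]
  · rw [if_pos (by omega), if_pos (by omega), if_neg (by omega), CharTwo.add_self_eq_zero]

lemma rsum_mersenne {ζ : K} {s a M : ℕ} (hs3 : 2 ≤ s) (hζ : IsPrimitiveRoot ζ s) (hodd : Odd s)
    (ha : s ∣ 2 ^ a + 1) (hM : M + 1 = 2 ^ (a + 1)) : rsum ζ s M = 1 := by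
  have : Fact (Nat.Prime 2) := ⟨Nat.prime_two⟩
  have hM1 : 1 ≤ M := by
    have : 2 ≤ 2 ^ (a + 1) := by
      rw [pow_succ]
      have := Nat.one_le_two_pow (n := a)
      omega
    omega
  have term : ∀ t ∈ range s, (ζ ^ t) ^ 2 * (1 + ζ ^ t) ^ M = (ζ ^ t) ^ 0 + (ζ ^ t) ^ 1 := by
    intro t _
    have hz : (ζ ^ t) ^ s = 1 := by
      rw [← pow_mul, mul_comm, pow_mul, hζ.pow_eq_one, one_pow]
    rw [pow_zero, pow_one]
    by_cases h1 : ζ ^ t = 1
    · rw [h1]
      simp only [one_pow, CharTwo.add_self_eq_zero, one_mul]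
      exact zero_pow (by omega)
    · have hne : 1 + ζ ^ t ≠ 0 := by
        intro h0
        apply h1
        have : ζ ^ t = -1 := by
          rw [eq_neg_iff_add_eq_zero, add_comm]
          exact h0
        rw [this, CharTwo.neg_eq]
      apply mul_right_cancel₀ hne
      obtain ⟨b, hb⟩ := ha
      have hz2 : (ζ ^ t) ^ 2 * (ζ ^ t) ^ (2 ^ (a + 1)) = 1 := by
        rw [← pow_add]
        have e : 2 + 2 ^ (a + 1) = s * (b * 2) := by
          rw [pow_succ, ← mul_assoc, ← hb]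
          ring
        rw [e, pow_mul, hz, one_pow]
      calc (ζ ^ t) ^ 2 * (1 + ζ ^ t) ^ M * (1 + ζ ^ t)
          = (ζ ^ t) ^ 2 * (1 + ζ ^ t) ^ (M + 1) := by rw [pow_succ (1 + ζ ^ t) M, mul_assoc]
        _ = (ζ ^ t) ^ 2 * (1 + (ζ ^ t) ^ (2 ^ (a + 1))) := by
            rw [hM, add_pow_char_pow, one_pow]
        _ = (ζ ^ t) ^ 2 + 1 := by rw [mul_add, hz2, mul_one]
        _ = (1 + ζ ^ t) * (1 + ζ ^ t) := by
            have e : (1 + ζ ^ t) * (1 + ζ ^ t) = (ζ ^ t) ^ 2 + 1 + (ζ ^ t + ζ ^ t) := by ring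
            rw [e, CharTwo.add_self_eq_zero, add_zero]
  unfold rsum
  rw [Finset.sum_congr rfl term, Finset.sum_add_distrib, root_sum hζ hodd, root_sum hζ hodd,
    if_pos (dvd_zero s), if_neg, add_zero]
  intro h
  have := Nat.le_of_dvd (by norm_num) h
  omega

end Pool.Agent.H73.DG
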